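import Mathlib

/-! Linear algebra of a number field acting on a rational vector space. -/

open scoped Topology
open NumberField NumberField.mixedEmbedding Module

noncomputable section

namespace Pool.Agent.H826R2.Wein

variable {m : ℕ}

/-- rational vectors as real vectors -/
def qr (v : Fin m → ℚ) : Fin m → ℝ := fun i => (v i : ℝ)

lemma qr_mulVec (M : Matrix (Fin m) (Fin m) ℤ) (v : Fin m → ℚ) :
    qr ((M.map (Int.cast : ℤ → ℚ)).mulVec v) = (M.map (Int.cast : ℤ → ℝ)).mulVec (qr v) := by
  ext i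
  simp [qr, Matrix.mulVec, dotProduct]

lemma qr_sum {ι : Type*} (s : Finset ι) (a : ι → ℚ) (v : ι → Fin m → ℚ) :
    qr (∑ i ∈ s, a i • v i) = ∑ i ∈ s, (a i : ℝ) • qr (v i) := by
  ext j
  simp [qr, Finset.sum_apply]

/-- A number field embedded equivariantly in a rational representation. -/
structure NFData {Γ : Type*} [Group Γ] (B : Γ →* Matrix (Fin m) (Fin m) ℤ) (K : Type) [Field K]
    [NumberField K] where
  χ : Γ → K
  j : K →+ (Fin m → ℚ)
  inj : Function.Injective j
  equiv : ∀ γ a, j (χ γ * a) = ((B γ).map (Int.cast : ℤ → ℚ)).mulVec (j a)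
  unit : ∀ γ, ∏ w : InfinitePlace K, (w (χ γ)) ^ w.mult = 1

namespace NFData

variable {Γ : Type*} [Group Γ] {B : Γ →* Matrix (Fin m) (Fin m) ℤ} {K : Type} [Field K]
    [NumberField K] (F : NFData B K)

/-- the real linear extension of `j` -/
def J : mixedSpace K →ₗ[ℝ] (Fin m → ℝ) :=
  (latticeBasis K).constr ℝ (fun i => qr (F.j (integralBasis K i)))

lemma j_sum (a : K) : F.j a = ∑ i, (integralBasis K).repr a i • F.j (integralBasis K i) := by
  conv_lhs => rw [← (integralBasis K).sum_repr a]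
  rw [map_sum]
  refine Finset.sum_congr rfl fun i _ => ?_
  exact map_rat_smul F.j _ _

lemma J_emb (a : K) : F.J (mixedEmbedding K a) = qr (F.j a) := by
  rw [F.j_sum, qr_sum]
  unfold J
  rw [Basis.constr_apply_fintype]
  refine Finset.sum_congr rfl fun i _ => ?_
  rw [Basis.equivFun_apply, latticeBasis_repr_apply]

lemma J_inj : Function.Injective F.J := by
  obtain ⟨s, hs⟩ := LinearMap.exists_leftInverse_of_injective F.j.toRatLinearMap (by
    rw [LinearMap.ker_eq_bot]
    exact F.inj)
  let S : (Fin m → ℝ) →ₗ[ℝ] mixedSpace K :=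
    (Pi.basisFun ℝ (Fin m)).constr ℝ (fun i => mixedEmbedding K (s (Pi.single i 1)))
  have hS : ∀ u : Fin m → ℚ, S (qr u) = mixedEmbedding K (s u) := by
    intro u
    have h1 : u = ∑ i, u i • (Pi.single i (1:ℚ) : Fin m → ℚ) := by
      ext j
      simp [Finset.sum_apply, Pi.single_apply]
    conv_rhs => rw [h1]
    rw [map_sum, map_sum]
    show ((Pi.basisFun ℝ (Fin m)).constr ℝ
      (fun i => mixedEmbedding K (s (Pi.single i 1)))) (qr u) = _
    rw [Basis.constr_apply_fintype]
    refine Finset.sum_congr rfl fun i _ => ?_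
    rw [Basis.equivFun_apply, Pi.basisFun_repr, map_smul]
    have h2 : mixedEmbedding K (u i • s (Pi.single i 1)) =
        (u i) • mixedEmbedding K (s (Pi.single i 1)) :=
      map_rat_smul (mixedEmbedding K) _ _
    rw [h2]
    show ((u i : ℚ) : ℝ) • _ = _
    rw [Rat.cast_smul_eq_qsmul]
  have hSJ : S ∘ₗ F.J = LinearMap.id := by
    apply (latticeBasis K).ext
    intro i
    rw [latticeBasis_apply]
    show S (F.J (mixedEmbedding K (integralBasis K i))) = _
    rw [F.J_emb, hS]
    have h3 : s (F.j (integralBasis K i)) = integralBasis K i :=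
      LinearMap.congr_fun hs (integralBasis K i)
    rw [h3]
    rfl
  intro a b hab
  have h1 := LinearMap.congr_fun hSJ a
  have h2 := LinearMap.congr_fun hSJ b
  have h3 : S (F.J a) = a := h1
  have h4 : S (F.J b) = b := h2
  rw [← h3, ← h4, hab]

lemma J_mul (γ : Γ) (z : mixedSpace K) :
    F.J (mixedEmbedding K (F.χ γ) * z) = ((B γ).map (Int.cast : ℤ → ℝ)).mulVec (F.J z) := by
  have h : F.J ∘ₗ (LinearMap.mulLeft ℝ (mixedEmbedding K (F.χ γ))) =
      (Matrix.mulVecLin ((B γ).map (Int.cast : ℤ → ℝ))) ∘ₗ F.J := by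
    apply (latticeBasis K).ext
    intro i
    rw [latticeBasis_apply]
    show F.J (mixedEmbedding K (F.χ γ) * mixedEmbedding K (integralBasis K i)) =
      ((B γ).map (Int.cast : ℤ → ℝ)).mulVec (F.J (mixedEmbedding K (integralBasis K i)))
    rw [← map_mul, F.J_emb, F.J_emb, F.equiv, qr_mulVec]
  exact LinearMap.congr_fun h z

lemma χ_ne_zero (γ : Γ) : F.χ γ ≠ 0 := by
  intro h
  have h1 := F.unit γ
  rw [h] at h1
  have h2 : ∏ w : InfinitePlace K, (w (0 : K)) ^ w.mult = 0 := by
    obtain ⟨w⟩ := (inferInstance : Nonempty (InfinitePlace K))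
    apply Finset.prod_eq_zero (Finset.mem_univ w)
    rw [map_zero]
    exact zero_pow (InfinitePlace.mult_ne_zero)
  rw [h2] at h1
  exact zero_ne_one h1

end NFData

/-- elements of the mixed space with real coordinates -/
def elt (K : Type) [Field K] : (InfinitePlace K → ℝ) →ₗ[ℝ] mixedSpace K where
  toFun := fun a => (fun v => a v.1, fun v => (a v.1 : ℂ))
  map_add' := fun a b => by
    ext v
    · simp
    · simp
  map_smul' := fun c a => by
    ext v
    · simp
    · simp

lemma normAtPlace_elt {K : Type} [Field K] (a : InfinitePlace K → ℝ) (w : InfinitePlace K) :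
    normAtPlace w (elt K a) = |a w| := by
  rcases w.isReal_or_isComplex with hw | hw
  · rw [normAtPlace_apply_of_isReal hw]
    rfl
  · rw [normAtPlace_apply_of_isComplex hw]
    show ‖((a w : ℝ) : ℂ)‖ = |a w|
    rw [Complex.norm_real]
    rfl

section

open scoped Classical

variable {K : Type} [Field K] [NumberField K]

lemma normAtPlace_le_norm (w : InfinitePlace K) (z : mixedSpace K) : normAtPlace w z ≤ ‖z‖ := by
  rw [norm_eq_sup'_normAtPlace]
  exact Finset.le_sup' (fun w => normAtPlace w z) (Finset.mem_univ w)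

lemma norm_le_of_places {z : mixedSpace K} {c : ℝ}
    (h : ∀ w : InfinitePlace K, normAtPlace w z ≤ c) : ‖z‖ ≤ c := by
  rw [norm_eq_sup'_normAtPlace]
  exact Finset.sup'_le _ _ fun w _ => h w

/-- density of the number field -/
lemma exists_near (z : mixedSpace K) {δ : ℝ} (hδ : 0 < δ) :
    ∃ x : K, ‖mixedEmbedding K x - z‖ < δ := by
  set b := latticeBasis K with hb
  set S := ∑ i, ‖b i‖ with hS
  have hS0 : 0 ≤ S := Finset.sum_nonneg fun i _ => norm_nonneg _
  have hex : ∀ i, ∃ q : ℚ, |(q : ℝ) - b.repr z i| < δ / (S + 1) := by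
    intro i
    have hpos : 0 < δ / (S + 1) := by positivity
    obtain ⟨q, h1, h2⟩ := exists_rat_btwn (show b.repr z i - δ / (S + 1) < b.repr z i by linarith)
    exact ⟨q, by rw [abs_lt]; constructor <;> linarith⟩
  choose q hq using hex
  refine ⟨∑ i, q i • integralBasis K i, ?_⟩
  have h1 : mixedEmbedding K (∑ i, q i • integralBasis K i) = ∑ i, (q i : ℝ) • b i := by
    rw [map_sum]
    refine Finset.sum_congr rfl fun i _ => ?_
    have h2 : mixedEmbedding K (q i • integralBasis K i) =
        (q i) • mixedEmbedding K (integralBasis K i) := map_rat_smul (mixedEmbedding K) _ _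
    rw [h2, hb, latticeBasis_apply, Rat.cast_smul_eq_qsmul]
  have h2 : z = ∑ i, b.repr z i • b i := (b.sum_repr z).symm
  have h3 : mixedEmbedding K (∑ i, q i • integralBasis K i) - z =
      ∑ i, ((q i : ℝ) - b.repr z i) • b i := by
    rw [h1]
    conv_lhs => rw [h2]
    rw [← Finset.sum_sub_distrib]
    exact Finset.sum_congr rfl fun i _ => (sub_smul _ _ _).symm
  rw [h3]
  calc ‖∑ i, ((q i : ℝ) - b.repr z i) • b i‖ ≤ ∑ i, ‖((q i : ℝ) - b.repr z i) • b i‖ :=
        norm_sum_le _ _
    _ ≤ ∑ i, δ / (S + 1) * ‖b i‖ := Finset.sum_le_sum fun i _ => by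
        rw [_root_.norm_smul, Real.norm_eq_abs]
        exact mul_le_mul_of_nonneg_right (hq i).le (norm_nonneg _)
    _ = δ / (S + 1) * S := by rw [← Finset.mul_sum]
    _ < δ := by
        rw [div_mul_eq_mul_div, div_lt_iff₀ (by positivity)]
        nlinarith

end

/-- a rational vector is a positive multiple of an integral one -/
lemma exists_int_multiple (v : Fin m → ℚ) : ∃ (k : Fin m → ℤ) (t : ℝ), 0 < t ∧
    qr v = t • (fun i => (k i : ℝ)) := by
  set D : ℕ := ∏ i, (v i).den with hD
  have hDpos : 0 < D := Finset.prod_pos fun i _ => (v i).den_pos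
  refine ⟨fun i => (v i).num * ((D / (v i).den : ℕ) : ℤ), (D : ℝ)⁻¹, by positivity, ?_⟩
  ext i
  have hdvd : (v i).den ∣ D := Finset.dvd_prod_of_mem _ (Finset.mem_univ i)
  obtain ⟨c, hc⟩ := hdvd
  have h1 : D / (v i).den = c := by
    rw [hc]
    exact Nat.mul_div_cancel_left _ (v i).den_pos
  have h2 : ((v i : ℚ) : ℝ) = (v i).num / (v i).den := by
    conv_lhs => rw [← Rat.num_div_den (v i)]
    push_cast
    rfl
  have hden : ((v i).den : ℝ) ≠ 0 := by exact_mod_cast (v i).den_nz
  have hDr : (D : ℝ) = (v i).den * c := by rw [hc]; push_cast; rfl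
  have hc0 : (c : ℝ) ≠ 0 := by
    intro h0
    rw [h0, mul_zero] at hDr
    have : (D : ℝ) ≠ 0 := by exact_mod_cast hDpos.ne'
    exact this hDr
  show ((v i : ℚ) : ℝ) = (D : ℝ)⁻¹ * (((v i).num * ((D / (v i).den : ℕ) : ℤ) : ℤ) : ℝ)
  rw [h1, h2, hDr]
  push_cast
  field_simp

end Pool.Agent.H826R2.Wein
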