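import Mathlib
import Pool.Agent.H826R2.Wein.NF

/-! Commuting integral matrices and number fields. -/

open NumberField Module

noncomputable section

namespace Pool.Agent.H826R2.Wein

variable {m : ℕ}

/-- The finiteness over `ℚ` needed for number fields does not depend on the module structure. -/
lemma numberField_of {K : Type*} [Field K] [CharZero K] (A : Algebra ℚ K)
    (h : @Module.Finite ℚ K _ _ A.toModule) : NumberField K := by
  have h2 : (DivisionRing.toRatAlgebra : Algebra ℚ K) = A := Subsingleton.elim _ _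
  have h3 : @Module.Finite ℚ K _ _ (DivisionRing.toRatAlgebra : Algebra ℚ K).toModule := by
    rw [h2]
    exact h
  exact @NumberField.mk K _ inferInstance h3

/-- finite dimensional commutative domains over `ℚ` are number fields -/
lemma exists_nf_of_domain (R : Type) [CommRing R] [IsDomain R] [Algebra ℚ R]
    [FiniteDimensional ℚ R] :
    ∃ (K : Type) (_ : Field K) (_ : NumberField K), Nonempty (K ≃+* R) := by
  letI : Field R := fieldOfFiniteDimensional ℚ R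
  haveI : CharZero R := algebraRat.charZero R
  have h2 : NumberField R := numberField_of (K := R) (inferInstanceAs (Algebra ℚ R))
    (inferInstanceAs (FiniteDimensional ℚ R))
  exact ⟨R, inferInstance, h2, ⟨RingEquiv.refl R⟩⟩

theorem field_of_subalgebra {V : Type} [AddCommGroup V] [Module ℚ V] [FiniteDimensional ℚ V]
    (𝒜 : Subalgebra ℚ (Module.End ℚ V)) (hAc : ∀ a ∈ 𝒜, ∀ b ∈ 𝒜, a * b = b * a)
    (hker : ∀ a ∈ 𝒜, a ≠ 0 → ∀ s : V, a s = 0 → s = 0) (hV : ∃ v : V, v ≠ 0) :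
    ∃ (K : Type) (_ : Field K) (_ : NumberField K), ∃ e : K →+* Module.End ℚ V,
      Function.Injective e ∧ ∀ a, a ∈ 𝒜 ↔ ∃ x, e x = a := by
  letI : CommRing 𝒜 := { 𝒜.toRing with
    mul_comm := fun a b => Subtype.ext (hAc a a.2 b b.2) }
  obtain ⟨k, hk0⟩ := hV
  have : Nontrivial 𝒜 := by
    refine ⟨⟨0, 1, fun h => ?_⟩⟩
    have h1 : (0 : Module.End ℚ V) = 1 := congrArg (fun a : 𝒜 => (a : Module.End ℚ V)) h
    have h2 := LinearMap.congr_fun h1 k
    exact hk0 h2.symm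
  have : NoZeroDivisors 𝒜 := by
    refine ⟨fun {a b} hab => ?_⟩
    by_contra hcon
    push Not at hcon
    apply hcon.2
    apply Subtype.ext
    apply LinearMap.ext
    intro y
    apply hker a a.2 (fun h => hcon.1 (Subtype.ext h))
    have h1 : (a : Module.End ℚ V) * (b : Module.End ℚ V) = 0 :=
      congrArg (fun a : 𝒜 => (a : Module.End ℚ V)) hab
    exact LinearMap.congr_fun h1 y
  have : IsDomain 𝒜 := NoZeroDivisors.to_isDomain 𝒜
  have : FiniteDimensional ℚ 𝒜 := inferInstanceAs (FiniteDimensional ℚ (Subalgebra.toSubmodule 𝒜))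
  obtain ⟨K, hF, hN, ⟨e⟩⟩ := exists_nf_of_domain 𝒜
  refine ⟨K, hF, hN, (RingHom.comp
    ({ toFun := fun a => (a : Module.End ℚ V), map_one' := rfl, map_mul' := fun _ _ => rfl,
       map_zero' := rfl, map_add' := fun _ _ => rfl } : 𝒜 →+* Module.End ℚ V)
    (e : K →+* 𝒜)), ?_, ?_⟩
  · intro a b hab
    exact e.injective (Subtype.ext hab)
  · intro a
    constructor
    · intro ha
      refine ⟨e.symm ⟨a, ha⟩, ?_⟩
      show ((e (e.symm ⟨a, ha⟩) : 𝒜) : Module.End ℚ V) = a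
      rw [RingEquiv.apply_symm_apply]
    · rintro ⟨x, rfl⟩
      exact (e x).2

/-- the action of an integral matrix on rational vectors -/
def mq (M : Matrix (Fin m) (Fin m) ℤ) : (Fin m → ℚ) →ₗ[ℚ] (Fin m → ℚ) :=
  Matrix.mulVecLin (M.map (Int.cast : ℤ → ℚ))

lemma mq_apply (M : Matrix (Fin m) (Fin m) ℤ) (v : Fin m → ℚ) :
    mq M v = (M.map (Int.cast : ℤ → ℚ)).mulVec v := rfl

lemma mq_mul (M M' : Matrix (Fin m) (Fin m) ℤ) : mq (M * M') = mq M ∘ₗ mq M' := by
  ext1 v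
  apply LinearMap.ext
  intro a
  show ((M * M').map (Int.cast : ℤ → ℚ)).mulVec _ =
    (M.map (Int.cast : ℤ → ℚ)).mulVec ((M'.map (Int.cast : ℤ → ℚ)).mulVec _)
  rw [Matrix.mulVec_mulVec]
  congr 1
  exact Matrix.map_mul (f := Int.castRingHom ℚ)

lemma mq_one : mq (1 : Matrix (Fin m) (Fin m) ℤ) = LinearMap.id := by
  apply LinearMap.ext
  intro v
  show ((1 : Matrix (Fin m) (Fin m) ℤ).map (Int.cast : ℤ → ℚ)).mulVec v = v
  have h : ((1 : Matrix (Fin m) (Fin m) ℤ).map (Int.cast : ℤ → ℚ)) = 1 := by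
    ext i j
    by_cases h : i = j
    · subst h; simp
    · simp [h]
  rw [h, Matrix.one_mulVec]

/-- the embedding without the unit condition -/
structure PreNF {Γ : Type*} [Group Γ] (B : Γ →* Matrix (Fin m) (Fin m) ℤ) (K : Type) [Field K]
    [NumberField K] where
  χ : Γ → K
  j : K →+ (Fin m → ℚ)
  inj : Function.Injective j
  equiv : ∀ γ a, j (χ γ * a) = ((B γ).map (Int.cast : ℤ → ℚ)).mulVec (j a)

namespace PreNF

variable {Γ : Type*} [Group Γ] {B : Γ →* Matrix (Fin m) (Fin m) ℤ} {K : Type} [Field K]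
    [NumberField K] (F : PreNF B K)

lemma equiv' (γ : Γ) (a : K) : F.j (F.χ γ * a) = mq (B γ) (F.j a) := F.equiv γ a

lemma χ_mul (γ γ' : Γ) : F.χ (γ * γ') = F.χ γ * F.χ γ' := by
  apply F.inj
  have h1 := F.equiv' (γ * γ') 1
  have h2 := F.equiv' γ (F.χ γ' * 1)
  have h3 := F.equiv' γ' 1
  rw [mul_one] at h1 h2 h3
  rw [h3] at h2
  rw [B.map_mul, mq_mul] at h1
  rw [h1, h2]
  rfl

lemma χ_one : F.χ 1 = 1 := by
  apply F.inj
  have h1 := F.equiv' 1 1
  rw [mul_one, B.map_one, mq_one] at h1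
  exact h1

lemma aeval_eq (γ : Γ) (p : Polynomial ℤ) (a : K) :
    F.j (Polynomial.aeval (F.χ γ) p * a) = mq (Polynomial.aeval (B γ) p) (F.j a) := by
  induction p using Polynomial.induction_on' generalizing a with
  | add p q hp hq =>
    rw [map_add, add_mul, map_add, hp, hq, map_add]
    have h1 : ∀ M M' : Matrix (Fin m) (Fin m) ℤ, mq (M + M') = mq M + mq M' := by
      intro M M'
      apply LinearMap.ext
      intro v
      show ((M + M').map (Int.cast : ℤ → ℚ)).mulVec v = _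
      have : (M + M').map (Int.cast : ℤ → ℚ) = M.map Int.cast + M'.map Int.cast := by
        ext i j; simp
      rw [this, Matrix.add_mulVec]
      rfl
    rw [h1]
    rfl
  | monomial n c =>
    rw [Polynomial.aeval_monomial, Polynomial.aeval_monomial]
    have h2 : ∀ (n : ℕ) (a : K), F.j (F.χ γ ^ n * a) = mq ((B γ) ^ n) (F.j a) := by
      intro n
      induction n with
      | zero => intro a; simp [mq_one]
      | succ n ih =>
        intro a
        rw [pow_succ', mul_assoc, F.equiv', ih, pow_succ', mq_mul]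
        rfl
    have h3 : (algebraMap ℤ K) c * F.χ γ ^ n * a = c • (F.χ γ ^ n * a) := by
      rw [mul_assoc, ← Algebra.smul_def]
    rw [h3, map_zsmul, h2]
    have h4 : (algebraMap ℤ (Matrix (Fin m) (Fin m) ℤ)) c * (B γ) ^ n = c • (B γ) ^ n := by
      rw [← Algebra.smul_def]
    rw [h4]
    show c • mq ((B γ) ^ n) (F.j a) = ((c • (B γ) ^ n).map (Int.cast : ℤ → ℚ)).mulVec (F.j a)
    have h5 : (c • (B γ) ^ n).map (Int.cast : ℤ → ℚ) = (c : ℚ) • ((B γ) ^ n).map Int.cast := by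
      ext i j
      show (((c • (B γ) ^ n) i j : ℤ) : ℚ) = (c : ℚ) * ((((B γ) ^ n) i j : ℤ) : ℚ)
      rw [Matrix.smul_apply, smul_eq_mul, Int.cast_mul]
    rw [h5, Matrix.smul_mulVec, ← Int.cast_smul_eq_zsmul ℚ]
    rfl

lemma isIntegral (γ : Γ) : IsIntegral ℤ (F.χ γ) := by
  refine ⟨(B γ).charpoly, Matrix.charpoly_monic _, ?_⟩
  have h1 := F.aeval_eq γ (B γ).charpoly 1
  rw [Matrix.aeval_self_charpoly] at h1
  have h2 : mq (0 : Matrix (Fin m) (Fin m) ℤ) (F.j 1) = 0 := by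
    show ((0 : Matrix (Fin m) (Fin m) ℤ).map (Int.cast : ℤ → ℚ)).mulVec (F.j 1) = 0
    have : (0 : Matrix (Fin m) (Fin m) ℤ).map (Int.cast : ℤ → ℚ) = 0 := by ext i j; simp
    rw [this, Matrix.zero_mulVec]
  rw [h2, mul_one] at h1
  have h3 : Polynomial.aeval (F.χ γ) (B γ).charpoly = 0 := F.inj (by rw [h1, map_zero])
  exact h3

/-- Pre-data give data. -/
def toNF : NFData B K where
  χ := F.χ
  j := F.j
  inj := F.inj
  equiv := F.equiv
  unit := by
    intro γ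
    rw [InfinitePlace.prod_eq_abs_norm]
    let u : 𝓞 K := ⟨F.χ γ, F.isIntegral γ⟩
    let v : 𝓞 K := ⟨F.χ γ⁻¹, F.isIntegral γ⁻¹⟩
    have huv : u * v = 1 := by
      apply RingOfIntegers.ext
      show F.χ γ * F.χ γ⁻¹ = 1
      rw [← F.χ_mul, mul_inv_cancel, F.χ_one]
    have hu : IsUnit u := IsUnit.of_mul_eq_one v huv
    have h1 := NumberField.isUnit_iff_norm.1 hu
    rw [RingOfIntegers.coe_norm] at h1
    have h2 : |(Algebra.norm ℚ) (F.χ γ)| = 1 := h1
    exact_mod_cast h2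

end PreNF

/-- **Commuting integral matrices.** -/
theorem exists_nfdata {Γ : Type*} [Group Γ] (B : Γ →* Matrix (Fin m) (Fin m) ℤ)
    (U : Submodule ℚ (Fin m → ℚ)) (hU : U ≠ ⊥) (hinv : ∀ γ, ∀ u ∈ U, mq (B γ) u ∈ U)
    (hcomm : ∀ γ γ', ∀ u ∈ U, mq (B γ) (mq (B γ') u) = mq (B γ') (mq (B γ) u)) :
    ∃ (K : Type) (_ : Field K) (_ : NumberField K), Nonempty (NFData B K) := by
  classical
  -- a minimal invariant subspace
  obtain ⟨S, ⟨hSU, hS0, hSinv⟩, hmin⟩ : ∃ S : Submodule ℚ (Fin m → ℚ),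
      (S ≤ U ∧ S ≠ ⊥ ∧ ∀ γ, ∀ u ∈ S, mq (B γ) u ∈ S) ∧
      ∀ S' : Submodule ℚ (Fin m → ℚ), S' ≤ S → S' ≠ ⊥ → (∀ γ, ∀ u ∈ S', mq (B γ) u ∈ S') →
        S' = S := by
    have hne : {n : ℕ | ∃ S : Submodule ℚ (Fin m → ℚ), (S ≤ U ∧ S ≠ ⊥ ∧
        ∀ γ, ∀ u ∈ S, mq (B γ) u ∈ S) ∧ finrank ℚ S = n}.Nonempty :=
      ⟨_, U, ⟨le_rfl, hU, hinv⟩, rfl⟩
    obtain ⟨S, hS, hSn⟩ := Nat.sInf_mem hne
    refine ⟨S, hS, fun S' h1 h2 h3 => ?_⟩
    apply Submodule.eq_of_le_of_finrank_le h1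
    rw [hSn]
    exact Nat.sInf_le ⟨S', ⟨h1.trans hS.1, h2, h3⟩, rfl⟩
  -- the restricted operators
  let T : Γ → Module.End ℚ S := fun γ => (mq (B γ)).restrict (hSinv γ)
  have hT : ∀ γ (s : S), ((T γ s : S) : Fin m → ℚ) = mq (B γ) s := fun γ s => rfl
  have hTc : ∀ a ∈ Set.range T, ∀ b ∈ Set.range T, a * b = b * a := by
    rintro _ ⟨γ, rfl⟩ _ ⟨γ', rfl⟩
    apply LinearMap.ext
    intro s
    apply Subtype.ext
    exact hcomm γ γ' s (hSU s.2)
  set 𝒜 : Subalgebra ℚ (Module.End ℚ S) := Algebra.adjoin ℚ (Set.range T) with h𝒜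
  have hAc : ∀ a ∈ 𝒜, ∀ b ∈ 𝒜, a * b = b * a := by
    have := Algebra.isMulCommutative_adjoin ℚ hTc
    intro a ha b hb
    exact setLike_mul_comm ha hb
  obtain ⟨k, hkS, hk0⟩ := Submodule.exists_mem_ne_zero_of_ne_bot hS0
  have hker : ∀ a ∈ 𝒜, a ≠ 0 → ∀ s : S, a s = 0 → s = 0 := by
    intro a haA ha s hs
    by_contra hs0
    set S' : Submodule ℚ (Fin m → ℚ) := (LinearMap.ker a).map S.subtype with hS'
    have h1 : S' ≤ S := by
      rintro _ ⟨y, -, rfl⟩
      exact y.2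
    have h2 : S' ≠ ⊥ := by
      intro h
      have h3 : (s : Fin m → ℚ) ∈ S' := ⟨s, hs, rfl⟩
      rw [h, Submodule.mem_bot] at h3
      exact hs0 (Subtype.ext h3)
    have h3 : ∀ γ, ∀ u ∈ S', mq (B γ) u ∈ S' := by
      rintro γ _ ⟨y, hy, rfl⟩
      refine ⟨T γ y, ?_, hT γ y⟩
      have h4 : a * T γ = T γ * a := hAc a haA (T γ) (Algebra.subset_adjoin ⟨γ, rfl⟩)
      have h5 := LinearMap.congr_fun h4 y
      have hy' : a y = 0 := hy
      show a (T γ y) = 0
      have h6 : a (T γ y) = T γ (a y) := h5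
      rw [h6, hy', map_zero]
    have h4 := hmin S' h1 h2 h3
    apply ha
    apply LinearMap.ext
    intro y
    have hy : (y : Fin m → ℚ) ∈ S' := by rw [h4]; exact y.2
    obtain ⟨y', hy', hyy'⟩ := hy
    have : y' = y := Subtype.ext hyy'
    rw [this] at hy'
    exact hy'
  obtain ⟨K, hF, hN, e, he, hrange⟩ := field_of_subalgebra 𝒜 hAc hker
    ⟨⟨k, hkS⟩, fun h => hk0 (congrArg Subtype.val h)⟩
  have hTr : ∀ γ, ∃ x, e x = T γ := fun γ =>
    (hrange (T γ)).1 (Algebra.subset_adjoin ⟨γ, rfl⟩)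
  choose χ hχ using hTr
  refine ⟨K, hF, hN, ⟨PreNF.toNF ?_⟩⟩
  exact
    { χ := χ
      j :=
        { toFun := fun a => ((e a ⟨k, hkS⟩ : S) : Fin m → ℚ)
          map_zero' := by rw [map_zero]; rfl
          map_add' := fun a b => by rw [map_add]; rfl }
      inj := by
        rw [injective_iff_map_eq_zero]
        intro a ha
        by_contra ha0
        have h0 : e a ≠ 0 := fun h => ha0 (he (by rw [h, map_zero]))
        have h1 := hker (e a) ((hrange _).2 ⟨a, rfl⟩) h0 ⟨k, hkS⟩ (Subtype.ext ha)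
        exact hk0 (congrArg Subtype.val h1)
      equiv := fun γ a => by
        show ((e (χ γ * a) ⟨k, hkS⟩ : S) : Fin m → ℚ) = mq (B γ) ((e a ⟨k, hkS⟩ : S) : Fin m → ℚ)
        rw [map_mul, hχ, ← hT]
        rfl }

end Pool.Agent.H826R2.Wein
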