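import Mathlib

/-! Every finite-dimensional normed space has an inner product invariant under all linear
isometries. -/

open MeasureTheory Metric Set
open scoped Topology

noncomputable section

namespace Pool.Agent.H826R2.Wein

variable (V : Type*) [NormedAddCommGroup V] [NormedSpace ℝ V] [FiniteDimensional ℝ V]

set_option linter.unusedSectionVars false

/-- the measure on the dual -/
def muD : Measure (V →L[ℝ] ℝ) := Measure.addHaar

instance instHaarMuD : (muD V).IsAddHaarMeasure := by unfold muD; infer_instance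

variable {V}

/-- continuity of the integrand -/
lemma continuous_integrand (u v : V) : Continuous (fun l : V →L[ℝ] ℝ => l u * l v) := by
  have h : ∀ w : V, Continuous (fun l : V →L[ℝ] ℝ => l w) := fun w =>
    (ContinuousLinearMap.apply ℝ ℝ w).continuous
  exact (h u).mul (h v)

lemma integrable_integrand (u v : V) :
    IntegrableOn (fun l : V →L[ℝ] ℝ => l u * l v) (closedBall 0 1) (muD V) := by
  have : ProperSpace (V →L[ℝ] ℝ) := FiniteDimensional.proper ℝ _
  exact (continuous_integrand u v).continuousOn.integrableOn_compact (isCompact_closedBall _ _)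

variable (V) in
/-- the bilinear form -/
def Qlin : V →ₗ[ℝ] V →ₗ[ℝ] ℝ :=
  LinearMap.mk₂ ℝ (fun u v => ∫ l in closedBall (0 : V →L[ℝ] ℝ) 1, l u * l v ∂(muD V))
    (by
      intro a b c
      rw [← integral_add (integrable_integrand a c) (integrable_integrand b c)]
      congr 1; ext l; rw [map_add]; ring)
    (by
      intro r a b
      rw [smul_eq_mul, ← integral_const_mul]
      congr 1; ext l; rw [map_smul, smul_eq_mul]; ring)
    (by
      intro a b c
      rw [← integral_add (integrable_integrand a b) (integrable_integrand a c)]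
      congr 1; ext l; rw [map_add]; ring)
    (by
      intro r a b
      rw [smul_eq_mul, ← integral_const_mul]
      congr 1; ext l; rw [map_smul, smul_eq_mul]; ring)

lemma Qlin_apply (u v : V) :
    Qlin V u v = ∫ l in closedBall (0 : V →L[ℝ] ℝ) 1, l u * l v ∂(muD V) := rfl

lemma Qlin_symm (u v : V) : Qlin V u v = Qlin V v u := by
  rw [Qlin_apply, Qlin_apply]
  congr 1; ext l; ring

lemma Qlin_pos {u : V} (hu : u ≠ 0) : 0 < Qlin V u u := by
  rw [Qlin_apply]
  refine (setIntegral_pos_iff_support_of_nonneg_ae (f := fun l : V →L[ℝ] ℝ => l u * l u)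
    (Filter.Eventually.of_forall fun l => mul_self_nonneg (l u)) (integrable_integrand u u)).2 ?_
  -- a functional not vanishing at `u`
  obtain ⟨l, hl⟩ : ∃ l : V →L[ℝ] ℝ, l u ≠ 0 := by
    by_contra h
    push Not at h
    obtain ⟨l, hl1, hl2⟩ := exists_dual_vector ℝ u (norm_ne_zero_iff.2 hu)
    rw [h l] at hl2
    have : ‖u‖ = 0 := by exact_mod_cast hl2.symm
    exact hu (norm_eq_zero.1 this)
  set l' : V →L[ℝ] ℝ := (2 * (‖l‖ + 1))⁻¹ • l with hl'
  have hn : 0 < 2 * (‖l‖ + 1) := by positivity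
  have h1 : l' u ≠ 0 := by
    rw [hl']
    simp only [_root_.smul_apply, smul_eq_mul]
    exact mul_ne_zero (by positivity) hl
  have h2 : ‖l'‖ < 1 := by
    rw [hl', norm_smul, norm_inv, Real.norm_of_nonneg hn.le, inv_mul_lt_iff₀ hn]
    have := norm_nonneg l
    linarith
  have hopen : IsOpen ({l : V →L[ℝ] ℝ | l u * l u ≠ 0} ∩ ball 0 1) := by
    refine IsOpen.inter ?_ isOpen_ball
    exact isOpen_ne_fun (continuous_integrand u u) continuous_const
  refine lt_of_lt_of_le (hopen.measure_pos (muD V) ⟨l', ?_, ?_⟩) (measure_mono ?_)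
  · exact mul_self_ne_zero.2 h1
  · rw [mem_ball_zero_iff]; exact h2
  · intro m hm
    exact ⟨hm.1, ball_subset_closedBall hm.2⟩

/-- precomposition with a linear equivalence -/
def pre (A : V ≃L[ℝ] V) : (V →L[ℝ] ℝ) ≃L[ℝ] (V →L[ℝ] ℝ) :=
  A.symm.arrowCongr (ContinuousLinearEquiv.refl ℝ ℝ)

lemma pre_apply (A : V ≃L[ℝ] V) (l : V →L[ℝ] ℝ) (v : V) : pre A l v = l (A v) := by
  simp [pre, ContinuousLinearEquiv.arrowCongr]

lemma norm_pre (A : V ≃L[ℝ] V) (hA : ∀ v, ‖A v‖ = ‖v‖) (l : V →L[ℝ] ℝ) : ‖pre A l‖ = ‖l‖ := by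
  apply le_antisymm
  · refine ContinuousLinearMap.opNorm_le_bound _ (norm_nonneg _) fun v => ?_
    rw [pre_apply, ← hA v]
    exact l.le_opNorm _
  · refine ContinuousLinearMap.opNorm_le_bound _ (norm_nonneg _) fun v => ?_
    have h1 : l v = pre A l (A.symm v) := by rw [pre_apply]; simp
    have h2 : ‖A.symm v‖ = ‖v‖ := by rw [← hA (A.symm v)]; simp
    rw [h1, ← h2]
    exact (pre A l).le_opNorm _

lemma preimage_ball (A : V ≃L[ℝ] V) (hA : ∀ v, ‖A v‖ = ‖v‖) :
    (pre A) ⁻¹' (closedBall (0 : V →L[ℝ] ℝ) 1) = closedBall 0 1 := by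
  ext l
  simp [mem_closedBall_zero_iff, norm_pre A hA]

lemma measurePreserving_pre (A : V ≃L[ℝ] V) (hA : ∀ v, ‖A v‖ = ‖v‖) :
    MeasurePreserving (pre A) (muD V) (muD V) := by
  refine ⟨(pre A).continuous.measurable, ?_⟩
  have hdet : LinearMap.det ((pre A : (V →L[ℝ] ℝ) →L[ℝ] (V →L[ℝ] ℝ)) :
      (V →L[ℝ] ℝ) →ₗ[ℝ] (V →L[ℝ] ℝ)) ≠ 0 :=
    (LinearEquiv.isUnit_det' (pre A).toLinearEquiv).ne_zero
  have h1 := Measure.map_linearMap_addHaar_eq_smul_addHaar (muD V) hdet
  have h2 : Measure.map (pre A) (muD V) = ENNReal.ofReal |(LinearMap.det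
      ((pre A : (V →L[ℝ] ℝ) →L[ℝ] (V →L[ℝ] ℝ)) : (V →L[ℝ] ℝ) →ₗ[ℝ] (V →L[ℝ] ℝ)))⁻¹| • muD V := h1
  have h3 : Measure.map (pre A) (muD V) (closedBall 0 1) = muD V (closedBall 0 1) := by
    rw [Measure.map_apply (pre A).continuous.measurable isClosed_closedBall.measurableSet,
      preimage_ball A hA]
  have hpos : muD V (closedBall 0 1) ≠ 0 :=
    (lt_of_lt_of_le (measure_ball_pos (muD V) 0 one_pos)
      (measure_mono ball_subset_closedBall)).ne'
  have hfin : muD V (closedBall 0 1) ≠ ⊤ := by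
    have : ProperSpace (V →L[ℝ] ℝ) := FiniteDimensional.proper ℝ _
    exact (isCompact_closedBall (0 : V →L[ℝ] ℝ) 1).measure_lt_top.ne
  rw [h2, Measure.smul_apply, smul_eq_mul] at h3
  have h4 := (ENNReal.mul_eq_right hpos hfin).1 h3
  rw [h2, h4, one_smul]

lemma Qlin_invariant (A : V ≃L[ℝ] V) (hA : ∀ v, ‖A v‖ = ‖v‖) (u v : V) :
    Qlin V (A u) (A v) = Qlin V u v := by
  rw [Qlin_apply, Qlin_apply]
  have h1 := (measurePreserving_pre A hA).setIntegral_preimage_emb
    (pre A).toHomeomorph.measurableEmbedding (fun l => l u * l v) (closedBall 0 1)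
  rw [preimage_ball A hA] at h1
  rw [← h1]
  congr 1

end Pool.Agent.H826R2.Wein
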