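import Mathlib
import Pool.Agent.H826R2.Wein.InvInner

/-! A finite-dimensional space with a nonzero alternating bracket whose adjoint one-parameter groups
are isometric contains an `su(2)`-triple. -/

open Metric Set
open scoped Topology

noncomputable section

namespace Pool.Agent.H826R2.Wein

set_option linter.unusedSectionVars false

variable {V : Type*} [NormedAddCommGroup V] [NormedSpace ℝ V] [FiniteDimensional ℝ V]

/-- the adjoint map -/
def adL (b : V →ₗ[ℝ] V →ₗ[ℝ] V) (f : V) : V →L[ℝ] V := LinearMap.toContinuousLinearMap (b f)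

lemma adL_apply (b : V →ₗ[ℝ] V →ₗ[ℝ] V) (f g : V) : adL b f g = b f g := rfl

variable (V) in
/-- the inner product as a continuous bilinear form -/
def Qc : V →L[ℝ] V →L[ℝ] ℝ :=
  LinearMap.toContinuousLinearMap
    ((LinearMap.toContinuousLinearMap (𝕜 := ℝ) (E := V) (F' := ℝ)).toLinearMap ∘ₗ Qlin V)

lemma Qc_apply (u v : V) : Qc V u v = Qlin V u v := rfl

lemma Qc_smul_smul (a a' : ℝ) (u v : V) : Qc V (a • u) (a' • v) = a * a' * Qc V u v := by
  have h1 : Qc V (a • u) (a' • v) = a' • Qc V (a • u) v := map_smul (Qc V (a • u)) a' v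
  have h2 : Qc V (a • u) v = a • Qc V u v := by rw [map_smul]; rfl
  rw [h1, h2]; simp only [smul_eq_mul]; ring

lemma Qc_sub_sub (u v : V) : Qc V (u - v) (u - v) =
    Qc V u u - Qc V u v - Qc V v u + Qc V v v := by
  have h1 : Qc V (u - v) (u - v) = Qc V (u - v) u - Qc V (u - v) v := map_sub (Qc V (u - v)) u v
  have h2 : ∀ w, Qc V (u - v) w = Qc V u w - Qc V v w := fun w => by rw [map_sub]; rfl
  rw [h1, h2, h2]; ring

lemma Qc_symm (u v : V) : Qc V u v = Qc V v u := Qlin_symm u v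

lemma Qc_pos {u : V} (hu : u ≠ 0) : 0 < Qc V u u := Qlin_pos hu

lemma Qc_nonneg (u : V) : 0 ≤ Qc V u u := by
  by_cases hu : u = 0
  · rw [hu]; simp
  · exact (Qc_pos hu).le

/-- Skew symmetry of a generator of isometries. -/
lemma Qc_skew (D : V →L[ℝ] V) (hD : ∀ (t : ℝ) (v : V), ‖NormedSpace.exp (t • D) v‖ = ‖v‖)
    (u v : V) : Qc V (D u) v + Qc V u (D v) = 0 := by
  have hinv : ∀ t : ℝ, Qc V (NormedSpace.exp (t • D) u) (NormedSpace.exp (t • D) v) = Qc V u v := by
    intro t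
    -- the exponential is invertible
    have h0 : ∀ s : ℝ, NormedSpace.exp (s • D) * NormedSpace.exp ((-s) • D) = 1 := by
      intro s
      let _ : NormedAlgebra ℚ (V →L[ℝ] V) := NormedAlgebra.restrictScalars ℚ ℝ (V →L[ℝ] V)
      have := NormedSpace.exp_add_of_commute (x := s • D) (y := (-s) • D)
        ((Commute.refl D).smul_left s |>.smul_right (-s))
      rw [← this, neg_smul, add_neg_cancel, NormedSpace.exp_zero]
    have h1 := h0 t
    have h2 := h0 (-t)
    rw [neg_neg] at h2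
    let A : V ≃L[ℝ] V := ContinuousLinearEquiv.equivOfInverse (NormedSpace.exp (t • D))
      (NormedSpace.exp ((-t) • D)) (fun v => DFunLike.congr_fun h2 v)
      (fun v => DFunLike.congr_fun h1 v)
    exact Qlin_invariant A (hD t) u v
  have hx : ∀ w : V, HasDerivAt (fun t : ℝ => NormedSpace.exp (t • D) w) (D w) 0 := by
    intro w
    have h1 := hasDerivAt_exp_smul_const (𝕂 := ℝ) D (0:ℝ)
    rw [zero_smul, NormedSpace.exp_zero, one_mul] at h1
    have h2 := h1.clm_apply (hasDerivAt_const (0:ℝ) w)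
    simpa using h2
  have h3 : HasDerivAt (fun t : ℝ => Qc V (NormedSpace.exp (t • D) u) (NormedSpace.exp (t • D) v))
      (Qc V (D u) (NormedSpace.exp ((0:ℝ) • D) v) + Qc V (NormedSpace.exp ((0:ℝ) • D) u) (D v))
      0 := by
    have h4 := ((Qc V).hasFDerivAt.comp_hasDerivAt (0:ℝ) (hx u)).clm_apply (hx v)
    exact h4
  have h5 : (fun t : ℝ => Qc V (NormedSpace.exp (t • D) u) (NormedSpace.exp (t • D) v)) =
      fun _ => Qc V u v := by
    ext1 t; exact hinv t
  rw [h5] at h3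
  have h6 := h3.unique (hasDerivAt_const (0:ℝ) (Qc V u v))
  simpa using h6

/-- **Existence of an `su(2)`-triple.** -/
theorem exists_triple (b : V →ₗ[ℝ] V →ₗ[ℝ] V) (halt : ∀ f g, b f g = - b g f)
    (hiso : ∀ (f : V) (t : ℝ) (v : V), ‖NormedSpace.exp (t • adL b f) v‖ = ‖v‖)
    (hne : ∃ f g, b f g ≠ 0) :
    ∃ h f g : V, h ≠ 0 ∧ b h f = g ∧ b f g = h ∧ b g h = f := by
  have hskew : ∀ f u v : V, Qc V (b f u) v + Qc V u (b f v) = 0 := fun f u v =>
    Qc_skew (adL b f) (hiso f) u v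
  -- cyclic symmetry
  have hcyc : ∀ f u v : V, Qc V (b f u) v = Qc V u (b v f) := by
    intro f u v
    have h1 := hskew f u v
    rw [halt v f, map_neg]
    linarith
  -- coercivity
  obtain ⟨f₀, g₀, hfg⟩ := hne
  have hg0 : g₀ ≠ 0 := by
    intro h; apply hfg; rw [h, map_zero]
  have : ProperSpace V := FiniteDimensional.proper ℝ V
  have hQcont : Continuous (fun u : V => Qc V u u) :=
    (Qc V).continuous.clm_apply continuous_id
  obtain ⟨c, hc, hcoer⟩ : ∃ c > (0:ℝ), ∀ u : V, c * ‖u‖ ^ 2 ≤ Qc V u u := by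
    obtain ⟨w, hw, hmin⟩ := (isCompact_sphere (0:V) 1).exists_isMinOn
      ⟨‖g₀‖⁻¹ • g₀, by
        rw [mem_sphere_zero_iff_norm, norm_smul, norm_inv, norm_norm,
          inv_mul_cancel₀ (norm_ne_zero_iff.2 hg0)]⟩ hQcont.continuousOn
    have hw0 : w ≠ 0 := by
      intro h; rw [h] at hw; simp at hw
    refine ⟨Qc V w w, Qc_pos hw0, fun u => ?_⟩
    by_cases hu : u = 0
    · rw [hu]; simp
    · have hn : 0 < ‖u‖ := norm_pos_iff.2 hu
      have h1 := hmin (a := ‖u‖⁻¹ • u) (by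
        rw [mem_sphere_zero_iff_norm, norm_smul, norm_inv, norm_norm,
          inv_mul_cancel₀ hn.ne'])
      have h2 : Qc V w w ≤ Qc V (‖u‖⁻¹ • u) (‖u‖⁻¹ • u) := h1
      have h3 : Qc V (‖u‖⁻¹ • u) (‖u‖⁻¹ • u) = (‖u‖⁻¹) ^ 2 * Qc V u u := by
        rw [Qc_smul_smul]; ring
      rw [h3] at h2
      have h4 := mul_le_mul_of_nonneg_right h2 (sq_nonneg ‖u‖)
      have h5 : (‖u‖⁻¹) ^ 2 * Qc V u u * ‖u‖ ^ 2 = Qc V u u := by
        field_simp
      linarith
  -- the compact set of triples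
  set B : Set V := {u | Qc V u u ≤ 1} with hB
  have hBc : IsCompact B := by
    apply Metric.isCompact_of_isClosed_isBounded
    · exact isClosed_le hQcont continuous_const
    · refine (isBounded_closedBall (x := (0:V)) (r := Real.sqrt (1 / c))).subset ?_
      intro u hu
      rw [mem_closedBall_zero_iff]
      apply Real.le_sqrt_of_sq_le
      rw [le_div_iff₀ hc]
      have h1 := hcoer u
      have h2 : Qc V u u ≤ 1 := hu
      linarith
  have hbcont : Continuous (fun p : V × V × V => Qc V (b p.1 p.2.1) p.2.2) := by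
    have h1 : Continuous (fun p : V × V × V => b p.1 p.2.1) := by
      let bc : V →L[ℝ] V →L[ℝ] V := LinearMap.toContinuousLinearMap
        ((LinearMap.toContinuousLinearMap (𝕜 := ℝ) (E := V) (F' := V)).toLinearMap ∘ₗ b)
      have h2 : Continuous (fun p : V × V × V => bc p.1 p.2.1) :=
        (bc.continuous.comp continuous_fst).clm_apply (continuous_fst.comp continuous_snd)
      exact h2
    exact ((Qc V).continuous.comp h1).clm_apply (continuous_snd.comp continuous_snd)
  have h0B : (0:V) ∈ B := by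
    show Qc V 0 0 ≤ 1
    simp
  obtain ⟨⟨h, f, g⟩, ⟨hh, hf, hg⟩, hmax⟩ := (hBc.prod (hBc.prod hBc)).exists_isMaxOn
    ⟨(0, 0, 0), h0B, h0B, h0B⟩ hbcont.continuousOn
  set τ := Qc V (b h f) g with hτ
  have hmax' : ∀ u v w : V, Qc V u u ≤ 1 → Qc V v v ≤ 1 → Qc V w w ≤ 1 →
      Qc V (b u v) w ≤ τ := fun u v w hu hv hw => hmax (a := (u, v, w)) ⟨hu, hv, hw⟩
  -- scaling into the unit ball
  have hscale : ∀ u : V, u ≠ 0 → Qc V ((Real.sqrt (Qc V u u))⁻¹ • u)
      ((Real.sqrt (Qc V u u))⁻¹ • u) ≤ 1 := by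
    intro u hu
    have h1 := Qc_pos hu
    rw [Qc_smul_smul]
    have h2 : Real.sqrt (Qc V u u) ≠ 0 := (Real.sqrt_pos.2 h1).ne'
    have h3 := Real.sq_sqrt h1.le
    have h4 : (Real.sqrt (Qc V u u))⁻¹ * (Real.sqrt (Qc V u u))⁻¹ * Qc V u u = 1 := by
      nth_rewrite 3 [← h3]
      field_simp
    rw [h4]
  have hτ0 : 0 < τ := by
    have hf0 : f₀ ≠ 0 := by
      intro h; apply hfg; rw [h, map_zero]; rfl
    have h1 := hmax' _ _ _ (hscale f₀ hf0) (hscale g₀ hg0) (hscale _ hfg)
    refine lt_of_lt_of_le ?_ h1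
    have e0 : ∀ (r s : ℝ), b (r • f₀) (s • g₀) = (r * s) • b f₀ g₀ := by
      intro r s
      rw [map_smul, map_smul, LinearMap.smul_apply, smul_smul, mul_comm]
    rw [e0, Qc_smul_smul]
    have a1 := Real.sqrt_pos.2 (Qc_pos hf0)
    have a2 := Real.sqrt_pos.2 (Qc_pos hg0)
    have a3 := Real.sqrt_pos.2 (Qc_pos hfg)
    have a4 := Qc_pos hfg
    positivity
  -- the duality argument
  have key : ∀ w z : V, Qc V z z ≤ 1 → Qc V w z = τ →
      (∀ u : V, Qc V u u ≤ 1 → Qc V w u ≤ τ) → w = τ • z := by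
    intro w z hz hwz hle
    have hw0 : w ≠ 0 := by
      intro h0; rw [h0, map_zero] at hwz
      exact hτ0.ne hwz
    have hwpos := Qc_pos hw0
    have h1 := hle _ (hscale w hw0)
    rw [map_smul, smul_eq_mul] at h1
    have h2 := Real.sq_sqrt hwpos.le
    have h3 := Real.sqrt_pos.2 hwpos
    have h4 : Real.sqrt (Qc V w w) ≤ τ := by
      have : (Real.sqrt (Qc V w w))⁻¹ * Qc V w w = Real.sqrt (Qc V w w) := by
        nth_rewrite 2 [← h2]
        field_simp
      rw [this] at h1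
      exact h1
    have h5 : Qc V w w ≤ τ ^ 2 := by
      rw [← h2]
      exact pow_le_pow_left₀ h3.le h4 2
    by_contra hne
    have h6 : w - τ • z ≠ 0 := sub_ne_zero.2 hne
    have h7 := Qc_pos h6
    have h8 : Qc V (w - τ • z) (w - τ • z) = Qc V w w - 2 * τ * Qc V w z + τ ^ 2 * Qc V z z := by
      have f1 : Qc V w (τ • z) = τ * Qc V w z := by
        have := Qc_smul_smul 1 τ w z
        rw [one_smul, one_mul] at this
        exact this
      have f2 : Qc V (τ • z) w = τ * Qc V w z := by rw [Qc_symm]; exact f1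
      rw [Qc_sub_sub, f1, f2, Qc_smul_smul]
      ring
    rw [h8, hwz] at h7
    nlinarith [mul_le_mul_of_nonneg_left hz (sq_nonneg τ)]
  have e1 : b h f = τ • g := key _ _ hg rfl fun u hu => hmax' h f u hh hf hu
  have e2 : b f g = τ • h := by
    have hc1 : ∀ u, Qc V (b f g) u = Qc V (b u f) g := by
      intro u
      rw [hcyc f g u, Qc_symm]
    refine key _ _ hh ?_ fun u hu => ?_
    · rw [hc1]
    · rw [hc1]; exact hmax' u f g hu hf hg
  have e3 : b g h = τ • f := by
    have hc2 : ∀ u, Qc V (b g h) u = Qc V (b h u) g := by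
      intro u
      rw [Qc_symm]
      exact (hcyc h u g).symm
    refine key _ _ hf ?_ fun u hu => ?_
    · rw [hc2]
    · rw [hc2]; exact hmax' h u g hh hu hg
  have hh0 : h ≠ 0 := by
    intro h0
    rw [h0, map_zero, LinearMap.zero_apply, map_zero] at hτ
    simp at hτ
    exact hτ0.ne' hτ
  have hτi : τ⁻¹ * τ⁻¹ * τ = τ⁻¹ := by field_simp
  refine ⟨τ⁻¹ • h, τ⁻¹ • f, τ⁻¹ • g, smul_ne_zero (inv_ne_zero hτ0.ne') hh0, ?_, ?_, ?_⟩
  · rw [map_smul, map_smul, LinearMap.smul_apply, e1, smul_smul, smul_smul, hτi]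
  · rw [map_smul, map_smul, LinearMap.smul_apply, e2, smul_smul, smul_smul, hτi]
  · rw [map_smul, map_smul, LinearMap.smul_apply, e3, smul_smul, smul_smul, hτi]

end Pool.Agent.H826R2.Wein
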