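import Mathlib
import Pool.Agent.H826R2.Wein.Act
import Pool.Agent.Helper186.Moser

/-! Gradients with respect to the metric induced by an immersion into Euclidean space. -/

open scoped Topology ContDiff Manifold
open Set Metric Bundle Pool.Agent.Helper186

noncomputable section

namespace Pool.Agent.H826R2.Wein

set_option linter.unusedSectionVars false

variable {E : Type*} [NormedAddCommGroup E] [NormedSpace ℝ E] [FiniteDimensional ℝ E]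
  {P : Type*} [TopologicalSpace P] [ChartedSpace E P] [IsManifold 𝓘(ℝ, E) ∞ P]

/-- An immersion into a Euclidean space. -/
structure Imm (P : Type*) [TopologicalSpace P] [ChartedSpace E P] (n : ℕ) where
  F : P → EuclideanSpace ℝ (Fin n)
  smooth : ContMDiff 𝓘(ℝ, E) 𝓘(ℝ, EuclideanSpace ℝ (Fin n)) ∞ F
  inj : ∀ x, Function.Injective (mfderiv 𝓘(ℝ, E) 𝓘(ℝ, EuclideanSpace ℝ (Fin n)) F x)

namespace Imm

variable {n : ℕ} (ι : Imm (E := E) P n)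

/-- derivative of the immersion -/
def D (x : P) : TangentSpace 𝓘(ℝ, E) x →L[ℝ] EuclideanSpace ℝ (Fin n) :=
  mfderiv 𝓘(ℝ, E) 𝓘(ℝ, EuclideanSpace ℝ (Fin n)) ι.F x

/-- the induced metric -/
def B (x : P) : TangentSpace 𝓘(ℝ, E) x →L[ℝ] TangentSpace 𝓘(ℝ, E) x →L[ℝ] ℝ :=
  (ContinuousLinearMap.bilinearComp (innerSL ℝ)
    (show E →L[ℝ] EuclideanSpace ℝ (Fin n) from ι.D x)
    (show E →L[ℝ] EuclideanSpace ℝ (Fin n) from ι.D x) : E →L[ℝ] E →L[ℝ] ℝ)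

lemma B_apply (x : P) (u v : TangentSpace 𝓘(ℝ, E) x) :
    ι.B x u v = inner ℝ (ι.D x u) (ι.D x v) := rfl

lemma smoothBilin (x : P) : SmoothBilinAt 𝓘(ℝ, E) (fun y : P => y) ι.B x := by
  intro u v hu hv
  have h : ∀ w : (p : P) → TangentSpace 𝓘(ℝ, E) p,
      ContMDiffAt 𝓘(ℝ, E) 𝓘(ℝ, E).tangent ∞ (fun p => (⟨p, w p⟩ : TangentBundle 𝓘(ℝ, E) P)) x →
      ContMDiffAt 𝓘(ℝ, E) 𝓘(ℝ, EuclideanSpace ℝ (Fin n)) ∞ (fun p => ι.D p (w p)) x := by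
    intro w hw
    have h1 : ContMDiff 𝓘(ℝ, E).tangent 𝓘(ℝ, EuclideanSpace ℝ (Fin n)).tangent ∞
        (tangentMap 𝓘(ℝ, E) 𝓘(ℝ, EuclideanSpace ℝ (Fin n)) ι.F) :=
      ι.smooth.contMDiff_tangentMap (by simp)
    have h2 := (h1 _).comp x hw
    have h3 := contMDiff_snd_tangentBundle_modelSpace (EuclideanSpace ℝ (Fin n))
      𝓘(ℝ, EuclideanSpace ℝ (Fin n)) (n := ∞)
    exact (h3 _).comp x h2
  have h1 := h u hu
  have h2 := h v hv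
  have h3 : ContDiff ℝ ∞ (fun p : EuclideanSpace ℝ (Fin n) × EuclideanSpace ℝ (Fin n) =>
      inner ℝ p.1 p.2) := contDiff_inner
  exact h3.contMDiff.contMDiffAt.comp x (h1.prodMk_space h2)

lemma nondeg (x : P) (u : TangentSpace 𝓘(ℝ, E) x) (h : ∀ v, ι.B x u v = 0) : u = 0 := by
  have h1 := h u
  rw [B_apply, inner_self_eq_zero] at h1
  exact ι.inj x (h1.trans (map_zero (ι.D x)).symm)

lemma exists_sh (x : P) (l : TangentSpace 𝓘(ℝ, E) x →L[ℝ] ℝ) :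
    ∃ u : TangentSpace 𝓘(ℝ, E) x, ∀ v, ι.B x u v = l v := by
  let b : E →L[ℝ] (E →L[ℝ] ℝ) := ι.B x
  have hinj : Function.Injective (b : E →ₗ[ℝ] (E →L[ℝ] ℝ)) := by
    rw [injective_iff_map_eq_zero]
    intro u hu
    apply ι.nondeg x u
    intro v
    exact DFunLike.congr_fun hu v
  have hdim : Module.finrank ℝ E = Module.finrank ℝ (E →L[ℝ] ℝ) := by
    rw [← (LinearMap.toContinuousLinearMap (𝕜 := ℝ) (E := E) (F' := ℝ)).finrank_eq]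
    exact (Subspace.dual_finrank_eq (K := ℝ) (V := E)).symm
  have hsurj := (LinearMap.injective_iff_surjective_of_finrank_eq_finrank
    (f := (b : E →ₗ[ℝ] (E →L[ℝ] ℝ))) hdim).1 hinj
  obtain ⟨u, hu⟩ := hsurj l
  exact ⟨u, fun v => DFunLike.congr_fun hu v⟩

/-- gradient of a function -/
def grad (f : P → ℝ) (x : P) : TangentSpace 𝓘(ℝ, E) x :=
  Classical.choose (ι.exists_sh x (dForm 𝓘(ℝ, E) f x))

lemma grad_spec (f : P → ℝ) (x : P) (v : TangentSpace 𝓘(ℝ, E) x) :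
    ι.B x (ι.grad f x) v = dForm 𝓘(ℝ, E) f x v :=
  Classical.choose_spec (ι.exists_sh x (dForm 𝓘(ℝ, E) f x)) v

lemma grad_unique {f : P → ℝ} {x : P} {u : TangentSpace 𝓘(ℝ, E) x}
    (h : ∀ v, ι.B x u v = dForm 𝓘(ℝ, E) f x v) : u = ι.grad f x := by
  rw [← sub_eq_zero]
  apply ι.nondeg
  intro v
  have h1 : ι.B x (u - ι.grad f x) v = ι.B x u v - ι.B x (ι.grad f x) v := by
    rw [map_sub]; rfl
  rw [h1, h, ι.grad_spec, sub_self]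

lemma smooth_grad {f : P → ℝ} (hf : ContMDiff 𝓘(ℝ, E) 𝓘(ℝ, ℝ) ∞ f) :
    ContMDiff 𝓘(ℝ, E) 𝓘(ℝ, E).tangent ∞
      (fun x => (⟨x, ι.grad f x⟩ : TangentBundle 𝓘(ℝ, E) P)) := by
  intro x
  refine contMDiffAt_of_pairing (J := 𝓘(ℝ, E)) (f := fun x : P => x) contMDiffAt_id
    (ι.smoothBilin x) (ι.nondeg x) ?_
  intro v hv
  have h1 : ContMDiffAt 𝓘(ℝ, E) 𝓘(ℝ, ℝ) ∞ (fun x => dForm 𝓘(ℝ, E) f x (v x)) x :=
    (smoothForm_dForm hf).comp hv le_rfl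
  refine h1.congr_of_eventuallyEq (Filter.Eventually.of_forall fun p => ?_)
  exact ι.grad_spec f p (v p)

/-- inner product of gradients -/
def G2 (f g : P → ℝ) (x : P) : ℝ := dForm 𝓘(ℝ, E) f x (ι.grad g x)

/-- squared norm of the gradient -/
def G (f : P → ℝ) (x : P) : ℝ := dForm 𝓘(ℝ, E) f x (ι.grad f x)

lemma G2_eq (f g : P → ℝ) (x : P) :
    ι.G2 f g x = inner ℝ (ι.D x (ι.grad f x)) (ι.D x (ι.grad g x)) := by
  unfold G2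
  rw [← ι.grad_spec, B_apply]

lemma G_eq (f : P → ℝ) (x : P) : ι.G f x = ‖ι.D x (ι.grad f x)‖ ^ 2 := by
  have := ι.G2_eq f f x
  rw [real_inner_self_eq_norm_sq] at this
  exact this

lemma G_nonneg (f : P → ℝ) (x : P) : 0 ≤ ι.G f x := by
  rw [G_eq]; positivity

lemma G_eq_zero {f : P → ℝ} {x : P} (h : ι.G f x = 0) : dForm 𝓘(ℝ, E) f x = 0 := by
  rw [G_eq] at h
  have h1 : ι.D x (ι.grad f x) = 0 := by
    have := pow_eq_zero_iff (two_ne_zero) |>.1 h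
    exact norm_eq_zero.1 this
  refine ContinuousLinearMap.ext fun v => ?_
  rw [← ι.grad_spec, B_apply, h1, inner_zero_left]
  rfl

lemma G2_sq_le (f g : P → ℝ) (x : P) : (ι.G2 f g x) ^ 2 ≤ ι.G f x * ι.G g x := by
  rw [G2_eq, G_eq, G_eq, ← mul_pow, sq_le_sq, abs_mul, abs_norm, abs_norm]
  exact abs_real_inner_le_norm _ _

lemma smooth_G2 {f g : P → ℝ} (hf : ContMDiff 𝓘(ℝ, E) 𝓘(ℝ, ℝ) ∞ f)
    (hg : ContMDiff 𝓘(ℝ, E) 𝓘(ℝ, ℝ) ∞ g) : ContMDiff 𝓘(ℝ, E) 𝓘(ℝ, ℝ) ∞ (ι.G2 f g) :=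
  fun x => (smoothForm_dForm hf).comp (ι.smooth_grad hg x) le_rfl

lemma smooth_G {f : P → ℝ} (hf : ContMDiff 𝓘(ℝ, E) 𝓘(ℝ, ℝ) ∞ f) :
    ContMDiff 𝓘(ℝ, E) 𝓘(ℝ, ℝ) ∞ (ι.G f) := ι.smooth_G2 hf hf

/-- the normalised gradient -/
def V (f : P → ℝ) (x : P) : TangentSpace 𝓘(ℝ, E) x := (1 + ι.G f x)⁻¹ • ι.grad f x

lemma smooth_V {f : P → ℝ} (hf : ContMDiff 𝓘(ℝ, E) 𝓘(ℝ, ℝ) ∞ f) :
    ContMDiff 𝓘(ℝ, E) 𝓘(ℝ, E).tangent ∞
      (fun x => (⟨x, ι.V f x⟩ : TangentBundle 𝓘(ℝ, E) P)) := by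
  intro x
  refine contMDiffAt_smul_along (f := fun x : P => x) ?_ (ι.smooth_grad hf x)
  have h1 : ContMDiffAt 𝓘(ℝ, E) 𝓘(ℝ, ℝ) ∞ (fun x => 1 + ι.G f x) x :=
    contMDiffAt_const.add (ι.smooth_G hf x)
  have h2 : (1 + ι.G f x) ≠ 0 := by have := ι.G_nonneg f x; positivity
  exact (contDiffAt_inv ℝ h2).contMDiffAt.comp x h1

lemma dForm_V (f g : P → ℝ) (x : P) :
    dForm 𝓘(ℝ, E) g x (ι.V f x) = (1 + ι.G f x)⁻¹ * ι.G2 g f x := by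
  unfold V
  rw [map_smul]
  rfl

lemma dForm_V_self (f : P → ℝ) (x : P) :
    dForm 𝓘(ℝ, E) f x (ι.V f x) = ι.G f x / (1 + ι.G f x) := by
  rw [dForm_V, div_eq_inv_mul]
  rfl

lemma abs_dForm_V_le (f g : P → ℝ) (x : P) :
    |dForm 𝓘(ℝ, E) g x (ι.V f x)| ≤ Real.sqrt (ι.G g x) := by
  have h1 := ι.G_nonneg f x
  have h2 := ι.G_nonneg g x
  have h3 := ι.G2_sq_le g f x
  apply Real.abs_le_sqrt
  rw [dForm_V, mul_pow, inv_pow, inv_mul_le_iff₀ (by positivity)]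
  nlinarith [mul_nonneg h2 h1, mul_nonneg h2 (mul_nonneg h1 h1)]

end Imm

end Pool.Agent.H826R2.Wein
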