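import Mathlib
import Pool.Agent.H826R2.Wein.Grad

/-! Completeness of normalised gradients on coverings of compact manifolds. -/

open scoped Topology ContDiff Manifold
open Set Metric Bundle Pool.Agent.Helper186

noncomputable section

namespace Pool.Agent.H826R2.Wein

set_option linter.unusedSectionVars false

universe u

variable {E : Type u} [NormedAddCommGroup E] [NormedSpace ℝ E] [FiniteDimensional ℝ E]
  {P : Type*} [TopologicalSpace P] [ChartedSpace E P] [IsManifold 𝓘(ℝ, E) ∞ P]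

/-- Compactly supported smooth vector fields are complete. -/
lemma complete_of_compact [T2Space P] {W : (x : P) → TangentSpace 𝓘(ℝ, E) x}
    (hW : ContMDiff 𝓘(ℝ, E) 𝓘(ℝ, E).tangent ∞ (fun x => (⟨x, W x⟩ : TangentBundle 𝓘(ℝ, E) P)))
    {K : Set P} (hK : IsCompact K) (hWK : ∀ x ∉ K, W x = 0) (x : P) :
    ∃ c : ℝ → P, c 0 = x ∧ IsMIntegralCurve (I := 𝓘(ℝ, E)) c W := by
  have : IsManifold 𝓘(ℝ, E) 1 P := IsManifold.of_le (n := ∞) (by simp)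
  obtain ⟨ε, hε, h⟩ := exists_uniform_time_compact hW hK
  refine exists_isMIntegralCurve_of_isMIntegralCurveOn (hW.of_le (by simp)) hε ?_ x
  intro y
  by_cases hy : y ∈ K
  · exact h y hy
  · refine ⟨fun _ => y, rfl, ?_⟩
    intro t _
    have h1 : HasMFDerivAt 𝓘(ℝ, ℝ) 𝓘(ℝ, E) (fun _ : ℝ => y) t (0 : ℝ →L[ℝ] E) :=
      hasMFDerivAt_const y t
    refine (h1.congr_mfderiv ?_).hasMFDerivWithinAt
    rw [hWK y hy]
    refine ContinuousLinearMap.ext fun (r : ℝ) => ?_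
    show (0:E) = r • (0:E)
    rw [smul_zero]

/-- derivative of a function along an integral curve -/
lemma hasDerivAt_along {W : (x : P) → TangentSpace 𝓘(ℝ, E) x} {c : ℝ → P} {t : ℝ}
    (hc : HasMFDerivAt 𝓘(ℝ, ℝ) 𝓘(ℝ, E) c t ((1 : ℝ →L[ℝ] ℝ).smulRight (W (c t))))
    {f : P → ℝ} (hf : ContMDiff 𝓘(ℝ, E) 𝓘(ℝ, ℝ) ∞ f) :
    HasDerivAt (fun s => f (c s)) (dForm 𝓘(ℝ, E) f (c t) (W (c t))) t := by
  have h1 := HasMFDerivAt.comp t (g := f) (f := c)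
    (hf.mdifferentiableAt (by simp)).hasMFDerivAt hc
  have h2 : HasFDerivAt (fun s => f (c s)) (show ℝ →L[ℝ] ℝ from
      (mfderiv 𝓘(ℝ, E) 𝓘(ℝ, ℝ) f (c t)).comp ((1 : ℝ →L[ℝ] ℝ).smulRight (W (c t)))) t :=
    hasMFDerivAt_iff_hasFDerivAt.1 h1
  have h3 := h2.hasDerivAt
  refine h3.congr_deriv ?_
  show (mfderiv 𝓘(ℝ, E) 𝓘(ℝ, ℝ) f (c t)) ((1:ℝ) • W (c t)) = _
  rw [one_smul]
  rfl

namespace Imm

variable {n : ℕ} (ι : Imm (E := E) P n)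

lemma push_grad {g : P → P} (hg : ContMDiff 𝓘(ℝ, E) 𝓘(ℝ, E) ∞ g) {g' : P → P}
    (hg' : ContMDiff 𝓘(ℝ, E) 𝓘(ℝ, E) ∞ g') (hgg' : ∀ x, g (g' x) = x) (hg'g : ∀ x, g' (g x) = x)
    (hF : ∀ x, ι.F (g x) = ι.F x)
    {f f' : P → ℝ} (hf' : ContMDiff 𝓘(ℝ, E) 𝓘(ℝ, ℝ) ∞ f')
    (hff' : ∀ x, f' (g x) = f x) (x : P) :
    (mfderiv 𝓘(ℝ, E) 𝓘(ℝ, E) g x (ι.grad f x) : E) = ι.grad f' (g x) := by
  apply ι.grad_unique
  intro w
  -- derivative of `F`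
  have hD : ∀ u : TangentSpace 𝓘(ℝ, E) x, ι.D (g x) (mfderiv 𝓘(ℝ, E) 𝓘(ℝ, E) g x u) = ι.D x u := by
    intro u
    have h1 : mfderiv 𝓘(ℝ, E) 𝓘(ℝ, EuclideanSpace ℝ (Fin n)) (ι.F ∘ g) x =
        (mfderiv 𝓘(ℝ, E) 𝓘(ℝ, EuclideanSpace ℝ (Fin n)) ι.F (g x)).comp
        (mfderiv 𝓘(ℝ, E) 𝓘(ℝ, E) g x) :=
      mfderiv_comp _ (ι.smooth.mdifferentiableAt (by simp)) (hg.mdifferentiableAt (by simp))
    have h2 : ι.F ∘ g = ι.F := by ext1 y; exact hF y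
    rw [h2] at h1
    exact (DFunLike.congr_fun h1 u).symm
  have hf1 : ∀ u : TangentSpace 𝓘(ℝ, E) x,
      dForm 𝓘(ℝ, E) f' (g x) (mfderiv 𝓘(ℝ, E) 𝓘(ℝ, E) g x u) = dForm 𝓘(ℝ, E) f x u := by
    intro u
    have h1 : mfderiv 𝓘(ℝ, E) 𝓘(ℝ, ℝ) (f' ∘ g) x =
        (mfderiv 𝓘(ℝ, E) 𝓘(ℝ, ℝ) f' (g x)).comp
        (mfderiv 𝓘(ℝ, E) 𝓘(ℝ, E) g x) :=
      mfderiv_comp _ (hf'.mdifferentiableAt (by simp)) (hg.mdifferentiableAt (by simp))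
    have h2 : f' ∘ g = f := by ext1 y; exact hff' y
    rw [h2] at h1
    exact (DFunLike.congr_fun h1 u).symm
  -- surjectivity
  obtain ⟨v, hv⟩ : ∃ v : TangentSpace 𝓘(ℝ, E) x, (mfderiv 𝓘(ℝ, E) 𝓘(ℝ, E) g x v : E) = w := by
    have h1 : mfderiv 𝓘(ℝ, E) 𝓘(ℝ, E) (g ∘ g') (g x) =
        (mfderiv 𝓘(ℝ, E) 𝓘(ℝ, E) g (g' (g x))).comp
        (mfderiv 𝓘(ℝ, E) 𝓘(ℝ, E) g' (g x)) :=
      mfderiv_comp _ (hg.mdifferentiableAt (by simp)) (hg'.mdifferentiableAt (by simp))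
    have h2 : g ∘ g' = id := by ext1 y; exact hgg' y
    rw [h2, mfderiv_id] at h1
    have h3 := DFunLike.congr_fun h1 w
    have h4 : ∀ z : P, z = x → ∀ a : E, (mfderiv 𝓘(ℝ, E) 𝓘(ℝ, E) g z a : E) =
        mfderiv 𝓘(ℝ, E) 𝓘(ℝ, E) g x a := by rintro _ rfl a; rfl
    refine ⟨(mfderiv 𝓘(ℝ, E) 𝓘(ℝ, E) g' (g x) w : E), ?_⟩
    exact (h4 _ (hg'g x) _).symm.trans h3.symm
  subst hv
  rw [B_apply]
  have e1 := hD (ι.grad f x)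
  have e2 := hD v
  rw [e1, e2, ← ι.B_apply, ι.grad_spec]
  exact (hf1 v).symm

end Imm

end Pool.Agent.H826R2.Wein
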