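import Mathlib
import Pool.Agent.H826R2.Wein.Flw

/-! Completeness of normalised gradients on coverings of compact manifolds. -/

open scoped Topology ContDiff Manifold
open Set Metric Bundle Pool.Agent.Helper186

noncomputable section

namespace Pool.Agent.H826R2.Wein

set_option linter.unusedSectionVars false

universe u

variable {E : Type u} [NormedAddCommGroup E] [NormedSpace ℝ E] [FiniteDimensional ℝ E]
  {P : Type*} [TopologicalSpace P] [ChartedSpace E P] [IsManifold 𝓘(ℝ, E) ∞ P]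

/-- a cocompact group of isometries with finite orbits in compact sets -/
structure Deck {n : ℕ} (ι : Imm (E := E) P n) (Γ : Type*) [Group Γ] [MulAction Γ P] where
  smooth : ∀ γ : Γ, ContMDiff 𝓘(ℝ, E) 𝓘(ℝ, E) ∞ (fun x : P => γ • x)
  F_inv : ∀ (γ : Γ) (x : P), ι.F (γ • x) = ι.F x
  D : Set P
  compact : IsCompact D
  cover : ∀ x : P, ∃ γ : Γ, γ • x ∈ D
  fin : ∀ (x : P) (K : Set P), IsCompact K → {y ∈ K | ∃ γ : Γ, γ • x = y}.Finite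

namespace Deck

variable {n : ℕ} {ι : Imm (E := E) P n} {Γ : Type*} [Group Γ] [MulAction Γ P] (𝒟 : Deck ι Γ)

include 𝒟 in
lemma push_grad (γ : Γ) {f f' : P → ℝ} (hf' : ContMDiff 𝓘(ℝ, E) 𝓘(ℝ, ℝ) ∞ f')
    (hff' : ∀ x, f' (γ • x) = f x) (x : P) :
    (mfderiv 𝓘(ℝ, E) 𝓘(ℝ, E) (fun x : P => γ • x) x (ι.grad f x) : E) = ι.grad f' (γ • x) :=
  ι.push_grad (𝒟.smooth γ) (𝒟.smooth γ⁻¹) (fun x => smul_inv_smul γ x)
    (fun x => inv_smul_smul γ x) (𝒟.F_inv γ) hf' hff' x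

include 𝒟 in
lemma G_push (γ : Γ) {f f' : P → ℝ} (hf' : ContMDiff 𝓘(ℝ, E) 𝓘(ℝ, ℝ) ∞ f')
    (hff' : ∀ x, f' (γ • x) = f x) (x : P) : ι.G f' (γ • x) = ι.G f x := by
  have h0 := 𝒟.push_grad γ hf' hff' x
  have h1 : mfderiv 𝓘(ℝ, E) 𝓘(ℝ, ℝ) (f' ∘ (fun x : P => γ • x)) x =
      (mfderiv 𝓘(ℝ, E) 𝓘(ℝ, ℝ) f' (γ • x)).comp
      (mfderiv 𝓘(ℝ, E) 𝓘(ℝ, E) (fun x : P => γ • x) x) :=
    mfderiv_comp _ (hf'.mdifferentiableAt (by simp)) ((𝒟.smooth γ).mdifferentiableAt (by simp))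
  have h2 : f' ∘ (fun x : P => γ • x) = f := by ext1 y; exact hff' y
  rw [h2] at h1
  have h3 := DFunLike.congr_fun h1 (ι.grad f x)
  unfold Imm.G
  have h4 : dForm 𝓘(ℝ, E) f' (γ • x) (ι.grad f' (γ • x)) =
      dForm 𝓘(ℝ, E) f' (γ • x)
        (mfderiv 𝓘(ℝ, E) 𝓘(ℝ, E) (fun x : P => γ • x) x (ι.grad f x) : E) :=
    congrArg (fun w : E => dForm 𝓘(ℝ, E) f' (γ • x) w) h0.symm
  rw [h4]
  exact h3.symm

include 𝒟 in
lemma push_V (γ : Γ) {f f' : P → ℝ} (hf' : ContMDiff 𝓘(ℝ, E) 𝓘(ℝ, ℝ) ∞ f')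
    (hff' : ∀ x, f' (γ • x) = f x) (x : P) :
    (mfderiv 𝓘(ℝ, E) 𝓘(ℝ, E) (fun x : P => γ • x) x (ι.V f x) : E) = ι.V f' (γ • x) := by
  unfold Imm.V
  rw [𝒟.G_push γ hf' hff' x]
  have h1 : (mfderiv 𝓘(ℝ, E) 𝓘(ℝ, E) (fun x : P => γ • x) x ((1 + ι.G f x)⁻¹ • ι.grad f x) : E) =
    (1 + ι.G f x)⁻¹ • (mfderiv 𝓘(ℝ, E) 𝓘(ℝ, E) (fun x : P => γ • x) x (ι.grad f x) : E) :=
    map_smul (mfderiv 𝓘(ℝ, E) 𝓘(ℝ, E) (fun x : P => γ • x) x) _ _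
  rw [h1]
  exact congrArg (fun w : E => (1 + ι.G f x)⁻¹ • w) (𝒟.push_grad γ hf' hff' x)

lemma _root_.Pool.Agent.H826R2.Wein.dForm_eq_zero_of_eventually {ψ : P → ℝ} {x : P} {a : ℝ}
    (h2 : ψ =ᶠ[𝓝 x] fun _ => a) : dForm 𝓘(ℝ, E) ψ x = 0 := by
  have h3 : HasMFDerivAt 𝓘(ℝ, E) 𝓘(ℝ, ℝ) (fun _ : P => a) x
    (0 : TangentSpace 𝓘(ℝ, E) x →L[ℝ] ℝ) := hasMFDerivAt_const a x
  exact (h3.congr_of_eventuallyEq h2).mfderiv

/-- uniform existence time near the fundamental domain -/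
lemma uniform_D [T2Space P] [SigmaCompactSpace P] :
    ∃ ε > (0:ℝ), ∀ f : P → ℝ, ContMDiff 𝓘(ℝ, E) 𝓘(ℝ, ℝ) ∞ f → ∀ y ∈ 𝒟.D,
      ∃ c : ℝ → P, c 0 = y ∧ IsMIntegralCurveOn (I := 𝓘(ℝ, E)) c (ι.V f) (Ioo (-ε) ε) := by
  obtain ⟨ψ, K', hψ, hK', -, hψ1, hψ0⟩ := exists_cutoff 𝓘(ℝ, E) 𝒟.compact isOpen_univ
    (subset_univ 𝒟.D)
  obtain ⟨χ, K'', hχ, hK'', -, hχ1, hχ0⟩ := exists_cutoff 𝓘(ℝ, E) hK' isOpen_univ
    (subset_univ K')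
  obtain ⟨L, hL0, hL⟩ : ∃ L : ℝ, 0 < L ∧ ∀ x, Real.sqrt (ι.G ψ x) ≤ L := by
    have hc : Continuous (fun x => Real.sqrt (ι.G ψ x)) :=
      Real.continuous_sqrt.comp (ι.smooth_G hψ).continuous
    obtain ⟨L, hL⟩ := (hK'.image hc).bddAbove
    refine ⟨max L 1, by positivity, fun x => ?_⟩
    by_cases hx : x ∈ K'
    · exact (hL (mem_image_of_mem _ hx)).trans (le_max_left _ _)
    · have h1 : dForm 𝓘(ℝ, E) ψ x = 0 := by
        apply dForm_eq_zero_of_eventually (a := 0)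
        filter_upwards [hK'.isClosed.isOpen_compl.mem_nhds hx] with y hy
        exact hψ0 y hy
      have h3 : ι.G ψ x = 0 := by
        unfold Imm.G
        rw [h1]; rfl
      rw [h3, Real.sqrt_zero]
      positivity
  refine ⟨L⁻¹, by positivity, ?_⟩
  intro f hf y hy
  -- cut off the vector field
  have hW : ContMDiff 𝓘(ℝ, E) 𝓘(ℝ, E).tangent ∞
      (fun x => (⟨x, χ x • ι.V f x⟩ : TangentBundle 𝓘(ℝ, E) P)) := by
    intro x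
    exact contMDiffAt_smul_along (f := fun x : P => x) (hχ x) (ι.smooth_V hf x)
  obtain ⟨c, hc0, hc⟩ := complete_of_compact (W := fun x => χ x • ι.V f x) hW hK''
    (fun x hx => by rw [hχ0 x hx, zero_smul]) y
  have hχK : ∀ x ∈ K', χ x = 1 := fun x hx => hχ1.self_of_nhdsSet x hx
  -- the derivative of `ψ` along the curve
  have hder : ∀ t, HasDerivAt (fun s => ψ (c s))
      (dForm 𝓘(ℝ, E) ψ (c t) (χ (c t) • ι.V f (c t))) t := fun t =>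
    hasDerivAt_along (W := fun x => χ x • ι.V f x) (hc t) hψ
  have hbd : ∀ t, ‖dForm 𝓘(ℝ, E) ψ (c t) (χ (c t) • ι.V f (c t))‖ ≤ L := by
    intro t
    by_cases hx : c t ∈ K'
    · rw [hχK _ hx, one_smul, Real.norm_eq_abs]
      exact (ι.abs_dForm_V_le f ψ (c t)).trans (hL _)
    · have h1 : dForm 𝓘(ℝ, E) ψ (c t) = 0 := by
        apply dForm_eq_zero_of_eventually (a := 0)
        filter_upwards [hK'.isClosed.isOpen_compl.mem_nhds hx] with y hy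
        exact hψ0 y hy
      rw [h1]
      show ‖(0:ℝ)‖ ≤ L
      rw [norm_zero]
      exact hL0.le
  have hlip : ∀ t, |ψ (c t) - ψ (c 0)| ≤ L * |t| := by
    intro t
    have := convex_univ.norm_image_sub_le_of_norm_hasDerivWithin_le (s := univ) (x := (0:ℝ))
      (y := t) (fun s _ => (hder s).hasDerivWithinAt) (fun s _ => hbd s) (mem_univ _) (mem_univ _)
    simpa using this
  refine ⟨c, hc0, ?_⟩
  intro t ht
  have h1 : c t ∈ K' := by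
    by_contra hx
    have h2 := hlip t
    rw [hψ0 _ hx, hc0, hψ1.self_of_nhdsSet y hy] at h2
    have h3 : |t| < L⁻¹ := abs_lt.2 ht
    have h4 : L * |t| < 1 := by
      have := mul_lt_mul_of_pos_left h3 hL0
      rwa [mul_inv_cancel₀ hL0.ne'] at this
    rw [show |(0:ℝ) - 1| = 1 by norm_num] at h2
    linarith
  have h2 := hc t
  have h3 : χ (c t) • ι.V f (c t) = ι.V f (c t) := by rw [hχK _ h1, one_smul]
  beta_reduce at h2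
  rw [h3] at h2
  exact h2.hasMFDerivWithinAt

include 𝒟 in
/-- **Completeness** of normalised gradients. -/
theorem complete [T2Space P] [SigmaCompactSpace P] {f : P → ℝ}
    (hf : ContMDiff 𝓘(ℝ, E) 𝓘(ℝ, ℝ) ∞ f) (x : P) :
    ∃ c : ℝ → P, c 0 = x ∧ IsMIntegralCurve (I := 𝓘(ℝ, E)) c (ι.V f) := by
  have : IsManifold 𝓘(ℝ, E) 1 P := IsManifold.of_le (n := ∞) (by simp)
  obtain ⟨ε, hε, h⟩ := 𝒟.uniform_D
  refine exists_isMIntegralCurve_of_isMIntegralCurveOn ((ι.smooth_V hf).of_le (by simp)) hε ?_ x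
  intro y
  obtain ⟨γ, hγ⟩ := 𝒟.cover y
  have hf' : ContMDiff 𝓘(ℝ, E) 𝓘(ℝ, ℝ) ∞ (fun z : P => f (γ⁻¹ • z)) := hf.comp (𝒟.smooth γ⁻¹)
  obtain ⟨c, hc0, hc⟩ := h _ hf' _ hγ
  refine ⟨fun t => γ⁻¹ • c t, by simp [hc0], ?_⟩
  intro t ht
  have h1 : HasMFDerivAt 𝓘(ℝ, ℝ) 𝓘(ℝ, E) c t
    ((1 : ℝ →L[ℝ] ℝ).smulRight (ι.V (fun z : P => f (γ⁻¹ • z)) (c t))) :=
    (hc t ht).hasMFDerivAt (isOpen_Ioo.mem_nhds ht)
  have h2 := HasMFDerivAt.comp t (g := fun z : P => γ⁻¹ • z) (f := c)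
    ((𝒟.smooth γ⁻¹).mdifferentiableAt (by simp)).hasMFDerivAt h1
  have h3 := 𝒟.push_V γ⁻¹ hf (f := fun z : P => f (γ⁻¹ • z)) (fun z => rfl) (c t)
  refine (h2.congr_mfderiv ?_).hasMFDerivWithinAt
  refine ContinuousLinearMap.ext fun (r : ℝ) => ?_
  show (mfderiv 𝓘(ℝ, E) 𝓘(ℝ, E) (fun z : P => γ⁻¹ • z) (c t))
    ((r • ι.V (fun z : P => f (γ⁻¹ • z)) (c t) : E)) = r • ι.V f (γ⁻¹ • c t)
  have h4 : (mfderiv 𝓘(ℝ, E) 𝓘(ℝ, E) (fun z : P => γ⁻¹ • z) (c t))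
    ((r • ι.V (fun z : P => f (γ⁻¹ • z)) (c t) : E)) = (r •
      (mfderiv 𝓘(ℝ, E) 𝓘(ℝ, E) (fun z : P => γ⁻¹ • z) (c t)
        (ι.V (fun z : P => f (γ⁻¹ • z)) (c t)) : E) : E) :=
    map_smul (mfderiv 𝓘(ℝ, E) 𝓘(ℝ, E) (fun z : P => γ⁻¹ • z) (c t)) _ _
  rw [h4]
  exact congrArg (fun w : E => r • w) h3

end Deck

end Pool.Agent.H826R2.Wein
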