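import Mathlib
import Pool.Agent.H826R2.Wein.Cpl

/-! A Palais-Smale type property of the contact Hamiltonians. -/

open scoped Topology ContDiff Manifold
open Set Metric Bundle Pool.Agent.Helper186

noncomputable section

namespace Pool.Agent.H826R2.Wein

set_option linter.unusedSectionVars false

universe u

variable {E : Type u} [NormedAddCommGroup E] [NormedSpace ℝ E] [FiniteDimensional ℝ E]
  {P : Type*} [TopologicalSpace P] [ChartedSpace E P] [IsManifold 𝓘(ℝ, E) ∞ P]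
  {β : (x : P) → TangentSpace 𝓘(ℝ, E) x →L[ℝ] ℝ} {m : ℕ}

lemma lin_expand (L : (Fin m → ℝ) →ₗ[ℝ] ℝ) (κ : Fin m → ℝ) :
    L κ = ∑ i, κ i * L (Pi.single i 1) := by
  have h2 : κ = ∑ i, κ i • (Pi.single i (1:ℝ) : Fin m → ℝ) := by
    ext j
    simp [Finset.sum_apply, Pi.single_apply]
  conv_lhs => rw [h2]
  rw [map_sum]
  refine Finset.sum_congr rfl fun i _ => ?_
  rw [map_smul]
  rfl

lemma bilin_expand (B : (Fin m → ℝ) →ₗ[ℝ] (Fin m → ℝ) →ₗ[ℝ] ℝ) (κ : Fin m → ℝ) :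
    B κ κ = ∑ i, ∑ j, κ i * κ j * B (Pi.single i 1) (Pi.single j 1) := by
  have h1 : B κ κ = (B.flip κ) κ := rfl
  rw [h1, lin_expand]
  refine Finset.sum_congr rfl fun i _ => ?_
  have h2 : B.flip κ (Pi.single i 1) = B (Pi.single i 1) κ := rfl
  rw [h2, lin_expand, Finset.mul_sum]
  refine Finset.sum_congr rfl fun j _ => ?_
  ring

lemma bilin_scale (B : (Fin m → ℝ) →ₗ[ℝ] (Fin m → ℝ) →ₗ[ℝ] ℝ) (a : ℝ) (κ : Fin m → ℝ) :
    B (a • κ) (a • κ) = a ^ 2 * B κ κ := by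
  have h1 : B (a • κ) (a • κ) = a • B (a • κ) κ := map_smul (B (a • κ)) a κ
  have h2 : B (a • κ) κ = a • B κ κ := by
    rw [map_smul]; rfl
  rw [h1, h2]
  simp only [smul_eq_mul]
  ring

namespace TAct

variable (A : TAct β m) {n : ℕ} (ι : Imm (E := E) P n)

lemma dH_add (hβ : SmoothForm β) (κ κ' : Fin m → ℝ) (x : P) :
    dForm 𝓘(ℝ, E) (A.H (κ + κ')) x = dForm 𝓘(ℝ, E) (A.H κ) x + dForm 𝓘(ℝ, E) (A.H κ') x := by
  refine ContinuousLinearMap.ext fun u => ?_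
  have h1 : dForm 𝓘(ℝ, E) (A.H (κ + κ')) x u = - extDerL 𝓘(ℝ, E) β x (A.X (κ + κ') x) u :=
    A.dH hβ _ x u
  rw [A.X_add, map_add] at h1
  have h2 := A.dH hβ κ x u
  have h3 := A.dH hβ κ' x u
  show dForm 𝓘(ℝ, E) (A.H (κ + κ')) x u =
    dForm 𝓘(ℝ, E) (A.H κ) x u + dForm 𝓘(ℝ, E) (A.H κ') x u
  rw [h1, h2, h3, ← extDerL_apply, ← extDerL_apply, ← neg_add]
  rfl

lemma dH_smul (hβ : SmoothForm β) (c : ℝ) (κ : Fin m → ℝ) (x : P) :
    dForm 𝓘(ℝ, E) (A.H (c • κ)) x = c • dForm 𝓘(ℝ, E) (A.H κ) x := by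
  refine ContinuousLinearMap.ext fun u => ?_
  have h1 : dForm 𝓘(ℝ, E) (A.H (c • κ)) x u = - extDerL 𝓘(ℝ, E) β x (A.X (c • κ) x) u :=
    A.dH hβ _ x u
  rw [A.X_smul, map_smul] at h1
  have h2 := A.dH hβ κ x u
  show dForm 𝓘(ℝ, E) (A.H (c • κ)) x u = c * dForm 𝓘(ℝ, E) (A.H κ) x u
  rw [h1, h2, ← extDerL_apply, mul_neg]
  rfl

lemma grad_H_add (hβ : SmoothForm β) (κ κ' : Fin m → ℝ) (x : P) :
    ι.grad (A.H (κ + κ')) x = ι.grad (A.H κ) x + ι.grad (A.H κ') x := by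
  symm
  apply ι.grad_unique
  intro v
  rw [map_add, A.dH_add hβ]
  show ι.B x (ι.grad (A.H κ) x) v + ι.B x (ι.grad (A.H κ') x) v = _
  rw [ι.grad_spec, ι.grad_spec]
  rfl

lemma grad_H_smul (hβ : SmoothForm β) (c : ℝ) (κ : Fin m → ℝ) (x : P) :
    ι.grad (A.H (c • κ)) x = c • ι.grad (A.H κ) x := by
  symm
  apply ι.grad_unique
  intro v
  rw [map_smul, A.dH_smul hβ]
  show c • ι.B x (ι.grad (A.H κ) x) v = _
  rw [ι.grad_spec]
  rfl

/-- the bilinear form `κ, κ' ↦ ⟨∇H_κ, ∇H_κ'⟩` -/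
def GB (hβ : SmoothForm β) (x : P) : (Fin m → ℝ) →ₗ[ℝ] (Fin m → ℝ) →ₗ[ℝ] ℝ :=
  LinearMap.mk₂ ℝ (fun κ κ' => ι.G2 (A.H κ) (A.H κ') x)
    (by
      intro a b c
      unfold Imm.G2
      rw [A.dH_add hβ]; rfl)
    (by
      intro c a b
      unfold Imm.G2
      rw [A.dH_smul hβ]; rfl)
    (by
      intro a b c
      unfold Imm.G2
      rw [A.grad_H_add ι hβ, map_add])
    (by
      intro c a b
      unfold Imm.G2
      rw [A.grad_H_smul ι hβ, map_smul])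

lemma GB_apply (hβ : SmoothForm β) (x : P) (κ κ' : Fin m → ℝ) :
    A.GB ι hβ x κ κ' = ι.G2 (A.H κ) (A.H κ') x := rfl

lemma G_H_expand (hβ : SmoothForm β) (x : P) (κ : Fin m → ℝ) :
    ι.G (A.H κ) x = ∑ i, ∑ j, κ i * κ j *
      ι.G2 (A.H (Pi.single i 1)) (A.H (Pi.single j 1)) x :=
  bilin_expand (A.GB ι hβ x) κ

lemma H_expand (x : P) (κ : Fin m → ℝ) :
    A.H κ x = ∑ i, κ i * A.H (Pi.single i 1) x :=
  lin_expand
    { toFun := fun κ => A.H κ x
      map_add' := fun a b => A.H_add a b x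
      map_smul' := fun c a => A.H_smul c a x } κ

lemma continuous_G_H (hβ : SmoothForm β) :
    Continuous (fun p : P × (Fin m → ℝ) => ι.G (A.H p.2) p.1) := by
  simp only [A.G_H_expand ι hβ]
  refine continuous_finsetSum _ fun i _ => continuous_finsetSum _ fun j _ => ?_
  have h1 : Continuous (ι.G2 (A.H (Pi.single i 1)) (A.H (Pi.single j 1))) :=
    (ι.smooth_G2 (A.smooth_H hβ _) (A.smooth_H hβ _)).continuous
  have h2 : Continuous (fun p : P × (Fin m → ℝ) => p.2 i) := (continuous_apply i).comp continuous_snd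
  have h3 : Continuous (fun p : P × (Fin m → ℝ) => p.2 j) := (continuous_apply j).comp continuous_snd
  exact (h2.mul h3).mul (h1.comp continuous_fst)

lemma continuous_H (hβ : SmoothForm β) :
    Continuous (fun p : P × (Fin m → ℝ) => A.H p.2 p.1) := by
  have e : (fun p : P × (Fin m → ℝ) => A.H p.2 p.1) =
      fun p : P × (Fin m → ℝ) => ∑ i, p.2 i * A.H (Pi.single i 1) p.1 := by
    ext1 p
    exact A.H_expand _ _
  rw [e]
  refine continuous_finsetSum _ fun i _ => ?_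
  have h1 : Continuous (A.H (Pi.single i 1)) := (A.smooth_H hβ _).continuous
  have h2 : Continuous (fun p : P × (Fin m → ℝ) => p.2 i) := (continuous_apply i).comp continuous_snd
  exact h2.mul (h1.comp continuous_fst)

/-- the total energy of `κ` at `x` -/
def Q (κ : Fin m → ℝ) (x : P) : ℝ := ι.G (A.H κ) x + (A.H κ x) ^ 2

lemma Q_pos (hc : IsContact β) {R : (x : P) → TangentSpace 𝓘(ℝ, E) x}
    (hR : IsReeb β R) {κ : Fin m → ℝ} (hκ : κ ≠ 0) (x : P) : 0 < A.Q ι κ x := by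
  have h1 := ι.G_nonneg (A.H κ) x
  have h2 := sq_nonneg (A.H κ x)
  rcases (add_nonneg h1 h2).lt_or_eq with h | h
  · exact h
  · exfalso
    have h3 : ι.G (A.H κ) x = 0 := by linarith
    have h4 : (A.H κ x) ^ 2 = 0 := by linarith
    exact A.H_ne_zero_of_crit hc hR hκ (ι.G_eq_zero h3) (pow_eq_zero_iff two_ne_zero |>.1 h4)

/-- uniform positivity over a compact set -/
lemma exists_Q_bound (hc : IsContact β) {R : (x : P) → TangentSpace 𝓘(ℝ, E) x}
    (hR : IsReeb β R) {D : Set P} (hD : IsCompact D) :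
    ∃ μ > (0:ℝ), ∀ x ∈ D, ∀ κ : Fin m → ℝ, μ * ‖κ‖ ^ 2 ≤ A.Q ι κ x := by
  have hcont : Continuous (fun p : P × (Fin m → ℝ) => A.Q ι p.2 p.1) :=
    (A.continuous_G_H ι hc.smooth).add ((A.continuous_H hc.smooth).pow 2)
  have hK : IsCompact (D ×ˢ sphere (0 : Fin m → ℝ) 1) := hD.prod (isCompact_sphere _ _)
  obtain ⟨μ, hμ, h⟩ : ∃ μ > (0:ℝ), ∀ p ∈ D ×ˢ sphere (0 : Fin m → ℝ) 1,
      μ ≤ A.Q ι p.2 p.1 := by
    rcases (D ×ˢ sphere (0 : Fin m → ℝ) 1).eq_empty_or_nonempty with he | hne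
    · exact ⟨1, one_pos, fun p hp => by rw [he] at hp; exact hp.elim⟩
    · obtain ⟨p, hp, hmin⟩ := hK.exists_isMinOn hne hcont.continuousOn
      refine ⟨A.Q ι p.2 p.1, A.Q_pos ι hc hR ?_ _, fun q hq => hmin hq⟩
      intro h0
      have := hp.2
      rw [h0] at this
      simp at this
  refine ⟨μ, hμ, fun x hx κ => ?_⟩
  by_cases hκ : κ = 0
  · subst hκ
    simp only [norm_zero]
    have h1 := ι.G_nonneg (A.H (0 : Fin m → ℝ)) x
    have h2 := sq_nonneg (A.H (0 : Fin m → ℝ) x)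
    unfold Q
    norm_num
    linarith
  · have hn : 0 < ‖κ‖ := norm_pos_iff.2 hκ
    have h1 := h (x, ‖κ‖⁻¹ • κ) ⟨hx, by
      rw [mem_sphere_zero_iff_norm, norm_smul, norm_inv, norm_norm, inv_mul_cancel₀ hn.ne']⟩
    have h2 : A.Q ι κ x = ‖κ‖ ^ 2 * A.Q ι (‖κ‖⁻¹ • κ) x := by
      have e : κ = ‖κ‖ • (‖κ‖⁻¹ • κ) := by rw [smul_smul, mul_inv_cancel₀ hn.ne', one_smul]
      have e1 : ι.G (A.H κ) x = ‖κ‖ ^ 2 * ι.G (A.H (‖κ‖⁻¹ • κ)) x := by
        conv_lhs => rw [e]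
        exact bilin_scale (A.GB ι hc.smooth x) ‖κ‖ (‖κ‖⁻¹ • κ)
      have e2 : A.H κ x = ‖κ‖ * A.H (‖κ‖⁻¹ • κ) x := by
        conv_lhs => rw [e]
        rw [A.H_smul]
      unfold Q
      rw [e1, e2]
      ring
    rw [h2, mul_comm]
    exact mul_le_mul_of_nonneg_left h1 (by positivity)

variable {Γ : Type*} [Group Γ] [MulAction Γ P]

/-- The group normalises the torus and preserves the form. -/
structure Norm (A : TAct β m) (Γ : Type*) [Group Γ] [MulAction Γ P] : Prop where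
  strict : ∀ (γ : Γ) (x : P) (u : TangentSpace 𝓘(ℝ, E) x),
    β (γ • x) (mfderiv 𝓘(ℝ, E) 𝓘(ℝ, E) (fun x : P => γ • x) x u) = β x u
  norm : ∀ γ : Γ, ∃ B : Matrix (Fin m) (Fin m) ℤ, ∀ (θ : Fin m → ℝ) (x : P),
    γ • A.act θ x = A.act ((B.map (Int.cast : ℤ → ℝ)).mulVec θ) (γ • x)

variable {ι} in
lemma H_equiv (𝒟 : Deck ι Γ) (hN : A.Norm Γ) (γ : Γ) :
    ∃ B : (Fin m → ℤ) → (Fin m → ℤ), ∀ (k : Fin m → ℤ) (x : P),
      A.H (fun i => ((B k) i : ℝ)) (γ • x) = A.H (fun i => (k i : ℝ)) x := by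
  obtain ⟨B, hB⟩ := hN.norm γ
  refine ⟨fun k => B.mulVec k, fun k x => ?_⟩
  refine A.H_push (𝒟.smooth γ) ?_ (hN.strict γ) x
  intro t y
  unfold fam
  show γ • A.act (t • fun i => (k i : ℝ)) y = _
  rw [hB]
  congr 1
  rw [Matrix.mulVec_smul]
  congr 1
  ext i
  simp [Matrix.mulVec, dotProduct]

variable {ι} in
/-- **Palais-Smale property.** -/
lemma palaisSmale (hc : IsContact β) {R : (x : P) → TangentSpace 𝓘(ℝ, E) x}
    (hR : IsReeb β R) (𝒟 : Deck ι Γ) (hN : A.Norm Γ)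
    (hno : ∀ k : Fin m → ℤ, k ≠ 0 → ∀ x, dForm 𝓘(ℝ, E) (A.H (fun i => (k i : ℝ))) x ≠ 0)
    (k : Fin m → ℤ) (hk : k ≠ 0) (c : ℝ) :
    ∃ δ > (0:ℝ), ∀ x, |A.H (fun i => (k i : ℝ)) x| ≤ c →
      δ ≤ ι.G (A.H (fun i => (k i : ℝ))) x := by
  obtain ⟨μ, hμ, hQ⟩ := A.exists_Q_bound ι hc hR 𝒟.compact
  -- the finite set of relevant integer vectors
  set S : Set (Fin m → ℤ) := {k' | μ * ‖(fun i => (k' i : ℝ))‖ ^ 2 ≤ 1 + c ^ 2 ∧ k' ≠ 0} with hS
  have hSfin : S.Finite := by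
    obtain ⟨N, hN'⟩ := exists_nat_ge (Real.sqrt ((1 + c ^ 2) / μ))
    refine (Set.finite_Icc (fun _ => -(N:ℤ)) (fun _ : Fin m => (N:ℤ))).subset ?_
    rintro k' ⟨h1, -⟩
    have h2 : ‖(fun i => (k' i : ℝ))‖ ≤ N := by
      refine le_trans ?_ hN'
      apply Real.le_sqrt_of_sq_le
      rw [le_div_iff₀ hμ]
      linarith
    have h3 : ∀ i, |(k' i : ℝ)| ≤ N := fun i => by
      have := norm_le_pi_norm (fun i => (k' i : ℝ)) i
      rw [Real.norm_eq_abs] at this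
      exact this.trans h2
    constructor
    · intro i
      have := (abs_le.1 (h3 i)).1
      exact_mod_cast this
    · intro i
      have := (abs_le.1 (h3 i)).2
      exact_mod_cast this
  have hSc : IsCompact ((fun (k' : Fin m → ℤ) => (fun i => (k' i : ℝ) : Fin m → ℝ)) '' S) :=
    (hSfin.image _).isCompact
  obtain ⟨δ, hδ, h⟩ : ∃ δ > (0:ℝ), ∀ p ∈ 𝒟.D ×ˢ
      ((fun (k' : Fin m → ℤ) => (fun i => (k' i : ℝ) : Fin m → ℝ)) '' S),
      δ ≤ ι.G (A.H p.2) p.1 := by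
    rcases (𝒟.D ×ˢ
      ((fun (k' : Fin m → ℤ) => (fun i => (k' i : ℝ) : Fin m → ℝ)) '' S)).eq_empty_or_nonempty
      with he | hne
    · exact ⟨1, one_pos, fun p hp => by rw [he] at hp; exact hp.elim⟩
    · obtain ⟨p, hp, hmin⟩ := (𝒟.compact.prod hSc).exists_isMinOn hne
        (A.continuous_G_H ι hc.smooth).continuousOn
      refine ⟨ι.G (A.H p.2) p.1, ?_, fun q hq => hmin hq⟩
      rcases (ι.G_nonneg (A.H p.2) p.1).lt_or_eq with h0 | h0
      · exact h0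
      · exfalso
        obtain ⟨k', hk', hk''⟩ := hp.2
        have := ι.G_eq_zero h0.symm
        rw [← hk''] at this
        exact hno k' hk'.2 _ this
  refine ⟨min 1 δ, by positivity, fun x hx => ?_⟩
  by_contra hlt
  push Not at hlt
  obtain ⟨γ, hγ⟩ := 𝒟.cover x
  obtain ⟨B, hB⟩ := A.H_equiv 𝒟 hN γ
  have e1 := hB k
  have e2 : ι.G (A.H (fun i => ((B k) i : ℝ))) (γ • x) = ι.G (A.H (fun i => (k i : ℝ))) x :=
    𝒟.G_push γ (A.smooth_H hc.smooth _) e1 x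
  have e3 : A.Q ι (fun i => ((B k) i : ℝ)) (γ • x) = A.Q ι (fun i => (k i : ℝ)) x := by
    unfold Q
    rw [e1, e2]
  have hk0 : (fun i => (k i : ℝ)) ≠ (0 : Fin m → ℝ) := by
    intro h0
    apply hk
    ext i
    have := congrFun h0 i
    simpa using this
  have hQpos := A.Q_pos ι hc hR hk0 x
  have hmem : B k ∈ S := by
    constructor
    · refine (hQ _ hγ _).trans ?_
      rw [e3]
      unfold Q
      have h1 : ι.G (A.H (fun i => (k i : ℝ))) x ≤ 1 := (hlt.trans_le (min_le_left _ _)).le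
      have h2 : (A.H (fun i => (k i : ℝ)) x) ^ 2 ≤ c ^ 2 := by
        rw [← sq_abs]
        exact pow_le_pow_left₀ (abs_nonneg _) hx 2
      linarith
    · intro h0
      rw [← e3, h0] at hQpos
      have h1 : A.Q ι (fun i => (((0 : Fin m → ℤ) i : ℤ) : ℝ)) (γ • x) = 0 := by
        have : (fun i => (((0 : Fin m → ℤ) i : ℤ) : ℝ)) = (0 : Fin m → ℝ) := by
          ext i; simp
        rw [this]
        unfold Q
        have h2 : A.H (0 : Fin m → ℝ) = fun _ => 0 := by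
          ext1 y
          have := A.H_smul 0 0 y
          rw [zero_smul, zero_mul] at this
          exact this
        have h3 : ι.G (A.H (0 : Fin m → ℝ)) (γ • x) = 0 := by
          unfold Imm.G
          rw [h2, dForm_eq_zero_of_eventually (a := 0) (Filter.Eventually.of_forall fun _ => rfl)]
          rfl
        rw [h3, h2]
        norm_num
      rw [h1] at hQpos
      exact lt_irrefl _ hQpos
  have := h (γ • x, fun i => ((B k) i : ℝ)) ⟨hγ, mem_image_of_mem _ hmem⟩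
  simp only at this
  rw [e2] at this
  exact absurd (hlt.trans_le (min_le_right _ _)) (not_lt.2 this)

end TAct

end Pool.Agent.H826R2.Wein
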