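import Mathlib
import Pool.Agent.H826R2.Wein.PS
import Pool.Agent.H826R2.Wein.Dich
import Pool.Agent.Helper186.Flow

/-! Critical points of integral contact Hamiltonians on manifolds with two ends. -/

open scoped Topology ContDiff Manifold
open Set Metric Bundle Pool.Agent.Helper186

noncomputable section

namespace Pool.Agent.H826R2.Wein

set_option linter.unusedSectionVars false

universe u

variable {E : Type u} [NormedAddCommGroup E] [NormedSpace ℝ E] [FiniteDimensional ℝ E]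
  {P : Type*} [TopologicalSpace P] [ChartedSpace E P] [IsManifold 𝓘(ℝ, E) ∞ P]
  {β : (x : P) → TangentSpace 𝓘(ℝ, E) x →L[ℝ] ℝ} {m : ℕ}

namespace Deck

variable {n : ℕ} {ι : Imm (E := E) P n} {Γ : Type*} [Group Γ] [MulAction Γ P] (𝒟 : Deck ι Γ)

include 𝒟 in
/-- The normalised gradient flow pushes functions up, given a Palais-Smale property. -/
theorem exists_push [T2Space P] [SigmaCompactSpace P] {f : P → ℝ}
    (hf : ContMDiff 𝓘(ℝ, E) 𝓘(ℝ, ℝ) ∞ f)
    (hps : ∀ c : ℝ, ∃ δ > (0:ℝ), ∀ x, |f x| ≤ c → δ ≤ ι.G f x) : Nonempty (Fpush f) := by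
  have : IsManifold 𝓘(ℝ, E) 1 P := IsManifold.of_le (n := ∞) (by simp)
  choose Fl h0 hFl using fun x => 𝒟.complete hf x
  have hcont : Continuous fun p : P × ℝ => Fl p.1 p.2 :=
    (contMDiff_flow (ι.smooth_V hf) h0 hFl).continuous
  have hder : ∀ x t, HasDerivAt (fun s => f (Fl x s))
      (ι.G f (Fl x t) / (1 + ι.G f (Fl x t))) t := by
    intro x t
    have := hasDerivAt_along (W := ι.V f) (hFl x t) hf
    rwa [ι.dForm_V_self] at this
  have hmono : ∀ x, Monotone (fun t => f (Fl x t)) := by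
    intro x
    apply monotone_of_deriv_nonneg (fun t => (hder x t).differentiableAt)
    intro t
    rw [(hder x t).deriv]
    have := ι.G_nonneg f (Fl x t)
    positivity
  refine ⟨⟨Fl, h0, fun x s t => flow_add (ι.smooth_V hf) h0 hFl x s t, hcont, hmono, ?_⟩⟩
  intro c
  obtain ⟨δ, hδ, h⟩ := hps c
  set T := (2 * |c| + 1) * (1 + δ) / δ with hT
  have hT0 : 0 < T := by positivity
  refine ⟨T, hT0.le, fun x hx => ?_⟩
  by_contra hlt
  push Not at hlt
  obtain ⟨s, hs, hs'⟩ := exists_hasDerivAt_eq_slope (fun t => f (Fl x t)) _ hT0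
    (fun t _ => (hder x t).continuousAt.continuousWithinAt) (fun t _ => hder x t)
  have h1 : f (Fl x 0) ≤ f (Fl x s) := hmono x hs.1.le
  have h2 : f (Fl x s) ≤ f (Fl x T) := hmono x hs.2.le
  rw [h0] at h1
  have h3 : |f (Fl x s)| ≤ c := abs_le.2 ⟨by linarith, by linarith⟩
  have hc : |c| = c := abs_of_nonneg ((abs_nonneg _).trans h3)
  have h4 := h _ h3
  have h5 : δ / (1 + δ) ≤ ι.G f (Fl x s) / (1 + ι.G f (Fl x s)) := by
    rw [div_le_div_iff₀ (by positivity) (by linarith)]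
    nlinarith
  rw [hs', sub_zero, h0, le_div_iff₀ hT0] at h5
  have h6 : δ / (1 + δ) * T = 2 * |c| + 1 := by
    rw [hT]; field_simp
  rw [h6, hc] at h5
  linarith

end Deck

namespace TAct

variable (A : TAct β m) {n : ℕ} {ι : Imm (E := E) P n} {Γ : Type*} [Group Γ] [MulAction Γ P]

/-- The vector with integer entries as a real vector. -/
def rv (k : Fin m → ℤ) : Fin m → ℝ := fun i => (k i : ℝ)

lemma rv_sub (k l : Fin m → ℤ) : (rv (k - l) : Fin m → ℝ) = rv k - rv l := by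
  ext i; simp [rv]

lemma H_sub (κ κ' : Fin m → ℝ) (x : P) : A.H (κ - κ') x = A.H κ x - A.H κ' x := by
  have h1 := A.H_add (κ - κ') κ' x
  rw [sub_add_cancel] at h1
  linarith

/-- If `f` is larger than its translate in absolute value outside a compact set, then `f` is not
proper. -/
lemma no_domination (𝒟 : Deck ι Γ) {f : P → ℝ} (hf : Continuous f)
    (hprop : ∀ c : ℝ, ∃ K, IsCompact K ∧ ∀ x, x ∉ K → c < |f x|)
    (hnc : ∀ K : Set P, IsCompact K → ∃ x, x ∉ K) (g : Γ)
    {K : Set P} (hK : IsCompact K) (hdom : ∀ x, x ∉ K → |f (g • x)| < |f x|) : False := by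
  have hgc : Continuous (fun x : P => g • x) := (𝒟.smooth g).continuous
  obtain ⟨b, hb⟩ : ∃ b : ℝ, ∀ z ∈ K, |f (g • z)| < b := by
    obtain ⟨b, hb⟩ := (hK.image (hf.comp hgc).abs).bddAbove
    exact ⟨b + 1, fun z hz => by
      have h1 := hb (mem_image_of_mem _ hz)
      simp only [Function.comp] at h1
      linarith⟩
  obtain ⟨K1, hK1, h1⟩ := hprop b
  obtain ⟨y, hy⟩ := hnc _ (hK1.union hK)
  have hyb : b < |f y| := h1 y (fun h => hy (Or.inl h))
  have hyK : y ∉ K := fun h => hy (Or.inr h)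
  have hdec : ∀ i : ℕ, |f (g ^ (i + 1) • y)| < |f y| := by
    intro i
    induction i with
    | zero => simpa using hdom y hyK
    | succ i ih =>
      have e : g ^ (i + 1 + 1) • y = g • (g ^ (i + 1) • y) := by
        rw [smul_smul, ← pow_succ']
      rw [e]
      by_cases hi : g ^ (i + 1) • y ∈ K
      · exact (hb _ hi).trans hyb
      · exact (hdom _ hi).trans ih
  obtain ⟨K2, hK2, h2⟩ := hprop |f y|
  have hfin := 𝒟.fin y K2 hK2
  have hmap : MapsTo (fun i : ℕ => g ^ i • y) univ {z ∈ K2 | ∃ γ : Γ, γ • y = z} := by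
    intro i _
    refine ⟨?_, g ^ i, rfl⟩
    by_contra hi
    have h3 := h2 _ hi
    cases i with
    | zero => simp at h3
    | succ i => exact lt_irrefl _ (h3.trans (hdec i))
  obtain ⟨i, -, j, -, hij, he⟩ := Set.infinite_univ.exists_ne_map_eq_of_mapsTo hmap hfin
  have key : ∀ i j : ℕ, i < j → g ^ i • y = g ^ j • y → False := by
    intro i j hlt he
    obtain ⟨d, rfl⟩ := Nat.exists_eq_add_of_lt hlt
    have e1 : g ^ (i + d + 1) • y = g ^ i • (g ^ (d + 1) • y) := by
      rw [smul_smul, ← pow_add]; rfl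
    rw [e1] at he
    have e2 := (MulAction.injective (g ^ i)) he
    have := hdec d
    rw [← e2] at this
    exact lt_irrefl _ this
  rcases lt_or_gt_of_ne hij with h | h
  · exact key i j h he
  · exact key j i h he.symm

/-- Two integral Hamiltonians going to infinity in the same direction, with a difference doing the
same. -/
lemma no_same_direction (hc : IsContact β) (𝒟 : Deck ι Γ) {C U V : Set P}
    (hE : TwoEnds C U V) {k₀ k1 k2 : Fin m → ℤ} {γ1 γ2 : Γ}
    (h1 : ∀ x, A.H (rv k1) (γ1 • x) = A.H (rv k₀) x)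
    (h2 : ∀ x, A.H (rv k2) (γ2 • x) = A.H (rv k₀) x)
    (hU1 : ∀ c, Fpush.Up (A.H (rv k1)) U V c) (hU2 : ∀ c, Fpush.Up (A.H (rv k2)) U V c)
    (hU3 : ∀ c, Fpush.Up (A.H (rv (k1 - k2))) U V c) : False := by
  have hcov : ∀ x : P, x ∉ C → x ∈ U ∨ x ∈ V := by
    intro x hx
    have : x ∈ U ∪ V := by rw [hE.union]; exact hx
    exact this
  have hnc : ∀ K : Set P, IsCompact K → ∃ x, x ∉ K := by
    intro K hK
    obtain ⟨x, -, hx⟩ := not_subset.1 (hE.ncU K hK)
    exact ⟨x, hx⟩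
  obtain ⟨K1, hK1, a1, b1⟩ := hU1 0
  obtain ⟨K2, hK2, a2, b2⟩ := hU2 0
  obtain ⟨K3, hK3, a3, b3⟩ := hU3 0
  refine no_domination 𝒟 (f := A.H (rv k1)) (A.smooth_H hc.smooth _).continuous ?_ hnc
    (γ1 * γ2⁻¹) (((hK1.union hK2).union hK3).union hE.compact) ?_
  · intro c
    obtain ⟨K, hK, a, b⟩ := hU1 c
    refine ⟨K ∪ C, hK.union hE.compact, fun x hx => ?_⟩
    rcases hcov x (fun hh => hx (Or.inr hh)) with hxU | hxV
    · exact (a x hxU (fun hh => hx (Or.inl hh))).trans_le (le_abs_self _)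
    · have := b x hxV (fun hh => hx (Or.inl hh))
      have h3 := neg_le_abs (A.H (rv k1) x)
      linarith
  · intro x hx
    simp only [mem_union, not_or] at hx
    have e : A.H (rv k1) ((γ1 * γ2⁻¹) • x) = A.H (rv k2) x := by
      rw [mul_smul, h1, ← h2, smul_inv_smul]
    rw [e]
    have e3 : A.H (rv (k1 - k2)) x = A.H (rv k1) x - A.H (rv k2) x := by
      rw [rv_sub, A.H_sub]
    rcases hcov x hx.2 with hxU | hxV
    · have c1 := a1 x hxU hx.1.1.1
      have c2 := a2 x hxU hx.1.1.2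
      have c3 := a3 x hxU hx.1.2
      rw [e3] at c3
      rw [abs_of_pos c1, abs_of_pos c2]
      linarith
    · have c1 := b1 x hxV hx.1.1.1
      have c2 := b2 x hxV hx.1.1.2
      have c3 := b3 x hxV hx.1.2
      rw [e3] at c3
      rw [abs_of_neg (by linarith), abs_of_neg (by linarith)]
      linarith

/-- **Critical points, two ends.** -/
theorem exists_crit_two_ends [T2Space P] [SigmaCompactSpace P] [PathConnectedSpace P]
    (hc : IsContact β) {R : (x : P) → TangentSpace 𝓘(ℝ, E) x}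
    (hR : IsReeb β R) (𝒟 : Deck ι Γ) (hN : A.Norm Γ) {C U V : Set P} (hE : TwoEnds C U V)
    (hm : 0 < m) :
    ∃ k : Fin m → ℤ, k ≠ 0 ∧ ∃ x, dForm 𝓘(ℝ, E) (A.H (rv k)) x = 0 := by
  by_contra hno
  push Not at hno
  have hps := fun k hk c => A.palaisSmale hc hR 𝒟 hN hno k hk c
  have hd : ∀ k : Fin m → ℤ, k ≠ 0 →
      (∀ c, Fpush.Up (A.H (rv k)) U V c) ∨ (∀ c, Fpush.Up (A.H (rv k)) V U c) := by
    intro k hk
    obtain ⟨F⟩ := 𝒟.exists_push (A.smooth_H hc.smooth (rv k)) (hps k hk)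
    exact F.dich (A.smooth_H hc.smooth _).continuous hE
  -- the orbit of a nonzero vector
  set k₀ : Fin m → ℤ := fun _ => 1 with hk₀
  have hk₀0 : k₀ ≠ 0 := by
    intro h
    have := congrFun h ⟨0, hm⟩
    simp [hk₀] at this
  have ho : ∀ γ : Γ, ∃ k : Fin m → ℤ, ∀ x, A.H (rv k) (γ • x) = A.H (rv k₀) x := by
    intro γ
    obtain ⟨B, hB⟩ := A.H_equiv 𝒟 hN γ
    exact ⟨B k₀, fun x => hB k₀ x⟩
  choose o ho using ho
  have ho0 : ∀ γ, o γ ≠ 0 := by
    intro γ h0
    obtain ⟨x, -, -⟩ := not_subset.1 (hE.ncU ∅ isCompact_empty)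
    have hcrit : dForm 𝓘(ℝ, E) (A.H (rv k₀)) x = 0 := by
      apply dForm_eq_zero_of_eventually (a := 0)
      refine Filter.Eventually.of_forall fun y => ?_
      rw [← ho γ y, h0]
      have e1 : (rv (0 : Fin m → ℤ) : Fin m → ℝ) = (0:ℝ) • (0 : Fin m → ℝ) := by
        ext i; simp [rv]
      rw [e1, A.H_smul, zero_mul]
    exact hno k₀ hk₀0 x hcrit
  rcases Set.finite_or_infinite (range o) with hfin | hinf
  · -- bounded
    have hcomp : IsCompact (𝒟.D ×ˢ (rv '' range o)) := 𝒟.compact.prod (hfin.image _).isCompact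
    obtain ⟨b, hb⟩ := (hcomp.image (A.continuous_H hc.smooth).abs).bddAbove
    have hbd : ∀ x, |A.H (rv k₀) x| ≤ b := by
      intro x
      obtain ⟨γ, hγ⟩ := 𝒟.cover x
      rw [← ho γ x]
      exact hb ⟨(γ • x, rv (o γ)), ⟨hγ, o γ, ⟨γ, rfl⟩, rfl⟩, rfl⟩
    rcases hd k₀ hk₀0 with h | h
    · obtain ⟨K, hK, a, -⟩ := h b
      obtain ⟨x, hxU, hxK⟩ := not_subset.1 (hE.ncU K hK)
      have h1 := a x hxU hxK
      exact absurd ((le_abs_self _).trans (hbd x)) (not_le.2 h1)
    · obtain ⟨K, hK, a, -⟩ := h b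
      obtain ⟨x, hxV, hxK⟩ := not_subset.1 (hE.ncV K hK)
      have h1 := a x hxV hxK
      exact absurd ((le_abs_self _).trans (hbd x)) (not_le.2 h1)
  · obtain ⟨_, ⟨γ1, rfl⟩, _, ⟨γ2, rfl⟩, hne, heq⟩ := hinf.exists_ne_map_eq_of_mapsTo
      (f := fun k => ∀ c, Fpush.Up (A.H (rv k)) U V c) (t := (univ : Set Prop))
      (mapsTo_univ _ _) finite_univ
    have hsub : ∀ k l : Fin m → ℤ, k ≠ l → k - l ≠ 0 := fun k l h h0 => h (sub_eq_zero.1 h0)
    have hflip : ∀ (k l : Fin m → ℤ) (U' V' : Set P) (c : ℝ),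
        Fpush.Up (A.H (rv (k - l))) V' U' c → Fpush.Up (A.H (rv (l - k))) U' V' c := by
      rintro k l U' V' c ⟨K, hK, a, b⟩
      have e : ∀ x, A.H (rv (l - k)) x = - A.H (rv (k - l)) x := by
        intro x
        rw [rv_sub, rv_sub, A.H_sub, A.H_sub]; ring
      refine ⟨K, hK, fun x hx hxK => ?_, fun x hx hxK => ?_⟩
      · rw [e]; have := b x hx hxK; linarith
      · rw [e]; have := a x hx hxK; linarith
    by_cases h1 : ∀ c, Fpush.Up (A.H (rv (o γ1))) U V c
    · have h2 : ∀ c, Fpush.Up (A.H (rv (o γ2))) U V c := by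
        have := heq ▸ h1
        exact this
      rcases hd _ (hsub _ _ hne) with h3 | h3
      · exact A.no_same_direction hc 𝒟 hE (ho γ1) (ho γ2) h1 h2 h3
      · exact A.no_same_direction hc 𝒟 hE (ho γ2) (ho γ1) h2 h1 (fun c => hflip _ _ _ _ c (h3 c))
    · have h2 : ¬ ∀ c, Fpush.Up (A.H (rv (o γ2))) U V c := by
        intro h
        apply h1
        have := heq.symm ▸ h
        exact this
      have h1' := (hd _ (ho0 γ1)).resolve_left h1
      have h2' := (hd _ (ho0 γ2)).resolve_left h2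
      rcases hd _ (hsub _ _ hne) with h3 | h3
      · exact A.no_same_direction hc 𝒟 hE.symm (ho γ2) (ho γ1) h2' h1'
          (fun c => hflip _ _ _ _ c (h3 c))
      · exact A.no_same_direction hc 𝒟 hE.symm (ho γ1) (ho γ2) h1' h2' h3

include ι in
/-- **Critical points, compact case.** -/
theorem exists_crit_compact [T2Space P] [CompactSpace P] [Nonempty P]
    (hβ : SmoothForm β) (κ : Fin m → ℝ) :
    ∃ x, dForm 𝓘(ℝ, E) (A.H κ) x = 0 := by
  obtain ⟨x, -, hx⟩ := isCompact_univ.exists_isMaxOn univ_nonempty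
    (A.smooth_H hβ κ).continuous.continuousOn
  refine ⟨x, ?_⟩
  obtain ⟨c, hc0, hc⟩ := complete_of_compact (ι.smooth_V (A.smooth_H hβ κ)) isCompact_univ
    (fun y hy => (hy (mem_univ y)).elim) x
  have h1 := hasDerivAt_along (W := ι.V (A.H κ)) (hc 0) (A.smooth_H hβ κ)
  have h2 : IsLocalMax (fun s => A.H κ (c s)) 0 := by
    refine Filter.Eventually.of_forall fun s => ?_
    show A.H κ (c s) ≤ A.H κ (c 0)
    rw [hc0]
    exact hx (mem_univ _)
  have h3 := h2.hasDerivAt_eq_zero h1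
  rw [ι.dForm_V_self, hc0] at h3
  have h4 := ι.G_nonneg (A.H κ) x
  have h5 : ι.G (A.H κ) x = 0 := by
    rcases div_eq_zero_iff.1 h3 with h | h
    · exact h
    · linarith
  exact ι.G_eq_zero h5

end TAct

end Pool.Agent.H826R2.Wein
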