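import Mathlib
import Pool.Agent.H826R2.Wein.Top

/-! Periodic Reeb orbits for contact forms with a torus symmetry on a covering. -/

open scoped Topology ContDiff Manifold
open Set Metric Bundle Pool.Agent.Helper186

noncomputable section

namespace Pool.Agent.H826R2.Wein

set_option linter.unusedSectionVars false

universe u

variable {E : Type u} [NormedAddCommGroup E] [NormedSpace ℝ E] [FiniteDimensional ℝ E]
  {M : Type*} [TopologicalSpace M] [ChartedSpace E M] [IsManifold 𝓘(ℝ, E) ∞ M]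
  {P : Type*} [TopologicalSpace P] [ChartedSpace E P] [IsManifold 𝓘(ℝ, E) ∞ P]

/-- `q : P → M` is a surjective local diffeomorphism whose fibres are the orbits of a group `Γ` of
diffeomorphisms of `P` (for instance a regular covering with deck group `Γ`). -/
structure RegCover (q : P → M) (Γ : Type*) [Group Γ] [MulAction Γ P] : Prop where
  surj : Function.Surjective q
  diffeo : IsLocalDiffeomorph 𝓘(ℝ, E) 𝓘(ℝ, E) ∞ q
  smooth : ∀ γ : Γ, ContMDiff 𝓘(ℝ, E) 𝓘(ℝ, E) ∞ (fun x : P => γ • x)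
  fibre : ∀ x y : P, q x = q y ↔ ∃ γ : Γ, γ • x = y

namespace RegCover

variable {q : P → M} {Γ : Type*} [Group Γ] [MulAction Γ P] (hq : RegCover (E := E) q Γ)

include hq

lemma contMDiff : ContMDiff 𝓘(ℝ, E) 𝓘(ℝ, E) ∞ q := hq.diffeo.contMDiff

lemma mdiff (x : P) : MDifferentiableAt 𝓘(ℝ, E) 𝓘(ℝ, E) q x :=
  hq.contMDiff.mdifferentiableAt (by simp)

lemma inj (x : P) : Function.Injective (mfderiv 𝓘(ℝ, E) 𝓘(ℝ, E) q x) := by
  have h := IsLocalDiffeomorphAt.mfderivToContinuousLinearEquiv_coe (hq.diffeo x) (by simp)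
  have h2 := (IsLocalDiffeomorphAt.mfderivToContinuousLinearEquiv (hq.diffeo x) (by simp)).injective
  intro u v huv
  apply h2
  have e : ∀ w, IsLocalDiffeomorphAt.mfderivToContinuousLinearEquiv (hq.diffeo x) (by simp) w =
      mfderiv 𝓘(ℝ, E) 𝓘(ℝ, E) q x w := fun w => DFunLike.congr_fun h w
  rw [e, e, huv]

lemma surjD (x : P) : Function.Surjective (mfderiv 𝓘(ℝ, E) 𝓘(ℝ, E) q x) := by
  have h := IsLocalDiffeomorphAt.mfderivToContinuousLinearEquiv_coe (hq.diffeo x) (by simp)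
  have h2 := (IsLocalDiffeomorphAt.mfderivToContinuousLinearEquiv (hq.diffeo x) (by simp)).surjective
  intro v
  obtain ⟨u, hu⟩ := h2 v
  have e : ∀ w, IsLocalDiffeomorphAt.mfderivToContinuousLinearEquiv (hq.diffeo x) (by simp) w =
      mfderiv 𝓘(ℝ, E) 𝓘(ℝ, E) q x w := fun w => DFunLike.congr_fun h w
  exact ⟨u, (e u).symm.trans hu⟩

lemma proj_smul (γ : Γ) (x : P) : q (γ • x) = q x := ((hq.fibre x (γ • x)).2 ⟨γ, rfl⟩).symm

lemma isContact_pull {α : (x : M) → TangentSpace 𝓘(ℝ, E) x →L[ℝ] ℝ} (hα : IsContact α) :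
    IsContact (pullForm 𝓘(ℝ, E) 𝓘(ℝ, E) q α) where
  smooth := smoothForm_pull hq.contMDiff hα.smooth
  ne_zero := by
    intro x h
    apply hα.ne_zero (q x)
    refine ContinuousLinearMap.ext fun v => ?_
    obtain ⟨u, rfl⟩ := hq.surjD x v
    exact DFunLike.congr_fun h u
  nondeg := by
    intro x u hu h
    apply hq.inj x
    rw [map_zero]
    apply hα.nondeg (q x)
    · exact hu
    · intro v hv
      obtain ⟨w, rfl⟩ := hq.surjD x v
      rw [← extDer_pull hq.contMDiff hα.smooth]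
      exact h w hv

/-- the lift of a vector field -/
def _root_.Pool.Agent.H826R2.Wein.liftField (hq : RegCover (E := E) q Γ)
    (R : (x : M) → TangentSpace 𝓘(ℝ, E) x) (x : P) :
    TangentSpace 𝓘(ℝ, E) x := Classical.choose (hq.surjD x (R (q x)))

lemma liftField_spec (R : (x : M) → TangentSpace 𝓘(ℝ, E) x) (x : P) :
    mfderiv 𝓘(ℝ, E) 𝓘(ℝ, E) q x (liftField hq R x) = R (q x) :=
  Classical.choose_spec (hq.surjD x (R (q x)))

lemma isReeb_lift {α : (x : M) → TangentSpace 𝓘(ℝ, E) x →L[ℝ] ℝ} (hα : IsContact α)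
    {R : (x : M) → TangentSpace 𝓘(ℝ, E) x} (hR : IsReeb α R) :
    IsReeb (pullForm 𝓘(ℝ, E) 𝓘(ℝ, E) q α) (liftField hq R) where
  unit := by
    intro x
    rw [pullForm_apply, hq.liftField_spec, hR.unit]
  kernel := by
    intro x v
    rw [extDer_pull hq.contMDiff hα.smooth, hq.liftField_spec, hR.kernel]

lemma closed_proj {R : (x : M) → TangentSpace 𝓘(ℝ, E) x}
    (h : ∃ (c : ℝ → P) (T : ℝ), 0 < T ∧ IsMIntegralCurve (I := 𝓘(ℝ, E)) c (liftField hq R) ∧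
      ∀ t, c (t + T) = c t) :
    ∃ (c : ℝ → M) (T : ℝ), 0 < T ∧ IsMIntegralCurve (I := 𝓘(ℝ, E)) c R ∧
      ∀ t, c (t + T) = c t := by
  obtain ⟨c, T, hT, hc, hper⟩ := h
  refine ⟨fun t => q (c t), T, hT, ?_, fun t => congrArg q (hper t)⟩
  intro t
  have h2 := HasMFDerivAt.comp t (g := q) (f := c) (hq.mdiff (c t)).hasMFDerivAt (hc t)
  refine h2.congr_mfderiv ?_
  refine ContinuousLinearMap.ext fun (r : ℝ) => ?_
  show mfderiv 𝓘(ℝ, E) 𝓘(ℝ, E) q (c t) (r • liftField hq R (c t)) = r • R (q (c t))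
  rw [map_smul, hq.liftField_spec]

lemma exists_imm [T2Space M] [CompactSpace M] :
    ∃ (n : ℕ) (ι : Imm (E := E) P n), ∀ x y, q x = q y → ι.F x = ι.F y := by
  obtain ⟨n, e, he, -, hinj⟩ := exists_embedding_euclidean_of_compact (I := 𝓘(ℝ, E)) (M := M)
  refine ⟨n, ⟨e ∘ q, he.comp hq.contMDiff, ?_⟩, fun x y h => congrArg e h⟩
  intro x
  have h1 : mfderiv 𝓘(ℝ, E) 𝓘(ℝ, EuclideanSpace ℝ (Fin n)) (e ∘ q) x =
      (mfderiv 𝓘(ℝ, E) 𝓘(ℝ, EuclideanSpace ℝ (Fin n)) e (q x)).comp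
        (mfderiv 𝓘(ℝ, E) 𝓘(ℝ, E) q x) :=
    mfderiv_comp _ (he.mdifferentiableAt (by simp)) (hq.mdiff x)
  rw [h1]
  exact (hinj (q x)).comp (hq.inj x)

/-- A compact fundamental domain. -/
lemma exists_domain [CompactSpace M] : ∃ D : Set P, IsCompact D ∧ ∀ x : P, ∃ γ : Γ, γ • x ∈ D := by
  have : LocallyCompactSpace P := ChartedSpace.locallyCompactSpace E P
  choose K hK hxK using fun x : P => exists_compact_mem_nhds x
  have hopen := hq.diffeo.isOpenMap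
  obtain ⟨t, ht⟩ := isCompact_univ.elim_finite_subcover (fun x : P => q '' interior (K x))
    (fun x => hopen _ isOpen_interior) (by
      intro y _
      obtain ⟨x, rfl⟩ := hq.surj y
      exact mem_iUnion.2 ⟨x, x, mem_interior_iff_mem_nhds.2 (hxK x), rfl⟩)
  refine ⟨⋃ x ∈ t, K x, t.isCompact_biUnion fun x _ => hK x, fun x => ?_⟩
  have h1 := ht (mem_univ (q x))
  simp only [mem_iUnion] at h1
  obtain ⟨z, hz, y, hy, hyx⟩ := h1
  obtain ⟨γ, hγ⟩ := (hq.fibre x y).1 hyx.symm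
  refine ⟨γ, ?_⟩
  rw [hγ]
  simp only [mem_iUnion]
  exact ⟨z, hz, interior_subset hy⟩

/-- Fibres meet compact sets in finite sets. -/
lemma finite_fibre (x : P) {K : Set P} (hK : IsCompact K) :
    {y ∈ K | ∃ γ : Γ, γ • x = y}.Finite := by
  have hloc : ∀ z : P, ∃ O : Set P, IsOpen O ∧ z ∈ O ∧ InjOn q O := by
    intro z
    obtain ⟨Φ, hz, hΦ⟩ := hq.diffeo z
    refine ⟨Φ.source, Φ.open_source, hz, ?_⟩
    intro a ha b hb hab
    rw [hΦ ha, hΦ hb] at hab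
    exact Φ.toPartialEquiv.injOn ha hb hab
  choose O hO hzO hinj using hloc
  obtain ⟨t, ht⟩ := hK.elim_finite_subcover O hO (fun z _ => mem_iUnion.2 ⟨z, hzO z⟩)
  refine (t.finite_toSet.biUnion (t := fun z => {y ∈ O z | ∃ γ : Γ, γ • x = y}) ?_).subset ?_
  · intro z _
    apply Set.Subsingleton.finite
    rintro a ⟨ha, γ, hγ⟩ b ⟨hb, γ', hγ'⟩
    apply hinj z ha hb
    rw [← hγ, ← hγ', hq.proj_smul, hq.proj_smul]
  · rintro y ⟨hyK, hy⟩
    have := ht hyK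
    simp only [mem_iUnion] at this ⊢
    obtain ⟨z, hz, hyz⟩ := this
    exact ⟨z, hz, hyz, hy⟩

lemma exists_deck [T2Space M] [CompactSpace M] :
    ∃ (n : ℕ) (ι : Imm (E := E) P n), Nonempty (Deck ι Γ) := by
  obtain ⟨n, ι, hι⟩ := hq.exists_imm
  obtain ⟨D, hD, hcov⟩ := hq.exists_domain
  exact ⟨n, ι, ⟨⟨hq.smooth, fun γ x => hι _ _ (hq.proj_smul γ x), D, hD, hcov,
    fun x K hK => hq.finite_fibre x hK⟩⟩⟩

lemma strict (α : (x : M) → TangentSpace 𝓘(ℝ, E) x →L[ℝ] ℝ) (γ : Γ) (x : P)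
    (u : TangentSpace 𝓘(ℝ, E) x) :
    pullForm 𝓘(ℝ, E) 𝓘(ℝ, E) q α (γ • x)
      (mfderiv 𝓘(ℝ, E) 𝓘(ℝ, E) (fun x : P => γ • x) x u) =
    pullForm 𝓘(ℝ, E) 𝓘(ℝ, E) q α x u := by
  have h1 : mfderiv 𝓘(ℝ, E) 𝓘(ℝ, E) (q ∘ fun x : P => γ • x) x =
      (mfderiv 𝓘(ℝ, E) 𝓘(ℝ, E) q (γ • x)).comp
        (mfderiv 𝓘(ℝ, E) 𝓘(ℝ, E) (fun x : P => γ • x) x) :=
    mfderiv_comp _ (hq.mdiff _) ((hq.smooth γ).mdifferentiableAt (by simp))
  have h2 : q ∘ (fun x : P => γ • x) = q := by ext1 y; exact hq.proj_smul γ y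
  have h3 : (mfderiv 𝓘(ℝ, E) 𝓘(ℝ, E) (q ∘ fun x : P => γ • x) x u : E) =
      (mfderiv 𝓘(ℝ, E) 𝓘(ℝ, E) q x u : E) := by rw [h2]
  have h4 : (mfderiv 𝓘(ℝ, E) 𝓘(ℝ, E) q (γ • x)
      (mfderiv 𝓘(ℝ, E) 𝓘(ℝ, E) (fun x : P => γ • x) x u) : E) =
      (mfderiv 𝓘(ℝ, E) 𝓘(ℝ, E) q x u : E) := by
    rw [← h3, h1]; rfl
  rw [pullForm_apply, pullForm_apply]
  have h5 : ∀ (z z' : M) (w w' : E), z = z' → w = w' → α z w = α z' w' := by
    rintro z _ w _ rfl rfl; rfl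
  exact h5 _ _ _ _ (hq.proj_smul γ x) h4

end RegCover

/-- **Main theorem.** -/
theorem exists_closed_orbit [T2Space M] [CompactSpace M]
    {α : (x : M) → TangentSpace 𝓘(ℝ, E) x →L[ℝ] ℝ} (hα : IsContact α)
    {R : (x : M) → TangentSpace 𝓘(ℝ, E) x} (hR : IsReeb α R)
    [T2Space P] [SigmaCompactSpace P] [ConnectedSpace P]
    {Γ : Type*} [Group Γ] [MulAction Γ P] {q : P → M} (hq : RegCover (E := E) q Γ)
    {m : ℕ} (hm : 0 < m) (A : TAct (pullForm 𝓘(ℝ, E) 𝓘(ℝ, E) q α) m)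
    (hA : ∀ γ : Γ, ∃ B : Matrix (Fin m) (Fin m) ℤ, ∀ (θ : Fin m → ℝ) (x : P),
      γ • A.act θ x = A.act ((B.map (Int.cast : ℤ → ℝ)).mulVec θ) (γ • x))
    (hE : CompactSpace P ∨ ∃ C U V : Set P, TwoEnds C U V) :
    ∃ (c : ℝ → M) (T : ℝ), 0 < T ∧ IsMIntegralCurve (I := 𝓘(ℝ, E)) c R ∧
      ∀ t, c (t + T) = c t := by
  have : LocallyPathConnectedSpace P := ChartedSpace.locallyPathConnectedSpace E P
  have : PathConnectedSpace P := pathConnectedSpace_iff_connectedSpace.2 inferInstance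
  obtain ⟨n, ι, ⟨𝒟⟩⟩ := hq.exists_deck
  have hN : A.Norm Γ := ⟨hq.strict α, hA⟩
  have hcP := hq.isContact_pull hα
  have hRP := hq.isReeb_lift hα hR
  apply hq.closed_proj
  obtain ⟨k, hk, x, hx⟩ : ∃ k : Fin m → ℤ, k ≠ 0 ∧ ∃ x, dForm 𝓘(ℝ, E) (A.H (TAct.rv k)) x = 0 := by
    rcases hE with h | ⟨C, U, V, h⟩
    · refine ⟨fun _ => 1, ?_, A.exists_crit_compact (ι := ι) hcP.smooth _⟩
      intro h0
      have := congrFun h0 ⟨0, hm⟩
      simp at this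
    · exact A.exists_crit_two_ends hcP hRP 𝒟 hN h hm
  exact A.closed_of_crit hcP hRP hk hx

end Pool.Agent.H826R2.Wein
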