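import Mathlib

/-! Definitions for the statements about the Weinstein conjecture.

The model space is a finite-dimensional real normed space `E`, manifolds are modelled on `E` without
boundary. Mathlib's tangent space at a point of such a manifold is the vector space `E` itself
(identified through the preferred chart at the point). -/

open scoped Topology ContDiff Manifold
open Set

noncomputable section

namespace Pool.Agent.H826R2.WStmt

/-- covectors -/
def Cov (E : Type*) [NormedAddCommGroup E] [NormedSpace ℝ E] : Type _ := E →L[ℝ] ℝ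

section

variable {E : Type*} [NormedAddCommGroup E] [NormedSpace ℝ E]
  {E' : Type*} [NormedAddCommGroup E'] [NormedSpace ℝ E']
  {M : Type*} [TopologicalSpace M] [ChartedSpace E M]
  {N : Type*} [TopologicalSpace N] [ChartedSpace E' N]

/-- value of a covector on a vector -/
def ev (a : Cov E) (v : E) : ℝ := (show E →L[ℝ] ℝ from a) v

/-- the derivative of a map between manifolds at a point -/
def D (f : M → N) (x : M) : E →L[ℝ] E' := mfderiv 𝓘(ℝ, E) 𝓘(ℝ, E') f x

/-- pull back of a one-form: `(f^*α)_x = α_{f x} ∘ Df_x` -/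
def pull (f : M → N) (α : N → Cov E') (x : M) : Cov E :=
  (show E' →L[ℝ] ℝ from α (f x)).comp (D f x)

/-- the one-form `α`, given by a covector at each point, is smooth (as a function on the tangent
bundle) -/
def SmoothForm [IsManifold 𝓘(ℝ, E) ∞ M] (α : M → Cov E) : Prop :=
  ContMDiff 𝓘(ℝ, E).tangent 𝓘(ℝ, ℝ) ∞ (fun v : TangentBundle 𝓘(ℝ, E) M => ev (α v.1) v.2)

/-- the one-form `α` read in the preferred chart at the point `x` -/
def inChart (α : M → Cov E) (x : M) (y : E) : E →L[ℝ] ℝ :=
  pull (extChartAt 𝓘(ℝ, E) x).symm α y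

/-- the derivative of the coefficients of the one-form `α` in the chart at `x`, at the point `x` -/
def dCoeff (α : M → Cov E) (x : M) (u v : E) : ℝ :=
  fderiv ℝ (inChart α x) (extChartAt 𝓘(ℝ, E) x x) u v

/-- the exterior derivative: `dα(u,v) = (D_u α)(v) - (D_v α)(u)` in the chart at the point -/
def extDer (α : M → Cov E) (x : M) (u v : E) : ℝ := dCoeff α x u v - dCoeff α x v u

/-- `α` is a contact form: a smooth nowhere vanishing one-form whose exterior derivative is
nondegenerate on the kernel of `α`. -/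
structure IsContact [IsManifold 𝓘(ℝ, E) ∞ M] (α : M → Cov E) : Prop where
  smooth : SmoothForm α
  ne_zero : ∀ x, ∃ v, ev (α x) v ≠ 0
  nondeg : ∀ (x : M) (u : E), ev (α x) u = 0 → (∀ v, ev (α x) v = 0 → extDer α x u v = 0) → u = 0

/-- `R` is the Reeb vector field of the contact form `α`: `α(R) = 1`, `dα(R, ·) = 0`. -/
structure IsReeb (α : M → Cov E) (R : M → E) : Prop where
  unit : ∀ x, ev (α x) (R x) = 1
  kernel : ∀ (x : M) (v : E), extDer α x (R x) v = 0

/-- `c` is a periodic orbit of the vector field `R`. -/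
structure IsPeriodicOrbit (R : M → E) (c : ℝ → M) (T : ℝ) : Prop where
  pos : 0 < T
  integral : IsMIntegralCurve (I := 𝓘(ℝ, E)) c (fun x => (R x : TangentSpace 𝓘(ℝ, E) x))
  period : ∀ t, c (t + T) = c t

end

section

variable {E : Type*} [NormedAddCommGroup E] [NormedSpace ℝ E]
  {M : Type*} [TopologicalSpace M] [ChartedSpace E M]
  {P : Type*} [TopologicalSpace P] [ChartedSpace E P]

/-- joint smoothness of an action of the vector group `ℝ^m` -/
def SmoothAct (E : Type*) [NormedAddCommGroup E] [NormedSpace ℝ E]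
    {P : Type*} [TopologicalSpace P] [ChartedSpace E P] {m : ℕ}
    (act : (Fin m → ℝ) → P → P) : Prop :=
  ContMDiff (𝓘(ℝ, Fin m → ℝ).prod 𝓘(ℝ, E)) 𝓘(ℝ, E) ∞
    (fun p : (Fin m → ℝ) × P => act p.1 p.2)

/-- the infinitesimal action is injective at every point -/
def LocallyFree (E : Type*) [NormedAddCommGroup E] [NormedSpace ℝ E]
    {P : Type*} [TopologicalSpace P] [ChartedSpace E P] {m : ℕ}
    (act : (Fin m → ℝ) → P → P) : Prop :=
  ∀ (x : P) (κ : Fin m → ℝ), D (E' := E) (fun θ => act θ x) 0 κ = 0 → κ = 0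

/-- A smooth, locally free action of the torus `(ℝ/ℤ)^m` (that is, an action of `ℝ^m` in which `ℤ^m`
acts trivially) on `P` preserving the one-form `β`. -/
structure TorusAction (β : P → Cov E) (m : ℕ) where
  act : (Fin m → ℝ) → P → P
  smooth : SmoothAct E act
  zero : ∀ x, act 0 x = x
  add : ∀ θ θ' x, act (θ + θ') x = act θ (act θ' x)
  period : ∀ (k : Fin m → ℤ) x, act (fun i => (k i : ℝ)) x = x
  strict : ∀ θ, pull (act θ) β = β
  free : LocallyFree E act

/-- `q : P → M` is a surjective local diffeomorphism whose fibres are the orbits of the group `Γ`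
acting on `P` by smooth maps (for instance a regular covering with deck group `Γ`). -/
structure IsQuotientMap (E : Type*) [NormedAddCommGroup E] [NormedSpace ℝ E]
    {M : Type*} [TopologicalSpace M] [ChartedSpace E M]
    {P : Type*} [TopologicalSpace P] [ChartedSpace E P]
    (q : P → M) (Γ : Type*) [Group Γ] [MulAction Γ P] : Prop where
  surj : Function.Surjective q
  diffeo : IsLocalDiffeomorph 𝓘(ℝ, E) 𝓘(ℝ, E) ∞ q
  smooth : ∀ γ : Γ, ContMDiff 𝓘(ℝ, E) 𝓘(ℝ, E) ∞ (fun x : P => γ • x)
  fibre : ∀ x y : P, q x = q y ↔ ∃ γ : Γ, γ • x = y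

/-- The group `Γ` normalises the torus action: `γ (θ x) = (B θ) (γ x)` with an integer matrix `B`
depending on `γ`. -/
def Normalises (Γ : Type*) [Group Γ] [MulAction Γ P] {m : ℕ}
    (act : (Fin m → ℝ) → P → P) : Prop :=
  ∀ γ : Γ, ∃ B : Matrix (Fin m) (Fin m) ℤ, ∀ (θ : Fin m → ℝ) (x : P),
    γ • act θ x = act (fun i => ∑ j, (B i j : ℝ) * θ j) (γ • x)

/-- `P` has at least two ends: the complement of some compact set is the union of two disjoint open
sets none of which is contained in a compact set. -/
def TwoEnds (P : Type*) [TopologicalSpace P] : Prop :=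
  ∃ C U V : Set P, IsCompact C ∧ IsOpen U ∧ IsOpen V ∧ Disjoint U V ∧ U ∪ V = Cᶜ ∧
    (∀ K, IsCompact K → ¬ U ⊆ K) ∧ (∀ K, IsCompact K → ¬ V ⊆ K)

end

end Pool.Agent.H826R2.WStmt
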