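import Mathlib
import Pool.Agent.H826R2.Wein.Stmt
import Pool.Agent.H826R2.Wein.Main

/-! From the definitions of the statements to the working definitions. -/

open scoped Topology ContDiff Manifold
open Set Pool.Agent.Helper186

noncomputable section

set_option linter.unusedSectionVars false

namespace Pool.Agent.H826R2.WStmt

universe u

variable {E : Type u} [NormedAddCommGroup E] [NormedSpace ℝ E] [FiniteDimensional ℝ E]
  {M : Type*} [TopologicalSpace M] [ChartedSpace E M] [IsManifold 𝓘(ℝ, E) ∞ M]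
  {P : Type*} [TopologicalSpace P] [ChartedSpace E P] [IsManifold 𝓘(ℝ, E) ∞ P]

/-- the working form of a one-form -/
def toForm (α : M → Cov E) (x : M) : TangentSpace 𝓘(ℝ, E) x →L[ℝ] ℝ := α x

omit [FiniteDimensional ℝ E] [IsManifold 𝓘(ℝ, E) ∞ M] in
lemma extDer_toForm (α : M → Cov E) (x : M) (u v : TangentSpace 𝓘(ℝ, E) x) :
    Helper186.extDer 𝓘(ℝ, E) (toForm α) x u v = extDer α x u v := rfl

omit [FiniteDimensional ℝ E] in
lemma IsContact.toWein {α : M → Cov E} (h : IsContact α) : Wein.IsContact (toForm α) where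
  smooth := h.smooth
  ne_zero := by
    intro x hx
    obtain ⟨v, hv⟩ := h.ne_zero x
    exact hv (DFunLike.congr_fun hx v)
  nondeg := fun x u hu hv => h.nondeg x u hu hv

omit [FiniteDimensional ℝ E] in
lemma IsReeb.toWein {α : M → Cov E} {R : M → E} (h : IsReeb α R) :
    Wein.IsReeb (toForm α) (fun x => (R x : TangentSpace 𝓘(ℝ, E) x)) where
  unit := h.unit
  kernel := fun x v => h.kernel x v

lemma IsQuotientMap.toWein {q : P → M} {Γ : Type*} [Group Γ] [MulAction Γ P]
    (h : IsQuotientMap E q Γ) : Wein.RegCover (E := E) q Γ :=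
  ⟨h.surj, h.diffeo, h.smooth, h.fibre⟩

lemma toForm_pull (q : P → M) (α : M → Cov E) :
    toForm (pull q α) = pullForm 𝓘(ℝ, E) 𝓘(ℝ, E) q (toForm α) := rfl

/-- conversion of actions -/
def TorusAction.toWein {β : P → Cov E} {m : ℕ} (A : TorusAction β m) :
    Wein.TAct (toForm β) m where
  act := A.act
  smooth := A.smooth
  zero := A.zero
  add := A.add
  period := A.period
  strict := fun θ x u => by
    have h := congrFun (A.strict θ) x
    have h2 := congrArg (fun a : Cov E => ev a (u : E)) h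
    exact h2
  free := fun x κ h => A.free x κ h

theorem exists_periodic [T2Space M] [CompactSpace M]
    (α : M → Cov E) (hα : IsContact α) (R : M → E) (hR : IsReeb α R)
    [T2Space P] [SigmaCompactSpace P] [ConnectedSpace P]
    {Γ : Type*} [Group Γ] [MulAction Γ P] (q : P → M) (hq : IsQuotientMap E q Γ)
    {m : ℕ} (hm : 0 < m) (A : TorusAction (pull (E := E) q α) m) (hA : Normalises Γ A.act)
    (hE : CompactSpace P ∨ TwoEnds P) :
    ∃ (c : ℝ → M) (T : ℝ), IsPeriodicOrbit R c T := by
  obtain ⟨c, T, h1, h2, h3⟩ := Wein.exists_closed_orbit hα.toWein hR.toWein hq.toWein hm A.toWein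
    hA (hE.imp id (by
      rintro ⟨C, U, V, h1, h2, h3, h4, h5, h6, h7⟩
      exact ⟨C, U, V, ⟨h1, h2, h3, h4, h5, h6, h7⟩⟩))
  exact ⟨c, T, h1, h2, h3⟩

end Pool.Agent.H826R2.WStmt
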