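import Mathlib
import Pool.Agent.Helper133.Brouwer

/-! A lifting lemma: pushing maps into the superlevel sets of a family of functions. -/

open scoped Topology unitInterval
open Set Filter

set_option linter.unusedSectionVars false

namespace Pool.Agent.H826R2.Wein.Link

variable {P : Type*} [TopologicalSpace P] {N : ℕ} (Φ : (Fin N → ℝ) × P → ℝ)

/-- The homotopy `G` ends above level `c` at `z`, and stays above `c` if it starts above `c'`. -/
def Good {Z : Type*} (π : Z → Fin N → ℝ) (c' c : ℝ) (G : Z × ℝ → P) (z : Z) : Prop :=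
  c < Φ (π z, G (z, 1)) ∧ (c' < Φ (π z, G (z, 0)) → ∀ s ∈ Icc (0:ℝ) 1, c < Φ (π z, G (z, s)))

variable {Φ}

lemma Good.mono {Z : Type*} {π : Z → Fin N → ℝ} {c' c d' d : ℝ} {G : Z × ℝ → P} {z : Z}
    (h : Good Φ π c' c G z) (h1 : c' ≤ d') (h2 : d ≤ c) : Good Φ π d' d G z :=
  ⟨h2.trans_lt h.1, fun h3 s hs => h2.trans_lt (h.2 (h1.trans_lt h3) s hs)⟩

/-- reparametrisation -/
lemma Good.repar {Z : Type*} {π : Z → Fin N → ℝ} {c' c : ℝ} {G G' : Z × ℝ → P} {z : Z}
    (h : Good Φ π c' c G z) (sg : ℝ → ℝ) (h0 : sg 0 = 0) (h1 : sg 1 = 1)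
    (h2 : ∀ s ∈ Icc (0:ℝ) 1, sg s ∈ Icc (0:ℝ) 1)
    (hG : ∀ s ∈ Icc (0:ℝ) 1, G' (z, s) = G (z, sg s)) : Good Φ π c' c G' z := by
  refine ⟨?_, fun h3 s hs => ?_⟩
  · rw [hG 1 (by simp), h1]; exact h.1
  · rw [hG s hs]
    rw [hG 0 (by simp), h0] at h3
    exact h.2 h3 _ (h2 s hs)

lemma Good.eventually (hΦ : Continuous Φ) {Z : Type*} [TopologicalSpace Z]
    {π : Z → Fin N → ℝ} (hπ : Continuous π) {G : Z × ℝ → P} (hG : Continuous G)
    {c' c'' c : ℝ} (hc : c' < c'') {z : Z} (h : Good Φ π c' c G z) :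
    ∀ᶠ z' in 𝓝 z, Good Φ π c'' c G z' := by
  have hcont : Continuous (fun q : Z × ℝ => Φ (π q.1, G q)) :=
    hΦ.comp ((hπ.comp continuous_fst).prodMk hG)
  have hcs : ∀ s : ℝ, Continuous (fun z : Z => Φ (π z, G (z, s))) := fun s =>
    hcont.comp (continuous_id.prodMk continuous_const)
  have h1 : ∀ᶠ z' in 𝓝 z, c < Φ (π z', G (z', 1)) :=
    (hcs 1).continuousAt.eventually (lt_mem_nhds h.1)
  by_cases h2 : c' < Φ (π z, G (z, 0))
  · have h3 : ∀ᶠ z' in 𝓝 z, ∀ s ∈ Icc (0:ℝ) 1, c < Φ (π z', G (z', s)) := by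
      have h4 : ∀ s ∈ Icc (0:ℝ) 1, ∀ᶠ q : Z × ℝ in 𝓝 (z, s), c < Φ (π q.1, G (q.1, q.2)) := by
        intro s hs
        exact hcont.continuousAt.eventually (lt_mem_nhds (h.2 h2 s hs))
      exact (isCompact_Icc (a := (0:ℝ)) (b := 1)).eventually_forall_of_forall_eventually h4
    filter_upwards [h1, h3] with z' h5 h6
    exact ⟨h5, fun _ => h6⟩
  · have h3 : ∀ᶠ z' in 𝓝 z, Φ (π z', G (z', 0)) < c'' :=
      (hcs 0).continuousAt.eventually (gt_mem_nhds ((not_lt.1 h2).trans_lt hc))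
    filter_upwards [h1, h3] with z' h5 h6
    exact ⟨h5, fun h7 => absurd h7 (not_lt.2 h6.le)⟩

/-- a property holding near the fibre of a compact set holds on a slab -/
lemma slab {Z : Type*} [TopologicalSpace Z] {A : Set Z} (hA : IsCompact A) {ψ : Z → ℝ}
    (hψ : Continuous ψ) (b : ℝ) {p : Z → Prop} (h : ∀ z ∈ A, ψ z = b → ∀ᶠ z' in 𝓝 z, p z') :
    ∃ η > (0:ℝ), ∀ z ∈ A, |ψ z - b| ≤ η → p z := by
  set O : Set Z := interior {z | p z} with hO
  have hB : IsCompact (A \ O) := hA.diff isOpen_interior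
  have hB2 : IsCompact (ψ '' (A \ O)) := hB.image hψ
  have hb : b ∉ ψ '' (A \ O) := by
    rintro ⟨z, ⟨hz, hzO⟩, hzb⟩
    exact hzO (mem_interior_iff_mem_nhds.2 (h z hz hzb))
  have h1 : (ψ '' (A \ O))ᶜ ∈ 𝓝 b := hB2.isClosed.isOpen_compl.mem_nhds hb
  obtain ⟨ε, hε, h2⟩ := Metric.mem_nhds_iff.1 h1
  refine ⟨ε / 2, by positivity, fun z hz hzb => ?_⟩
  by_contra hp
  have h3 : ψ z ∈ ψ '' (A \ O) := ⟨z, ⟨hz, fun h4 => hp (interior_subset h4)⟩, rfl⟩
  have h4 : ψ z ∈ Metric.ball b ε := by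
    rw [Metric.mem_ball, Real.dist_eq]
    linarith
  exact h2 h4 h3

variable (Φ) in
/-- The inductive statement. -/
def Sn (n : ℕ) : Prop := ∀ (Z : Type) [TopologicalSpace Z] [CompactSpace Z] [T2Space Z]
  (π : Z → Fin N → ℝ), Continuous π → ∀ g : Z → P, Continuous g → ∀ Z₁ : Set Z, IsClosed Z₁ →
  ∀ a : Fin N → ℝ, (∀ z ∈ Z₁, ∀ j : Fin N, n ≤ (j : ℕ) → π z j = a j) →
  ∀ c c' : ℝ, c < c' → ∃ G : Z × ℝ → P, Continuous G ∧ (∀ z, G (z, 0) = g z) ∧
    ∀ z ∈ Z₁, Good Φ π c' c G z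

/-- gluing two homotopies -/
lemma glue (hΦ : Continuous Φ) {n : ℕ} (hS : Sn Φ n) (hn : n < N) {Z : Type} [TopologicalSpace Z]
    [CompactSpace Z] [T2Space Z] {π : Z → Fin N → ℝ} (hπ : Continuous π) {g : Z → P}
    {Z₁ : Set Z} (hZ₁ : IsClosed Z₁) {a : Fin N → ℝ}
    (ha : ∀ z ∈ Z₁, ∀ j : Fin N, n + 1 ≤ (j : ℕ) → π z j = a j) (b : ℝ)
    {gl gr : Z × ℝ → P} (hgl : Continuous gl) (hgr : Continuous gr)
    (hL0 : ∀ z, gl (z, 0) = g z) (hR0 : ∀ z, gr (z, 0) = g z)
    {c c₁ c' c'' : ℝ} (h1 : c < c₁) (h3 : c' < c'')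
    (hL : ∀ z ∈ Z₁, π z ⟨n, hn⟩ = b → Good Φ π c' c₁ gl z)
    (hR : ∀ z ∈ Z₁, π z ⟨n, hn⟩ = b → Good Φ π c' c₁ gr z) {η₀ : ℝ} (hη₀ : 0 < η₀) :
    ∃ η : ℝ, 0 < η ∧ η ≤ η₀ ∧ ∃ G : Z × ℝ → P, Continuous G ∧ (∀ z, G (z, 0) = g z) ∧
      (∀ z, π z ⟨n, hn⟩ ≤ b - η → ∀ s ∈ Icc (0:ℝ) 1, G (z, s) = gl (z, min (2 * s) 1)) ∧
      (∀ z, b + η ≤ π z ⟨n, hn⟩ → ∀ s ∈ Icc (0:ℝ) 1, G (z, s) = gr (z, min (2 * s) 1)) ∧
      ∀ z ∈ Z₁, |π z ⟨n, hn⟩ - b| ≤ η → Good Φ π c'' c G z := by
  -- the difference homotopy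
  set D : Z × ℝ → P := fun q => if q.2 ≤ 1 / 2 then gl (q.1, 1 - 2 * q.2)
    else gr (q.1, 2 * q.2 - 1) with hD
  have hDc : Continuous D := by
    refine Continuous.if_le (hgl.comp (by fun_prop)) (hgr.comp (by fun_prop)) continuous_snd
      continuous_const ?_
    rintro ⟨z, u⟩ hu
    simp only at hu
    subst hu
    norm_num
    rw [hL0, hR0]
  have hDL : ∀ z u, u ≤ 1 / 2 → D (z, u) = gl (z, 1 - 2 * u) := by
    intro z u hu
    simp only [hD]
    rw [if_pos hu]
  have hDR : ∀ z u, 1 / 2 ≤ u → D (z, u) = gr (z, 2 * u - 1) := by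
    intro z u hu
    simp only [hD]
    split_ifs with h
    · have : u = 1 / 2 := le_antisymm h hu
      subst this
      norm_num
      rw [hL0, hR0]
    · rfl
  have hDhalf : ∀ z, D (z, 1 / 2) = g z := by
    intro z
    rw [hDL z _ le_rfl]
    norm_num
    rw [hL0]
  obtain ⟨c₁', hc1, hc2⟩ := exists_between h1
  -- the auxiliary homotopy
  obtain ⟨E, hEc, hE0, hE⟩ := hS (Z × I) (fun q => π q.1) (hπ.comp continuous_fst)
    (fun q => D (q.1, (q.2 : ℝ))) (hDc.comp (by fun_prop)) {q | q.1 ∈ Z₁ ∧ π q.1 ⟨n, hn⟩ = b}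
    ((hZ₁.preimage continuous_fst).inter (isClosed_eq (by fun_prop) continuous_const))
    (Function.update a ⟨n, hn⟩ b) (by
      rintro q ⟨hq, hqb⟩ j hj
      by_cases hjn : j = ⟨n, hn⟩
      · subst hjn
        simpa using hqb
      · rw [Function.update_of_ne hjn]
        refine ha _ hq j ?_
        have : (j : ℕ) ≠ n := fun h => hjn (Fin.ext h)
        omega) c c₁' hc1
  -- the cutoff
  obtain ⟨lam, hlam0, hlam1, hlamI⟩ := exists_continuous_zero_one_of_isClosed
    (X := Z × I) (s := {q | (q.2 : ℝ) = 0} ∪ {q | (q.2 : ℝ) = 1})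
    (t := {q | (q.1 ∈ Z₁ ∧ π q.1 ⟨n, hn⟩ = b) ∧ Φ (π q.1, D (q.1, (q.2 : ℝ))) ≤ c₁'})
    ((isClosed_eq (by fun_prop) continuous_const).union
      (isClosed_eq (by fun_prop) continuous_const))
    (((hZ₁.preimage continuous_fst).inter (isClosed_eq (by fun_prop) continuous_const)).inter
      (isClosed_le (hΦ.comp ((hπ.comp continuous_fst).prodMk (hDc.comp (by fun_prop))))
        continuous_const)) (by
      rw [Set.disjoint_left]
      rintro ⟨z, u⟩ hq ⟨⟨hz, hzb⟩, hq2⟩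
      simp only at hz hzb hq2
      rcases hq with hq | hq
      · have hu : (u : ℝ) = 0 := hq
        rw [hu, hDL z 0 (by norm_num)] at hq2
        norm_num at hq2
        have := (hL z hz hzb).1
        linarith
      · have hu : (u : ℝ) = 1 := hq
        rw [hu, hDR z 1 (by norm_num)] at hq2
        norm_num at hq2
        have := (hR z hz hzb).1
        linarith)
  set E' : (Z × I) × ℝ → P := fun q => E (q.1, q.2 * lam q.1) with hE'
  have hE'c : Continuous E' := hEc.comp (by fun_prop)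
  have hE'0 : ∀ q : Z × I, E' (q, 0) = D (q.1, (q.2 : ℝ)) := by
    intro q
    simp only [hE', zero_mul]
    rw [hE0]
  have hE'end : ∀ (q : Z × I) (s : ℝ), ((q.2 : ℝ) = 0 ∨ (q.2 : ℝ) = 1) →
      E' (q, s) = D (q.1, (q.2 : ℝ)) := by
    intro q s hq
    have : lam q = 0 := hlam0 hq
    simp only [hE', this, mul_zero]
    rw [hE0]
  -- the homotopy over `Z × I`
  set H : (Z × I) × ℝ → P := fun q => if q.2 ≤ 1 / 2 then
    D (q.1.1, 1 / 2 + ((q.1.2 : ℝ) - 1 / 2) * (2 * q.2)) else E' (q.1, 2 * q.2 - 1) with hH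
  have hHc : Continuous H := by
    refine Continuous.if_le (hDc.comp (by fun_prop)) (hE'c.comp (by fun_prop)) continuous_snd
      continuous_const ?_
    rintro ⟨q, s⟩ hs
    simp only at hs
    subst hs
    simp only
    norm_num
    rw [hE'0]
  have hHgood : ∀ q : Z × I, q.1 ∈ Z₁ → π q.1 ⟨n, hn⟩ = b →
      Good Φ (fun q : Z × I => π q.1) c' c H q := by
    rintro ⟨z, u⟩ hz hzb
    simp only at hz hzb
    have hEg := hE (z, u) ⟨hz, hzb⟩
    have key : c₁' < Φ (π z, D (z, (u : ℝ))) → ∀ s ∈ Icc (0:ℝ) 1, c < Φ (π z, E' ((z, u), s)) := by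
      intro h s hs
      have h4 := hEg.2 (by rw [hE0]; exact h) (s * lam (z, u))
        ⟨mul_nonneg hs.1 (hlamI _).1, mul_le_one₀ hs.2 (hlamI _).1 (hlamI _).2⟩
      exact h4
    refine ⟨?_, ?_⟩
    · have e : H ((z, u), 1) = E' ((z, u), 1) := by
        simp only [hH]
        rw [if_neg (by norm_num)]
        norm_num
      rw [e]
      by_cases h4 : c₁' < Φ (π z, D (z, (u : ℝ)))
      · exact key h4 1 (by simp)
      · have h5 : lam (z, u) = 1 := hlam1 ⟨⟨hz, hzb⟩, not_lt.1 h4⟩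
        simp only [hE', h5, mul_one]
        exact hEg.1
    · intro h4 s hs
      have e0 : H ((z, u), 0) = g z := by
        simp only [hH]
        rw [if_pos (by norm_num)]
        norm_num
        have := hDhalf z
        norm_num at this
        exact this
      simp only at h4
      rw [e0] at h4
      have hD1 : ∀ w ∈ Icc (0:ℝ) 1, c₁ < Φ (π z, D (z, w)) := by
        intro w hw
        by_cases hw2 : w ≤ 1 / 2
        · rw [hDL z w hw2]
          refine (hL z hz hzb).2 (by rw [hL0]; exact h4) _ ⟨by linarith, by linarith [hw.1]⟩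
        · rw [hDR z w (not_le.1 hw2).le]
          refine (hR z hz hzb).2 (by rw [hR0]; exact h4) _
            ⟨by linarith [not_le.1 hw2], by linarith [hw.2]⟩
      by_cases hs2 : s ≤ 1 / 2
      · have e : H ((z, u), s) = D (z, 1 / 2 + ((u : ℝ) - 1 / 2) * (2 * s)) := by
          simp only [hH]
          rw [if_pos hs2]
        simp only
        rw [e]
        have hu := u.2
        refine h1.trans (hD1 _ ⟨?_, ?_⟩)
        · nlinarith [hu.1, hu.2, hs.1]
        · nlinarith [hu.1, hu.2, hs.1]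
      · have e : H ((z, u), s) = E' ((z, u), 2 * s - 1) := by
          simp only [hH]
          rw [if_neg hs2]
        simp only
        rw [e]
        refine key (hc2.trans (hD1 _ u.2)) _ ⟨by linarith [not_le.1 hs2], by linarith [hs.2]⟩
  -- the slab
  obtain ⟨η₁, hη₁, hslab⟩ := slab (Z := Z × I) (A := {q | q.1 ∈ Z₁})
    ((hZ₁.preimage continuous_fst).isCompact) (ψ := fun q => π q.1 ⟨n, hn⟩) (by fun_prop) b
    (p := fun q => Good Φ (fun q : Z × I => π q.1) c'' c H q) (by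
      intro q hq hqb
      exact (hHgood q hq hqb).eventually hΦ (hπ.comp continuous_fst) hHc h3)
  set η := min η₀ η₁ with hη
  have hηpos : 0 < η := lt_min hη₀ hη₁
  have hcl : ∀ r : ℝ, max 0 (min 1 r) ∈ Icc (0:ℝ) 1 := fun r =>
    ⟨le_max_left _ _, max_le zero_le_one (min_le_left _ _)⟩
  set uu : Z → I := fun z => ⟨max 0 (min 1 ((π z ⟨n, hn⟩ - b) / (2 * η) + 1 / 2)), hcl _⟩ with huu
  have huc : Continuous uu := by
    refine Continuous.subtype_mk ?_ _
    fun_prop
  refine ⟨η, hηpos, min_le_left _ _, fun q => H ((q.1, uu q.1), q.2), hHc.comp (by fun_prop), ?_,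
    ?_, ?_, ?_⟩
  · intro z
    simp only [hH]
    rw [if_pos (by norm_num)]
    norm_num
    have := hDhalf z
    norm_num at this
    exact this
  · intro z hz s hs
    have hu0 : ((uu z : I) : ℝ) = 0 := by
      simp only [huu]
      apply max_eq_left
      refine (min_le_right _ _).trans ?_
      have : (π z ⟨n, hn⟩ - b) / (2 * η) ≤ - (1 / 2) := by
        rw [div_le_iff₀ (by positivity)]
        linarith
      linarith
    simp only [hH]
    split_ifs with h
    · rw [hu0, hDL z _ (by nlinarith [hs.1])]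
      congr 2
      rw [min_eq_left (by linarith)]
      ring
    · rw [hE'end _ _ (Or.inl hu0), hu0, hDL z 0 (by norm_num)]
      congr 2
      rw [min_eq_right (by linarith)]
      ring
  · intro z hz s hs
    have hu1 : ((uu z : I) : ℝ) = 1 := by
      simp only [huu]
      have h6 : (1:ℝ) / 2 ≤ (π z ⟨n, hn⟩ - b) / (2 * η) := by
        rw [le_div_iff₀ (by positivity)]
        linarith
      rw [min_eq_left (by linarith)]
      norm_num
    simp only [hH]
    split_ifs with h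
    · rw [hu1, hDR z _ (by nlinarith [hs.1])]
      congr 2
      rw [min_eq_left (by linarith)]
      ring
    · rw [hE'end _ _ (Or.inr hu1), hu1, hDR z 1 (by norm_num)]
      congr 2
      rw [min_eq_right (by linarith)]
      ring
  · intro z hz hzb
    exact hslab (z, uu z) hz (hzb.trans (min_le_right _ _))

/-- the repar function -/
lemma repar_min : ∀ s ∈ Icc (0:ℝ) 1, min (2 * s) 1 ∈ Icc (0:ℝ) 1 := fun s hs =>
  ⟨le_min (by linarith [hs.1]) zero_le_one, min_le_right _ _⟩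

lemma step (hΦ : Continuous Φ) {n : ℕ} (hn : n < N) (hS : Sn Φ n) : Sn Φ (n + 1) := by
  intro Z _ _ _ π hπ g hg Z₁ hZ₁ a ha c c' hc
  obtain ⟨c₂, hc2, hc2'⟩ := exists_between hc
  obtain ⟨c₁, hc1, hc1'⟩ := exists_between hc2
  obtain ⟨c₃, hc3, hc3'⟩ := exists_between hc1'
  set ψ : Z → ℝ := fun z => π z ⟨n, hn⟩ with hψ
  have hψc : Continuous ψ := by fun_prop
  -- local solutions
  have hloc : ∀ t : ℝ, ∃ G : Z × ℝ → P, Continuous G ∧ (∀ z, G (z, 0) = g z) ∧
      ∃ ε > (0:ℝ), ∀ z ∈ Z₁, |ψ z - t| ≤ ε → Good Φ π c₂ c₁ G z := by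
    intro t
    obtain ⟨G, hG, hG0, hGg⟩ := hS Z π hπ g hg (Z₁ ∩ {z | ψ z = t})
      (hZ₁.inter (isClosed_eq hψc continuous_const)) (Function.update a ⟨n, hn⟩ t) (by
        rintro z ⟨hz, hzt⟩ j hj
        by_cases hjn : j = ⟨n, hn⟩
        · subst hjn
          simpa using hzt
        · rw [Function.update_of_ne hjn]
          refine ha _ hz j ?_
          have : (j : ℕ) ≠ n := fun h => hjn (Fin.ext h)
          omega) c₁ c₃ hc3
    obtain ⟨ε, hε, h⟩ := slab hZ₁.isCompact hψc t (p := fun z => Good Φ π c₂ c₁ G z) (by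
      intro z hz hzt
      exact (hGg z ⟨hz, hzt⟩).eventually hΦ hπ hG hc3')
    exact ⟨G, hG, hG0, ε, hε, h⟩
  choose G hG hG0 ε hε hGg using hloc
  -- bounds
  obtain ⟨β, hβ0, hβ⟩ : ∃ β : ℝ, 0 ≤ β ∧ ∀ z, |ψ z| ≤ β := by
    obtain ⟨β, hβ⟩ := (isCompact_range hψc.abs).bddAbove
    exact ⟨max β 0, le_max_right _ _, fun z => (hβ ⟨z, rfl⟩).trans (le_max_left _ _)⟩
  have hab : -β ≤ β := by linarith
  obtain ⟨t, ht0, htm, ⟨m, hm⟩, htc⟩ := exists_monotone_Icc_subset_open_cover_Icc hab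
    (c := fun r : ℝ => {x : Icc (-β) β | |(x:ℝ) - r| < ε r}) (fun r => isOpen_lt (by fun_prop)
      continuous_const) (by
      intro x _
      refine mem_iUnion.2 ⟨(x:ℝ), ?_⟩
      show |(x:ℝ) - x| < ε x
      rw [sub_self, abs_zero]
      exact hε _)
  have main : ∀ i : ℕ, ∃ F : Z × ℝ → P, Continuous F ∧ (∀ z, F (z, 0) = g z) ∧
      (∀ z ∈ Z₁, ψ z ≤ t i → Good Φ π c' c F z) ∧
      ∃ δ > (0:ℝ), ∀ z ∈ Z₁, |ψ z - t i| ≤ δ → Good Φ π c₂ c₁ F z := by
    intro i
    induction i with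
    | zero =>
      obtain ⟨r, hr⟩ := htc 0
      have h0 : |((t 0 : Icc (-β) β) : ℝ) - r| < ε r :=
        hr (left_mem_Icc.2 (htm (Nat.zero_le _)))
      have hd : ∀ z ∈ Z₁, |ψ z - t 0| ≤ ε r - |((t 0 : Icc (-β) β) : ℝ) - r| →
          Good Φ π c₂ c₁ (G r) z := by
        intro z hz h
        refine hGg r z hz ?_
        have := abs_sub_le (ψ z) (t 0 : ℝ) r
        linarith
      refine ⟨G r, hG r, hG0 r, fun z hz hzt => ?_, ε r - |((t 0 : Icc (-β) β) : ℝ) - r|,
        by linarith, hd⟩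
      refine (hd z hz ?_).mono hc2'.le hc1.le
      have h1 : ψ z = t 0 := by
        apply le_antisymm hzt
        rw [ht0]
        exact (abs_le.1 (hβ z)).1
      rw [h1, sub_self, abs_zero]
      linarith
    | succ i ih =>
      obtain ⟨F, hF, hF0, hFg, δ, hδ, hFδ⟩ := ih
      obtain ⟨r, hr⟩ := htc i
      have hle : ((t i : Icc (-β) β) : ℝ) ≤ t (i + 1) := htm (Nat.le_succ _)
      rcases hle.lt_or_eq with hlt | heq
      swap
      · refine ⟨F, hF, hF0, ?_, δ, hδ, ?_⟩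
        · rw [← heq]; exact hFg
        · rw [← heq]; exact hFδ
      have h0 : |((t i : Icc (-β) β) : ℝ) - r| < ε r := hr (left_mem_Icc.2 (htm (Nat.le_succ _)))
      have h1 : |((t (i + 1) : Icc (-β) β) : ℝ) - r| < ε r :=
        hr (right_mem_Icc.2 (htm (Nat.le_succ _)))
      set b : ℝ := (t i : ℝ) with hb
      set b' : ℝ := (t (i + 1) : ℝ) with hb'
      have hconv : ∀ z ∈ Z₁, b ≤ ψ z → ψ z ≤ b' + (ε r - |b' - r|) → Good Φ π c₂ c₁ (G r) z := by
        intro z hz hz1 hz2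
        refine hGg r z hz ?_
        rw [abs_le]
        have e1 := (abs_lt.1 h0).1
        have e2 := le_abs_self (b' - r)
        constructor
        · linarith
        · linarith
      obtain ⟨η, hη, hη2, F', hF', hF'0, hFL, hFR, hFm⟩ := glue hΦ hS hn hπ hZ₁ ha b hF (hG r)
        hF0 (hG0 r) hc1 hc2' (fun z hz hzb => hFδ z hz (by
          have : ψ z = b := hzb
          rw [this, sub_self, abs_zero]; exact hδ.le))
        (fun z hz hzb => hconv z hz (by
          have : ψ z = b := hzb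
          exact this.ge) (by
          have : ψ z = b := hzb
          rw [this]
          linarith)) (η₀ := min δ ((b' - b) / 2)) (lt_min hδ (by linarith))
      have hη3 : η ≤ (b' - b) / 2 := hη2.trans (min_le_right _ _)
      refine ⟨F', hF', hF'0, ?_, min (ε r - |b' - r|) ((b' - b) / 2),
        lt_min (by linarith) (by linarith), ?_⟩
      · intro z hz hzb
        by_cases hc1' : ψ z ≤ b - η
        · exact (hFg z hz (by linarith)).repar (fun s => min (2 * s) 1) (by norm_num) (by norm_num)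
            repar_min (fun s hs => hFL z hc1' s hs)
        by_cases hc2' : b + η ≤ ψ z
        · exact ((hconv z hz (by linarith) (by linarith)).repar (fun s => min (2 * s) 1)
            (by norm_num) (by norm_num) repar_min (fun s hs => hFR z hc2' s hs)).mono
              (by linarith) hc1.le
        · refine hFm z hz ?_
          push Not at hc1' hc2'
          show |ψ z - b| ≤ η
          rw [abs_le]
          constructor <;> linarith
      · intro z hz hzb
        have e1 := (abs_le.1 (hzb.trans (min_le_left _ _))).2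
        have e2 := (abs_le.1 (hzb.trans (min_le_right _ _))).1
        exact (hconv z hz (by linarith) (by linarith)).repar (fun s => min (2 * s) 1)
            (by norm_num) (by norm_num) repar_min (fun s hs => hFR z (by
              show b + η ≤ ψ z
              linarith) s hs)
  obtain ⟨F, hF, hF0, hFg, -⟩ := main m
  refine ⟨F, hF, hF0, fun z hz => hFg z hz ?_⟩
  rw [hm m le_rfl]
  exact (abs_le.1 (hβ z)).2

variable (Φ) in
/-- pushing maps attached to every parameter -/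
def Pushable : Prop := ∀ (p : Fin N → ℝ) (c c' : ℝ), c < c' → ∃ h : P × ℝ → P, Continuous h ∧
  (∀ y, h (y, 0) = y) ∧ (∀ y, c' < Φ (p, y) → ∀ r, 0 ≤ r → c < Φ (p, h (y, r))) ∧
  ∀ K, IsCompact K → ∃ T : ℝ, 0 ≤ T ∧ ∀ y ∈ K, c < Φ (p, h (y, T))

lemma Sn_zero (hT : Pushable Φ) : Sn Φ 0 := by
  intro Z _ _ _ π hπ g hg Z₁ hZ₁ a ha c c' hc
  obtain ⟨h, hh, hh0, h1, h2⟩ := hT a c c' hc
  obtain ⟨T, hT0, hT⟩ := h2 (range g) (isCompact_range hg)
  refine ⟨fun q => h (g q.1, q.2 * T), hh.comp (by fun_prop), fun z => by simp [hh0], ?_⟩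
  intro z hz
  have hza : π z = a := funext fun j => ha z hz j (Nat.zero_le _)
  refine ⟨?_, fun h3 s hs => ?_⟩
  · rw [hza]
    simp only [one_mul]
    exact hT _ ⟨z, rfl⟩
  · rw [hza] at h3 ⊢
    simp only [zero_mul, hh0] at h3
    exact h1 _ h3 _ (mul_nonneg hs.1 hT0)

lemma Sn_all (hΦ : Continuous Φ) (hT : Pushable Φ) : ∀ n ≤ N, Sn Φ n := by
  intro n hn
  induction n with
  | zero => exact Sn_zero hT
  | succ n ih => exact step hΦ (Nat.lt_of_succ_le hn) (ih (by omega))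

/-- **Linking.** -/
theorem linking (hΦ : Continuous Φ) (hT : Pushable Φ) (x : P)
    (hx : Tendsto (fun p => Φ (p, x)) (cocompact (Fin N → ℝ)) atTop)
    {L : P → Fin N → ℝ} (hL : Continuous L) {c : ℝ} (hLc : ∀ y, Φ (L y, y) ≤ c) : False := by
  obtain ⟨ρ, hρ⟩ : ∃ ρ : ℝ, ∀ p : Fin N → ℝ, ρ < ‖p‖ → c + 2 < Φ (p, x) := by
    have h1 := hx.eventually (eventually_gt_atTop (c + 2))
    rw [← Metric.cobounded_eq_cocompact] at h1
    obtain ⟨ρ, -, hρ⟩ := (hasBasis_cobounded_norm (E := Fin N → ℝ)).eventually_iff.1 h1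
    exact ⟨ρ, fun p hp => hρ hp.le⟩
  obtain ⟨G, hG, hG0, hGg⟩ := Sn_all hΦ hT N le_rfl (Metric.closedBall (0 : Fin N → ℝ) (max ρ 0))
    (fun z => z.1) continuous_subtype_val (fun _ => x) continuous_const univ isClosed_univ 0
    (fun z _ j hj => absurd j.2 (not_lt.2 hj)) c (c + 1) (by linarith)
  -- retraction to the ball
  have hrmem : ∀ p : Fin N → ℝ, (fun i => max (-(max ρ 0)) (min (max ρ 0) (p i))) ∈
      Metric.closedBall (0 : Fin N → ℝ) (max ρ 0) := by
    intro p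
    rw [mem_closedBall_zero_iff, pi_norm_le_iff_of_nonneg (le_max_right _ _)]
    intro i
    have h0 : 0 ≤ max ρ 0 := le_max_right _ _
    rw [Real.norm_eq_abs, abs_le]
    exact ⟨le_max_left _ _, max_le (by linarith) (min_le_left _ _)⟩
  set r : (Fin N → ℝ) → Metric.closedBall (0 : Fin N → ℝ) (max ρ 0) := fun p =>
    ⟨fun i => max (-(max ρ 0)) (min (max ρ 0) (p i)), hrmem p⟩ with hr
  have hrc : Continuous r := by
    refine Continuous.subtype_mk ?_ _
    fun_prop
  have hrid : ∀ p : Fin N → ℝ, ‖p‖ ≤ max ρ 0 → (r p : Fin N → ℝ) = p := by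
    intro p hp
    ext i
    have h1 := abs_le.1 ((norm_le_pi_norm p i).trans hp)
    simp only [hr]
    rw [min_eq_right h1.2, max_eq_right h1.1]
  have hcl : ∀ r : ℝ, max 0 (min 1 r) ∈ Icc (0:ℝ) 1 := fun r =>
    ⟨le_max_left _ _, max_le zero_le_one (min_le_left _ _)⟩
  set lam : (Fin N → ℝ) → ℝ := fun p => max 0 (min 1 (c + 2 - Φ (p, x))) with hlam
  have hlc : Continuous lam := by
    have : Continuous (fun p : Fin N → ℝ => Φ (p, x)) := hΦ.comp (by fun_prop)
    fun_prop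
  set ξ : (Fin N → ℝ) → P := fun p => G (r p, lam p) with hξ
  have hξc : Continuous ξ := hG.comp (hrc.prodMk hlc)
  have hξ1 : ∀ p, c < Φ (p, ξ p) := by
    intro p
    by_cases hp : ‖p‖ ≤ max ρ 0
    · have hg := hGg (r p) (mem_univ _)
      have e := hrid p hp
      by_cases h1 : c + 1 < Φ (p, x)
      · have h2 := hg.2 (by
          rw [hG0]
          simp only
          rw [e]
          exact h1) (lam p) (hcl _)
        simp only at h2
        rw [e] at h2
        exact h2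
      · have h2 : lam p = 1 := by
          simp only [hlam]
          rw [min_eq_left (by linarith)]
          norm_num
        have h3 := hg.1
        simp only at h3
        rw [e] at h3
        simp only [hξ, h2]
        exact h3
    · push Not at hp
      have h1 := hρ p ((le_max_left _ _).trans_lt hp)
      have h2 : lam p = 0 := by
        simp only [hlam]
        apply max_eq_left
        exact (min_le_right _ _).trans (by linarith)
      simp only [hξ, h2]
      rw [hG0]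
      linarith
  -- bounded image
  obtain ⟨B, hB⟩ : ∃ B : ℝ, ∀ p, ‖L (ξ p)‖ ≤ B := by
    have hK : IsCompact (G '' (univ ×ˢ Icc (0:ℝ) 1)) := (isCompact_univ.prod isCompact_Icc).image hG
    obtain ⟨B, hB⟩ := (hK.image hL.norm).bddAbove
    exact ⟨B, fun p => hB ⟨ξ p, ⟨(r p, lam p), ⟨mem_univ _, hcl _⟩, rfl⟩, rfl⟩⟩
  obtain ⟨p, hp⟩ := Helper133.Brouwer.brouwer (fun p => L (ξ p)) (hL.comp hξc) B hB
  have h1 := hξ1 p
  have h2 := hLc (ξ p)
  have h3 : L (ξ p) = p := hp
  rw [h3] at h2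
  linarith

end Pool.Agent.H826R2.Wein.Link
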