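import Mathlib
import Pool.Agent.H826R2.Wein.Top

/-! The gradient flow of a good Hamiltonian also pushes nearby Hamiltonians up. -/

open scoped Topology ContDiff Manifold
open Set Metric Bundle Pool.Agent.Helper186

noncomputable section

namespace Pool.Agent.H826R2.Wein

set_option linter.unusedSectionVars false

universe u

section ode

/-- data along a flow line -/
structure Along (g m q g1 : ℝ → ℝ) (ε Λ : ℝ) : Prop where
  der : ∀ t, HasDerivAt g (g1 t) t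
  mono : Monotone m
  qc : Continuous q
  near : ∀ t, |g t - m t| ≤ ε * q t
  far : ∀ t, Λ ≤ q t → |g t| ≤ q t / 2 → 1 / 6 ≤ g1 t

lemma Along.cont {g m q g1 : ℝ → ℝ} {ε Λ : ℝ} (h : Along g m q g1 ε Λ) : Continuous g :=
  continuous_iff_continuousAt.2 fun t => (h.der t).continuousAt

lemma Along.incr {g m q g1 : ℝ → ℝ} {ε Λ : ℝ} (h : Along g m q g1 ε Λ) {a b : ℝ} (hab : a ≤ b)
    (hfar : ∀ t ∈ Ioo a b, Λ ≤ q t ∧ |g t| ≤ q t / 2) : g a ≤ g b := by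
  have h1 : MonotoneOn g (Icc a b) := by
    apply monotoneOn_of_deriv_nonneg (convex_Icc a b) h.cont.continuousOn
    · intro t _
      exact (h.der t).differentiableAt.differentiableWithinAt
    · intro t ht
      rw [interior_Icc] at ht
      rw [(h.der t).deriv]
      have := h.far t (hfar t ht).1 (hfar t ht).2
      linarith
  exact h1 (left_mem_Icc.2 hab) (right_mem_Icc.2 hab) hab

lemma Along.stay {g m q g1 : ℝ → ℝ} {ε Λ c c' : ℝ} (h : Along g m q g1 ε Λ) (hε : 0 ≤ ε)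
    (hc : |c| ≤ Λ / 2) (hc' : |c'| ≤ Λ / 2) (hcc : 2 * (ε * Λ) < c' - c) {t₂ : ℝ}
    (h0 : c' < g t₂) {t : ℝ} (ht : t₂ ≤ t) : c < g t := by
  have hΛ : 0 ≤ Λ := by have := abs_nonneg c; linarith
  have hcc' : c < c' := by
    have := mul_nonneg hε hΛ
    linarith
  by_contra hlt
  push Not at hlt
  -- first time below `c`
  have hS : IsCompact {τ ∈ Icc t₂ t | g τ ≤ c} :=
    (isCompact_Icc.inter_right (isClosed_le h.cont continuous_const))
  obtain ⟨t₁, ⟨⟨ht10, ht1t⟩, hg1⟩, hmin⟩ := hS.exists_isLeast ⟨t, ⟨ht, le_rfl⟩, hlt⟩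
  have hS' : IsCompact {τ ∈ Icc t₂ t₁ | c' ≤ g τ} :=
    (isCompact_Icc.inter_right (isClosed_le continuous_const h.cont))
  obtain ⟨t₀, ⟨⟨ht00, ht01⟩, hg0⟩, hmax⟩ := hS'.exists_isGreatest ⟨t₂, ⟨le_rfl, ht10⟩, h0.le⟩
  have hband : ∀ τ ∈ Ioo t₀ t₁, c < g τ ∧ g τ < c' := by
    intro τ hτ
    constructor
    · by_contra hcon
      push Not at hcon
      have := hmin ⟨⟨ht00.trans hτ.1.le, hτ.2.le.trans ht1t⟩, hcon⟩
      linarith [hτ.2]
    · by_contra hcon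
      push Not at hcon
      have := hmax ⟨⟨ht00.trans hτ.1.le, hτ.2.le⟩, hcon⟩
      linarith [hτ.1]
  have hsmall : ∀ τ ∈ Ioo t₀ t₁, Λ ≤ q τ → |g τ| ≤ q τ / 2 := by
    intro τ hτ hq
    obtain ⟨e1, e2⟩ := hband τ hτ
    have e3 := (abs_le.1 hc).1
    have e4 := (abs_le.1 hc').2
    rw [abs_le]
    constructor <;> linarith
  by_cases hN : ∃ τ ∈ Icc t₀ t₁, q τ ≤ Λ
  · have hNc : IsCompact {τ ∈ Icc t₀ t₁ | q τ ≤ Λ} :=
      (isCompact_Icc.inter_right (isClosed_le h.qc continuous_const))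
    obtain ⟨τ₀, hτ₀, hqτ⟩ := hN
    obtain ⟨s₁, ⟨⟨hs10, hs11⟩, hq1⟩, hsmin⟩ := hNc.exists_isLeast ⟨τ₀, hτ₀, hqτ⟩
    obtain ⟨s₂, ⟨⟨hs20, hs21⟩, hq2⟩, hsmax⟩ := hNc.exists_isGreatest ⟨τ₀, hτ₀, hqτ⟩
    have hs12 : s₁ ≤ s₂ := hsmax ⟨⟨hs10, hs11⟩, hq1⟩
    have e1 : g t₀ ≤ g s₁ := h.incr hs10 fun τ hτ => by
      have h1 : Λ ≤ q τ := by
        by_contra hcon
        push Not at hcon
        have := hsmin ⟨⟨hτ.1.le, hτ.2.le.trans hs11⟩, hcon.le⟩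
        linarith [hτ.2]
      exact ⟨h1, hsmall τ ⟨hτ.1, hτ.2.trans_le hs11⟩ h1⟩
    have e2 : g s₂ ≤ g t₁ := h.incr hs21 fun τ hτ => by
      have h1 : Λ ≤ q τ := by
        by_contra hcon
        push Not at hcon
        have := hsmax ⟨⟨hs20.trans hτ.1.le, hτ.2.le⟩, hcon.le⟩
        linarith [hτ.1]
      exact ⟨h1, hsmall τ ⟨hs20.trans_lt hτ.1, hτ.2⟩ h1⟩
    have e3 := h.mono hs12
    have e4 := (abs_le.1 (h.near s₁)).2
    have e5 := (abs_le.1 (h.near s₂)).1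
    have e6 : ε * q s₁ ≤ ε * Λ := mul_le_mul_of_nonneg_left hq1 hε
    have e7 : ε * q s₂ ≤ ε * Λ := mul_le_mul_of_nonneg_left hq2 hε
    linarith
  · push Not at hN
    have e1 : g t₀ ≤ g t₁ := h.incr ht01 fun τ hτ => by
      have h1 : Λ ≤ q τ := (hN τ ⟨hτ.1.le, hτ.2.le⟩).le
      exact ⟨h1, hsmall τ hτ h1⟩
    linarith

lemma Along.reach {g m q g1 : ℝ → ℝ} {ε Λ c' B : ℝ} (h : Along g m q g1 ε Λ)
    (hε : 0 ≤ ε) (hε2 : ε ≤ 1 / 2) (hc' : |c'| ≤ Λ / 2) {t₁ : ℝ} (hm : |c'| + ε * Λ < m t₁)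
    (hB : -B ≤ g t₁) (hB0 : 0 ≤ B) :
    ∃ t ∈ Icc t₁ (t₁ + 6 * (B + |c'| + 1)), c' < g t := by
  by_contra hcon
  push Not at hcon
  have hΛ : 0 ≤ Λ := by have := abs_nonneg c'; linarith
  have hT : 0 < 6 * (B + |c'| + 1) := by positivity
  have hmt : ∀ t ∈ Icc t₁ (t₁ + 6 * (B + |c'| + 1)), |c'| + ε * Λ < m t := fun t ht =>
    hm.trans_le (h.mono ht.1)
  have hfar : ∀ t ∈ Icc t₁ (t₁ + 6 * (B + |c'| + 1)), Λ ≤ q t ∧ |g t| ≤ q t / 2 := by
    intro t ht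
    have e1 := hcon t ht
    have e2 := hmt t ht
    have e3 := (abs_le.1 (h.near t)).1
    have e4 := le_abs_self c'
    have h1 : Λ ≤ q t := by
      by_contra hlt
      push Not at hlt
      have : ε * q t ≤ ε * Λ := mul_le_mul_of_nonneg_left hlt.le hε
      linarith
    refine ⟨h1, ?_⟩
    have e5 : 0 ≤ ε * Λ := mul_nonneg hε hΛ
    have e6 : ε * q t ≤ 1 / 2 * q t := mul_le_mul_of_nonneg_right hε2 (hΛ.trans h1)
    have e7 := abs_nonneg c'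
    rw [abs_le]
    constructor <;> linarith
  obtain ⟨s, hs, hs'⟩ := exists_hasDerivAt_eq_slope g g1
    (show t₁ < t₁ + 6 * (B + |c'| + 1) by linarith)
    h.cont.continuousOn (fun t _ => h.der t)
  have h1 := h.far s (hfar s ⟨hs.1.le, hs.2.le⟩).1 (hfar s ⟨hs.1.le, hs.2.le⟩).2
  rw [hs', add_sub_cancel_left, le_div_iff₀ hT] at h1
  have h2 := hcon (t₁ + 6 * (B + |c'| + 1)) ⟨by linarith, le_rfl⟩
  have h3 := le_abs_self c'
  linarith

end ode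

variable {E : Type u} [NormedAddCommGroup E] [NormedSpace ℝ E] [FiniteDimensional ℝ E]
  {P : Type*} [TopologicalSpace P] [ChartedSpace E P] [IsManifold 𝓘(ℝ, E) ∞ P]
  {β : (x : P) → TangentSpace 𝓘(ℝ, E) x →L[ℝ] ℝ} {m : ℕ}

/-- the normalised gradient flow with its pushing property -/
structure GFlow {n : ℕ} (ι : Imm (E := E) P n) (f : P → ℝ) extends Fpush f where
  der : ∀ g : P → ℝ, ContMDiff 𝓘(ℝ, E) 𝓘(ℝ, ℝ) ∞ g → ∀ x t,
    HasDerivAt (fun s => g (Fl x s)) (dForm 𝓘(ℝ, E) g (Fl x t) (ι.V f (Fl x t))) t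

namespace Deck

variable {n : ℕ} {ι : Imm (E := E) P n} {Γ : Type*} [Group Γ] [MulAction Γ P] (𝒟 : Deck ι Γ)

include 𝒟 in
/-- The normalised gradient flow pushes functions up, given a Palais-Smale property. -/
theorem exists_gflow [T2Space P] [SigmaCompactSpace P] {f : P → ℝ}
    (hf : ContMDiff 𝓘(ℝ, E) 𝓘(ℝ, ℝ) ∞ f)
    (hps : ∀ c : ℝ, ∃ δ > (0:ℝ), ∀ x, |f x| ≤ c → δ ≤ ι.G f x) : Nonempty (GFlow ι f) := by
  have : IsManifold 𝓘(ℝ, E) 1 P := IsManifold.of_le (n := ∞) (by simp)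
  choose Fl h0 hFl using fun x => 𝒟.complete hf x
  have hcont : Continuous fun p : P × ℝ => Fl p.1 p.2 :=
    (contMDiff_flow (ι.smooth_V hf) h0 hFl).continuous
  have hder : ∀ x t, HasDerivAt (fun s => f (Fl x s))
      (ι.G f (Fl x t) / (1 + ι.G f (Fl x t))) t := by
    intro x t
    have := hasDerivAt_along (W := ι.V f) (hFl x t) hf
    rwa [ι.dForm_V_self] at this
  have hmono : ∀ x, Monotone (fun t => f (Fl x t)) := by
    intro x
    apply monotone_of_deriv_nonneg (fun t => (hder x t).differentiableAt)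
    intro t
    rw [(hder x t).deriv]
    have := ι.G_nonneg f (Fl x t)
    positivity
  refine ⟨⟨⟨Fl, h0, fun x s t => flow_add (ι.smooth_V hf) h0 hFl x s t, hcont, hmono, ?_⟩,
    fun g hg x t => hasDerivAt_along (W := ι.V f) (hFl x t) hg⟩⟩
  intro c
  obtain ⟨δ, hδ, h⟩ := hps c
  set T := (2 * |c| + 1) * (1 + δ) / δ with hT
  have hT0 : 0 < T := by positivity
  refine ⟨T, hT0.le, fun x hx => ?_⟩
  by_contra hlt
  push Not at hlt
  obtain ⟨s, hs, hs'⟩ := exists_hasDerivAt_eq_slope (fun t => f (Fl x t)) _ hT0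
    (fun t _ => (hder x t).continuousAt.continuousWithinAt) (fun t _ => hder x t)
  have h1 : f (Fl x 0) ≤ f (Fl x s) := hmono x hs.1.le
  have h2 : f (Fl x s) ≤ f (Fl x T) := hmono x hs.2.le
  rw [h0] at h1
  have h3 : |f (Fl x s)| ≤ c := abs_le.2 ⟨by linarith, by linarith⟩
  have hc : |c| = c := abs_of_nonneg ((abs_nonneg _).trans h3)
  have h4 := h _ h3
  have h5 : δ / (1 + δ) ≤ ι.G f (Fl x s) / (1 + ι.G f (Fl x s)) := by
    rw [div_le_div_iff₀ (by positivity) (by linarith)]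
    nlinarith
  rw [hs', sub_zero, h0, le_div_iff₀ hT0] at h5
  have h6 : δ / (1 + δ) * T = 2 * |c| + 1 := by
    rw [hT]; field_simp
  rw [h6, hc] at h5
  linarith

end Deck

namespace TAct

variable (A : TAct β m) {n : ℕ} {ι : Imm (E := E) P n} {Γ : Type*} [Group Γ] [MulAction Γ P]

lemma GB_comm (hβ : SmoothForm β) (x : P) (u v : Fin m → ℝ) :
    A.GB ι hβ x u v = A.GB ι hβ x v u := by
  rw [A.GB_apply, A.GB_apply, ι.G2_eq, ι.G2_eq, real_inner_comm]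

lemma Q_nonneg (κ : Fin m → ℝ) (x : P) : 0 ≤ A.Q ι κ x :=
  add_nonneg (ι.G_nonneg _ _) (sq_nonneg _)

lemma continuous_Q (hβ : SmoothForm β) (κ : Fin m → ℝ) : Continuous (A.Q ι κ) := by
  have h1 : Continuous (ι.G (A.H κ)) := (ι.smooth_G (A.smooth_H hβ κ)).continuous
  have h2 : Continuous (A.H κ) := (A.smooth_H hβ κ).continuous
  exact h1.add (h2.pow 2)

/-- the far estimate -/
lemma far_estimate (hβ : SmoothForm β) {v v' : Fin m → ℝ} {ε : ℝ} (hε : 0 ≤ ε) (hε2 : ε ≤ 1 / 8)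
    {x : P} (h : A.Q ι (v' - v) x ≤ ε ^ 2 * A.Q ι v x) (hq : 1 ≤ A.Q ι v x)
    (hH : (A.H v x) ^ 2 ≤ A.Q ι v x / 4) :
    1 / 6 ≤ dForm 𝓘(ℝ, E) (A.H v) x (ι.V (A.H v') x) := by
  rw [ι.dForm_V]
  have e1 : ι.G2 (A.H v) (A.H v') x = A.GB ι hβ x v v' := rfl
  have e2 : ι.G (A.H v') x = A.GB ι hβ x v' v' := rfl
  set Qv := A.Q ι v x with hQv
  set d := v' - v with hd
  have hv' : v' = v + d := by rw [hd]; abel
  have g1 : A.GB ι hβ x v v = Qv - (A.H v x) ^ 2 := by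
    rw [hQv]
    show ι.G (A.H v) x = ι.G (A.H v) x + (A.H v x) ^ 2 - _
    ring
  have g2 : A.GB ι hβ x d d ≤ ε ^ 2 * Qv := by
    have : A.Q ι d x = A.GB ι hβ x d d + (A.H d x) ^ 2 := rfl
    have h3 := sq_nonneg (A.H d x)
    linarith
  have g2' : 0 ≤ A.GB ι hβ x d d := ι.G_nonneg _ _
  have g3 : (A.GB ι hβ x v d) ^ 2 ≤ A.GB ι hβ x v v * A.GB ι hβ x d d := ι.G2_sq_le _ _ x
  have g1' : A.GB ι hβ x v v ≤ Qv := by rw [g1]; linarith [sq_nonneg (A.H v x)]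
  have hQ0 : 0 ≤ Qv := by linarith
  have g4 : |A.GB ι hβ x v d| ≤ ε * Qv := by
    apply abs_le_of_sq_le_sq _ (mul_nonneg hε hQ0)
    calc (A.GB ι hβ x v d) ^ 2 ≤ A.GB ι hβ x v v * A.GB ι hβ x d d := g3
      _ ≤ Qv * (ε ^ 2 * Qv) := mul_le_mul g1' g2 g2' hQ0
      _ = (ε * Qv) ^ 2 := by ring
  have g5 : A.GB ι hβ x v v' = A.GB ι hβ x v v + A.GB ι hβ x v d := by rw [hv', map_add]
  have g6 : A.GB ι hβ x v' v' = A.GB ι hβ x v v + 2 * A.GB ι hβ x v d + A.GB ι hβ x d d := by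
    have h1 : A.GB ι hβ x (v + d) (v + d) = A.GB ι hβ x (v + d) v + A.GB ι hβ x (v + d) d :=
      map_add _ _ _
    have h2 : ∀ w, A.GB ι hβ x (v + d) w = A.GB ι hβ x v w + A.GB ι hβ x d w := fun w => by
      rw [map_add]; rfl
    rw [hv', h1, h2, h2, A.GB_comm hβ x d v]
    ring
  rw [e1, e2]
  have g7 := abs_le.1 g4
  have e8 : ε * Qv ≤ 1 / 8 * Qv := mul_le_mul_of_nonneg_right hε2 hQ0
  have e9 : ε ^ 2 * Qv ≤ 1 / 64 * Qv := by
    apply mul_le_mul_of_nonneg_right _ hQ0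
    nlinarith
  have e10 : Qv / 2 ≤ A.GB ι hβ x v v' := by rw [g5, g1]; linarith
  have e11 : 1 + A.GB ι hβ x v' v' ≤ 3 * Qv := by rw [g6]; linarith
  have e12 : 0 ≤ A.GB ι hβ x v' v' := ι.G_nonneg _ _
  rw [← div_eq_inv_mul, div_le_div_iff₀ (by norm_num) (by linarith)]
  linarith

/-- **A flow of a good Hamiltonian pushes a nearby Hamiltonian.** -/
theorem nearPush (hβ : SmoothForm β) (v : Fin m → ℝ) {c c' : ℝ} (hcc : c < c') :
    ∃ ε > (0:ℝ), ∀ v' : Fin m → ℝ, (∀ x, A.Q ι (v' - v) x ≤ ε ^ 2 * A.Q ι v x) →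
      Nonempty (GFlow ι (A.H v')) → ∃ h : P × ℝ → P, Continuous h ∧ (∀ y, h (y, 0) = y) ∧
        (∀ y, c' < A.H v y → ∀ r, 0 ≤ r → c < A.H v (h (y, r))) ∧
        ∀ K, IsCompact K → ∃ T : ℝ, 0 ≤ T ∧ ∀ y ∈ K, c < A.H v (h (y, T)) := by
  set Λ := 2 * (|c| + |c'|) + 1 with hΛ
  have hΛ1 : 1 ≤ Λ := by have := abs_nonneg c; have := abs_nonneg c'; linarith
  have hcΛ : |c| ≤ Λ / 2 := by have := abs_nonneg c; have := abs_nonneg c'; linarith
  have hcΛ' : |c'| ≤ Λ / 2 := by have := abs_nonneg c; have := abs_nonneg c'; linarith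
  set ε := min (1 / 8) ((c' - c) / (4 * Λ)) with hε
  have hε0 : 0 < ε := lt_min (by norm_num) (div_pos (by linarith) (by linarith))
  have hε8 : ε ≤ 1 / 8 := min_le_left _ _
  have hεΛ : 2 * (ε * Λ) < c' - c := by
    have h1 : ε * Λ ≤ (c' - c) / (4 * Λ) * Λ :=
      mul_le_mul_of_nonneg_right (min_le_right _ _) (by linarith)
    have h2 : (c' - c) / (4 * Λ) * Λ = (c' - c) / 4 := by
      field_simp
    rw [h2] at h1
    linarith
  refine ⟨ε, hε0, fun v' hv' hF => ?_⟩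
  obtain ⟨F⟩ := hF
  have hal : ∀ y, Along (fun t => A.H v (F.Fl y t)) (fun t => A.H v' (F.Fl y t))
      (fun t => Real.sqrt (A.Q ι v (F.Fl y t)))
      (fun t => dForm 𝓘(ℝ, E) (A.H v) (F.Fl y t) (ι.V (A.H v') (F.Fl y t))) ε Λ := by
    intro y
    refine ⟨fun t => F.der _ (A.smooth_H hβ v) y t, F.mono y,
      Real.continuous_sqrt.comp ((A.continuous_Q hβ v).comp (F.cont_right y)), ?_, ?_⟩
    · intro t
      have h1 : A.H v (F.Fl y t) - A.H v' (F.Fl y t) = - A.H (v' - v) (F.Fl y t) := by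
        rw [A.H_sub]; ring
      rw [h1, abs_neg]
      have h2 : ε * Real.sqrt (A.Q ι v (F.Fl y t)) = Real.sqrt (ε ^ 2 * A.Q ι v (F.Fl y t)) := by
        rw [Real.sqrt_mul (sq_nonneg _), Real.sqrt_sq hε0.le]
      rw [h2]
      apply Real.abs_le_sqrt
      refine le_trans ?_ (hv' _)
      have := ι.G_nonneg (A.H (v' - v)) (F.Fl y t)
      show _ ≤ ι.G (A.H (v' - v)) (F.Fl y t) + (A.H (v' - v) (F.Fl y t)) ^ 2
      linarith
    · intro t h1 h2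
      set z := F.Fl y t with hz
      have hQ := A.Q_nonneg (ι := ι) v z
      have h3 : Real.sqrt (A.Q ι v z) ^ 2 = A.Q ι v z := Real.sq_sqrt hQ
      apply A.far_estimate hβ hε0.le hε8 (hv' z)
      · nlinarith
      · have h4 : (A.H v z) ^ 2 ≤ (Real.sqrt (A.Q ι v z) / 2) ^ 2 := by
          rw [← sq_abs]
          exact pow_le_pow_left₀ (abs_nonneg _) h2 2
        calc (A.H v z) ^ 2 ≤ (Real.sqrt (A.Q ι v z) / 2) ^ 2 := h4
          _ = A.Q ι v z / 4 := by rw [div_pow, h3]; norm_num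
  refine ⟨fun p => F.Fl p.1 p.2, F.cont, F.zero, ?_, ?_⟩
  · intro y hy r hr
    refine (hal y).stay hε0.le hcΛ hcΛ' hεΛ (t₂ := 0) ?_ hr
    show c' < A.H v (F.Fl y 0)
    rw [F.zero]
    exact hy
  · intro K hK
    -- push `H v'`
    obtain ⟨b, hb⟩ : ∃ b : ℝ, ∀ y ∈ K, -b ≤ A.H v' y := by
      obtain ⟨b, hb⟩ := (hK.image (A.smooth_H hβ v').continuous).bddBelow
      exact ⟨-b, fun y hy => by rw [neg_neg]; exact hb ⟨y, hy, rfl⟩⟩
    obtain ⟨T₁, hT₁, hpush⟩ := F.push (max b (|c'| + ε * Λ))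
    obtain ⟨B, hB0, hB⟩ : ∃ B : ℝ, 0 ≤ B ∧ ∀ y ∈ K, -B ≤ A.H v (F.Fl y T₁) := by
      obtain ⟨B, hB⟩ := (hK.image ((A.smooth_H hβ v).continuous.comp (F.cont_left T₁))).bddBelow
      refine ⟨max (-B) 0, le_max_right _ _, fun y hy => ?_⟩
      have h1 : B ≤ A.H v (F.Fl y T₁) := hB ⟨y, hy, rfl⟩
      have h2 := le_max_left (-B) 0
      linarith
    refine ⟨T₁ + 6 * (B + |c'| + 1), by positivity, fun y hy => ?_⟩
    have h1 := hpush y (by have := hb y hy; have := le_max_left b (|c'| + ε * Λ); linarith)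
    obtain ⟨t, ht, hgt⟩ := (hal y).reach hε0.le (by linarith) hcΛ' (t₁ := T₁)
      ((le_max_right _ _).trans_lt h1) (hB y hy) hB0
    exact (hal y).stay hε0.le hcΛ hcΛ' hεΛ hgt ht.2

end TAct

end Pool.Agent.H826R2.Wein
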