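import Mathlib
import Pool.Agent.H826R2.Wein.NearPush
import Pool.Agent.H826R2.Wein.Link

/-! Critical points from frames: the linking argument for contact Hamiltonians. -/

open scoped Topology ContDiff Manifold
open Set Metric Bundle Filter Pool.Agent.Helper186

noncomputable section

namespace Pool.Agent.H826R2.Wein

set_option linter.unusedSectionVars false

universe u

variable {E : Type u} [NormedAddCommGroup E] [NormedSpace ℝ E] [FiniteDimensional ℝ E]
  {P : Type*} [TopologicalSpace P] [ChartedSpace E P] [IsManifold 𝓘(ℝ, E) ∞ P]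
  {β : (x : P) → TangentSpace 𝓘(ℝ, E) x →L[ℝ] ℝ} {m : ℕ}

section av

variable {r : ℕ}

/-- weighted average -/
def av (n : Fin r → ℝ) (p : Fin r → ℝ) : ℝ := (∑ i, n i * p i) / ∑ i, n i

/-- the vectors of the frame with positive coefficients, normalised -/
def vv (w : Fin r → Fin m → ℝ) (n : Fin r → ℝ) (p : Fin r → ℝ) : Fin m → ℝ :=
  ∑ i, Real.exp (p i - av n p) • w i

lemma continuous_av (n : Fin r → ℝ) : Continuous (av n) := by
  unfold av
  fun_prop

lemma av_shift {n : Fin r → ℝ} (hn : 0 < ∑ i, n i) (p : Fin r → ℝ) :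
    ∑ i, n i * (p i - av n p) = 0 := by
  have h1 : ∑ i, n i * (p i - av n p) = ∑ i, n i * p i - (∑ i, n i) * av n p := by
    rw [Finset.sum_mul, ← Finset.sum_sub_distrib]
    exact Finset.sum_congr rfl fun i _ => by ring
  rw [h1, av, mul_div_cancel₀ _ hn.ne', sub_self]

end av

namespace TAct

variable (A : TAct β m) {N : ℕ} {ι : Imm (E := E) P N} {Γ : Type*} [Group Γ] [MulAction Γ P]

lemma H_sum {r : ℕ} (a : Fin r → ℝ) (w : Fin r → Fin m → ℝ) (x : P) :
    A.H (∑ i, a i • w i) x = ∑ i, a i * A.H (w i) x := by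
  let L : (Fin m → ℝ) →ₗ[ℝ] ℝ :=
    { toFun := fun κ => A.H κ x
      map_add' := fun a b => A.H_add a b x
      map_smul' := fun c a => A.H_smul c a x }
  have h : L (∑ i, a i • w i) = ∑ i, a i • L (w i) := by
    rw [map_sum]
    exact Finset.sum_congr rfl fun i _ => map_smul _ _ _
  exact h

lemma G_smul (hβ : SmoothForm β) (t : ℝ) (κ : Fin m → ℝ) (x : P) :
    ι.G (A.H (t • κ)) x = t ^ 2 * ι.G (A.H κ) x :=
  bilin_scale (A.GB ι hβ x) t κ

/-- existence of gradient flows for positive multiples of integral Hamiltonians -/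
lemma exists_gflow_smul [T2Space P] [SigmaCompactSpace P] (hc : IsContact β)
    {R : (x : P) → TangentSpace 𝓘(ℝ, E) x} (hR : IsReeb β R) (𝒟 : Deck ι Γ) (hN : A.Norm Γ)
    (hno : ∀ k : Fin m → ℤ, k ≠ 0 → ∀ x, dForm 𝓘(ℝ, E) (A.H (fun i => (k i : ℝ))) x ≠ 0)
    (k : Fin m → ℤ) (hk : k ≠ 0) {t : ℝ} (ht : 0 < t) :
    Nonempty (GFlow ι (A.H (t • rv k))) := by
  refine 𝒟.exists_gflow (A.smooth_H hc.smooth _) fun c => ?_
  obtain ⟨δ, hδ, h⟩ := A.palaisSmale hc hR 𝒟 hN hno k hk (c / t)
  refine ⟨t ^ 2 * δ, by positivity, fun x hx => ?_⟩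
  rw [A.G_smul hc.smooth]
  refine mul_le_mul_of_nonneg_left (h x ?_) (by positivity)
  rw [A.H_smul, abs_mul, abs_of_pos ht] at hx
  rw [le_div_iff₀ ht, mul_comm]
  exact hx

/-- A frame: data for the linking argument. -/
structure Frame (A : TAct β m) (ι : Imm (E := E) P N) (r : ℕ) where
  w : Fin r → Fin m → ℝ
  n : Fin r → ℝ
  npos : ∀ i, 0 < n i
  x : P
  pos : ∀ i, 0 < A.H (w i) x
  C : ℝ
  bound : ∀ y, ∑ i, n i * Real.log (A.Q ι (w i) y) ≤ C
  approx : ∀ (p : Fin r → ℝ) (ε : ℝ), 0 < ε → ∃ (k : Fin m → ℤ) (t : ℝ), k ≠ 0 ∧ 0 < t ∧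
    ∀ y, A.Q ι (t • rv k - vv w n p) y ≤ ε ^ 2 * A.Q ι (vv w n p) y

/-- **Critical points from frames.** -/
theorem exists_crit_of_frame [T2Space P] [SigmaCompactSpace P] (hc : IsContact β)
    {R : (x : P) → TangentSpace 𝓘(ℝ, E) x} (hR : IsReeb β R) (𝒟 : Deck ι Γ) (hN : A.Norm Γ)
    {r : ℕ} (hr : 0 < r) (F : Frame A ι r) :
    ∃ k : Fin m → ℤ, k ≠ 0 ∧ ∃ x, dForm 𝓘(ℝ, E) (A.H (rv k)) x = 0 := by
  by_contra hno
  push Not at hno
  have hβ := hc.smooth
  have : Nonempty (Fin r) := ⟨⟨0, hr⟩⟩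
  have hns : 0 < ∑ i, F.n i := Finset.sum_pos (fun i _ => F.npos i) Finset.univ_nonempty
  set Φ : (Fin r → ℝ) × P → ℝ := fun q =>
    (∑ i, Real.exp (q.1 i - av F.n q.1) * A.H (F.w i) q.2) + (av F.n q.1) ^ 2 with hΦdef
  have hΦH : ∀ p y, Φ (p, y) = A.H (vv F.w F.n p) y + (av F.n p) ^ 2 := by
    intro p y
    simp only [hΦdef, vv]
    rw [A.H_sum]
  have hHc : ∀ i, Continuous (A.H (F.w i)) := fun i => (A.smooth_H hβ _).continuous
  have hΦ : Continuous Φ := by
    have h1 : Continuous (fun q : (Fin r → ℝ) × P => av F.n q.1) :=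
      (continuous_av F.n).comp continuous_fst
    refine Continuous.add (continuous_finsetSum _ fun i _ => ?_) (h1.pow 2)
    refine (Real.continuous_exp.comp (Continuous.sub (by fun_prop) h1)).mul
      ((hHc i).comp continuous_snd)
  have hw0 : ∀ i, F.w i ≠ 0 := by
    intro i h0
    have h1 := F.pos i
    rw [h0] at h1
    have h2 := A.H_smul 0 0 F.x
    rw [zero_smul, zero_mul] at h2
    rw [h2] at h1
    exact lt_irrefl _ h1
  have hQpos : ∀ i y, 0 < A.Q ι (F.w i) y := fun i y => A.Q_pos ι hc hR (hw0 i) y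
  refine Link.linking (Φ := Φ) hΦ ?_ F.x ?_
    (L := fun y i => - (1 / 2) * Real.log (A.Q ι (F.w i) y) +
      (1 / 2) * (∑ j, F.n j * Real.log (A.Q ι (F.w j) y)) / ∑ j, F.n j) ?_
    (c := r * Real.exp ((1 / 2) * F.C / ∑ j, F.n j)) ?_
  · -- pushing
    intro p c c' hcc
    obtain ⟨ε, hε, h⟩ := A.nearPush (ι := ι) hβ (vv F.w F.n p)
      (c := c - (av F.n p) ^ 2) (c' := c' - (av F.n p) ^ 2) (by linarith)
    obtain ⟨k, t, hk, ht, hkt⟩ := F.approx p ε hε
    obtain ⟨g, hg, hg0, hg1, hg2⟩ := h (t • rv k) hkt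
      (A.exists_gflow_smul hc hR 𝒟 hN hno k hk ht)
    refine ⟨g, hg, hg0, ?_, ?_⟩
    · intro y hy s hs
      rw [hΦH] at hy ⊢
      have := hg1 y (by linarith) s hs
      linarith
    · intro K hK
      obtain ⟨T, hT, h2⟩ := hg2 K hK
      refine ⟨T, hT, fun y hy => ?_⟩
      rw [hΦH]
      have := h2 y hy
      linarith
  · -- properness
    obtain ⟨h₀, hh₀, hle⟩ : ∃ h₀ > (0:ℝ), ∀ i, h₀ ≤ A.H (F.w i) F.x := by
      obtain ⟨i₀, -, hi₀⟩ := Finset.exists_min_image Finset.univ (fun i => A.H (F.w i) F.x)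
        Finset.univ_nonempty
      exact ⟨_, F.pos i₀, fun i => hi₀ i (Finset.mem_univ _)⟩
    obtain ⟨n₀, hn₀, hnle⟩ : ∃ n₀ > (0:ℝ), ∀ i, n₀ ≤ F.n i := by
      obtain ⟨i₀, -, hi₀⟩ := Finset.exists_min_image Finset.univ F.n Finset.univ_nonempty
      exact ⟨_, F.npos i₀, fun i => hi₀ i (Finset.mem_univ _)⟩
    rw [Filter.tendsto_atTop]
    intro M
    have key : ∀ p : Fin r → ℝ, Φ (p, F.x) < M →
        ‖p‖ ≤ (|M| + 1) + (|M| / h₀) * (1 + (∑ i, F.n i) / n₀) := by
      intro p hp
      have hterm : ∀ i, 0 ≤ Real.exp (p i - av F.n p) * A.H (F.w i) F.x := fun i =>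
        mul_nonneg (Real.exp_pos _).le (F.pos i).le
      have ha2 : (av F.n p) ^ 2 < M := by
        have h1 : 0 ≤ ∑ i, Real.exp (p i - av F.n p) * A.H (F.w i) F.x :=
          Finset.sum_nonneg fun i _ => hterm i
        have h2 : Φ (p, F.x) = (∑ i, Real.exp (p i - av F.n p) * A.H (F.w i) F.x) +
          (av F.n p) ^ 2 := rfl
        linarith
      have hM0 : 0 < M := (sq_nonneg _).trans_lt ha2
      have hMabs : |M| = M := abs_of_pos hM0
      have ha : |av F.n p| ≤ |M| + 1 := by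
        rw [hMabs]
        nlinarith [sq_abs (av F.n p), abs_nonneg (av F.n p)]
      have hq : ∀ i, p i - av F.n p ≤ |M| / h₀ := by
        intro i
        have h1 : Real.exp (p i - av F.n p) * A.H (F.w i) F.x < M := by
          have h2 : Real.exp (p i - av F.n p) * A.H (F.w i) F.x ≤
              ∑ i, Real.exp (p i - av F.n p) * A.H (F.w i) F.x :=
            Finset.single_le_sum (fun i _ => hterm i) (Finset.mem_univ i)
          have h3 : Φ (p, F.x) = (∑ i, Real.exp (p i - av F.n p) * A.H (F.w i) F.x) +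
            (av F.n p) ^ 2 := rfl
          have h4 := sq_nonneg (av F.n p)
          linarith
        have h2 : p i - av F.n p + 1 ≤ Real.exp (p i - av F.n p) := Real.add_one_le_exp _
        rw [le_div_iff₀ hh₀, hMabs]
        have h3 : Real.exp (p i - av F.n p) * h₀ ≤ Real.exp (p i - av F.n p) * A.H (F.w i) F.x :=
          mul_le_mul_of_nonneg_left (hle i) (Real.exp_pos _).le
        nlinarith
      have hM2 : 0 ≤ |M| / h₀ := by positivity
      have hq2 : ∀ i, -(|M| / h₀ * ((∑ i, F.n i) / n₀)) ≤ p i - av F.n p := by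
        intro i
        have h1 := av_shift hns p
        rw [← Finset.add_sum_erase _ _ (Finset.mem_univ i)] at h1
        have h2 : ∑ j ∈ Finset.univ.erase i, F.n j * (p j - av F.n p) ≤
            ∑ j ∈ Finset.univ.erase i, F.n j * (|M| / h₀) :=
          Finset.sum_le_sum fun j _ => mul_le_mul_of_nonneg_left (hq j) (F.npos j).le
        have h3 : ∑ j ∈ Finset.univ.erase i, F.n j * (|M| / h₀) ≤
            (∑ j, F.n j) * (|M| / h₀) := by
          rw [← Finset.sum_mul]
          refine mul_le_mul_of_nonneg_right ?_ hM2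
          exact Finset.sum_le_sum_of_subset_of_nonneg (Finset.erase_subset _ _)
            fun j _ _ => (F.npos j).le
        have h4 : -((∑ j, F.n j) * (|M| / h₀)) ≤ F.n i * (p i - av F.n p) := by linarith
        by_contra hlt
        push Not at hlt
        have h5 : F.n i * (p i - av F.n p) < F.n i * -(|M| / h₀ * ((∑ i, F.n i) / n₀)) :=
          mul_lt_mul_of_pos_left hlt (F.npos i)
        have h6 : F.n i * -(|M| / h₀ * ((∑ i, F.n i) / n₀)) ≤
            n₀ * -(|M| / h₀ * ((∑ i, F.n i) / n₀)) := by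
          apply mul_le_mul_of_nonpos_right (hnle i)
          have : 0 ≤ |M| / h₀ * ((∑ i, F.n i) / n₀) := by positivity
          linarith
        have h7 : n₀ * -(|M| / h₀ * ((∑ i, F.n i) / n₀)) = -((∑ j, F.n j) * (|M| / h₀)) := by
          field_simp
        linarith
      rw [pi_norm_le_iff_of_nonneg (by positivity)]
      intro i
      have e1 := hq i
      have e2 := hq2 i
      have e3 := abs_le.1 ha
      have e4 : 0 ≤ |M| / h₀ * ((∑ i, F.n i) / n₀) := by positivity
      rw [Real.norm_eq_abs, abs_le]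
      constructor
      · linarith [e3.1]
      · linarith [e3.2]
    rw [← Metric.cobounded_eq_cocompact, (hasBasis_cobounded_norm (E := Fin r → ℝ)).eventually_iff]
    refine ⟨(|M| + 1) + (|M| / h₀) * (1 + (∑ i, F.n i) / n₀) + 1, trivial, fun p hp => ?_⟩
    by_contra hlt
    push Not at hlt
    have h1 := key p hlt
    have h2 : (|M| + 1) + (|M| / h₀) * (1 + (∑ i, F.n i) / n₀) + 1 ≤ ‖p‖ := hp
    linarith
  · -- continuity of `L`
    refine continuous_pi fun i => ?_
    have h1 : ∀ j, Continuous (fun y => Real.log (A.Q ι (F.w j) y)) := fun j =>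
      (A.continuous_Q hβ (F.w j)).log fun y => (hQpos j y).ne'
    refine Continuous.add (continuous_const.mul (h1 i)) (Continuous.div_const
      (continuous_const.mul (continuous_finsetSum _ fun j _ => continuous_const.mul (h1 j))) _)
  · -- the bound
    intro y
    set S := ∑ j, F.n j * Real.log (A.Q ι (F.w j) y) with hS
    have hav : av F.n (fun i => - (1 / 2) * Real.log (A.Q ι (F.w i) y) +
        (1 / 2) * S / ∑ j, F.n j) = 0 := by
      unfold av
      have h1 : ∑ i, F.n i * (- (1 / 2) * Real.log (A.Q ι (F.w i) y) +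
          (1 / 2) * S / ∑ j, F.n j) = 0 := by
        have h2 : ∀ i, F.n i * (- (1 / 2) * Real.log (A.Q ι (F.w i) y) +
          (1 / 2) * S / ∑ j, F.n j) = -(1 / 2) * (F.n i * Real.log (A.Q ι (F.w i) y)) +
            F.n i * ((1 / 2) * S / ∑ j, F.n j) := fun i => by ring
        simp only [h2]
        rw [Finset.sum_add_distrib, ← Finset.mul_sum, ← Finset.sum_mul, ← hS]
        field_simp
        ring
      rw [h1, zero_div]
    show (∑ i, Real.exp ((- (1 / 2) * Real.log (A.Q ι (F.w i) y) + (1 / 2) * S / ∑ j, F.n j) -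
      av F.n (fun i => - (1 / 2) * Real.log (A.Q ι (F.w i) y) + (1 / 2) * S / ∑ j, F.n j)) *
        A.H (F.w i) y) + (av F.n (fun i => - (1 / 2) * Real.log (A.Q ι (F.w i) y) +
          (1 / 2) * S / ∑ j, F.n j)) ^ 2 ≤ _
    rw [hav]
    have hterm : ∀ i ∈ Finset.univ, Real.exp ((- (1 / 2) * Real.log (A.Q ι (F.w i) y) +
        (1 / 2) * S / ∑ j, F.n j) - 0) * A.H (F.w i) y ≤
        Real.exp ((1 / 2) * F.C / ∑ j, F.n j) := by
      intro i _
      have h1 : A.H (F.w i) y ≤ Real.exp ((1 / 2) * Real.log (A.Q ι (F.w i) y)) := by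
        have h2 : Real.exp ((1 / 2) * Real.log (A.Q ι (F.w i) y)) =
            Real.sqrt (A.Q ι (F.w i) y) := by
          rw [Real.sqrt_eq_rpow, Real.rpow_def_of_pos (hQpos i y)]
          ring_nf
        rw [h2]
        apply Real.le_sqrt_of_sq_le
        have := ι.G_nonneg (A.H (F.w i)) y
        show _ ≤ ι.G (A.H (F.w i)) y + (A.H (F.w i) y) ^ 2
        linarith
      calc _ ≤ Real.exp ((- (1 / 2) * Real.log (A.Q ι (F.w i) y) +
            (1 / 2) * S / ∑ j, F.n j) - 0) *
            Real.exp ((1 / 2) * Real.log (A.Q ι (F.w i) y)) :=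
            mul_le_mul_of_nonneg_left h1 (Real.exp_pos _).le
        _ = Real.exp ((1 / 2) * S / ∑ j, F.n j) := by
            rw [← Real.exp_add]
            congr 1
            ring
        _ ≤ _ := by
            apply Real.exp_le_exp.2
            apply div_le_div_of_nonneg_right _ hns.le
            have := F.bound y
            linarith
    have h3 := Finset.sum_le_sum hterm
    rw [Finset.sum_const, Finset.card_univ, Fintype.card_fin, nsmul_eq_mul] at h3
    simpa using h3

end TAct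

end Pool.Agent.H826R2.Wein
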