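import Mathlib
import Pool.Agent.H826R2.Wein.Main

/-! Strict contact vector fields and their Hamiltonians. -/

open scoped Topology ContDiff Manifold
open Set Metric Bundle Pool.Agent.Helper186

noncomputable section

namespace Pool.Agent.H826R2.Wein

set_option linter.unusedSectionVars false

universe u

variable {E : Type u} [NormedAddCommGroup E] [NormedSpace ℝ E] [FiniteDimensional ℝ E]
  {P : Type*} [TopologicalSpace P] [ChartedSpace E P] [IsManifold 𝓘(ℝ, E) ∞ P]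
  {β : (x : P) → TangentSpace 𝓘(ℝ, E) x →L[ℝ] ℝ}

/-- the bilinear form `β ⊗ β + dβ` -/
def HB (β : (x : P) → TangentSpace 𝓘(ℝ, E) x →L[ℝ] ℝ) (x : P) :
    TangentSpace 𝓘(ℝ, E) x →L[ℝ] TangentSpace 𝓘(ℝ, E) x →L[ℝ] ℝ :=
  (β x).smulRight (β x) + extDerL 𝓘(ℝ, E) β x

lemma HB_apply (x : P) (u v : TangentSpace 𝓘(ℝ, E) x) :
    HB β x u v = β x u * β x v + extDer 𝓘(ℝ, E) β x u v := by
  rw [← extDerL_apply]; rfl

lemma extDer_antisymm (x : P) (u v : TangentSpace 𝓘(ℝ, E) x) :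
    extDer 𝓘(ℝ, E) β x u v = - extDer 𝓘(ℝ, E) β x v u := by
  unfold extDer; ring

lemma smoothBilin_HB (hβ : SmoothForm β) (x : P) :
    SmoothBilinAt 𝓘(ℝ, E) (fun y : P => y) (HB β) x := by
  intro u v hu hv
  have h1 : ContMDiffAt 𝓘(ℝ, E) 𝓘(ℝ, ℝ) ∞ (fun p => β p (u p)) x := hβ.comp hu le_rfl
  have h2 : ContMDiffAt 𝓘(ℝ, E) 𝓘(ℝ, ℝ) ∞ (fun p => β p (v p)) x := hβ.comp hv le_rfl
  have h3 := smoothBilinAt_extDer hβ (f := fun y : P => y) contMDiffAt_id u v hu hv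
  exact (h1.mul h2).add h3

lemma HB_nondeg (hc : IsContact β) {R : (x : P) → TangentSpace 𝓘(ℝ, E) x} (hR : IsReeb β R)
    (x : P) (u : TangentSpace 𝓘(ℝ, E) x) (h : ∀ v, HB β x u v = 0) : u = 0 := by
  have h1 := h (R x)
  rw [HB_apply, hR.unit, mul_one, extDer_antisymm, hR.kernel, neg_zero, add_zero] at h1
  refine hc.nondeg x u h1 fun v _ => ?_
  have h2 := h v
  rw [HB_apply, h1, zero_mul, zero_add] at h2
  exact h2

lemma exists_HB (hc : IsContact β) {R : (x : P) → TangentSpace 𝓘(ℝ, E) x} (hR : IsReeb β R)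
    (x : P) (l : TangentSpace 𝓘(ℝ, E) x →L[ℝ] ℝ) :
    ∃ u : TangentSpace 𝓘(ℝ, E) x, ∀ v, HB β x u v = l v := by
  let b : E →L[ℝ] (E →L[ℝ] ℝ) := HB β x
  have hinj : Function.Injective (b : E →ₗ[ℝ] (E →L[ℝ] ℝ)) := by
    rw [injective_iff_map_eq_zero]
    intro u hu
    apply HB_nondeg hc hR x u
    intro v
    exact DFunLike.congr_fun hu v
  have hdim : Module.finrank ℝ E = Module.finrank ℝ (E →L[ℝ] ℝ) := by
    rw [← (LinearMap.toContinuousLinearMap (𝕜 := ℝ) (E := E) (F' := ℝ)).finrank_eq]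
    exact (Subspace.dual_finrank_eq (K := ℝ) (V := E)).symm
  have hsurj := (LinearMap.injective_iff_surjective_of_finrank_eq_finrank
    (f := (b : E →ₗ[ℝ] (E →L[ℝ] ℝ))) hdim).1 hinj
  obtain ⟨u, hu⟩ := hsurj l
  exact ⟨u, fun v => DFunLike.congr_fun hu v⟩

/-- contact data -/
structure CD (β : (x : P) → TangentSpace 𝓘(ℝ, E) x →L[ℝ] ℝ)
    (R : (x : P) → TangentSpace 𝓘(ℝ, E) x) : Prop where
  contact : IsContact β
  reeb : IsReeb β R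

namespace CD

variable {R : (x : P) → TangentSpace 𝓘(ℝ, E) x} (c : CD β R)

/-- the contact vector field of `f` -/
def X (f : P → ℝ) (x : P) : TangentSpace 𝓘(ℝ, E) x :=
  Classical.choose (exists_HB c.contact c.reeb x (f x • β x - dForm 𝓘(ℝ, E) f x))

lemma X_spec (f : P → ℝ) (x : P) (v : TangentSpace 𝓘(ℝ, E) x) :
    HB β x (c.X f x) v = f x * β x v - dForm 𝓘(ℝ, E) f x v :=
  Classical.choose_spec (exists_HB c.contact c.reeb x (f x • β x - dForm 𝓘(ℝ, E) f x)) v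

lemma X_unique {f : P → ℝ} {x : P} {u : TangentSpace 𝓘(ℝ, E) x}
    (h : ∀ v, HB β x u v = f x * β x v - dForm 𝓘(ℝ, E) f x v) : u = c.X f x := by
  rw [← sub_eq_zero]
  apply HB_nondeg c.contact c.reeb
  intro v
  have h1 : HB β x (u - c.X f x) v = HB β x u v - HB β x (c.X f x) v := by
    rw [map_sub]; rfl
  rw [h1, h, c.X_spec, sub_self]

lemma β_X {f : P → ℝ} {x : P} (hf : dForm 𝓘(ℝ, E) f x (R x) = 0) : β x (c.X f x) = f x := by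
  have h1 := c.X_spec f x (R x)
  rw [HB_apply, c.reeb.unit, mul_one, extDer_antisymm, c.reeb.kernel, neg_zero, add_zero, hf,
    mul_one, sub_zero] at h1
  exact h1

lemma dβ_X {f : P → ℝ} {x : P} (hf : dForm 𝓘(ℝ, E) f x (R x) = 0)
    (v : TangentSpace 𝓘(ℝ, E) x) :
    extDer 𝓘(ℝ, E) β x (c.X f x) v = - dForm 𝓘(ℝ, E) f x v := by
  have h1 := c.X_spec f x v
  rw [HB_apply, c.β_X hf] at h1
  linarith

lemma smooth_X {f : P → ℝ} (hf : ContMDiff 𝓘(ℝ, E) 𝓘(ℝ, ℝ) ∞ f) :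
    ContMDiff 𝓘(ℝ, E) 𝓘(ℝ, E).tangent ∞
      (fun x => (⟨x, c.X f x⟩ : TangentBundle 𝓘(ℝ, E) P)) := by
  intro x
  refine contMDiffAt_of_pairing (J := 𝓘(ℝ, E)) (f := fun x : P => x) contMDiffAt_id
    (smoothBilin_HB c.contact.smooth x) (HB_nondeg c.contact c.reeb x) ?_
  intro v hv
  have h1 : ContMDiffAt 𝓘(ℝ, E) 𝓘(ℝ, ℝ) ∞ (fun x => dForm 𝓘(ℝ, E) f x (v x)) x :=
    (smoothForm_dForm hf).comp hv le_rfl
  have h2 : ContMDiffAt 𝓘(ℝ, E) 𝓘(ℝ, ℝ) ∞ (fun x => β x (v x)) x :=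
    c.contact.smooth.comp hv le_rfl
  refine (((hf x).mul h2).sub h1).congr_of_eventuallyEq
    (Filter.Eventually.of_forall fun p => ?_)
  exact c.X_spec f p (v p)

lemma dForm_add {f g : P → ℝ} (hf : ContMDiff 𝓘(ℝ, E) 𝓘(ℝ, ℝ) ∞ f)
    (hg : ContMDiff 𝓘(ℝ, E) 𝓘(ℝ, ℝ) ∞ g) (x : P) (v : TangentSpace 𝓘(ℝ, E) x) :
    dForm 𝓘(ℝ, E) (fun y => f y + g y) x v = dForm 𝓘(ℝ, E) f x v + dForm 𝓘(ℝ, E) g x v := by
  have h1 := ((hf.mdifferentiableAt (x := x) (by simp)).hasMFDerivAt).add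
    ((hg.mdifferentiableAt (x := x) (by simp)).hasMFDerivAt)
  have h2 := h1.mfderiv
  exact DFunLike.congr_fun h2 v

lemma dForm_smul (a : ℝ) {f : P → ℝ} (hf : ContMDiff 𝓘(ℝ, E) 𝓘(ℝ, ℝ) ∞ f)
    (x : P) (v : TangentSpace 𝓘(ℝ, E) x) :
    dForm 𝓘(ℝ, E) (fun y => a * f y) x v = a * dForm 𝓘(ℝ, E) f x v := by
  have h1 := ((hf.mdifferentiableAt (x := x) (by simp)).hasMFDerivAt).const_smul a
  have h2 := h1.mfderiv
  exact DFunLike.congr_fun h2 v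

lemma X_add {f g : P → ℝ} (hf : ContMDiff 𝓘(ℝ, E) 𝓘(ℝ, ℝ) ∞ f)
    (hg : ContMDiff 𝓘(ℝ, E) 𝓘(ℝ, ℝ) ∞ g) (x : P) :
    c.X (fun y => f y + g y) x = c.X f x + c.X g x := by
  symm
  apply c.X_unique
  intro v
  have h1 : HB β x (c.X f x + c.X g x) v = HB β x (c.X f x) v + HB β x (c.X g x) v := by
    rw [map_add]; rfl
  rw [h1, c.X_spec, c.X_spec, dForm_add hf hg]
  ring

lemma X_smul (a : ℝ) {f : P → ℝ} (hf : ContMDiff 𝓘(ℝ, E) 𝓘(ℝ, ℝ) ∞ f) (x : P) :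
    c.X (fun y => a * f y) x = a • c.X f x := by
  symm
  apply c.X_unique
  intro v
  have h1 : HB β x (a • c.X f x) v = a * HB β x (c.X f x) v := by
    rw [map_smul]; rfl
  rw [h1, c.X_spec, dForm_smul a hf]
  ring

/-- contact bracket -/
def br (f g : P → ℝ) (x : P) : ℝ := dForm 𝓘(ℝ, E) g x (c.X f x)

lemma br_antisymm {f g : P → ℝ} {x : P} (hf : dForm 𝓘(ℝ, E) f x (R x) = 0)
    (hg : dForm 𝓘(ℝ, E) g x (R x) = 0) : c.br f g x = - c.br g f x := by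
  unfold br
  have h1 := c.dβ_X hg (c.X f x)
  have h2 := c.dβ_X hf (c.X g x)
  rw [extDer_antisymm] at h1
  linarith

end CD

/-- strict contactomorphisms -/
structure Cto (β : (x : P) → TangentSpace 𝓘(ℝ, E) x →L[ℝ] ℝ) (g g' : P → P) : Prop where
  smooth : ContMDiff 𝓘(ℝ, E) 𝓘(ℝ, E) ∞ g
  smooth' : ContMDiff 𝓘(ℝ, E) 𝓘(ℝ, E) ∞ g'
  right : ∀ x, g (g' x) = x
  left : ∀ x, g' (g x) = x
  strict : ∀ (x : P) (u : TangentSpace 𝓘(ℝ, E) x),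
    β (g x) (mfderiv 𝓘(ℝ, E) 𝓘(ℝ, E) g x u) = β x u

namespace Cto

variable {g g' : P → P} (hg : Cto β g g')

include hg

lemma surjD (x : P) (w : E) :
    ∃ v : TangentSpace 𝓘(ℝ, E) x, (mfderiv 𝓘(ℝ, E) 𝓘(ℝ, E) g x v : E) = w := by
  have h1 : mfderiv 𝓘(ℝ, E) 𝓘(ℝ, E) (g ∘ g') (g x) =
      (mfderiv 𝓘(ℝ, E) 𝓘(ℝ, E) g (g' (g x))).comp
      (mfderiv 𝓘(ℝ, E) 𝓘(ℝ, E) g' (g x)) :=
    mfderiv_comp _ (hg.smooth.mdifferentiableAt (by simp)) (hg.smooth'.mdifferentiableAt (by simp))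
  have h2 : g ∘ g' = id := by ext1 y; exact hg.right y
  rw [h2, mfderiv_id] at h1
  have h3 := DFunLike.congr_fun h1 w
  have h4 : ∀ z : P, z = x → ∀ a : E, (mfderiv 𝓘(ℝ, E) 𝓘(ℝ, E) g z a : E) =
      mfderiv 𝓘(ℝ, E) 𝓘(ℝ, E) g x a := by rintro _ rfl a; rfl
  refine ⟨(mfderiv 𝓘(ℝ, E) 𝓘(ℝ, E) g' (g x) w : E), ?_⟩
  exact (h4 _ (hg.left x) _).symm.trans h3.symm

lemma HB_push (hβ : SmoothForm β) (x : P) (u v : TangentSpace 𝓘(ℝ, E) x) :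
    HB β (g x) (mfderiv 𝓘(ℝ, E) 𝓘(ℝ, E) g x u) (mfderiv 𝓘(ℝ, E) 𝓘(ℝ, E) g x v) =
      HB β x u v := by
  have h1 : pullForm 𝓘(ℝ, E) 𝓘(ℝ, E) g β = β := by
    ext1 y
    exact ContinuousLinearMap.ext fun w => hg.strict y w
  have h2 := extDer_pull hg.smooth hβ x u v
  rw [h1] at h2
  rw [HB_apply, HB_apply, hg.strict, hg.strict, h2]

lemma dForm_push {h h' : P → ℝ} (hh' : ContMDiff 𝓘(ℝ, E) 𝓘(ℝ, ℝ) ∞ h')
    (hhh : ∀ x, h' (g x) = h x) (x : P) (v : TangentSpace 𝓘(ℝ, E) x) :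
    dForm 𝓘(ℝ, E) h' (g x) (mfderiv 𝓘(ℝ, E) 𝓘(ℝ, E) g x v) = dForm 𝓘(ℝ, E) h x v := by
  have h1 : mfderiv 𝓘(ℝ, E) 𝓘(ℝ, ℝ) (h' ∘ g) x =
      (mfderiv 𝓘(ℝ, E) 𝓘(ℝ, ℝ) h' (g x)).comp
      (mfderiv 𝓘(ℝ, E) 𝓘(ℝ, E) g x) :=
    mfderiv_comp _ (hh'.mdifferentiableAt (by simp)) (hg.smooth.mdifferentiableAt (by simp))
  have h2 : h' ∘ g = h := by ext1 y; exact hhh y
  rw [h2] at h1
  exact (DFunLike.congr_fun h1 v).symm

lemma push_X {R : (x : P) → TangentSpace 𝓘(ℝ, E) x} (c : CD β R) {h h' : P → ℝ}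
    (hh' : ContMDiff 𝓘(ℝ, E) 𝓘(ℝ, ℝ) ∞ h') (hhh : ∀ x, h' (g x) = h x) (x : P) :
    (mfderiv 𝓘(ℝ, E) 𝓘(ℝ, E) g x (c.X h x) : E) = c.X h' (g x) := by
  apply c.X_unique
  intro w
  obtain ⟨v, rfl⟩ := hg.surjD x w
  rw [hg.HB_push c.contact.smooth, c.X_spec, hg.strict, hg.dForm_push hh' hhh, hhh]

/-- naturality of the bracket -/
lemma br_push {R : (x : P) → TangentSpace 𝓘(ℝ, E) x} (c : CD β R) {f f' h h' : P → ℝ}
    (hh' : ContMDiff 𝓘(ℝ, E) 𝓘(ℝ, ℝ) ∞ h') (hhh : ∀ x, h' (g x) = h x)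
    (hf' : ContMDiff 𝓘(ℝ, E) 𝓘(ℝ, ℝ) ∞ f') (hff : ∀ x, f' (g x) = f x) (x : P) :
    c.br f' h' (g x) = c.br f h x := by
  unfold CD.br
  have h1 := hg.push_X c hf' hff x
  have h2 := hg.dForm_push hh' hhh x (c.X f x)
  rw [← h2]
  exact congrArg (fun w : E => dForm 𝓘(ℝ, E) h' (g x) w) h1.symm

end Cto

end Pool.Agent.H826R2.Wein
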