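import Mathlib
import Pool.Agent.H826R2.Wein.Ham

/-! Flows of strict contact vector fields. -/

open scoped Topology ContDiff Manifold
open Set Metric Bundle Pool.Agent.Helper186

noncomputable section

namespace Pool.Agent.H826R2.Wein

set_option linter.unusedSectionVars false

universe u

variable {E : Type u} [NormedAddCommGroup E] [NormedSpace ℝ E] [FiniteDimensional ℝ E]
  {P : Type*} [TopologicalSpace P] [ChartedSpace E P] [IsManifold 𝓘(ℝ, E) ∞ P] [T2Space P]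
  {β : (x : P) → TangentSpace 𝓘(ℝ, E) x →L[ℝ] ℝ} {R : (x : P) → TangentSpace 𝓘(ℝ, E) x}

/-- The flow of a strict contact vector field. -/
structure HF (c : CD β R) (f : P → ℝ) where
  Fl : P → ℝ → P
  zero : ∀ x, Fl x 0 = x
  int : ∀ x, IsMIntegralCurve (I := 𝓘(ℝ, E)) (Fl x) (c.X f)
  smooth : ContMDiff 𝓘(ℝ, E) 𝓘(ℝ, ℝ) ∞ f
  first : ∀ x, dForm 𝓘(ℝ, E) f x (R x) = 0

namespace HF

variable {c : CD β R} {f : P → ℝ} (F : HF c f)

lemma add (x : P) (s t : ℝ) : F.Fl x (s + t) = F.Fl (F.Fl x s) t := by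
  have : IsManifold 𝓘(ℝ, E) 1 P := IsManifold.of_le (n := ∞) (by simp)
  exact flow_add (c.smooth_X F.smooth) F.zero F.int x s t

lemma smooth_flow : ContMDiff (𝓘(ℝ, E).prod 𝓘(ℝ, ℝ)) 𝓘(ℝ, E) ∞
    (fun p : P × ℝ => F.Fl p.1 p.2) := by
  have : IsManifold 𝓘(ℝ, E) 1 P := IsManifold.of_le (n := ∞) (by simp)
  exact contMDiff_flow (c.smooth_X F.smooth) F.zero F.int

/-- the flow with the time variable first -/
def i (p : ℝ × P) : P := F.Fl p.2 p.1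

lemma smooth_i : ContMDiff (𝓘(ℝ, ℝ).prod 𝓘(ℝ, E)) 𝓘(ℝ, E) ∞ F.i :=
  F.smooth_flow.comp (contMDiff_snd.prodMk contMDiff_fst)

lemma smooth_t (t : ℝ) : ContMDiff 𝓘(ℝ, E) 𝓘(ℝ, E) ∞ (fun x => F.Fl x t) :=
  F.smooth_flow.comp (contMDiff_id.prodMk contMDiff_const)

lemma dS_i (s : ℝ) (x : P) : dS 𝓘(ℝ, E) F.i s x = c.X f (F.Fl x s) := by
  have h := (F.int x s).mfderiv
  unfold dS
  show (mfderiv 𝓘(ℝ, ℝ) 𝓘(ℝ, E) (fun σ => F.Fl x σ) s) (1:ℝ) = _
  have h2 : (fun σ => F.Fl x σ) = F.Fl x := rfl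
  rw [h2, h]
  show (1 : ℝ →L[ℝ] ℝ) 1 • c.X f (F.Fl x s) = _
  simp

/-- **The flow preserves the contact form.** -/
lemma strict (t : ℝ) (x : P) (u : TangentSpace 𝓘(ℝ, E) x) :
    β (F.Fl x t) (mfderiv 𝓘(ℝ, E) 𝓘(ℝ, E) (fun x => F.Fl x t) x u) = β x u := by
  have hder : ∀ s, HasDerivAt (fun σ => β (F.i (σ, x)) (dX 𝓘(ℝ, E) 𝓘(ℝ, E) F.i σ x u)) 0 s := by
    intro s
    have h1 := hasDerivAt_variation (I := 𝓘(ℝ, E)) (J := 𝓘(ℝ, E)) c.contact.smooth isOpen_univ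
      F.smooth_i.contMDiffOn (mem_univ (s, x)) u
    refine h1.congr_deriv ?_
    have h2 : (fun x' : P => β (F.i (s, x')) (dS 𝓘(ℝ, E) F.i s x')) =
        f ∘ (fun x' => F.Fl x' s) := by
      ext1 x'
      rw [F.dS_i]
      exact c.β_X (F.first _)
    rw [h2]
    have h3 : mfderiv 𝓘(ℝ, E) 𝓘(ℝ, ℝ) (f ∘ fun x' => F.Fl x' s) x =
        (mfderiv 𝓘(ℝ, E) 𝓘(ℝ, ℝ) f (F.Fl x s)).comp
        (mfderiv 𝓘(ℝ, E) 𝓘(ℝ, E) (fun x' => F.Fl x' s) x) :=
      mfderiv_comp _ (F.smooth.mdifferentiableAt (by simp))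
        ((F.smooth_t s).mdifferentiableAt (by simp))
    have h4 : extDer 𝓘(ℝ, E) β (F.i (s, x)) (dS 𝓘(ℝ, E) F.i s x)
        (dX 𝓘(ℝ, E) 𝓘(ℝ, E) F.i s x u) =
        - dForm 𝓘(ℝ, E) f (F.Fl x s) (dX 𝓘(ℝ, E) 𝓘(ℝ, E) F.i s x u) := by
      rw [F.dS_i]
      exact c.dβ_X (F.first _) _
    rw [h4, h3]
    show - dForm 𝓘(ℝ, E) f (F.Fl x s) (dX 𝓘(ℝ, E) 𝓘(ℝ, E) F.i s x u) +
      dForm 𝓘(ℝ, E) f (F.Fl x s) (dX 𝓘(ℝ, E) 𝓘(ℝ, E) F.i s x u) = 0
    ring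
  have hconst := is_const_of_deriv_eq_zero (fun s => (hder s).differentiableAt)
    (fun s => (hder s).deriv) t 0
  have h5 : β (F.i (0, x)) (dX 𝓘(ℝ, E) 𝓘(ℝ, E) F.i 0 x u) = β x u := by
    have e0 : (fun x' : P => F.i (0, x')) = id := by ext1 y; exact F.zero y
    have e1 : (dX 𝓘(ℝ, E) 𝓘(ℝ, E) F.i 0 x u : E) = u := by
      unfold dX
      rw [e0, mfderiv_id]
      rfl
    have e2 : ∀ (z : P) (w : E), z = x → w = u → β z w = β x u := by
      rintro _ _ rfl rfl; rfl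
    exact e2 _ _ (F.zero x) e1
  rw [h5] at hconst
  exact hconst

/-- The time `t` map is a strict contactomorphism. -/
lemma cto (t : ℝ) : Cto β (fun x => F.Fl x t) (fun x => F.Fl x (-t)) where
  smooth := F.smooth_t t
  smooth' := F.smooth_t (-t)
  right := fun x => by
    show F.Fl (F.Fl x (-t)) t = x
    rw [← F.add, neg_add_cancel, F.zero]
  left := fun x => by
    show F.Fl (F.Fl x t) (-t) = x
    rw [← F.add, add_neg_cancel, F.zero]
  strict := F.strict t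

/-- derivative of a function along the flow -/
lemma hasDerivAt_comp {h : P → ℝ} (hh : ContMDiff 𝓘(ℝ, E) 𝓘(ℝ, ℝ) ∞ h) (x : P) (t : ℝ) :
    HasDerivAt (fun s => h (F.Fl x s)) (c.br f h (F.Fl x t)) t :=
  hasDerivAt_along (W := c.X f) (F.int x t) hh

/-- conjugation of flows by strict contactomorphisms -/
lemma conj {g g' : P → P} (hg : Cto β g g') {h : P → ℝ} (G : HF c h)
    (hfh : ∀ x, h (g x) = f x) (x : P) (t : ℝ) : g (F.Fl x t) = G.Fl (g x) t := by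
  have : IsManifold 𝓘(ℝ, E) 1 P := IsManifold.of_le (n := ∞) (by simp)
  have h1 : IsMIntegralCurve (I := 𝓘(ℝ, E)) (fun t => g (F.Fl x t)) (c.X h) := by
    intro s
    have h2 := HasMFDerivAt.comp s (g := g) (f := F.Fl x)
      (hg.smooth.mdifferentiableAt (by simp)).hasMFDerivAt (F.int x s)
    refine h2.congr_mfderiv ?_
    refine ContinuousLinearMap.ext fun (r : ℝ) => ?_
    have h3 := hg.push_X c G.smooth hfh (F.Fl x s)
    show (mfderiv 𝓘(ℝ, E) 𝓘(ℝ, E) g (F.Fl x s)) ((r • c.X f (F.Fl x s) : E)) =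
      r • c.X h (g (F.Fl x s))
    have h4 : (mfderiv 𝓘(ℝ, E) 𝓘(ℝ, E) g (F.Fl x s)) ((r • c.X f (F.Fl x s) : E)) =
      (r • (mfderiv 𝓘(ℝ, E) 𝓘(ℝ, E) g (F.Fl x s) (c.X f (F.Fl x s)) : E) : E) :=
      map_smul (mfderiv 𝓘(ℝ, E) 𝓘(ℝ, E) g (F.Fl x s)) _ _
    rw [h4]
    exact congrArg (fun w : E => r • w) h3
  have h2 : (fun t => g (F.Fl x t)) = G.Fl (g x) := by
    refine isMIntegralCurve_Ioo_eq_of_contMDiff_boundaryless (t₀ := 0)
      ((c.smooth_X G.smooth).of_le (by simp)) h1 (G.int _) ?_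
    simp [F.zero, G.zero]
  exact congrFun h2 t

/-- the flow of `-f` -/
def neg : HF c (fun x => - f x) where
  Fl := fun x t => F.Fl x (-t)
  zero := fun x => by simp [F.zero]
  int := fun x => by
    intro s
    have h0 : HasMFDerivAt 𝓘(ℝ, ℝ) 𝓘(ℝ, ℝ) (fun t : ℝ => -t) s (-(1 : ℝ →L[ℝ] ℝ)) :=
      ((hasFDerivAt_id s).neg).hasMFDerivAt
    have h2 := HasMFDerivAt.comp s (g := F.Fl x) (f := fun t : ℝ => -t) (F.int x (-s)) h0
    refine h2.congr_mfderiv ?_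
    refine ContinuousLinearMap.ext fun (r : ℝ) => ?_
    have h3 : c.X (fun x => -f x) (F.Fl x (-s)) = (-1:ℝ) • c.X f (F.Fl x (-s)) := by
      rw [← c.X_smul (-1) F.smooth]
      congr 1
      ext1 y; ring
    show (-r) • c.X f (F.Fl x (-s)) = r • c.X (fun x => -f x) (F.Fl x (-s))
    rw [h3, smul_smul]
    congr 1
    ring
  smooth := F.smooth.neg
  first := fun x => by
    have h1 := CD.dForm_smul (-1) F.smooth x (R x)
    rw [F.first, mul_zero] at h1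
    have e : (fun y => -f y) = fun y => (-1) * f y := by ext1 y; ring
    rw [e]
    exact h1

end HF

end Pool.Agent.H826R2.Wein
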