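import Mathlib

/-! Groups of integer 2 × 2 matrices: either there is a hyperbolic element, or a nonzero integer
vector with a finite orbit. -/

namespace Pool.Agent.H826R2.Wein

abbrev M2 := Matrix (Fin 2) (Fin 2) ℤ

lemma m2_ext {A B : M2} (h0 : A 0 0 = B 0 0) (h1 : A 0 1 = B 0 1) (h2 : A 1 0 = B 1 0)
    (h3 : A 1 1 = B 1 1) : A = B := by
  ext i j
  fin_cases i <;> fin_cases j <;> assumption

lemma m2_tr (A : M2) : Matrix.trace A = A 0 0 + A 1 1 := Matrix.trace_fin_two A

lemma m2_det (A : M2) : Matrix.det A = A 0 0 * A 1 1 - A 0 1 * A 1 0 := Matrix.det_fin_two A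

lemma m2_mul00 (A B : M2) : (A * B) 0 0 = A 0 0 * B 0 0 + A 0 1 * B 1 0 := by
  simp [Matrix.mul_apply, Fin.sum_univ_two]
lemma m2_mul01 (A B : M2) : (A * B) 0 1 = A 0 0 * B 0 1 + A 0 1 * B 1 1 := by
  simp [Matrix.mul_apply, Fin.sum_univ_two]
lemma m2_mul10 (A B : M2) : (A * B) 1 0 = A 1 0 * B 0 0 + A 1 1 * B 1 0 := by
  simp [Matrix.mul_apply, Fin.sum_univ_two]
lemma m2_mul11 (A B : M2) : (A * B) 1 1 = A 1 0 * B 0 1 + A 1 1 * B 1 1 := by
  simp [Matrix.mul_apply, Fin.sum_univ_two]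
lemma m2_vec0 (A : M2) (k : Fin 2 → ℤ) : A.mulVec k 0 = A 0 0 * k 0 + A 0 1 * k 1 := by
  simp [Matrix.mulVec, dotProduct, Fin.sum_univ_two]
lemma m2_vec1 (A : M2) (k : Fin 2 → ℤ) : A.mulVec k 1 = A 1 0 * k 0 + A 1 1 * k 1 := by
  simp [Matrix.mulVec, dotProduct, Fin.sum_univ_two]

/-- Unipotent powers. -/
lemma pow_unipotent (B : M2) (hd : Matrix.det B = 1) (ht : Matrix.trace B = 2) (n : ℕ) :
    (B ^ n) 0 0 = 1 + n * (B 0 0 - 1) ∧ (B ^ n) 0 1 = n * B 0 1 ∧ (B ^ n) 1 0 = n * B 1 0 ∧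
      (B ^ n) 1 1 = 1 + n * (B 1 1 - 1) := by
  rw [m2_det] at hd
  rw [m2_tr] at ht
  induction n with
  | zero => simp
  | succ n ih =>
    obtain ⟨h0, h1, h2, h3⟩ := ih
    rw [pow_succ, m2_mul00, m2_mul01, m2_mul10, m2_mul11, h0, h1, h2, h3]
    have e : B 1 1 = 2 - B 0 0 := by linarith
    rw [e] at hd ⊢
    push_cast
    refine ⟨?_, ?_, ?_, ?_⟩
    · linear_combination -(n:ℤ) * hd
    · ring
    · ring
    · linear_combination -(n:ℤ) * hd

variable {Γ : Type*} [Group Γ]

lemma hom_mul_inv (B : Γ →* M2) (γ : Γ) : B γ * B γ⁻¹ = 1 := by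
  rw [← map_mul, mul_inv_cancel, map_one]

lemma hom_inv_mul (B : Γ →* M2) (γ : Γ) : B γ⁻¹ * B γ = 1 := by
  rw [← map_mul, inv_mul_cancel, map_one]

lemma hom_det (B : Γ →* M2) (γ : Γ) : Matrix.det (B γ) = 1 ∨ Matrix.det (B γ) = -1 := by
  have h : Matrix.det (B γ) * Matrix.det (B γ⁻¹) = 1 := by
    rw [← Matrix.det_mul, hom_mul_inv, Matrix.det_one]
  exact Int.isUnit_iff.1 (IsUnit.of_mul_eq_one _ h)

lemma hom_inv_entries (B : Γ →* M2) (γ : Γ) :
    B γ⁻¹ 0 0 = Matrix.det (B γ) * B γ 1 1 ∧ B γ⁻¹ 0 1 = - (Matrix.det (B γ) * B γ 0 1) ∧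
    B γ⁻¹ 1 0 = - (Matrix.det (B γ) * B γ 1 0) ∧ B γ⁻¹ 1 1 = Matrix.det (B γ) * B γ 0 0 := by
  set d := Matrix.det (B γ) with hd
  have hdd : d * d = 1 := by
    rcases hom_det B γ with h | h <;> rw [← hd] at h <;> rw [h] <;> norm_num
  have hd' := m2_det (B γ)
  rw [← hd] at hd'
  have h := hom_inv_mul B γ
  have h00 := congrFun (congrFun h 0) 0
  have h01 := congrFun (congrFun h 0) 1
  have h10 := congrFun (congrFun h 1) 0
  have h11 := congrFun (congrFun h 1) 1
  rw [m2_mul00] at h00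
  rw [m2_mul01] at h01
  rw [m2_mul10] at h10
  rw [m2_mul11] at h11
  simp only [Matrix.one_apply_eq, Matrix.one_apply_ne (show (0:Fin 2) ≠ 1 by decide),
    Matrix.one_apply_ne (show (1:Fin 2) ≠ 0 by decide)] at h00 h01 h10 h11
  -- d * inv = adj
  have e0 : B γ⁻¹ 0 0 * d = B γ 1 1 := by
    rw [hd']; linear_combination (B γ 1 1) * h00 - (B γ 1 0) * h01
  have e1 : B γ⁻¹ 0 1 * d = - B γ 0 1 := by
    rw [hd']; linear_combination (-(B γ 0 1)) * h00 + (B γ 0 0) * h01
  have e2 : B γ⁻¹ 1 0 * d = - B γ 1 0 := by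
    rw [hd']; linear_combination (B γ 1 1) * h10 - (B γ 1 0) * h11
  have e3 : B γ⁻¹ 1 1 * d = B γ 0 0 := by
    rw [hd']; linear_combination (-(B γ 0 1)) * h10 + (B γ 0 0) * h11
  refine ⟨?_, ?_, ?_, ?_⟩
  · linear_combination d * e0 - B γ⁻¹ 0 0 * hdd
  · linear_combination d * e1 - B γ⁻¹ 0 1 * hdd
  · linear_combination d * e2 - B γ⁻¹ 1 0 * hdd
  · linear_combination d * e3 - B γ⁻¹ 1 1 * hdd

/-- Case B2: finite image. -/
lemma finite_range_of_elliptic (B : Γ →* M2)
    (h : ∀ γ, Matrix.det (B γ) = 1 → Matrix.trace (B γ) = -1 ∨ Matrix.trace (B γ) = 0 ∨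
      Matrix.trace (B γ) = 1 ∨ B γ = 1 ∨ B γ = -1) : (Set.range B).Finite := by
  let red : M2 → Matrix (Fin 2) (Fin 2) (ZMod 3) := fun A => A.map (Int.cast : ℤ → ZMod 3)
  refine Set.Finite.of_finite_image (f := red) (Set.toFinite _) ?_
  rintro _ ⟨γ, rfl⟩ _ ⟨δ, rfl⟩ he
  -- C = B (γ δ⁻¹) is congruent to 1 mod 3
  have hred : red (B (γ * δ⁻¹)) = 1 := by
    have h1 : ∀ A A' : M2, red (A * A') = red A * red A' := fun A A' =>
      Matrix.map_mul (f := Int.castRingHom (ZMod 3))
    rw [map_mul, h1, he, ← h1, hom_mul_inv]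
    exact Matrix.map_one _ (by simp) (by simp)
  set C := B (γ * δ⁻¹) with hC
  have hC1 : C = 1 := by
    have c00 : ((C 0 0 : ℤ) : ZMod 3) = 1 := by
      have := congrFun (congrFun hred 0) 0
      simpa [red] using this
    have c01 : ((C 0 1 : ℤ) : ZMod 3) = 0 := by
      have := congrFun (congrFun hred 0) 1
      simpa [red] using this
    have c10 : ((C 1 0 : ℤ) : ZMod 3) = 0 := by
      have := congrFun (congrFun hred 1) 0
      simpa [red] using this
    have c11 : ((C 1 1 : ℤ) : ZMod 3) = 1 := by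
      have := congrFun (congrFun hred 1) 1
      simpa [red] using this
    have d00 : (3:ℤ) ∣ C 0 0 - 1 := by
      exact_mod_cast (ZMod.intCast_zmod_eq_zero_iff_dvd (C 0 0 - 1) 3).1
        (by push_cast; rw [c00]; ring)
    have d01 : (3:ℤ) ∣ C 0 1 := by
      exact_mod_cast (ZMod.intCast_zmod_eq_zero_iff_dvd (C 0 1) 3).1 c01
    have d10 : (3:ℤ) ∣ C 1 0 := by
      exact_mod_cast (ZMod.intCast_zmod_eq_zero_iff_dvd (C 1 0) 3).1 c10
    have d11 : (3:ℤ) ∣ C 1 1 - 1 := by
      exact_mod_cast (ZMod.intCast_zmod_eq_zero_iff_dvd (C 1 1 - 1) 3).1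
        (by push_cast; rw [c11]; ring)
    obtain ⟨p, hp⟩ := d00
    obtain ⟨q, hq⟩ := d01
    obtain ⟨r, hr⟩ := d10
    obtain ⟨s, hs⟩ := d11
    have hp' : C 0 0 = 1 + 3 * p := by linarith
    have hs' : C 1 1 = 1 + 3 * s := by linarith
    have hdet := m2_det C
    rw [hp', hq, hr, hs'] at hdet
    have htr := m2_tr C
    rw [hp', hs'] at htr
    have hdet1 : Matrix.det C = 1 := by
      rcases hom_det B (γ * δ⁻¹) with h1 | h1
      · exact h1
      · rw [← hC, hdet] at h1
        ring_nf at h1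
        omega
    rcases h (γ * δ⁻¹) hdet1 with h1 | h1 | h1 | h1 | h1
    · rw [← hC, htr] at h1
      rw [hdet] at hdet1
      have h2 : p + s = -1 := by omega
      have h3 : 9 * (p * s - q * r) = 3 := by linear_combination hdet1 - 3 * h2
      omega
    · rw [← hC, htr] at h1
      omega
    · rw [← hC, htr] at h1
      omega
    · exact h1
    · exfalso
      have h2 := congrFun (congrFun h1 0) 0
      rw [← hC, hp'] at h2
      simp at h2
      omega
  have h2 : B γ = B (γ * δ⁻¹) * B δ := by rw [← map_mul, inv_mul_cancel_right]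
  rw [h2, ← hC, hC1, one_mul]

/-- Case B1: a parabolic element. -/
lemma finite_orbit_of_parabolic (B : Γ →* M2)
    (h : ∀ γ, Matrix.det (B γ) = 1 → -2 ≤ Matrix.trace (B γ) ∧ Matrix.trace (B γ) ≤ 2)
    (γ₀ : Γ) (hd : Matrix.det (B γ₀) = 1) (ht : Matrix.trace (B γ₀) = 2) (hne : B γ₀ ≠ 1) :
    ∃ k : Fin 2 → ℤ, k ≠ 0 ∧ (Set.range fun γ => (B γ).mulVec k).Finite := by
  -- entries of `N = B γ₀ - 1`
  set p := B γ₀ 0 0 - 1 with hp
  set q := B γ₀ 0 1 with hq
  set r := B γ₀ 1 0 with hr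
  have ht' := m2_tr (B γ₀)
  rw [ht] at ht'
  have h11 : B γ₀ 1 1 = 1 - p := by rw [hp]; linarith
  have h00 : B γ₀ 0 0 = 1 + p := by rw [hp]; ring
  have hd' := m2_det (B γ₀)
  rw [hd, h00, h11, ← hq, ← hr] at hd'
  have hdet : p * p + q * r = 0 := by linarith
  -- the trace of `N C` vanishes
  have hs : ∀ δ, p * B δ 0 0 + q * B δ 1 0 + (r * B δ 0 1 + (-p) * B δ 1 1) = 0 := by
    intro δ
    set a := B δ 0 0 with ha
    set b := B δ 0 1 with hb
    set c := B δ 1 0 with hc
    set d := B δ 1 1 with hd2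
    obtain ⟨i0, i1, i2, i3⟩ := hom_inv_entries B δ
    set ε := Matrix.det (B δ) with hε
    have hε' := m2_det (B δ)
    rw [← hε, ← ha, ← hb, ← hc, ← hd2] at hε'
    rw [← hd2] at i0
    rw [← hb] at i1
    rw [← hc] at i2
    rw [← ha] at i3
    set s := p * a + q * c + (r * b + (-p) * d) with hsdef
    have htr : ∀ n : ℕ, Matrix.trace (B (γ₀ ^ n * (δ * γ₀ * δ⁻¹))) = 2 - n * ε * s ^ 2 := by
      intro n
      obtain ⟨u0, u1, u2, u3⟩ := pow_unipotent (B γ₀) hd ht n
      rw [m2_tr, map_mul, map_pow, map_mul, map_mul]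
      simp only [m2_mul00, m2_mul01, m2_mul10, m2_mul11, u0, u1, u2, u3]
      rw [i0, i1, i2, i3, h00, h11, ← ha, ← hb, ← hc, ← hd2, ← hq, ← hr]
      have hεε : ε * ε = 1 := by
        rcases hom_det B δ with h1 | h1 <;> rw [← hε] at h1 <;> rw [h1] <;> norm_num
      have hεs : ε * (a * d - b * c) = 1 := by rw [← hε']; exact hεε
      rw [hsdef]
      linear_combination 2 * hεs + (n:ℤ) * ε * ((a + d) ^ 2 - 2 * (a * d - b * c)) * hdet
    have hdet1 : ∀ n : ℕ, Matrix.det (B (γ₀ ^ n * (δ * γ₀ * δ⁻¹))) = 1 := by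
      intro n
      have h1 : Matrix.det (B δ) * Matrix.det (B δ⁻¹) = 1 := by
        rw [← Matrix.det_mul, hom_mul_inv, Matrix.det_one]
      rw [map_mul, map_pow, map_mul, map_mul, Matrix.det_mul, Matrix.det_pow, Matrix.det_mul,
        Matrix.det_mul, hd, one_pow, one_mul, mul_one, h1]
    have hs2 : s ^ 2 = 0 := by
      by_contra hne2
      have hpos : 0 < s ^ 2 := lt_of_le_of_ne (sq_nonneg s) (Ne.symm hne2)
      rcases hom_det B δ with h1 | h1
      · rw [← hε] at h1
        have h2 := (h _ (hdet1 5)).1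
        rw [htr 5, h1] at h2
        push_cast at h2
        linarith
      · rw [← hε] at h1
        have h2 := (h _ (hdet1 1)).2
        rw [htr 1, h1] at h2
        push_cast at h2
        linarith
    exact pow_eq_zero_iff (two_ne_zero) |>.1 hs2
  -- a primitive vector in the kernel of `N`
  obtain ⟨w0, w1, hw, hw1, hw2⟩ : ∃ w0 w1 : ℤ, (w0 ≠ 0 ∨ w1 ≠ 0) ∧ p * w0 + q * w1 = 0 ∧
      r * w0 - p * w1 = 0 := by
    by_cases h1 : p ≠ 0 ∨ r ≠ 0
    · exact ⟨p, r, h1, by linarith, by ring⟩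
    · push Not at h1
      refine ⟨q, -p, Or.inl ?_, by ring, by linarith⟩
      intro h2
      apply hne
      apply m2_ext
      · rw [h00, h1.1]; simp
      · rw [← hq, h2]; simp
      · rw [← hr, h1.2]; simp
      · rw [h11, h1.1]; simp
  obtain ⟨k0, k1, u, v, huv, hk1, hk2⟩ : ∃ k0 k1 u v : ℤ, u * k0 + v * k1 = 1 ∧
      p * k0 + q * k1 = 0 ∧ r * k0 - p * k1 = 0 := by
    have hg : (Int.gcd w0 w1 : ℤ) ≠ 0 := by
      intro h0
      have h1 : Int.gcd w0 w1 = 0 := by exact_mod_cast h0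
      rw [Int.gcd_eq_zero_iff] at h1
      rcases hw with h2 | h2
      · exact h2 h1.1
      · exact h2 h1.2
    obtain ⟨k0, hk0⟩ := Int.gcd_dvd_left w0 w1
    obtain ⟨k1, hk1⟩ := Int.gcd_dvd_right w0 w1
    set g : ℤ := (Int.gcd w0 w1 : ℤ) with hgdef
    have hbez := Int.gcd_eq_gcd_ab w0 w1
    rw [← hgdef] at hbez
    refine ⟨k0, k1, Int.gcdA w0 w1, Int.gcdB w0 w1, ?_, ?_, ?_⟩
    · apply mul_left_cancel₀ hg
      set α := Int.gcdA w0 w1
      set β := Int.gcdB w0 w1
      linear_combination -hbez - α * hk0 - β * hk1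
    · apply mul_left_cancel₀ hg
      linear_combination hw1 - p * hk0 - q * hk1
    · apply mul_left_cancel₀ hg
      linear_combination hw2 - r * hk0 + p * hk1
  have hN : p ≠ 0 ∨ q ≠ 0 ∨ r ≠ 0 := by
    by_contra h1
    push Not at h1
    apply hne
    apply m2_ext
    · rw [h00, h1.1]; simp
    · rw [← hq, h1.2.1]; simp
    · rw [← hr, h1.2.2]; simp
    · rw [h11, h1.1]; simp
  -- every element preserves the line
  have hline : ∀ δ, ∃ t : ℤ, B δ 0 0 * k0 + B δ 0 1 * k1 = t * k0 ∧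
      B δ 1 0 * k0 + B δ 1 1 * k1 = t * k1 := by
    intro δ
    have hs' := hs δ
    set a := B δ 0 0
    set b := B δ 0 1
    set c := B δ 1 0
    set d := B δ 1 1
    set m0 := a * k0 + b * k1 with hm0
    set m1 := c * k0 + d * k1 with hm1
    have e1 : p * m0 + q * m1 = 0 := by
      rw [hm0, hm1]; linear_combination k0 * hs' + d * hk1 - b * hk2
    have e2 : r * m0 - p * m1 = 0 := by
      rw [hm0, hm1]; linear_combination k1 * hs' + a * hk2 - c * hk1
    have e3 : m0 * k1 = m1 * k0 := by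
      rcases hN with h1 | h1 | h1
      · apply mul_left_cancel₀ h1
        linear_combination k1 * e1 - m1 * hk1
      · apply mul_left_cancel₀ h1
        linear_combination m0 * hk1 - k0 * e1
      · apply mul_left_cancel₀ h1
        linear_combination k1 * e2 - m1 * hk2
    refine ⟨u * m0 + v * m1, ?_, ?_⟩
    · linear_combination (-m0) * huv + v * e3
    · linear_combination (-m1) * huv - u * e3
  choose t ht0 ht1 using hline
  have hunit : ∀ δ, t δ = 1 ∨ t δ = -1 := by
    intro δ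
    obtain ⟨i0, i1, i2, i3⟩ := hom_inv_entries B δ
    have hm := m2_det (B δ)
    have hdd : Matrix.det (B δ) * Matrix.det (B δ) = 1 := by
      rcases hom_det B δ with h1 | h1 <;> rw [h1] <;> norm_num
    have a0 := ht0 δ
    have a1 := ht1 δ
    have b0 := ht0 δ⁻¹
    have b1 := ht1 δ⁻¹
    rw [i0, i1] at b0
    rw [i2, i3] at b1
    set ε := Matrix.det (B δ)
    set a := B δ 0 0
    set b := B δ 0 1
    set c := B δ 1 0
    set d := B δ 1 1
    set τ := t δ
    set τ' := t δ⁻¹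
    -- `τ τ' k = k`
    have c0 : τ * τ' * k0 = k0 := by
      have : ε * d * (a * k0 + b * k1) - ε * b * (c * k0 + d * k1) = ε * (a * d - b * c) * k0 := by
        ring
      rw [a0, a1, ← hm] at this
      linear_combination τ * (-b0) + this + hdd * k0
    have c1 : τ * τ' * k1 = k1 := by
      have : -(ε * c) * (a * k0 + b * k1) + ε * a * (c * k0 + d * k1) =
        ε * (a * d - b * c) * k1 := by ring
      rw [a0, a1, ← hm] at this
      linear_combination τ * (-b1) + this + hdd * k1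
    have c2 : τ * τ' = 1 := by
      linear_combination u * c0 + v * c1 + (1 - τ * τ') * huv
    exact Int.isUnit_iff.1 (IsUnit.of_mul_eq_one _ c2)
  refine ⟨![k0, k1], ?_, ?_⟩
  · intro h0
    have h1 := congrFun h0 0
    have h2 := congrFun h0 1
    simp at h1 h2
    rw [h1, h2] at huv
    simp at huv
  · refine (Set.toFinite {![k0, k1], -![k0, k1]}).subset ?_
    rintro _ ⟨δ, rfl⟩
    have e : (B δ).mulVec ![k0, k1] = t δ • ![k0, k1] := by
      ext i
      fin_cases i
      · rw [show ((⟨0, by norm_num⟩ : Fin 2)) = 0 from rfl, m2_vec0]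
        simpa using ht0 δ
      · rw [show ((⟨1, by norm_num⟩ : Fin 2)) = 1 from rfl, m2_vec1]
        simpa using ht1 δ
    simp only [e]
    rcases hunit δ with h1 | h1
    · left; rw [h1, one_smul]
    · right; rw [h1, neg_one_smul]; rfl

/-- **Alternative.** -/
theorem hyperbolic_or_finite_orbit (B : Γ →* M2) :
    (∃ γ, Matrix.det (B γ) = 1 ∧ 2 < Matrix.trace (B γ)) ∨
    ∃ k : Fin 2 → ℤ, k ≠ 0 ∧ (Set.range fun γ => (B γ).mulVec k).Finite := by
  by_cases hhyp : ∃ γ, Matrix.det (B γ) = 1 ∧ 2 < Matrix.trace (B γ)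
  · exact Or.inl hhyp
  right
  push Not at hhyp
  -- traces of squares
  have hsq : ∀ γ, Matrix.det (B γ) = 1 →
      Matrix.trace (B (γ * γ)) = Matrix.trace (B γ) ^ 2 - 2 ∧ Matrix.det (B (γ * γ)) = 1 := by
    intro γ hd
    constructor
    · have h1 := m2_det (B γ)
      rw [hd] at h1
      rw [map_mul, m2_tr, m2_tr, m2_mul00, m2_mul11]
      linear_combination 2 * h1
    · rw [map_mul, Matrix.det_mul, hd, mul_one]
  have hbd : ∀ γ, Matrix.det (B γ) = 1 → -2 ≤ Matrix.trace (B γ) ∧ Matrix.trace (B γ) ≤ 2 := by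
    intro γ hd
    refine ⟨?_, hhyp γ hd⟩
    by_contra hlt
    push Not at hlt
    obtain ⟨h1, h2⟩ := hsq γ hd
    have h3 := hhyp _ h2
    rw [h1] at h3
    nlinarith
  by_cases hpar : ∃ γ, Matrix.det (B γ) = 1 ∧ Matrix.trace (B γ) = 2 ∧ B γ ≠ 1
  · obtain ⟨γ₀, h1, h2, h3⟩ := hpar
    exact finite_orbit_of_parabolic B hbd γ₀ h1 h2 h3
  · push Not at hpar
    have hfin := finite_range_of_elliptic B (by
      intro γ hd
      obtain ⟨h1, h2⟩ := hbd γ hd
      obtain ⟨h3, h4⟩ := hsq γ hd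
      have h5 : Matrix.trace (B γ) = -2 ∨ Matrix.trace (B γ) = -1 ∨ Matrix.trace (B γ) = 0 ∨
        Matrix.trace (B γ) = 1 ∨ Matrix.trace (B γ) = 2 := by omega
      rcases h5 with h5 | h5 | h5 | h5 | h5
      · -- trace -2
        right; right; right; right
        rw [h5] at h3
        have h6 := hpar _ h4 (by rw [h3]; norm_num)
        rw [map_mul] at h6
        have e00 := congrFun (congrFun h6 0) 0
        have e01 := congrFun (congrFun h6 0) 1
        have e10 := congrFun (congrFun h6 1) 0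
        have e11 := congrFun (congrFun h6 1) 1
        rw [m2_mul00] at e00
        rw [m2_mul01] at e01
        rw [m2_mul10] at e10
        rw [m2_mul11] at e11
        simp only [Matrix.one_apply_eq, Matrix.one_apply_ne (show (0:Fin 2) ≠ 1 by decide),
          Matrix.one_apply_ne (show (1:Fin 2) ≠ 0 by decide)] at e00 e01 e10 e11
        rw [m2_tr] at h5
        have f01 : B γ 0 1 = 0 := by
          have : B γ 0 1 * (B γ 0 0 + B γ 1 1) = 0 := by linear_combination e01
          rw [h5] at this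
          omega
        have f10 : B γ 1 0 = 0 := by
          have : B γ 1 0 * (B γ 0 0 + B γ 1 1) = 0 := by linear_combination e10
          rw [h5] at this
          omega
        rw [f01, f10] at e00 e11
        have hdet := m2_det (B γ)
        rw [hd, f01, f10] at hdet
        have f00 : B γ 0 0 = -1 := by nlinarith
        have f11 : B γ 1 1 = -1 := by linarith
        apply m2_ext
        · rw [f00]; simp
        · rw [f01]; simp
        · rw [f10]; simp
        · rw [f11]; simp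
      · left; exact h5
      · right; left; exact h5
      · right; right; left; exact h5
      · right; right; right; left
        exact hpar γ hd h5)
    refine ⟨![1, 0], ?_, ?_⟩
    · intro h0
      have := congrFun h0 0
      simp at this
    · have : (Set.range fun γ => (B γ).mulVec ![1, 0]) =
          (fun A : M2 => A.mulVec ![1, 0]) '' Set.range B := by
        ext v
        simp
      rw [this]
      exact hfin.image _

end Pool.Agent.H826R2.Wein
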