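import Mathlib

/-! A dichotomy for functions with a pushing flow on a space with two ends, relative to an abstract
notion of small sets. -/

open scoped Topology
open Set

noncomputable section

namespace Pool.Agent.H826R2.Wein.Rel

variable {P : Type*} [TopologicalSpace P]

/-- A continuous flow pushing the function `f` up uniformly. -/
structure Fpush (Small : Set P → Prop) (f : P → ℝ) where
  Fl : P → ℝ → P
  zero : ∀ x, Fl x 0 = x
  add : ∀ x s t, Fl x (s + t) = Fl (Fl x s) t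
  cont : Continuous fun p : P × ℝ => Fl p.1 p.2
  mono : ∀ x, Monotone (fun t => f (Fl x t))
  push : ∀ c : ℝ, ∃ T : ℝ, 0 ≤ T ∧ ∀ x, -c ≤ f x → c < f (Fl x T)
  small_flow : ∀ (a b : ℝ) (C : Set P), Small C →
    Small ((fun p : P × ℝ => Fl p.1 p.2) '' (C ×ˢ Icc a b))
  bdd : ∀ C : Set P, Small C → ∃ b : ℝ, ∀ z ∈ C, |f z| ≤ b
  union : ∀ C C' : Set P, Small C → Small C' → Small (C ∪ C')

/-- Two ends. -/
structure TwoEnds (Small : Set P → Prop) (C U V : Set P) : Prop where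
  compact : Small C
  openU : IsOpen U
  openV : IsOpen V
  disj : Disjoint U V
  union : U ∪ V = Cᶜ
  ncU : ∀ K, Small K → ¬ U ⊆ K
  ncV : ∀ K, Small K → ¬ V ⊆ K

variable {Small : Set P → Prop}

lemma TwoEnds.symm {C U V : Set P} (h : TwoEnds Small C U V) : TwoEnds Small C V U :=
  ⟨h.compact, h.openV, h.openU, h.disj.symm, by rw [union_comm]; exact h.union, h.ncV, h.ncU⟩

lemma TwoEnds.stay {C U V : Set P} (h : TwoEnds Small C U V) {S : Set P} (hS : IsPreconnected S)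
    (hSC : ∀ x ∈ S, x ∉ C) {x : P} (hx : x ∈ S) (hxU : x ∈ U) {y : P} (hy : y ∈ S) : y ∈ U := by
  have h1 : S ⊆ U ∪ V := by
    rw [h.union]
    exact fun z hz => hSC z hz
  exact hS.subset_left_of_subset_union h.openU h.openV h.disj h1 ⟨x, hx, hxU⟩ hy

namespace Fpush

variable {f : P → ℝ} (F : Fpush Small f)

/-- reversing the flow -/
def neg : Fpush Small (fun x => - f x) where
  Fl := fun x t => F.Fl x (-t)
  zero := fun x => by simp [F.zero]
  add := fun x s t => by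
    rw [neg_add, F.add]
  cont := by
    have h1 : Continuous (fun p : P × ℝ => (p.1, -p.2)) := by fun_prop
    exact F.cont.comp h1
  mono := fun x s t hst => by
    have := F.mono x (neg_le_neg hst)
    simp only at this
    simp only
    linarith
  push := fun c => by
    obtain ⟨T, hT0, hT⟩ := F.push c
    refine ⟨T, hT0, fun x hx => ?_⟩
    by_contra hlt
    push Not at hlt
    have h1 := hT (F.Fl x (-T)) (by linarith)
    rw [← F.add, neg_add_cancel, F.zero] at h1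
    linarith
  small_flow := fun a b C hC => by
    have h1 := F.small_flow (-b) (-a) C hC
    convert h1 using 1
    ext y
    constructor
    · rintro ⟨⟨z, t⟩, ⟨hz, ht⟩, rfl⟩
      exact ⟨(z, -t), ⟨hz, ⟨neg_le_neg ht.2, neg_le_neg ht.1⟩⟩, rfl⟩
    · rintro ⟨⟨z, t⟩, ⟨hz, ht⟩, rfl⟩
      exact ⟨(z, -t), ⟨hz, ⟨by linarith [ht.2], by linarith [ht.1]⟩⟩, by simp⟩
  bdd := fun C hC => by
    obtain ⟨b, hb⟩ := F.bdd C hC
    exact ⟨b, fun z hz => by rw [abs_neg]; exact hb z hz⟩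
  union := F.union

lemma cont_right (x : P) : Continuous (F.Fl x) := by
  have h1 : Continuous (fun t : ℝ => (x, t)) := by fun_prop
  exact F.cont.comp h1

lemma cont_left (t : ℝ) : Continuous (fun x => F.Fl x t) := by
  have h1 : Continuous (fun x : P => (x, t)) := by fun_prop
  exact F.cont.comp h1

lemma stay_up {C U V : Set P} (h : TwoEnds Small C U V) {c : ℝ} (hc : ∀ z ∈ C, f z < c) {x : P}
    (hx : c ≤ f x) (hxU : x ∈ U) {T : ℝ} (hT : 0 ≤ T) : F.Fl x T ∈ U := by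
  have hS : IsPreconnected (F.Fl x '' Icc 0 T) :=
    isPreconnected_Icc.image _ (F.cont_right x).continuousOn
  refine h.stay hS ?_ (x := x) ⟨0, ⟨le_rfl, hT⟩, F.zero x⟩ hxU ⟨T, ⟨hT, le_rfl⟩, rfl⟩
  rintro _ ⟨t, ht, rfl⟩ hmem
  have h1 := hc _ hmem
  have h2 : f (F.Fl x 0) ≤ f (F.Fl x t) := F.mono x ht.1
  rw [F.zero] at h2
  linarith

include F in
/-- Claim 1: a high superlevel set lies on one side. -/
lemma side [PathConnectedSpace P] (hf : Continuous f) {C U V : Set P} (h : TwoEnds Small C U V) {c : ℝ}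
    (hc : ∀ z ∈ C, f z < c) {x y : P} (hx : x ∈ U) (hy : y ∈ V) (hfx : c ≤ f x) (hfy : c ≤ f y) :
    False := by
  obtain ⟨γ⟩ := PathConnectedSpace.joined x y
  obtain ⟨b, hb⟩ : ∃ b : ℝ, ∀ t, -b ≤ f (γ t) := by
    have hcomp : IsCompact (range fun t => f (γ t)) := isCompact_range (hf.comp γ.continuous)
    obtain ⟨b, hb⟩ := hcomp.bddBelow
    exact ⟨-b, fun t => by rw [neg_neg]; exact hb ⟨t, rfl⟩⟩
  obtain ⟨T, hT0, hT⟩ := F.push (max b c)
  have hS : IsPreconnected (range fun t => F.Fl (γ t) T) :=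
    isPreconnected_range ((F.cont_left T).comp γ.continuous)
  have hup : ∀ t, c < f (F.Fl (γ t) T) := by
    intro t
    have h1 := hT (γ t) (by have := hb t; have := le_max_left b c; linarith)
    exact lt_of_le_of_lt (le_max_right b c) h1
  have hU : F.Fl x T ∈ U := F.stay_up h hc hfx hx hT0
  have hV : F.Fl y T ∈ V := F.stay_up h.symm hc hfy hy hT0
  have hyU : F.Fl y T ∈ U := by
    refine h.stay hS ?_ (x := F.Fl x T) ⟨0, by simp⟩ hU ⟨1, by simp⟩
    rintro _ ⟨t, rfl⟩ hmem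
    exact absurd (hc _ hmem) (not_lt.2 (hup t).le)
  exact (Set.disjoint_left.1 h.disj hyU) hV

include F in
/-- Claim 3: far points are pushed up without changing the side. -/
lemma far {C U V : Set P} (h : TwoEnds Small C U V) (c : ℝ) :
    ∃ K, Small K ∧ ∀ x, x ∉ K → -c ≤ f x →
      (x ∈ U → ∃ x' ∈ U, c ≤ f x') ∧ (x ∈ V → ∃ x' ∈ V, c ≤ f x') := by
  obtain ⟨T, hT0, hT⟩ := F.push c
  refine ⟨(fun p : P × ℝ => F.Fl p.1 p.2) '' (C ×ˢ Icc (-T) 0), F.small_flow _ _ _ h.compact, ?_⟩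
  · intro x hxK hx
    have hS : IsPreconnected (F.Fl x '' Icc 0 T) :=
      isPreconnected_Icc.image _ (F.cont_right x).continuousOn
    have hSC : ∀ y ∈ F.Fl x '' Icc 0 T, y ∉ C := by
      rintro _ ⟨t, ht, rfl⟩ hmem
      apply hxK
      refine ⟨(F.Fl x t, -t), ⟨hmem, ⟨neg_le_neg ht.2, by linarith [ht.1]⟩⟩, ?_⟩
      simp only
      rw [← F.add, add_neg_cancel, F.zero]
    have h0 : x ∈ F.Fl x '' Icc 0 T := ⟨0, ⟨le_rfl, hT0⟩, F.zero x⟩
    have h1 : F.Fl x T ∈ F.Fl x '' Icc 0 T := ⟨T, ⟨hT0, le_rfl⟩, rfl⟩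
    exact ⟨fun hxU => ⟨_, h.stay hS hSC h0 hxU h1, (hT x hx).le⟩,
      fun hxV => ⟨_, h.symm.stay hS hSC h0 hxV h1, (hT x hx).le⟩⟩

/-- first alternative -/
def Up (Small : Set P → Prop) (f : P → ℝ) (U V : Set P) (c : ℝ) : Prop :=
  ∃ K, Small K ∧ (∀ x ∈ U, x ∉ K → c < f x) ∧ (∀ x ∈ V, x ∉ K → f x < -c)

include F in
lemma dich_fixed [PathConnectedSpace P] (hf : Continuous f) {C U V : Set P} (h : TwoEnds Small C U V)
    {c : ℝ} (hc : ∀ z ∈ C, f z < c) (hc' : ∀ z ∈ C, -f z < c) :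
    Up Small f U V c ∨ Up Small f V U c := by
  obtain ⟨K1, hK1, h1⟩ := F.far h c
  obtain ⟨K2, hK2, h2⟩ := F.neg.far h c
  have hK := F.union _ _ hK1 hK2
  obtain ⟨x₀, hx₀U, hx₀K⟩ := not_subset.1 (h.ncU _ hK)
  obtain ⟨y₀, hy₀V, hy₀K⟩ := not_subset.1 (h.ncV _ hK)
  have hs1 := fun (x y : P) (hx : x ∈ U) (hy : y ∈ V) (hfx : c ≤ f x) (hfy : c ≤ f y) =>
    F.side hf h hc hx hy hfx hfy
  have hs2 := fun (x y : P) (hx : x ∈ U) (hy : y ∈ V) (hfx : c ≤ -f x) (hfy : c ≤ -f y) =>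
    F.neg.side hf.neg h hc' hx hy hfx hfy
  by_cases hA : ∃ x ∈ U, c ≤ f x
  · left
    obtain ⟨a, haU, ha⟩ := hA
    have hV : ∀ y ∈ V, y ∉ K1 ∪ K2 → f y < -c := by
      intro y hy hyK
      by_contra hlt
      push Not at hlt
      obtain ⟨y', hy', hfy'⟩ := (h1 y (fun hh => hyK (Or.inl hh)) hlt).2 hy
      exact hs1 a y' haU hy' ha hfy'
    refine ⟨K1 ∪ K2, hK, ?_, hV⟩
    intro x hx hxK
    by_contra hlt
    push Not at hlt
    obtain ⟨x', hx', hfx'⟩ := (h2 x (fun hh => hxK (Or.inr hh)) (by linarith)).1 hx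
    have := hV y₀ hy₀V hy₀K
    exact hs2 x' y₀ hx' hy₀V hfx' (by linarith)
  · right
    push Not at hA
    have hU : ∀ x ∈ U, x ∉ K1 ∪ K2 → f x < -c := by
      intro x hx hxK
      by_contra hlt
      push Not at hlt
      obtain ⟨x', hx', hfx'⟩ := (h1 x (fun hh => hxK (Or.inl hh)) hlt).1 hx
      exact absurd (hA x' hx') (not_lt.2 hfx')
    refine ⟨K1 ∪ K2, hK, ?_, hU⟩
    intro y hy hyK
    by_contra hlt
    push Not at hlt
    obtain ⟨y', hy', hfy'⟩ := (h2 y (fun hh => hyK (Or.inr hh)) (by linarith)).2 hy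
    have := hU x₀ hx₀U hx₀K
    exact hs2 x₀ y' hx₀U hy' (by linarith) hfy'

lemma Up.mono {U V : Set P} {c c' : ℝ} (h : Up Small f U V c) (hcc' : c' ≤ c) : Up Small f U V c' := by
  obtain ⟨K, hK, h1, h2⟩ := h
  exact ⟨K, hK, fun x hx hxK => hcc'.trans_lt (h1 x hx hxK),
    fun x hx hxK => by have := h2 x hx hxK; linarith⟩

include F in
lemma Up.not {C U V : Set P} (h : TwoEnds Small C U V) {c c' : ℝ} (h1 : Up Small f U V c) (h2 : Up Small f V U c')
    (hcc : 0 ≤ c + c') : False := by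
  obtain ⟨K, hK, h3, -⟩ := h1
  obtain ⟨K', hK', -, h4⟩ := h2
  obtain ⟨x, hxU, hxK⟩ := not_subset.1 (h.ncU _ (F.union _ _ hK hK'))
  have h5 := h3 x hxU (fun hh => hxK (Or.inl hh))
  have h6 := h4 x hxU (fun hh => hxK (Or.inr hh))
  linarith

include F in
/-- **The dichotomy.** -/
theorem dich [PathConnectedSpace P] (hf : Continuous f) {C U V : Set P} (h : TwoEnds Small C U V) :
    (∀ c, Up Small f U V c) ∨ (∀ c, Up Small f V U c) := by
  obtain ⟨b, hb0, hb⟩ : ∃ b : ℝ, 0 ≤ b ∧ ∀ z ∈ C, |f z| < b := by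
    obtain ⟨b, hb⟩ := F.bdd C h.compact
    refine ⟨max b 0 + 1, by positivity, fun z hz => ?_⟩
    have h1 := hb z hz
    have h2 := le_max_left b 0
    linarith
  have key : ∀ c, b ≤ c → Up Small f U V c ∨ Up Small f V U c := by
    intro c hc
    refine F.dich_fixed hf h (fun z hz => ?_) (fun z hz => ?_)
    · exact (le_abs_self _).trans_lt ((hb z hz).trans_le hc)
    · exact (neg_le_abs _).trans_lt ((hb z hz).trans_le hc)
  rcases key b le_rfl with h0 | h0
  · left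
    intro c
    rcases key (max b c) (le_max_left _ _) with h1 | h1
    · exact h1.mono (le_max_right _ _)
    · exact (Up.not F h h0 h1 (by have := le_max_left b c; linarith)).elim
  · right
    intro c
    rcases key (max b c) (le_max_left _ _) with h1 | h1
    · exact (Up.not F h.symm h0 h1 (by have := le_max_left b c; linarith)).elim
    · exact h1.mono (le_max_right _ _)

end Fpush

end Pool.Agent.H826R2.Wein.Rel
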