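import Mathlib
import Pool.Agent.H826R2.Wein.Top
import Pool.Agent.H826R2.Wein.RelDich

/-! Critical points of integral contact Hamiltonians on manifolds with two ends, relative to the
subgroup acting trivially on the Hamiltonians. -/

open scoped Topology ContDiff Manifold
open Set Metric Bundle Pool.Agent.Helper186

noncomputable section

namespace Pool.Agent.H826R2.Wein

set_option linter.unusedSectionVars false

universe u

variable {E : Type u} [NormedAddCommGroup E] [NormedSpace ℝ E] [FiniteDimensional ℝ E]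
  {P : Type*} [TopologicalSpace P] [ChartedSpace E P] [IsManifold 𝓘(ℝ, E) ∞ P]
  {β : (x : P) → TangentSpace 𝓘(ℝ, E) x →L[ℝ] ℝ} {m : ℕ}

/-- Sets which are compact up to the action of the subgroup `K`. -/
def SmallRel {Γ : Type*} [Group Γ] [MulAction Γ P] (K : Subgroup Γ) (S : Set P) : Prop :=
  ∃ S₀ : Set P, IsCompact S₀ ∧ ∀ x ∈ S, ∃ κ ∈ K, κ • x ∈ S₀

namespace Deck

variable {n : ℕ} {ι : Imm (E := E) P n} {Γ : Type*} [Group Γ] [MulAction Γ P] (𝒟 : Deck ι Γ)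

include 𝒟 in
/-- equivariance of the normalised gradient flow -/
lemma flow_smul [T2Space P] {f : P → ℝ} (hf : ContMDiff 𝓘(ℝ, E) 𝓘(ℝ, ℝ) ∞ f)
    {Fl : P → ℝ → P} (h0 : ∀ x, Fl x 0 = x)
    (hFl : ∀ x, IsMIntegralCurve (I := 𝓘(ℝ, E)) (Fl x) (ι.V f)) (γ : Γ)
    (hγ : ∀ x, f (γ • x) = f x) (x : P) (t : ℝ) : Fl (γ • x) t = γ • Fl x t := by
  have : IsManifold 𝓘(ℝ, E) 1 P := IsManifold.of_le (n := ∞) (by simp)
  have h1 : IsMIntegralCurve (I := 𝓘(ℝ, E)) (fun t => γ • Fl x t) (ι.V f) := by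
    intro s
    have h2 := HasMFDerivAt.comp s (g := fun z : P => γ • z) (f := Fl x)
      ((𝒟.smooth γ).mdifferentiableAt (by simp)).hasMFDerivAt (hFl x s)
    refine h2.congr_mfderiv ?_
    refine ContinuousLinearMap.ext fun (r : ℝ) => ?_
    have h3 := 𝒟.push_V γ hf hγ (Fl x s)
    show (mfderiv 𝓘(ℝ, E) 𝓘(ℝ, E) (fun z : P => γ • z) (Fl x s)) ((r • ι.V f (Fl x s) : E)) =
      r • ι.V f (γ • Fl x s)
    have h4 : (mfderiv 𝓘(ℝ, E) 𝓘(ℝ, E) (fun z : P => γ • z) (Fl x s)) ((r • ι.V f (Fl x s) : E)) =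
      (r • (mfderiv 𝓘(ℝ, E) 𝓘(ℝ, E) (fun z : P => γ • z) (Fl x s) (ι.V f (Fl x s)) : E) : E) :=
      map_smul (mfderiv 𝓘(ℝ, E) 𝓘(ℝ, E) (fun z : P => γ • z) (Fl x s)) _ _
    rw [h4]
    exact congrArg (fun w : E => r • w) h3
  have h2 : Fl (γ • x) = fun t => γ • Fl x t := by
    refine isMIntegralCurve_Ioo_eq_of_contMDiff_boundaryless (t₀ := 0)
      ((ι.smooth_V hf).of_le (by simp)) (hFl _) h1 ?_
    simp [h0]
  exact congrFun h2 t

include 𝒟 in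
/-- The normalised gradient flow pushes functions up, given a Palais-Smale property. -/
theorem exists_push_rel [T2Space P] [SigmaCompactSpace P] {f : P → ℝ}
    (hf : ContMDiff 𝓘(ℝ, E) 𝓘(ℝ, ℝ) ∞ f)
    (hps : ∀ c : ℝ, ∃ δ > (0:ℝ), ∀ x, |f x| ≤ c → δ ≤ ι.G f x)
    (K : Subgroup Γ) (hK : ∀ κ ∈ K, ∀ x, f (κ • x) = f x) :
    Nonempty (Rel.Fpush (SmallRel K) f) := by
  have : IsManifold 𝓘(ℝ, E) 1 P := IsManifold.of_le (n := ∞) (by simp)
  choose Fl h0 hFl using fun x => 𝒟.complete hf x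
  have hcont : Continuous fun p : P × ℝ => Fl p.1 p.2 :=
    (contMDiff_flow (ι.smooth_V hf) h0 hFl).continuous
  have hder : ∀ x t, HasDerivAt (fun s => f (Fl x s))
      (ι.G f (Fl x t) / (1 + ι.G f (Fl x t))) t := by
    intro x t
    have := hasDerivAt_along (W := ι.V f) (hFl x t) hf
    rwa [ι.dForm_V_self] at this
  have hmono : ∀ x, Monotone (fun t => f (Fl x t)) := by
    intro x
    apply monotone_of_deriv_nonneg (fun t => (hder x t).differentiableAt)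
    intro t
    rw [(hder x t).deriv]
    have := ι.G_nonneg f (Fl x t)
    positivity
  refine ⟨⟨Fl, h0, fun x s t => flow_add (ι.smooth_V hf) h0 hFl x s t, hcont, hmono, ?_, ?_, ?_,
    ?_⟩⟩
  · intro c
    obtain ⟨δ, hδ, h⟩ := hps c
    set T := (2 * |c| + 1) * (1 + δ) / δ with hT
    have hT0 : 0 < T := by positivity
    refine ⟨T, hT0.le, fun x hx => ?_⟩
    by_contra hlt
    push Not at hlt
    obtain ⟨s, hs, hs'⟩ := exists_hasDerivAt_eq_slope (fun t => f (Fl x t)) _ hT0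
      (fun t _ => (hder x t).continuousAt.continuousWithinAt) (fun t _ => hder x t)
    have h1 : f (Fl x 0) ≤ f (Fl x s) := hmono x hs.1.le
    have h2 : f (Fl x s) ≤ f (Fl x T) := hmono x hs.2.le
    rw [h0] at h1
    have h3 : |f (Fl x s)| ≤ c := abs_le.2 ⟨by linarith, by linarith⟩
    have hc : |c| = c := abs_of_nonneg ((abs_nonneg _).trans h3)
    have h4 := h _ h3
    have h5 : δ / (1 + δ) ≤ ι.G f (Fl x s) / (1 + ι.G f (Fl x s)) := by
      rw [div_le_div_iff₀ (by positivity) (by linarith)]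
      nlinarith
    rw [hs', sub_zero, h0, le_div_iff₀ hT0] at h5
    have h6 : δ / (1 + δ) * T = 2 * |c| + 1 := by
      rw [hT]; field_simp
    rw [h6, hc] at h5
    linarith
  · rintro a b C ⟨S₀, hS₀, hC⟩
    refine ⟨(fun p : P × ℝ => Fl p.1 p.2) '' (S₀ ×ˢ Icc a b),
      (hS₀.prod isCompact_Icc).image hcont, ?_⟩
    rintro _ ⟨⟨z, t⟩, ⟨hz, ht⟩, rfl⟩
    obtain ⟨κ, hκ, hκz⟩ := hC z hz
    refine ⟨κ, hκ, ⟨(κ • z, t), ⟨hκz, ht⟩, ?_⟩⟩
    exact 𝒟.flow_smul hf h0 hFl κ (hK κ hκ) z t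
  · rintro C ⟨S₀, hS₀, hC⟩
    obtain ⟨b, hb⟩ := (hS₀.image hf.continuous.abs).bddAbove
    refine ⟨b, fun z hz => ?_⟩
    obtain ⟨κ, hκ, hκz⟩ := hC z hz
    rw [← hK κ hκ z]
    exact hb (mem_image_of_mem _ hκz)
  · rintro C C' ⟨S₀, hS₀, hC⟩ ⟨S₀', hS₀', hC'⟩
    refine ⟨S₀ ∪ S₀', hS₀.union hS₀', ?_⟩
    rintro x (hx | hx)
    · obtain ⟨κ, hκ, h⟩ := hC x hx
      exact ⟨κ, hκ, Or.inl h⟩
    · obtain ⟨κ, hκ, h⟩ := hC' x hx
      exact ⟨κ, hκ, Or.inr h⟩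

end Deck

namespace TAct

variable (A : TAct β m) {n : ℕ} {ι : Imm (E := E) P n} {Γ : Type*} [Group Γ] [MulAction Γ P]

/-- the subgroup acting trivially on the contact Hamiltonians -/
def ker (Γ : Type*) [Group Γ] [MulAction Γ P] : Subgroup Γ where
  carrier := {γ | ∀ (k : Fin m → ℤ) (x : P), A.H (rv k) (γ • x) = A.H (rv k) x}
  mul_mem' := by
    intro a b ha hb k x
    rw [mul_smul, ha, hb]
  one_mem' := by
    intro k x
    rw [one_smul]
  inv_mem' := by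
    intro a ha k x
    rw [← ha k, smul_inv_smul]

lemma mem_ker {γ : Γ} : γ ∈ A.ker Γ ↔ ∀ (k : Fin m → ℤ) (x : P),
    A.H (rv k) (γ • x) = A.H (rv k) x := Iff.rfl

lemma exists_H_smul (𝒟 : Deck ι Γ) (hN : A.Norm Γ) (γ : Γ) (k : Fin m → ℤ) :
    ∃ k' : Fin m → ℤ, ∀ x, A.H (rv k) (γ • x) = A.H (rv k') x := by
  obtain ⟨B, hB⟩ := A.H_equiv 𝒟 hN γ⁻¹
  refine ⟨B k, fun x => ?_⟩
  have h := hB k (γ • x)
  rw [inv_smul_smul] at h
  exact h.symm

lemma conj_mem_ker (𝒟 : Deck ι Γ) (hN : A.Norm Γ) {κ : Γ} (hκ : κ ∈ A.ker Γ) (γ : Γ) :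
    γ * κ * γ⁻¹ ∈ A.ker Γ := by
  intro k x
  obtain ⟨k', hk'⟩ := A.exists_H_smul 𝒟 hN γ k
  rw [mul_smul, mul_smul, hk', hκ k', ← hk', smul_inv_smul]

/-- If the orbit of a nonzero integral Hamiltonian is finite, some integral Hamiltonian has a
critical point. -/
theorem exists_crit_of_finite [T2Space P] [SigmaCompactSpace P] [Nonempty P]
    (hc : IsContact β) {R : (x : P) → TangentSpace 𝓘(ℝ, E) x}
    (hR : IsReeb β R) (𝒟 : Deck ι Γ) (hN : A.Norm Γ) {k₀ : Fin m → ℤ} (hk₀ : k₀ ≠ 0)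
    {S : Set (Fin m → ℤ)} (hS : S.Finite)
    (ho : ∀ γ : Γ, ∃ k ∈ S, ∀ x, A.H (rv k) (γ • x) = A.H (rv k₀) x) :
    ∃ k : Fin m → ℤ, k ≠ 0 ∧ ∃ x, dForm 𝓘(ℝ, E) (A.H (rv k)) x = 0 := by
  by_contra hno
  push Not at hno
  have hps := fun c => A.palaisSmale hc hR 𝒟 hN hno k₀ hk₀ c
  obtain ⟨F⟩ := 𝒟.exists_push (A.smooth_H hc.smooth (rv k₀)) hps
  have hcomp : IsCompact (𝒟.D ×ˢ (rv '' S)) := 𝒟.compact.prod (hS.image _).isCompact
  obtain ⟨b, hb⟩ := (hcomp.image (A.continuous_H hc.smooth).abs).bddAbove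
  have hbd : ∀ x, |A.H (rv k₀) x| ≤ b := by
    intro x
    obtain ⟨γ, hγ⟩ := 𝒟.cover x
    obtain ⟨k, hk, hkx⟩ := ho γ
    rw [← hkx x]
    exact hb ⟨(γ • x, rv k), ⟨hγ, k, hk, rfl⟩, rfl⟩
  obtain ⟨x⟩ := ‹Nonempty P›
  obtain ⟨T, -, hT⟩ := F.push b
  have h1 := hT x (by have := (abs_le.1 (hbd x)).1; linarith)
  exact absurd ((le_abs_self _).trans (hbd _)) (not_le.2 h1)

/-- If `f` is larger than its translate in absolute value outside a small set, then `f` is not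
proper. -/
lemma no_domination_rel (𝒟 : Deck ι Γ) {K : Subgroup Γ}
    (hKn : ∀ κ ∈ K, ∀ γ : Γ, γ * κ * γ⁻¹ ∈ K) {f : P → ℝ} (hf : Continuous f)
    (hfK : ∀ κ ∈ K, ∀ x, f (κ • x) = f x)
    (hprop : ∀ c : ℝ, ∃ S, SmallRel K S ∧ ∀ x, x ∉ S → c < |f x|)
    (hnc : ∀ S : Set P, SmallRel K S → ∃ x, x ∉ S) (g : Γ)
    {S : Set P} (hS : SmallRel K S) (hdom : ∀ x, x ∉ S → |f (g • x)| < |f x|) : False := by
  have hgc : Continuous (fun x : P => g • x) := (𝒟.smooth g).continuous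
  obtain ⟨b, hb⟩ : ∃ b : ℝ, ∀ z ∈ S, |f (g • z)| < b := by
    obtain ⟨S₀, hS₀, h⟩ := hS
    obtain ⟨b, hb⟩ := (hS₀.image (hf.comp hgc).abs).bddAbove
    refine ⟨b + 1, fun z hz => ?_⟩
    obtain ⟨κ, hκ, hκz⟩ := h z hz
    have h1 := hb (mem_image_of_mem _ hκz)
    simp only [Function.comp] at h1
    have h2 : f (g • κ • z) = f (g • z) := by
      rw [← hfK _ (hKn κ hκ g) (g • z), mul_smul, mul_smul, inv_smul_smul]
    rw [h2] at h1
    linarith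
  have hun : ∀ S S' : Set P, SmallRel K S → SmallRel K S' → SmallRel K (S ∪ S') := by
    rintro C C' ⟨S₀, hS₀, hC⟩ ⟨S₀', hS₀', hC'⟩
    refine ⟨S₀ ∪ S₀', hS₀.union hS₀', ?_⟩
    rintro x (hx | hx)
    · obtain ⟨κ, hκ, h⟩ := hC x hx
      exact ⟨κ, hκ, Or.inl h⟩
    · obtain ⟨κ, hκ, h⟩ := hC' x hx
      exact ⟨κ, hκ, Or.inr h⟩
  obtain ⟨K1, hK1, h1⟩ := hprop b
  obtain ⟨y, hy⟩ := hnc _ (hun _ _ hK1 hS)
  have hyb : b < |f y| := h1 y (fun h => hy (Or.inl h))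
  have hyK : y ∉ S := fun h => hy (Or.inr h)
  have hdec : ∀ i : ℕ, |f (g ^ (i + 1) • y)| < |f y| := by
    intro i
    induction i with
    | zero => simpa using hdom y hyK
    | succ i ih =>
      have e : g ^ (i + 1 + 1) • y = g • (g ^ (i + 1) • y) := by
        rw [smul_smul, ← pow_succ']
      rw [e]
      by_cases hi : g ^ (i + 1) • y ∈ S
      · exact (hb _ hi).trans hyb
      · exact (hdom _ hi).trans ih
  obtain ⟨K2, ⟨S₀, hS₀, hK2⟩, h2⟩ := hprop |f y|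
  have hmem : ∀ i : ℕ, g ^ i • y ∈ K2 := by
    intro i
    by_contra hi
    have h3 := h2 _ hi
    cases i with
    | zero => simp at h3
    | succ i => exact lt_irrefl _ (h3.trans (hdec i))
  choose κ hκ hκm using fun i : ℕ => hK2 _ (hmem i)
  have hfin := 𝒟.fin y S₀ hS₀
  have hmap : MapsTo (fun i : ℕ => κ i • g ^ i • y) univ {z ∈ S₀ | ∃ γ : Γ, γ • y = z} := by
    intro i _
    refine ⟨hκm i, κ i * g ^ i, ?_⟩
    rw [mul_smul]
  obtain ⟨i, -, j, -, hij, he⟩ := Set.infinite_univ.exists_ne_map_eq_of_mapsTo hmap hfin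
  have key : ∀ i j : ℕ, i < j → κ i • g ^ i • y = κ j • g ^ j • y → False := by
    intro i j hlt he
    obtain ⟨d, rfl⟩ := Nat.exists_eq_add_of_lt hlt
    have e1 : g ^ (i + d + 1) • y = g ^ i • (g ^ (d + 1) • y) := by
      rw [smul_smul, ← pow_add]; rfl
    rw [e1] at he
    have e2 : g ^ (d + 1) • y =
        ((g ^ i)⁻¹ * ((κ (i + d + 1))⁻¹ * κ i) * ((g ^ i)⁻¹)⁻¹) • y := by
      rw [inv_inv, mul_smul, mul_smul, mul_smul, he, inv_smul_smul, inv_smul_smul]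
    have e3 : (g ^ i)⁻¹ * ((κ (i + d + 1))⁻¹ * κ i) * ((g ^ i)⁻¹)⁻¹ ∈ K :=
      hKn _ (K.mul_mem (K.inv_mem (hκ _)) (hκ _)) _
    have e4 := hfK _ e3 y
    rw [← e2] at e4
    have := hdec d
    rw [e4] at this
    exact lt_irrefl _ this
  rcases lt_or_gt_of_ne hij with h | h
  · exact key i j h he
  · exact key j i h he.symm

/-- Two integral Hamiltonians going to infinity in the same direction, with a difference doing the
same. -/
lemma no_same_direction_rel (hc : IsContact β) (𝒟 : Deck ι Γ) (hN : A.Norm Γ) {C U V : Set P}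
    (hun : ∀ S S' : Set P, SmallRel (A.ker Γ) S → SmallRel (A.ker Γ) S' →
      SmallRel (A.ker Γ) (S ∪ S'))
    (hE : Rel.TwoEnds (SmallRel (A.ker Γ)) C U V) {k₀ k1 k2 : Fin m → ℤ} {γ1 γ2 : Γ}
    (h1 : ∀ x, A.H (rv k1) (γ1 • x) = A.H (rv k₀) x)
    (h2 : ∀ x, A.H (rv k2) (γ2 • x) = A.H (rv k₀) x)
    (hU1 : ∀ c, Rel.Fpush.Up (SmallRel (A.ker Γ)) (A.H (rv k1)) U V c)
    (hU2 : ∀ c, Rel.Fpush.Up (SmallRel (A.ker Γ)) (A.H (rv k2)) U V c)
    (hU3 : ∀ c, Rel.Fpush.Up (SmallRel (A.ker Γ)) (A.H (rv (k1 - k2))) U V c) : False := by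
  have hcov : ∀ x : P, x ∉ C → x ∈ U ∨ x ∈ V := by
    intro x hx
    have : x ∈ U ∪ V := by rw [hE.union]; exact hx
    exact this
  have hnc : ∀ K : Set P, SmallRel (A.ker Γ) K → ∃ x, x ∉ K := by
    intro K hK
    obtain ⟨x, -, hx⟩ := not_subset.1 (hE.ncU K hK)
    exact ⟨x, hx⟩
  obtain ⟨K1, hK1, a1, b1⟩ := hU1 0
  obtain ⟨K2, hK2, a2, b2⟩ := hU2 0
  obtain ⟨K3, hK3, a3, b3⟩ := hU3 0
  refine no_domination_rel 𝒟 (f := A.H (rv k1)) (fun κ hκ γ => A.conj_mem_ker 𝒟 hN hκ γ)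
    (A.smooth_H hc.smooth _).continuous (fun κ hκ x => hκ k1 x) ?_ hnc
    (γ1 * γ2⁻¹) (hun _ _ (hun _ _ (hun _ _ hK1 hK2) hK3) hE.compact) ?_
  · intro c
    obtain ⟨K, hK, a, b⟩ := hU1 c
    refine ⟨K ∪ C, hun _ _ hK hE.compact, fun x hx => ?_⟩
    rcases hcov x (fun hh => hx (Or.inr hh)) with hxU | hxV
    · exact (a x hxU (fun hh => hx (Or.inl hh))).trans_le (le_abs_self _)
    · have := b x hxV (fun hh => hx (Or.inl hh))
      have h3 := neg_le_abs (A.H (rv k1) x)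
      linarith
  · intro x hx
    simp only [mem_union, not_or] at hx
    have e : A.H (rv k1) ((γ1 * γ2⁻¹) • x) = A.H (rv k2) x := by
      rw [mul_smul, h1, ← h2, smul_inv_smul]
    rw [e]
    have e3 : A.H (rv (k1 - k2)) x = A.H (rv k1) x - A.H (rv k2) x := by
      rw [rv_sub, A.H_sub]
    rcases hcov x hx.2 with hxU | hxV
    · have c1 := a1 x hxU hx.1.1.1
      have c2 := a2 x hxU hx.1.1.2
      have c3 := a3 x hxU hx.1.2
      rw [e3] at c3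
      rw [abs_of_pos c1, abs_of_pos c2]
      linarith
    · have c1 := b1 x hxV hx.1.1.1
      have c2 := b2 x hxV hx.1.1.2
      have c3 := b3 x hxV hx.1.2
      rw [e3] at c3
      rw [abs_of_neg (by linarith), abs_of_neg (by linarith)]
      linarith

/-- **Critical points, two relative ends.** -/
theorem exists_crit_two_ends_rel [T2Space P] [SigmaCompactSpace P] [PathConnectedSpace P]
    (hc : IsContact β) {R : (x : P) → TangentSpace 𝓘(ℝ, E) x}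
    (hR : IsReeb β R) (𝒟 : Deck ι Γ) (hN : A.Norm Γ) {C U V : Set P}
    (hE : Rel.TwoEnds (SmallRel (A.ker Γ)) C U V) (hm : 0 < m) :
    ∃ k : Fin m → ℤ, k ≠ 0 ∧ ∃ x, dForm 𝓘(ℝ, E) (A.H (rv k)) x = 0 := by
  by_contra hno
  have hno' := hno
  push Not at hno
  have hps := fun k hk c => A.palaisSmale hc hR 𝒟 hN hno k hk c
  have hun : ∀ S S' : Set P, SmallRel (A.ker Γ) S → SmallRel (A.ker Γ) S' →
      SmallRel (A.ker Γ) (S ∪ S') := by
    rintro C C' ⟨S₀, hS₀, hC⟩ ⟨S₀', hS₀', hC'⟩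
    refine ⟨S₀ ∪ S₀', hS₀.union hS₀', ?_⟩
    rintro x (hx | hx)
    · obtain ⟨κ, hκ, h⟩ := hC x hx
      exact ⟨κ, hκ, Or.inl h⟩
    · obtain ⟨κ, hκ, h⟩ := hC' x hx
      exact ⟨κ, hκ, Or.inr h⟩
  have hd : ∀ k : Fin m → ℤ, k ≠ 0 →
      (∀ c, Rel.Fpush.Up (SmallRel (A.ker Γ)) (A.H (rv k)) U V c) ∨
      (∀ c, Rel.Fpush.Up (SmallRel (A.ker Γ)) (A.H (rv k)) V U c) := by
    intro k hk
    obtain ⟨F⟩ := 𝒟.exists_push_rel (A.smooth_H hc.smooth (rv k)) (hps k hk) (A.ker Γ)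
      (fun κ hκ x => hκ k x)
    exact F.dich (A.smooth_H hc.smooth _).continuous hE
  -- the orbit of a nonzero vector
  set k₀ : Fin m → ℤ := fun _ => 1 with hk₀
  have hk₀0 : k₀ ≠ 0 := by
    intro h
    have := congrFun h ⟨0, hm⟩
    simp [hk₀] at this
  have ho : ∀ γ : Γ, ∃ k : Fin m → ℤ, ∀ x, A.H (rv k) (γ • x) = A.H (rv k₀) x := by
    intro γ
    obtain ⟨B, hB⟩ := A.H_equiv 𝒟 hN γ
    exact ⟨B k₀, fun x => hB k₀ x⟩
  choose o ho using ho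
  have hne : Nonempty P := by
    have h : ¬ U ⊆ (∅ : Set P) := hE.ncU ∅ ⟨∅, isCompact_empty, fun x hx => hx.elim⟩
    obtain ⟨x, -, -⟩ := not_subset.1 h
    exact ⟨x⟩
  have ho0 : ∀ γ, o γ ≠ 0 := by
    intro γ h0
    obtain ⟨x⟩ := hne
    have hcrit : dForm 𝓘(ℝ, E) (A.H (rv k₀)) x = 0 := by
      apply dForm_eq_zero_of_eventually (a := 0)
      refine Filter.Eventually.of_forall fun y => ?_
      rw [← ho γ y, h0]
      have e1 : (rv (0 : Fin m → ℤ) : Fin m → ℝ) = (0:ℝ) • (0 : Fin m → ℝ) := by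
        ext i; simp [rv]
      rw [e1, A.H_smul, zero_mul]
    exact hno k₀ hk₀0 x hcrit
  rcases Set.finite_or_infinite (range o) with hfin | hinf
  · exact hno' (A.exists_crit_of_finite hc hR 𝒟 hN hk₀0 hfin (fun γ => ⟨o γ, ⟨γ, rfl⟩, ho γ⟩))
  · obtain ⟨_, ⟨γ1, rfl⟩, _, ⟨γ2, rfl⟩, hne, heq⟩ := hinf.exists_ne_map_eq_of_mapsTo
      (f := fun k => ∀ c, Rel.Fpush.Up (SmallRel (A.ker Γ)) (A.H (rv k)) U V c)
      (t := (univ : Set Prop)) (mapsTo_univ _ _) finite_univ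
    have hsub : ∀ k l : Fin m → ℤ, k ≠ l → k - l ≠ 0 := fun k l h h0 => h (sub_eq_zero.1 h0)
    have hflip : ∀ (k l : Fin m → ℤ) (U' V' : Set P) (c : ℝ),
        Rel.Fpush.Up (SmallRel (A.ker Γ)) (A.H (rv (k - l))) V' U' c →
        Rel.Fpush.Up (SmallRel (A.ker Γ)) (A.H (rv (l - k))) U' V' c := by
      rintro k l U' V' c ⟨K, hK, a, b⟩
      have e : ∀ x, A.H (rv (l - k)) x = - A.H (rv (k - l)) x := by
        intro x
        rw [rv_sub, rv_sub, A.H_sub, A.H_sub]; ring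
      refine ⟨K, hK, fun x hx hxK => ?_, fun x hx hxK => ?_⟩
      · rw [e]; have := b x hx hxK; linarith
      · rw [e]; have := a x hx hxK; linarith
    by_cases h1 : ∀ c, Rel.Fpush.Up (SmallRel (A.ker Γ)) (A.H (rv (o γ1))) U V c
    · have h2 : ∀ c, Rel.Fpush.Up (SmallRel (A.ker Γ)) (A.H (rv (o γ2))) U V c := by
        have := heq ▸ h1
        exact this
      rcases hd _ (hsub _ _ hne) with h3 | h3
      · exact A.no_same_direction_rel hc 𝒟 hN hun hE (ho γ1) (ho γ2) h1 h2 h3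
      · exact A.no_same_direction_rel hc 𝒟 hN hun hE (ho γ2) (ho γ1) h2 h1
          (fun c => hflip _ _ _ _ c (h3 c))
    · have h2 : ¬ ∀ c, Rel.Fpush.Up (SmallRel (A.ker Γ)) (A.H (rv (o γ2))) U V c := by
        intro h
        apply h1
        have := heq.symm ▸ h
        exact this
      have h1' := (hd _ (ho0 γ1)).resolve_left h1
      have h2' := (hd _ (ho0 γ2)).resolve_left h2
      rcases hd _ (hsub _ _ hne) with h3 | h3
      · exact A.no_same_direction_rel hc 𝒟 hN hun hE.symm (ho γ2) (ho γ1) h2' h1'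
          (fun c => hflip _ _ _ _ c (h3 c))
      · exact A.no_same_direction_rel hc 𝒟 hN hun hE.symm (ho γ1) (ho γ2) h1' h2' h3

end TAct

end Pool.Agent.H826R2.Wein
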