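import Mathlib
import Pool.Agent.H826R2.Wein.RelTop
import Pool.Agent.H826R2.Wein.Mat2

/-! Local `T^2`-symmetry with arbitrary monodromy. -/

open scoped Topology ContDiff Manifold
open Set Metric Bundle Pool.Agent.Helper186

noncomputable section

namespace Pool.Agent.H826R2.Wein

set_option linter.unusedSectionVars false

/-- Eigenvalue data of a hyperbolic matrix. -/
lemma hyp_data (A : M2) (hd : Matrix.det A = 1) (ht : 2 < Matrix.trace A) :
    ∃ (lam : ℝ) (z : ℤ), 1 < lam ∧ lam + lam⁻¹ = (A 0 0 + A 1 1 : ℤ) ∧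
      lam⁻¹ - (A 1 1 : ℤ) < z ∧ (z:ℝ) < lam - (A 1 1 : ℤ) ∧ A 1 0 ≠ 0 := by
  rw [m2_det] at hd
  rw [m2_tr] at ht
  set t : ℤ := A 0 0 + A 1 1 with htdef
  have ht3 : (3:ℝ) ≤ (t:ℝ) := by exact_mod_cast ht
  set s := Real.sqrt ((t:ℝ) ^ 2 - 4) with hs
  have hs2 : s ^ 2 = (t:ℝ) ^ 2 - 4 := Real.sq_sqrt (by nlinarith)
  have hs0 : 0 ≤ s := Real.sqrt_nonneg _
  have hs1 : 2 ≤ s := by
    apply Real.le_sqrt_of_sq_le
    nlinarith
  have hst : s < t := by nlinarith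
  set lam := ((t:ℝ) + s) / 2 with hlam
  have hprod : lam * (((t:ℝ) - s) / 2) = 1 := by
    rw [hlam]; nlinarith
  have hlam1 : 1 < lam := by rw [hlam]; linarith
  have hinv : lam⁻¹ = ((t:ℝ) - s) / 2 := inv_eq_of_mul_eq_one_right hprod
  obtain ⟨z, hz1, hz2⟩ : ∃ z : ℤ, lam⁻¹ - ((A 1 1 : ℤ):ℝ) < z ∧ (z:ℝ) < lam - ((A 1 1 : ℤ):ℝ) := by
    refine ⟨⌊lam⁻¹ - ((A 1 1 : ℤ):ℝ)⌋ + 1, ?_, ?_⟩
    · push_cast; exact Int.lt_floor_add_one _
    · push_cast
      have h1 := Int.floor_le (lam⁻¹ - ((A 1 1 : ℤ):ℝ))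
      have h2 : lam - lam⁻¹ = s := by rw [hinv, hlam]; ring
      linarith
  refine ⟨lam, z, hlam1, ?_, hz1, hz2, ?_⟩
  · rw [hinv, hlam, htdef]; ring
  · intro h0
    rw [h0, mul_zero, sub_zero] at hd
    have h1 := Int.isUnit_iff.1 (IsUnit.of_mul_eq_one _ hd)
    rcases h1 with h1 | h1
    · rw [h1, one_mul] at hd
      omega
    · rw [h1] at hd
      omega

lemma tendsto_aux {lam a b c : ℝ} (hl : 1 < lam) (ha : 0 < a) :
    Filter.Tendsto (fun n : ℕ => lam ^ (2 * n) * a + b + (lam⁻¹) ^ (2 * n) * c) Filter.atTop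
      Filter.atTop := by
  have h1 : Filter.Tendsto (fun n : ℕ => lam ^ (2 * n) * a + (b - |c|)) Filter.atTop
      Filter.atTop := by
    apply Filter.tendsto_atTop_add_const_right
    apply Filter.Tendsto.atTop_mul_const ha
    exact (tendsto_pow_atTop_atTop_of_one_lt hl).comp
      (Filter.tendsto_id.const_mul_atTop' (by norm_num))
  refine Filter.tendsto_atTop_mono (fun n => ?_) h1
  have h2 : (0:ℝ) < lam⁻¹ := by positivity
  have h3 : lam⁻¹ ≤ 1 := inv_le_one_of_one_le₀ hl.le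
  have h4 : (lam⁻¹) ^ (2 * n) ≤ 1 := pow_le_one₀ h2.le h3
  have h5 : 0 ≤ (lam⁻¹) ^ (2 * n) := by positivity
  have h6 : -|c| ≤ (lam⁻¹) ^ (2 * n) * c := by
    have := neg_abs_le c
    nlinarith [abs_nonneg c]
  linarith

universe u

variable {E : Type u} [NormedAddCommGroup E] [NormedSpace ℝ E] [FiniteDimensional ℝ E]
  {P : Type*} [TopologicalSpace P] [ChartedSpace E P] [IsManifold 𝓘(ℝ, E) ∞ P]
  {β : (x : P) → TangentSpace 𝓘(ℝ, E) x →L[ℝ] ℝ}

namespace TAct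

section anym

variable {m : ℕ} (A : TAct β m) {n : ℕ} (ι : Imm (E := E) P n) {Γ : Type*} [Group Γ]
  [MulAction Γ P]

include ι in
lemma H_inj [Nonempty P] (hc : IsContact β) {R : (x : P) → TangentSpace 𝓘(ℝ, E) x}
    (hR : IsReeb β R) {κ : Fin m → ℝ} (h : ∀ x, A.H κ x = 0) : κ = 0 := by
  by_contra hκ
  obtain ⟨x⟩ := ‹Nonempty P›
  refine A.H_ne_zero_of_crit hc hR hκ (x := x) ?_ (h x)
  exact dForm_eq_zero_of_eventually (a := 0) (Filter.Eventually.of_forall h)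

variable {ι} in
/-- The monodromy representation. -/
lemma exists_monodromy [Nonempty P] (hc : IsContact β) {R : (x : P) → TangentSpace 𝓘(ℝ, E) x}
    (hR : IsReeb β R) (𝒟 : Deck ι Γ) (hN : A.Norm Γ) :
    ∃ B : Γ →* Matrix (Fin m) (Fin m) ℤ, ∀ (γ : Γ) (κ : Fin m → ℝ) (x : P),
      A.H (((B γ).map (Int.cast : ℤ → ℝ)).mulVec κ) (γ • x) = A.H κ x := by
  choose B hB using hN.norm
  have hH : ∀ (γ : Γ) (κ : Fin m → ℝ) (x : P),
      A.H (((B γ).map (Int.cast : ℤ → ℝ)).mulVec κ) (γ • x) = A.H κ x := by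
    intro γ κ x
    refine A.H_push (𝒟.smooth γ) ?_ (hN.strict γ) x
    intro t y
    unfold fam
    rw [hB, Matrix.mulVec_smul]
  have hinj : ∀ C C' : Matrix (Fin m) (Fin m) ℤ, ∀ γ : Γ,
      (∀ (κ : Fin m → ℝ) (x : P), A.H ((C.map (Int.cast : ℤ → ℝ)).mulVec κ) (γ • x) =
        A.H ((C'.map (Int.cast : ℤ → ℝ)).mulVec κ) (γ • x)) → C = C' := by
    intro C C' γ h
    have h1 : ∀ κ : Fin m → ℝ, (C.map (Int.cast : ℤ → ℝ)).mulVec κ =
        (C'.map (Int.cast : ℤ → ℝ)).mulVec κ := by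
      intro κ
      rw [← sub_eq_zero]
      apply A.H_inj ι hc hR
      intro y
      rw [A.H_sub]
      have := h κ (γ⁻¹ • y)
      rw [smul_inv_smul] at this
      rw [this, sub_self]
    ext i j
    have h2 := congrFun (h1 (Pi.single j 1)) i
    rw [Matrix.mulVec_single_one, Matrix.mulVec_single_one] at h2
    simpa using h2
  refine ⟨{ toFun := B, map_one' := ?_, map_mul' := ?_ }, hH⟩
  · apply hinj _ _ 1
    intro κ x
    rw [hH 1 κ x]
    simp
  · intro γ γ'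
    apply hinj _ _ (γ * γ')
    intro κ x
    rw [hH (γ * γ') κ x]
    have e : ((B γ * B γ').map (Int.cast : ℤ → ℝ)) =
        (B γ).map (Int.cast : ℤ → ℝ) * (B γ').map (Int.cast : ℤ → ℝ) :=
      Matrix.map_mul (f := Int.castRingHom ℝ)
    rw [e, ← Matrix.mulVec_mulVec, mul_smul, hH, hH]

variable {ι} in
lemma Q_equiv (hc : IsContact β) (𝒟 : Deck ι Γ) {B : Matrix (Fin m) (Fin m) ℤ} {γ : Γ}
    (hB : ∀ (κ : Fin m → ℝ) (x : P),
      A.H ((B.map (Int.cast : ℤ → ℝ)).mulVec κ) (γ • x) = A.H κ x) (κ : Fin m → ℝ) (x : P) :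
    A.Q ι ((B.map (Int.cast : ℤ → ℝ)).mulVec κ) (γ • x) = A.Q ι κ x := by
  unfold Q
  rw [𝒟.G_push γ (A.smooth_H hc.smooth _) (hB κ) x, hB]

variable {ι} in
lemma Q_ker (hc : IsContact β) (𝒟 : Deck ι Γ) {γ : Γ} (hγ : γ ∈ A.ker Γ)
    (k : Fin m → ℤ) (x : P) : A.Q ι (rv k) (γ • x) = A.Q ι (rv k) x := by
  unfold Q
  rw [𝒟.G_push γ (A.smooth_H hc.smooth _) (hγ k) x, hγ k x]

end anym

section two

variable (A : TAct β 2) {n : ℕ} (ι : Imm (E := E) P n) {Γ : Type*} [Group Γ] [MulAction Γ P]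

/-- coefficients of the quadratic form -/
def q11 (x : P) : ℝ := ι.G2 (A.H (Pi.single 0 1)) (A.H (Pi.single 0 1)) x +
  A.H (Pi.single 0 1) x * A.H (Pi.single 0 1) x
def q12 (x : P) : ℝ := ι.G2 (A.H (Pi.single 0 1)) (A.H (Pi.single 1 1)) x +
  A.H (Pi.single 0 1) x * A.H (Pi.single 1 1) x
def q22 (x : P) : ℝ := ι.G2 (A.H (Pi.single 1 1)) (A.H (Pi.single 1 1)) x +
  A.H (Pi.single 1 1) x * A.H (Pi.single 1 1) x

lemma continuous_q11 (hβ : SmoothForm β) : Continuous (A.q11 ι) :=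
  (ι.smooth_G2 (A.smooth_H hβ _) (A.smooth_H hβ _)).continuous.add
    ((A.smooth_H hβ _).continuous.mul (A.smooth_H hβ _).continuous)
lemma continuous_q12 (hβ : SmoothForm β) : Continuous (A.q12 ι) :=
  (ι.smooth_G2 (A.smooth_H hβ _) (A.smooth_H hβ _)).continuous.add
    ((A.smooth_H hβ _).continuous.mul (A.smooth_H hβ _).continuous)
lemma continuous_q22 (hβ : SmoothForm β) : Continuous (A.q22 ι) :=
  (ι.smooth_G2 (A.smooth_H hβ _) (A.smooth_H hβ _)).continuous.add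
    ((A.smooth_H hβ _).continuous.mul (A.smooth_H hβ _).continuous)

lemma Q_eq (hβ : SmoothForm β) (κ : Fin 2 → ℝ) (x : P) :
    A.Q ι κ x = A.q11 ι x * κ 0 ^ 2 + 2 * A.q12 ι x * (κ 0 * κ 1) + A.q22 ι x * κ 1 ^ 2 := by
  unfold Q q11 q12 q22
  rw [A.G_H_expand ι hβ, A.H_expand]
  simp only [Fin.sum_univ_two]
  have hsymm : ι.G2 (A.H (Pi.single 1 1)) (A.H (Pi.single 0 1)) x =
      ι.G2 (A.H (Pi.single 0 1)) (A.H (Pi.single 1 1)) x := by
    rw [ι.G2_eq, ι.G2_eq, real_inner_comm]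
  rw [hsymm]
  ring

/-- the bilinear form -/
def bf (x : P) (u v : Fin 2 → ℝ) : ℝ :=
  A.q11 ι x * (u 0 * v 0) + A.q12 ι x * (u 0 * v 1 + u 1 * v 0) + A.q22 ι x * (u 1 * v 1)

lemma bf_self (hβ : SmoothForm β) (κ : Fin 2 → ℝ) (x : P) : A.bf ι x κ κ = A.Q ι κ x := by
  rw [A.Q_eq ι hβ]; unfold bf; ring

lemma bf_polar (hβ : SmoothForm β) (u v : Fin 2 → ℝ) (x : P) :
    A.bf ι x u v = (A.Q ι (u + v) x - A.Q ι u x - A.Q ι v x) / 2 := by
  rw [A.Q_eq ι hβ, A.Q_eq ι hβ, A.Q_eq ι hβ]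
  unfold bf
  simp only [Pi.add_apply]
  ring

lemma continuous_bf (hβ : SmoothForm β) (u v : Fin 2 → ℝ) :
    Continuous (fun x => A.bf ι x u v) :=
  (((A.continuous_q11 ι hβ).mul continuous_const).add
    ((A.continuous_q12 ι hβ).mul continuous_const)).add
    ((A.continuous_q22 ι hβ).mul continuous_const)

/-- the entries of the matrix are determined by finitely many bounded numbers -/
lemma finite_matrices (z c : ℤ) (hc : c ≠ 0) (N : ℕ) :
    {C : M2 | |C 0 0| ≤ N ∧ |C 1 0| ≤ N ∧ |z * C 0 0 + c * C 0 1| ≤ N ∧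
      |z * C 1 0 + c * C 1 1| ≤ N}.Finite := by
  let F : M2 → ℤ × ℤ × ℤ × ℤ := fun C => (C 0 0, C 1 0, z * C 0 0 + c * C 0 1,
    z * C 1 0 + c * C 1 1)
  have hinj : Function.Injective F := by
    intro C C' h
    simp only [F, Prod.mk.injEq] at h
    obtain ⟨h0, h1, h2, h3⟩ := h
    apply m2_ext h0 _ h1 _
    · apply mul_left_cancel₀ hc
      rw [h0] at h2
      linarith
    · apply mul_left_cancel₀ hc
      rw [h1] at h3
      linarith
  refine Set.Finite.of_finite_image (f := F) ?_ hinj.injOn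
  refine ((Set.finite_Icc (-(N:ℤ)) N).prod ((Set.finite_Icc (-(N:ℤ)) N).prod
    ((Set.finite_Icc (-(N:ℤ)) N).prod (Set.finite_Icc (-(N:ℤ)) N)))).subset ?_
  rintro _ ⟨C, ⟨h0, h1, h2, h3⟩, rfl⟩
  exact ⟨abs_le.1 h0, abs_le.1 h1, abs_le.1 h2, abs_le.1 h3⟩

variable {ι} in
/-- smallness of the separating set -/
lemma small_separating (hc : IsContact β) {R : (x : P) → TangentSpace 𝓘(ℝ, E) x}
    (hR : IsReeb β R) (𝒟 : Deck ι Γ) (B : Γ →* M2)
    (hB : ∀ (γ : Γ) (κ : Fin 2 → ℝ) (x : P),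
      A.H (((B γ).map (Int.cast : ℤ → ℝ)).mulVec κ) (γ • x) = A.H κ x)
    (z : ℤ) {c : ℤ} (hc0 : c ≠ 0) {k l : Fin 2 → ℤ} (hkl : (k, l) = (![1, 0], ![z, c])) :
    SmallRel (A.ker Γ) {x | A.bf ι x (rv k) (rv l) = 0} := by
  classical
  obtain ⟨hk, hl⟩ := Prod.mk.inj hkl
  have hQB : ∀ (γ : Γ) (κ : Fin 2 → ℝ) (x : P),
      A.Q ι (((B γ).map (Int.cast : ℤ → ℝ)).mulVec κ) (γ • x) = A.Q ι κ x :=
    fun γ κ x => A.Q_equiv hc 𝒟 (hB γ) κ x
  have hrv : ∀ (C : M2) (k : Fin 2 → ℤ), (rv (C.mulVec k) : Fin 2 → ℝ) =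
      (C.map (Int.cast : ℤ → ℝ)).mulVec (rv k) := by
    intro C k
    ext i
    simp [rv, Matrix.mulVec, dotProduct]
  have hbB : ∀ (γ : Γ) (u v : Fin 2 → ℝ) (x : P),
      A.bf ι (γ • x) (((B γ).map (Int.cast : ℤ → ℝ)).mulVec u)
        (((B γ).map (Int.cast : ℤ → ℝ)).mulVec v) = A.bf ι x u v := by
    intro γ u v x
    rw [A.bf_polar ι hc.smooth, A.bf_polar ι hc.smooth, ← Matrix.mulVec_add, hQB, hQB, hQB]
  obtain ⟨μ, hμ, hQμ⟩ := A.exists_Q_bound ι hc hR 𝒟.compact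
  have hdc : Continuous (fun x => A.q11 ι x * A.q22 ι x - A.q12 ι x ^ 2) :=
    ((A.continuous_q11 ι hc.smooth).mul (A.continuous_q22 ι hc.smooth)).sub
      ((A.continuous_q12 ι hc.smooth).pow 2)
  obtain ⟨M1, hM1⟩ := (𝒟.compact.image hdc).bddAbove
  set M := |M1| * (c:ℝ) ^ 2 with hM
  obtain ⟨N, hNN⟩ := exists_nat_ge (Real.sqrt (M / μ ^ 2))
  have hfinM := finite_matrices z c hc0 N
  let sel : M2 → Γ := fun C => if h : ∃ γ, B γ = C then h.choose else 1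
  have hsel : ∀ γ, B (sel (B γ)) = B γ := by
    intro γ
    have h : ∃ γ', B γ' = B γ := ⟨γ, rfl⟩
    have e : sel (B γ) = h.choose := dif_pos h
    rw [e]
    exact h.choose_spec
  refine ⟨⋃ C ∈ {C : M2 | |C 0 0| ≤ N ∧ |C 1 0| ≤ N ∧ |z * C 0 0 + c * C 0 1| ≤ N ∧
    |z * C 1 0 + c * C 1 1| ≤ N}, (fun y : P => (sel C)⁻¹ • y) '' 𝒟.D, ?_, ?_⟩
  · exact hfinM.isCompact_biUnion fun C _ => 𝒟.compact.image (𝒟.smooth _).continuous
  · intro x hx
    have hx0 : A.bf ι x (rv k) (rv l) = 0 := hx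
    obtain ⟨γ, hγ⟩ := 𝒟.cover x
    obtain ⟨m, hm⟩ : ∃ m, m = (B γ).mulVec k := ⟨_, rfl⟩
    obtain ⟨m', hm'⟩ : ∃ m', m' = (B γ).mulVec l := ⟨_, rfl⟩
    have hQ1 : A.Q ι (rv m) (γ • x) = A.Q ι (rv k) x := by rw [hm, hrv]; exact hQB γ _ x
    have hQ2 : A.Q ι (rv m') (γ • x) = A.Q ι (rv l) x := by rw [hm', hrv]; exact hQB γ _ x
    have hb0 : A.bf ι (γ • x) (rv m) (rv m') = 0 := by
      rw [hm, hm', hrv, hrv, hbB, hx0]
    have hk0 : (rv k : Fin 2 → ℝ) ≠ 0 := by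
      intro h0
      have := congrFun h0 0
      simp [rv, hk] at this
    have hl0 : (rv l : Fin 2 → ℝ) ≠ 0 := by
      intro h0
      have := congrFun h0 1
      simp [rv, hl] at this
      exact hc0 this
    have hpos1 : 0 < A.Q ι (rv m) (γ • x) := by rw [hQ1]; exact A.Q_pos ι hc hR hk0 x
    have hpos2 : 0 < A.Q ι (rv m') (γ • x) := by rw [hQ2]; exact A.Q_pos ι hc hR hl0 x
    have hprod : A.Q ι (rv m) (γ • x) * A.Q ι (rv m') (γ • x) ≤ M := by
      have e1 : A.Q ι (rv m) (γ • x) * A.Q ι (rv m') (γ • x) -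
          A.bf ι (γ • x) (rv m) (rv m') ^ 2 =
          (A.q11 ι (γ • x) * A.q22 ι (γ • x) - A.q12 ι (γ • x) ^ 2) *
            ((m 0 : ℝ) * (m' 1 : ℝ) - (m 1 : ℝ) * (m' 0 : ℝ)) ^ 2 := by
        rw [A.Q_eq ι hc.smooth, A.Q_eq ι hc.smooth]
        unfold bf rv
        ring
      have e2 : ((m 0 : ℝ) * (m' 1 : ℝ) - (m 1 : ℝ) * (m' 0 : ℝ)) ^ 2 = (c:ℝ) ^ 2 := by
        have e3 : m 0 * m' 1 - m 1 * m' 0 = Matrix.det (B γ) * c := by
          rw [hm, hm', m2_vec0, m2_vec1, m2_vec0, m2_vec1, m2_det, hk, hl]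
          simp
          ring
        have e4 : (m 0 * m' 1 - m 1 * m' 0) ^ 2 = c ^ 2 := by
          rw [e3]
          rcases hom_det B γ with h | h <;> rw [h] <;> ring
        exact_mod_cast e4
      rw [hb0, e2] at e1
      have h1 := hM1 (mem_image_of_mem _ hγ)
      have h2 : (A.q11 ι (γ • x) * A.q22 ι (γ • x) - A.q12 ι (γ • x) ^ 2) ≤ |M1| :=
        le_trans h1 (le_abs_self _)
      have h3 := mul_le_mul_of_nonneg_right h2 (sq_nonneg (c:ℝ))
      linarith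
    have hnorm : ∀ u : Fin 2 → ℤ, 0 < A.Q ι (rv u) (γ • x) →
        1 ≤ ‖(rv u : Fin 2 → ℝ)‖ := by
      intro u hu
      have hune : u ≠ 0 := by
        intro h0
        rw [h0, A.Q_eq ι hc.smooth] at hu
        simp [rv] at hu
      obtain ⟨i, hi⟩ := Function.ne_iff.1 hune
      have h1 : (1:ℝ) ≤ |(u i : ℝ)| := by
        have : (1:ℤ) ≤ |u i| := Int.one_le_abs hi
        exact_mod_cast this
      exact h1.trans (norm_le_pi_norm (rv u : Fin 2 → ℝ) i)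
    have hbnd : ∀ u u' : Fin 2 → ℤ, 0 < A.Q ι (rv u) (γ • x) → 0 < A.Q ι (rv u') (γ • x) →
        A.Q ι (rv u) (γ • x) * A.Q ι (rv u') (γ • x) ≤ M → ∀ i, |u i| ≤ N := by
      intro u u' hu hu' hle i
      have h1 := hQμ _ hγ (rv u)
      have h2 := hQμ _ hγ (rv u')
      have h3 := hnorm u' hu'
      have h4 : μ ≤ A.Q ι (rv u') (γ • x) := by
        refine le_trans ?_ h2
        have : (1:ℝ) ≤ ‖(rv u' : Fin 2 → ℝ)‖ ^ 2 := one_le_pow₀ h3
        nlinarith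
      have h5 : A.Q ι (rv u) (γ • x) * μ ≤ M :=
        (mul_le_mul_of_nonneg_left h4 hu.le).trans hle
      have h6 : ‖(rv u : Fin 2 → ℝ)‖ ^ 2 ≤ M / μ ^ 2 := by
        rw [le_div_iff₀ (by positivity)]
        calc ‖(rv u : Fin 2 → ℝ)‖ ^ 2 * μ ^ 2 = (μ * ‖(rv u : Fin 2 → ℝ)‖ ^ 2) * μ := by ring
          _ ≤ A.Q ι (rv u) (γ • x) * μ := mul_le_mul_of_nonneg_right h1 hμ.le
          _ ≤ M := h5
      have h7 : ‖(rv u : Fin 2 → ℝ)‖ ≤ N := (Real.le_sqrt_of_sq_le h6).trans hNN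
      have h8 := (norm_le_pi_norm (rv u : Fin 2 → ℝ) i).trans h7
      have h9 : |(u i : ℝ)| ≤ N := h8
      exact_mod_cast h9
    have hb1 := hbnd m m' hpos1 hpos2 hprod
    have hb2 := hbnd m' m hpos2 hpos1 (by rw [mul_comm]; exact hprod)
    refine ⟨(sel (B γ))⁻¹ * γ, ?_, ?_⟩
    · -- in the kernel
      have hone : B ((sel (B γ))⁻¹ * γ) = 1 := by
        have h1 : B (sel (B γ))⁻¹ * B (sel (B γ)) = 1 := hom_inv_mul B _
        rw [map_mul]
        rw [hsel] at h1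
        exact h1
      intro k' y
      have h1 := hB ((sel (B γ))⁻¹ * γ) (rv k') y
      rw [hone] at h1
      have e : (Matrix.map (1 : M2) (Int.cast : ℤ → ℝ)) = 1 :=
        Matrix.map_one _ (by simp) (by simp)
      rw [e, Matrix.one_mulVec] at h1
      exact h1
    · rw [mul_smul]
      simp only [mem_iUnion]
      refine ⟨B γ, ⟨?_, ?_, ?_, ?_⟩, γ • x, hγ, rfl⟩
      · have := hb1 0
        rw [hm, m2_vec0, hk] at this
        simpa using this
      · have := hb1 1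
        rw [hm, m2_vec1, hk] at this
        simpa using this
      · have := hb2 0
        rw [hm', m2_vec0, hl] at this
        have e : z * B γ 0 0 + c * B γ 0 1 = B γ 0 0 * ![z, c] 0 + B γ 0 1 * ![z, c] 1 := by
          simp; ring
        rw [e]; exact this
      · have := hb2 1
        rw [hm', m2_vec1, hl] at this
        have e : z * B γ 1 0 + c * B γ 1 1 = B γ 1 0 * ![z, c] 0 + B γ 1 1 * ![z, c] 1 := by
          simp; ring
        rw [e]; exact this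

variable {ι} in
/-- **Critical points in rank two.** -/
theorem exists_crit_rank_two [T2Space P] [SigmaCompactSpace P] [PathConnectedSpace P]
    (hc : IsContact β) {R : (x : P) → TangentSpace 𝓘(ℝ, E) x}
    (hR : IsReeb β R) (𝒟 : Deck ι Γ) (hN : A.Norm Γ) :
    ∃ k : Fin 2 → ℤ, k ≠ 0 ∧ ∃ x, dForm 𝓘(ℝ, E) (A.H (rv k)) x = 0 := by
  have hne : Nonempty P := inferInstance
  obtain ⟨B, hB⟩ := A.exists_monodromy hc hR 𝒟 hN
  have hQB : ∀ (γ : Γ) (κ : Fin 2 → ℝ) (x : P),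
      A.Q ι (((B γ).map (Int.cast : ℤ → ℝ)).mulVec κ) (γ • x) = A.Q ι κ x :=
    fun γ κ x => A.Q_equiv hc 𝒟 (hB γ) κ x
  have hrv : ∀ (C : M2) (k : Fin 2 → ℤ), (rv (C.mulVec k) : Fin 2 → ℝ) =
      (C.map (Int.cast : ℤ → ℝ)).mulVec (rv k) := by
    intro C k
    ext i
    simp [rv, Matrix.mulVec, dotProduct]
  rcases hyperbolic_or_finite_orbit B with ⟨g, hg1, hg2⟩ | ⟨k, hk, hfin⟩
  swap
  · refine A.exists_crit_of_finite hc hR 𝒟 hN hk hfin (fun γ => ⟨(B γ).mulVec k, ⟨γ, rfl⟩, ?_⟩)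
    intro x
    rw [hrv, hB]
  -- the hyperbolic case
  obtain ⟨lam, z, hlam, hsum, hz1, hz2, hc0⟩ := hyp_data (B g) hg1 hg2
  set a : ℤ := B g 0 0 with ha
  set b : ℤ := B g 0 1 with hb
  set c : ℤ := B g 1 0 with hcdef
  set d : ℤ := B g 1 1 with hd
  have hdet : a * d - b * c = 1 := by rw [← hg1, m2_det]
  have hdetR : (a:ℝ) * d - b * c = 1 := by exact_mod_cast hdet
  have hsum' : lam + lam⁻¹ = (a:ℝ) + d := by rw [hsum]; push_cast; ring
  have hlam0 : 0 < lam := by linarith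
  have hll : lam * lam⁻¹ = 1 := mul_inv_cancel₀ hlam0.ne'
  -- eigenvectors
  set w : Fin 2 → ℝ := ![lam - d, c] with hw
  set w' : Fin 2 → ℝ := ![lam⁻¹ - d, c] with hw'
  have hAw : ((B g).map (Int.cast : ℤ → ℝ)).mulVec w = lam • w := by
    ext i
    fin_cases i
    · simp [Matrix.mulVec, dotProduct, Fin.sum_univ_two, hw, ← ha, ← hb]
      linear_combination (-lam) * hsum' + hll - hdetR
    · simp [Matrix.mulVec, dotProduct, Fin.sum_univ_two, hw, ← hcdef, ← hd]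
      ring
  have hAw' : ((B g).map (Int.cast : ℤ → ℝ)).mulVec w' = lam⁻¹ • w' := by
    ext i
    fin_cases i
    · simp [Matrix.mulVec, dotProduct, Fin.sum_univ_two, hw', ← ha, ← hb]
      linear_combination (-lam⁻¹) * hsum' + hll - hdetR
    · simp [Matrix.mulVec, dotProduct, Fin.sum_univ_two, hw', ← hcdef, ← hd]
      ring
  have hwne : w ≠ 0 := by
    intro h0
    have := congrFun h0 1
    simp [hw] at this
    exact hc0 this
  have hwne' : w' ≠ 0 := by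
    intro h0
    have := congrFun h0 1
    simp [hw'] at this
    exact hc0 this
  have hll0 : 0 < lam - lam⁻¹ := by
    have : lam⁻¹ < 1 := inv_lt_one_of_one_lt₀ hlam
    linarith
  set s := (lam - lam⁻¹)⁻¹ with hs
  have hs0 : 0 < s := inv_pos.2 hll0
  have hsl : s * (lam - lam⁻¹) = 1 := inv_mul_cancel₀ hll0.ne'
  -- the two integer vectors
  set k : Fin 2 → ℤ := ![1, 0] with hk
  set l : Fin 2 → ℤ := ![z, c] with hl
  set p := (z - lam⁻¹ + d) * s with hp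
  set r := (lam - d - z) * s with hr
  have hp0 : 0 < p := mul_pos (by linarith) hs0
  have hr0 : 0 < r := mul_pos (by linarith) hs0
  have hbil : ∀ (x : P) (c1 c2 c3 c4 : ℝ), A.bf ι x (c1 • w + c2 • w') (c3 • w + c4 • w') =
      c1 * c3 * A.bf ι x w w + (c1 * c4 + c2 * c3) * A.bf ι x w w' + c2 * c4 * A.bf ι x w' w' := by
    intro x c1 c2 c3 c4
    unfold bf
    simp only [Pi.add_apply, Pi.smul_apply, smul_eq_mul]
    ring
  have hkw : (rv k : Fin 2 → ℝ) = s • w + (-s) • w' := by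
    ext i
    fin_cases i
    · simp [rv, hk, hw, hw']
      linear_combination -hsl
    · simp [rv, hk, hw, hw']
  have hlw : (rv l : Fin 2 → ℝ) = p • w + r • w' := by
    ext i
    fin_cases i
    · simp [rv, hl, hw, hw', hp, hr]
      linear_combination (-(z:ℝ)) * hsl
    · simp [rv, hl, hw, hw', hp, hr]
      linear_combination (-(c:ℝ)) * hsl
  have hbkl : ∀ x, A.bf ι x (rv k) (rv l) = s * p * A.bf ι x w w + s * (r - p) * A.bf ι x w w' +
      - (s * r) * A.bf ι x w' w' := by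
    intro x
    rw [hkw, hlw, hbil]
    ring
  have hbkk : ∀ x, A.Q ι (rv k) x = s ^ 2 * A.bf ι x w w + (-2 * s ^ 2) * A.bf ι x w w' +
      s ^ 2 * A.bf ι x w' w' := by
    intro x
    rw [← A.bf_self ι hc.smooth, hkw, hbil]
    ring
  -- equivariance of the bilinear form
  have hbB : ∀ (γ : Γ) (u v : Fin 2 → ℝ) (x : P),
      A.bf ι (γ • x) (((B γ).map (Int.cast : ℤ → ℝ)).mulVec u)
        (((B γ).map (Int.cast : ℤ → ℝ)).mulVec v) = A.bf ι x u v := by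
    intro γ u v x
    rw [A.bf_polar ι hc.smooth, A.bf_polar ι hc.smooth, ← Matrix.mulVec_add, hQB, hQB, hQB]
  have hsc : ∀ (x : P) (c1 c2 : ℝ) (u v : Fin 2 → ℝ), A.bf ι x (c1 • u) (c2 • v) =
      c1 * c2 * A.bf ι x u v := by
    intro x c1 c2 u v
    unfold bf
    simp only [Pi.smul_apply, smul_eq_mul]
    ring
  have step1 : ∀ x, A.bf ι (g • x) w w = lam⁻¹ ^ 2 * A.bf ι x w w ∧
      A.bf ι (g • x) w w' = A.bf ι x w w' ∧
      A.bf ι (g • x) w' w' = lam ^ 2 * A.bf ι x w' w' := by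
    intro x
    have h1 := hbB g w w x
    have h2 := hbB g w w' x
    have h3 := hbB g w' w' x
    rw [hAw, hsc] at h1
    rw [hAw, hAw', hsc, hll, one_mul] at h2
    rw [hAw', hsc] at h3
    refine ⟨?_, h2, ?_⟩
    · rw [← h1]
      have : lam⁻¹ * lam = 1 := by rw [mul_comm]; exact hll
      linear_combination (-(lam⁻¹ * lam + 1) * A.bf ι (g • x) w w) * this
    · rw [← h3]
      linear_combination (-(lam * lam⁻¹ + 1) * A.bf ι (g • x) w' w') * hll
  have step2 : ∀ x, A.bf ι (g⁻¹ • x) w w = lam ^ 2 * A.bf ι x w w ∧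
      A.bf ι (g⁻¹ • x) w w' = A.bf ι x w w' ∧
      A.bf ι (g⁻¹ • x) w' w' = lam⁻¹ ^ 2 * A.bf ι x w' w' := by
    intro x
    obtain ⟨h1, h2, h3⟩ := step1 (g⁻¹ • x)
    rw [smul_inv_smul] at h1 h2 h3
    refine ⟨?_, h2.symm, ?_⟩
    · rw [h1]
      linear_combination (-(lam * lam⁻¹ + 1) * A.bf ι (g⁻¹ • x) w w) * hll
    · rw [h3]
      linear_combination (-(lam * lam⁻¹ + 1) * A.bf ι (g⁻¹ • x) w' w') * hll
  obtain ⟨x₀⟩ := hne
  have iter1 : ∀ n : ℕ, A.bf ι (g ^ n • x₀) w w = lam⁻¹ ^ (2 * n) * A.bf ι x₀ w w ∧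
      A.bf ι (g ^ n • x₀) w w' = A.bf ι x₀ w w' ∧
      A.bf ι (g ^ n • x₀) w' w' = lam ^ (2 * n) * A.bf ι x₀ w' w' := by
    intro n
    induction n with
    | zero => simp
    | succ n ih =>
      obtain ⟨h1, h2, h3⟩ := ih
      obtain ⟨h4, h5, h6⟩ := step1 (g ^ n • x₀)
      rw [pow_succ', mul_smul, h4, h5, h6, h1, h2, h3]
      refine ⟨by ring, rfl, by ring⟩
  have iter2 : ∀ n : ℕ, A.bf ι (g⁻¹ ^ n • x₀) w w = lam ^ (2 * n) * A.bf ι x₀ w w ∧
      A.bf ι (g⁻¹ ^ n • x₀) w w' = A.bf ι x₀ w w' ∧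
      A.bf ι (g⁻¹ ^ n • x₀) w' w' = lam⁻¹ ^ (2 * n) * A.bf ι x₀ w' w' := by
    intro n
    induction n with
    | zero => simp
    | succ n ih =>
      obtain ⟨h1, h2, h3⟩ := ih
      obtain ⟨h4, h5, h6⟩ := step2 (g⁻¹ ^ n • x₀)
      rw [pow_succ', mul_smul, h4, h5, h6, h1, h2, h3]
      refine ⟨by ring, rfl, by ring⟩
  have hα : 0 < A.bf ι x₀ w w := by
    rw [A.bf_self ι hc.smooth]; exact A.Q_pos ι hc hR hwne x₀
  have hδ : 0 < A.bf ι x₀ w' w' := by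
    rw [A.bf_self ι hc.smooth]; exact A.Q_pos ι hc hR hwne' x₀
  -- not small
  have hnot : ∀ (W : Set P) (y : ℕ → P), (∀ᶠ n in Filter.atTop, y n ∈ W) →
      Filter.Tendsto (fun n => A.Q ι (rv k) (y n)) Filter.atTop Filter.atTop →
      ∀ S, SmallRel (A.ker Γ) S → ¬ W ⊆ S := by
    rintro W y hyW htend S ⟨S₀, hS₀, hS⟩ hWS
    have hcontQ : Continuous (fun x => A.Q ι (rv k) x) := by
      have e : (fun x => A.Q ι (rv k) x) = fun x => A.bf ι x (rv k) (rv k) := by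
        ext1 x; rw [A.bf_self ι hc.smooth]
      rw [e]
      exact A.continuous_bf ι hc.smooth _ _
    obtain ⟨M, hM⟩ := (hS₀.image hcontQ).bddAbove
    obtain ⟨n, hn1, hn2⟩ := (hyW.and (htend.eventually_gt_atTop M)).exists
    obtain ⟨κ, hκ, hκS⟩ := hS _ (hWS hn1)
    have h1 := hM (mem_image_of_mem _ hκS)
    rw [A.Q_ker hc 𝒟 hκ] at h1
    linarith
  -- the separating set
  set f : P → ℝ := fun x => A.bf ι x (rv k) (rv l) with hf
  have hfc : Continuous f := A.continuous_bf ι hc.smooth _ _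
  have hE : Rel.TwoEnds (SmallRel (A.ker Γ)) {x | f x = 0} {x | 0 < f x} {x | f x < 0} := by
    constructor
    · exact A.small_separating hc hR 𝒟 B hB z hc0 rfl
    · exact isOpen_lt continuous_const hfc
    · exact isOpen_lt hfc continuous_const
    · rw [Set.disjoint_left]
      intro x h1 h2
      exact lt_asymm (show 0 < f x from h1) (show f x < 0 from h2)
    · ext x
      simp only [mem_union, Set.mem_ofPred_eq, mem_compl_iff]
      constructor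
      · rintro (h | h)
        · exact h.ne'
        · exact h.ne
      · intro h
        exact (lt_or_gt_of_ne h).symm
    · refine hnot _ (fun n => g⁻¹ ^ n • x₀) ?_ ?_
      · have h1 := tendsto_aux (b := s * (r - p) * A.bf ι x₀ w w')
          (c := - (s * r) * A.bf ι x₀ w' w') hlam (mul_pos (mul_pos hs0 hp0) hα)
        filter_upwards [h1.eventually_gt_atTop 0] with n hn
        show 0 < A.bf ι (g⁻¹ ^ n • x₀) (rv k) (rv l)
        rw [hbkl, (iter2 n).1, (iter2 n).2.1, (iter2 n).2.2]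
        refine lt_of_lt_of_eq hn ?_
        ring
      · have h1 := tendsto_aux (b := (-2 * s ^ 2) * A.bf ι x₀ w w')
          (c := s ^ 2 * A.bf ι x₀ w' w') hlam (mul_pos (pow_pos hs0 2) hα)
        refine h1.congr fun n => ?_
        rw [hbkk, (iter2 n).1, (iter2 n).2.1, (iter2 n).2.2]
        ring
    · refine hnot _ (fun n => g ^ n • x₀) ?_ ?_
      · have h1 := tendsto_aux (b := -(s * (r - p)) * A.bf ι x₀ w w')
          (c := - (s * p) * A.bf ι x₀ w w) hlam (mul_pos (mul_pos hs0 hr0) hδ)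
        filter_upwards [h1.eventually_gt_atTop 0] with n hn
        show A.bf ι (g ^ n • x₀) (rv k) (rv l) < 0
        rw [hbkl, (iter1 n).1, (iter1 n).2.1, (iter1 n).2.2]
        have : -(s * p * (lam⁻¹ ^ (2 * n) * A.bf ι x₀ w w) + s * (r - p) * A.bf ι x₀ w w' +
            -(s * r) * (lam ^ (2 * n) * A.bf ι x₀ w' w')) > 0 := by
          refine lt_of_lt_of_eq hn ?_
          ring
        linarith
      · have h1 := tendsto_aux (b := (-2 * s ^ 2) * A.bf ι x₀ w w')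
          (c := s ^ 2 * A.bf ι x₀ w w) hlam (mul_pos (pow_pos hs0 2) hδ)
        refine h1.congr fun n => ?_
        rw [hbkk, (iter1 n).1, (iter1 n).2.1, (iter1 n).2.2]
        ring
  exact A.exists_crit_two_ends_rel hc hR 𝒟 hN hE (by norm_num)

end two

end TAct

end Pool.Agent.H826R2.Wein
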