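import Mathlib
import Pool.Agent.H826R2.Wein.Rank2
import Pool.Agent.H826R2.Wein.Bridge

/-! Periodic Reeb orbits for contact forms with a local `T^2`-symmetry, arbitrary monodromy. -/

open scoped Topology ContDiff Manifold
open Set Metric Bundle Pool.Agent.Helper186

noncomputable section

namespace Pool.Agent.H826R2.Wein

set_option linter.unusedSectionVars false

universe u

variable {E : Type u} [NormedAddCommGroup E] [NormedSpace ℝ E] [FiniteDimensional ℝ E]
  {M : Type*} [TopologicalSpace M] [ChartedSpace E M] [IsManifold 𝓘(ℝ, E) ∞ M]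
  {P : Type*} [TopologicalSpace P] [ChartedSpace E P] [IsManifold 𝓘(ℝ, E) ∞ P]

theorem exists_closed_orbit_rank_two [T2Space M] [CompactSpace M]
    {α : (x : M) → TangentSpace 𝓘(ℝ, E) x →L[ℝ] ℝ} (hα : IsContact α)
    {R : (x : M) → TangentSpace 𝓘(ℝ, E) x} (hR : IsReeb α R)
    [T2Space P] [SigmaCompactSpace P] [ConnectedSpace P]
    {Γ : Type*} [Group Γ] [MulAction Γ P] {q : P → M} (hq : RegCover (E := E) q Γ)
    (A : TAct (pullForm 𝓘(ℝ, E) 𝓘(ℝ, E) q α) 2)
    (hA : ∀ γ : Γ, ∃ B : Matrix (Fin 2) (Fin 2) ℤ, ∀ (θ : Fin 2 → ℝ) (x : P),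
      γ • A.act θ x = A.act ((B.map (Int.cast : ℤ → ℝ)).mulVec θ) (γ • x)) :
    ∃ (c : ℝ → M) (T : ℝ), 0 < T ∧ IsMIntegralCurve (I := 𝓘(ℝ, E)) c R ∧
      ∀ t, c (t + T) = c t := by
  have : LocallyPathConnectedSpace P := ChartedSpace.locallyPathConnectedSpace E P
  have : PathConnectedSpace P := pathConnectedSpace_iff_connectedSpace.2 inferInstance
  obtain ⟨n, ι, ⟨𝒟⟩⟩ := hq.exists_deck
  have hN : A.Norm Γ := ⟨hq.strict α, hA⟩
  have hcP := hq.isContact_pull hα
  have hRP := hq.isReeb_lift hα hR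
  apply hq.closed_proj
  obtain ⟨k, hk, x, hx⟩ := A.exists_crit_rank_two hcP hRP 𝒟 hN
  exact A.closed_of_crit hcP hRP hk hx

end Pool.Agent.H826R2.Wein

namespace Pool.Agent.H826R2.WStmt

set_option linter.unusedSectionVars false

universe u

variable {E : Type u} [NormedAddCommGroup E] [NormedSpace ℝ E] [FiniteDimensional ℝ E]
  {M : Type*} [TopologicalSpace M] [ChartedSpace E M] [IsManifold 𝓘(ℝ, E) ∞ M]
  {P : Type*} [TopologicalSpace P] [ChartedSpace E P] [IsManifold 𝓘(ℝ, E) ∞ P]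

theorem exists_periodic_rank_two [T2Space M] [CompactSpace M]
    (α : M → Cov E) (hα : IsContact α) (R : M → E) (hR : IsReeb α R)
    [T2Space P] [SigmaCompactSpace P] [ConnectedSpace P]
    {Γ : Type*} [Group Γ] [MulAction Γ P] (q : P → M) (hq : IsQuotientMap E q Γ)
    (A : TorusAction (pull (E := E) q α) 2) (hA : Normalises Γ A.act) :
    ∃ (c : ℝ → M) (T : ℝ), IsPeriodicOrbit R c T := by
  obtain ⟨c, T, h1, h2, h3⟩ := Wein.exists_closed_orbit_rank_two hα.toWein hR.toWein hq.toWein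
    A.toWein hA
  exact ⟨c, T, h1, h2, h3⟩

end Pool.Agent.H826R2.WStmt
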