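import Mathlib
import Pool.Agent.H826R2.Wein.HFlow

/-! Contact Hamiltonians spanning `su(2)` have periodic flows. -/

open scoped Topology ContDiff Manifold
open Set Metric Bundle Pool.Agent.Helper186

noncomputable section

namespace Pool.Agent.H826R2.Wein

set_option linter.unusedSectionVars false

lemma rotation {u v : ℝ → ℝ} (hu : ∀ t, HasDerivAt u (v t) t) (hv : ∀ t, HasDerivAt v (-u t) t)
    (t : ℝ) : u t = Real.cos t * u 0 + Real.sin t * v 0 ∧
      v t = Real.cos t * v 0 - Real.sin t * u 0 := by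
  have hA : ∀ t, HasDerivAt (fun t => Real.cos t * u t - Real.sin t * v t) 0 t := by
    intro t
    have := ((Real.hasDerivAt_cos t).mul (hu t)).sub ((Real.hasDerivAt_sin t).mul (hv t))
    refine this.congr_deriv ?_
    ring
  have hB : ∀ t, HasDerivAt (fun t => Real.sin t * u t + Real.cos t * v t) 0 t := by
    intro t
    have := ((Real.hasDerivAt_sin t).mul (hu t)).add ((Real.hasDerivAt_cos t).mul (hv t))
    refine this.congr_deriv ?_
    ring
  have h1 := is_const_of_deriv_eq_zero (fun s => (hA s).differentiableAt)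
    (fun s => (hA s).deriv) t 0
  have h2 := is_const_of_deriv_eq_zero (fun s => (hB s).differentiableAt)
    (fun s => (hB s).deriv) t 0
  simp only [Real.cos_zero, Real.sin_zero, one_mul, zero_mul, sub_zero, zero_add] at h1 h2
  have h3 := Real.sin_sq_add_cos_sq t
  constructor
  · rw [← h1, ← h2]
    linear_combination (-(u t)) * h3
  · rw [← h1, ← h2]
    linear_combination (-(v t)) * h3

universe u

variable {E : Type u} [NormedAddCommGroup E] [NormedSpace ℝ E] [FiniteDimensional ℝ E]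
  {P : Type*} [TopologicalSpace P] [ChartedSpace E P] [IsManifold 𝓘(ℝ, E) ∞ P] [T2Space P]
  {β : (x : P) → TangentSpace 𝓘(ℝ, E) x →L[ℝ] ℝ} {R : (x : P) → TangentSpace 𝓘(ℝ, E) x}

/-- An `su(2)`-triple of contact Hamiltonians. -/
structure Trip (c : CD β R) (h1 h2 h3 : P → ℝ) : Prop where
  r12 : ∀ x, c.br h1 h2 x = h3 x
  r23 : ∀ x, c.br h2 h3 x = h1 x
  r31 : ∀ x, c.br h3 h1 x = h2 x

variable {c : CD β R} {h1 h2 h3 : P → ℝ}

/-- **The flow is `4π`-periodic.** -/
theorem Trip.periodic (hT : Trip c h1 h2 h3) (F1 : HF c h1) (F2 : HF c h2)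
    (hs3 : ContMDiff 𝓘(ℝ, E) 𝓘(ℝ, ℝ) ∞ h3) (hf3 : ∀ x, dForm 𝓘(ℝ, E) h3 x (R x) = 0) (x : P) :
    F1.Fl x (4 * Real.pi) = x := by
  have a13 : ∀ x, c.br h1 h3 x = - h2 x := fun x => by
    rw [c.br_antisymm (F1.first x) (hf3 x), hT.r31]
  have a21 : ∀ x, c.br h2 h1 x = - h3 x := fun x => by
    rw [c.br_antisymm (F2.first x) (F1.first x), hT.r12]
  -- rotation of `h2, h3` by the first flow
  have e1 : ∀ x, h2 (F1.Fl x (2 * Real.pi)) = h2 x := by
    intro x
    have := (rotation (u := fun t => h2 (F1.Fl x t)) (v := fun t => h3 (F1.Fl x t))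
      (fun t => (F1.hasDerivAt_comp F2.smooth x t).congr_deriv (hT.r12 _))
      (fun t => (F1.hasDerivAt_comp hs3 x t).congr_deriv (a13 _)) (2 * Real.pi)).1
    simpa [F1.zero] using this
  -- rotation of `h3, h1` by the second flow
  have e2 : ∀ x, h1 (F2.Fl x Real.pi) = - h1 x := by
    intro x
    have := (rotation (u := fun t => h3 (F2.Fl x t)) (v := fun t => h1 (F2.Fl x t))
      (fun t => (F2.hasDerivAt_comp hs3 x t).congr_deriv (hT.r23 _))
      (fun t => (F2.hasDerivAt_comp F1.smooth x t).congr_deriv (a21 _)) Real.pi).2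
    simpa [F2.zero] using this
  have c1 : ∀ y, F1.Fl (F2.Fl y Real.pi) (2 * Real.pi) = F2.Fl (F1.Fl y (2 * Real.pi)) Real.pi :=
    fun y => F2.conj (F1.cto (2 * Real.pi)) F2 e1 y Real.pi
  have c2 : ∀ y, F2.Fl (F1.Fl y (2 * Real.pi)) Real.pi = F1.Fl (F2.Fl y Real.pi) (-(2 * Real.pi)) :=
    fun y => F1.conj (F2.cto Real.pi) F1.neg (fun x => by rw [e2]; ring) y (2 * Real.pi)
  have c3 : ∀ z, F1.Fl z (2 * Real.pi) = F1.Fl z (-(2 * Real.pi)) := by
    intro z
    have h := (c1 (F2.Fl z (-Real.pi))).trans (c2 (F2.Fl z (-Real.pi)))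
    rw [← F2.add, neg_add_cancel, F2.zero] at h
    exact h
  have h4 : F1.Fl x (4 * Real.pi) = F1.Fl (F1.Fl x (2 * Real.pi)) (2 * Real.pi) := by
    rw [← F1.add]; congr 1; ring
  rw [h4, c3 x, ← F1.add, neg_add_cancel, F1.zero]

/-- a critical point of a Hamiltonian with periodic flow gives a periodic Reeb orbit -/
theorem HF.closed_of_crit {f : P → ℝ} (F : HF c f) {T₀ : ℝ} (hT₀ : 0 < T₀)
    (hper : ∀ x, F.Fl x T₀ = x) {x : P} (hx : dForm 𝓘(ℝ, E) f x = 0) (hfx : f x ≠ 0) :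
    ∃ (γ : ℝ → P) (T : ℝ), 0 < T ∧ IsMIntegralCurve (I := 𝓘(ℝ, E)) γ R ∧
      ∀ t, γ (t + T) = γ t := by
  -- `f` is constant along its flow
  have hself : ∀ y, c.br f f y = 0 := by
    intro y
    have := c.br_antisymm (F.first y) (F.first y)
    linarith
  have hconst : ∀ y t, f (F.Fl y t) = f y := by
    intro y t
    have h1 := is_const_of_deriv_eq_zero (f := fun t => f (F.Fl y t))
      (fun s => (F.hasDerivAt_comp F.smooth y s).differentiableAt)
      (fun s => by rw [(F.hasDerivAt_comp F.smooth y s).deriv, hself]) t 0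
    simpa [F.zero] using h1
  have hcrit : ∀ t, dForm 𝓘(ℝ, E) f (F.Fl x t) = 0 := by
    intro t
    refine ContinuousLinearMap.ext fun w => ?_
    obtain ⟨v, rfl⟩ := (F.cto t).surjD x w
    have h1 := (F.cto t).dForm_push F.smooth (fun y => hconst y t) x v
    rw [h1, hx]
    rfl
  have hX : ∀ t, c.X f (F.Fl x t) = f x • R (F.Fl x t) := by
    intro t
    symm
    apply c.X_unique
    intro v
    have h1 : HB β (F.Fl x t) (f x • R (F.Fl x t)) v = f x * HB β (F.Fl x t) (R (F.Fl x t)) v := by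
      rw [map_smul]; rfl
    rw [h1, HB_apply, c.reeb.unit, c.reeb.kernel, hcrit t, hconst]
    show f x * (1 * β (F.Fl x t) v + 0) = f x * β (F.Fl x t) v - 0
    ring
  set a := f x with ha
  refine ⟨fun t => F.Fl x (t * a⁻¹), T₀ * |a|, mul_pos hT₀ (abs_pos.2 hfx), ?_, ?_⟩
  · intro t
    have h1 : HasMFDerivAt 𝓘(ℝ, ℝ) 𝓘(ℝ, ℝ) (fun t : ℝ => t * a⁻¹) t
        (a⁻¹ • (1 : ℝ →L[ℝ] ℝ)) := by
      have : HasFDerivAt (fun t : ℝ => t * a⁻¹) (a⁻¹ • (1 : ℝ →L[ℝ] ℝ)) t :=
        (hasFDerivAt_id t).mul_const a⁻¹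
      exact this.hasMFDerivAt
    have h2 := HasMFDerivAt.comp t (g := F.Fl x)
      (f := fun t : ℝ => t * a⁻¹) (F.int x (t * a⁻¹)) h1
    refine h2.congr_mfderiv ?_
    refine ContinuousLinearMap.ext fun (r : ℝ) => ?_
    have h3 := hX (t * a⁻¹)
    show (a⁻¹ • r) • c.X f (F.Fl x (t * a⁻¹)) = r • R (F.Fl x (t * a⁻¹))
    rw [h3, smul_smul]
    congr 1
    simp only [smul_eq_mul]
    field_simp
  · have hneg : ∀ y, F.Fl y (-T₀) = y := by
      intro y
      have h1 := hper (F.Fl y (-T₀))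
      rw [← F.add, neg_add_cancel, F.zero] at h1
      exact h1.symm
    intro t
    simp only
    rcases lt_or_gt_of_ne hfx with h0 | h0
    · have e : (t + T₀ * |a|) * a⁻¹ = t * a⁻¹ + (-T₀) := by
        rw [abs_of_neg h0]
        field_simp
      rw [e, F.add, hneg]
    · have e : (t + T₀ * |a|) * a⁻¹ = t * a⁻¹ + T₀ := by
        rw [abs_of_pos h0]
        field_simp
      rw [e, F.add, hper]

end Pool.Agent.H826R2.Wein
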