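import Mathlib
import Pool.Agent.H826R2.Wein.Su2
import Pool.Agent.H826R2.Wein.AlgTriple

/-! Finite-dimensional algebras of bounded strict contact Hamiltonians. -/

open scoped Topology ContDiff Manifold BoundedContinuousFunction
open Set Metric Bundle Pool.Agent.Helper186

noncomputable section

namespace Pool.Agent.H826R2.Wein

set_option linter.unusedSectionVars false

universe u

variable {E : Type u} [NormedAddCommGroup E] [NormedSpace ℝ E] [FiniteDimensional ℝ E]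
  {P : Type*} [TopologicalSpace P] [ChartedSpace E P] [IsManifold 𝓘(ℝ, E) ∞ P] [T2Space P]
  {β : (x : P) → TangentSpace 𝓘(ℝ, E) x →L[ℝ] ℝ} {R : (x : P) → TangentSpace 𝓘(ℝ, E) x}

/-- At a maximum the differential vanishes. -/
lemma dForm_eq_zero_of_isMax {f : P → ℝ} {x : P} (h : ∀ y, f y ≤ f x) :
    dForm 𝓘(ℝ, E) f x = 0 := by
  by_cases hd : MDifferentiableAt 𝓘(ℝ, E) 𝓘(ℝ, ℝ) f x
  · have h1 : IsLocalMax (writtenInExtChartAt 𝓘(ℝ, E) 𝓘(ℝ, ℝ) x f) (extChartAt 𝓘(ℝ, E) x x) := by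
      refine Filter.Eventually.of_forall fun y => ?_
      have e : writtenInExtChartAt 𝓘(ℝ, E) 𝓘(ℝ, ℝ) x f (extChartAt 𝓘(ℝ, E) x x) = f x := by
        simp [writtenInExtChartAt, chartAt_self_eq]
      show writtenInExtChartAt 𝓘(ℝ, E) 𝓘(ℝ, ℝ) x f y ≤ _
      rw [e]
      exact h _
    have h2 := h1.fderiv_eq_zero
    show mfderiv 𝓘(ℝ, E) 𝓘(ℝ, ℝ) f x = 0
    rw [hd.mfderiv]
    have e : range (𝓘(ℝ, E) : E → E) = univ := by simp
    rw [e, fderivWithin_univ, h2]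
    rfl
  · exact mfderiv_zero_of_not_mdifferentiableAt hd

/-- a cocompact group of strict contactomorphisms -/
structure CDeck (β : (x : P) → TangentSpace 𝓘(ℝ, E) x →L[ℝ] ℝ) (Γ : Type*) [Group Γ]
    [MulAction Γ P] where
  smooth : ∀ γ : Γ, ContMDiff 𝓘(ℝ, E) 𝓘(ℝ, E) ∞ (fun x : P => γ • x)
  strict : ∀ (γ : Γ) (x : P) (u : TangentSpace 𝓘(ℝ, E) x),
    β (γ • x) (mfderiv 𝓘(ℝ, E) 𝓘(ℝ, E) (fun x : P => γ • x) x u) = β x u
  D : Set P
  compact : IsCompact D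
  cover : ∀ x : P, ∃ γ : Γ, γ • x ∈ D

lemma CDeck.cto {Γ : Type*} [Group Γ] [MulAction Γ P] (𝒟 : CDeck β Γ) (γ : Γ) :
    Cto β (fun x : P => γ • x) (fun x => γ⁻¹ • x) :=
  ⟨𝒟.smooth γ, 𝒟.smooth γ⁻¹, fun x => smul_inv_smul γ x, fun x => inv_smul_smul γ x, 𝒟.strict γ⟩

/-- uniform existence time near a compact set for a uniformly bounded family of vector fields -/
lemma uniform_curves [SigmaCompactSpace P] {D : Set P} (hD : IsCompact D)
    (𝒲 : Set ((x : P) → TangentSpace 𝓘(ℝ, E) x))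
    (hs : ∀ W ∈ 𝒲, ContMDiff 𝓘(ℝ, E) 𝓘(ℝ, E).tangent ∞
      (fun x => (⟨x, W x⟩ : TangentBundle 𝓘(ℝ, E) P)))
    (hb : ∀ ψ : P → ℝ, ContMDiff 𝓘(ℝ, E) 𝓘(ℝ, ℝ) ∞ ψ → ∀ K : Set P, IsCompact K →
      ∃ L : ℝ, ∀ W ∈ 𝒲, ∀ x ∈ K, |dForm 𝓘(ℝ, E) ψ x (W x)| ≤ L) :
    ∃ ε > (0:ℝ), ∀ W ∈ 𝒲, ∀ y ∈ D,
      ∃ c : ℝ → P, c 0 = y ∧ IsMIntegralCurveOn (I := 𝓘(ℝ, E)) c W (Ioo (-ε) ε) := by
  obtain ⟨ψ, K', hψ, hK', -, hψ1, hψ0⟩ := exists_cutoff 𝓘(ℝ, E) hD isOpen_univ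
    (subset_univ D)
  obtain ⟨χ, K'', hχ, hK'', -, hχ1, hχ0⟩ := exists_cutoff 𝓘(ℝ, E) hK' isOpen_univ
    (subset_univ K')
  obtain ⟨L, hL0, hL⟩ : ∃ L : ℝ, 0 < L ∧ ∀ W ∈ 𝒲, ∀ x ∈ K', |dForm 𝓘(ℝ, E) ψ x (W x)| ≤ L := by
    obtain ⟨L, hL⟩ := hb ψ hψ K' hK'
    exact ⟨max L 1, by positivity, fun W hW x hx => (hL W hW x hx).trans (le_max_left _ _)⟩
  refine ⟨L⁻¹, by positivity, ?_⟩
  intro W hWm y hy
  have hW : ContMDiff 𝓘(ℝ, E) 𝓘(ℝ, E).tangent ∞
      (fun x => (⟨x, χ x • W x⟩ : TangentBundle 𝓘(ℝ, E) P)) := by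
    intro x
    exact contMDiffAt_smul_along (f := fun x : P => x) (hχ x) (hs W hWm x)
  obtain ⟨c, hc0, hc⟩ := complete_of_compact (W := fun x => χ x • W x) hW hK''
    (fun x hx => by rw [hχ0 x hx, zero_smul]) y
  have hχK : ∀ x ∈ K', χ x = 1 := fun x hx => hχ1.self_of_nhdsSet x hx
  have hder : ∀ t, HasDerivAt (fun s => ψ (c s))
      (dForm 𝓘(ℝ, E) ψ (c t) (χ (c t) • W (c t))) t := fun t =>
    hasDerivAt_along (W := fun x => χ x • W x) (hc t) hψ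
  have hbd : ∀ t, ‖dForm 𝓘(ℝ, E) ψ (c t) (χ (c t) • W (c t))‖ ≤ L := by
    intro t
    by_cases hx : c t ∈ K'
    · rw [hχK _ hx, one_smul, Real.norm_eq_abs]
      exact hL W hWm _ hx
    · have h1 : dForm 𝓘(ℝ, E) ψ (c t) = 0 := by
        apply dForm_eq_zero_of_eventually (a := 0)
        filter_upwards [hK'.isClosed.isOpen_compl.mem_nhds hx] with y hy
        exact hψ0 y hy
      rw [h1]
      show ‖(0:ℝ)‖ ≤ L
      rw [norm_zero]
      exact hL0.le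
  have hlip : ∀ t, |ψ (c t) - ψ (c 0)| ≤ L * |t| := by
    intro t
    have := convex_univ.norm_image_sub_le_of_norm_hasDerivWithin_le (s := univ) (x := (0:ℝ))
      (y := t) (fun s _ => (hder s).hasDerivWithinAt) (fun s _ => hbd s) (mem_univ _) (mem_univ _)
    simpa using this
  refine ⟨c, hc0, ?_⟩
  intro t ht
  have h1 : c t ∈ K' := by
    by_contra hx
    have h2 := hlip t
    rw [hψ0 _ hx, hc0, hψ1.self_of_nhdsSet y hy] at h2
    have h3 : |t| < L⁻¹ := abs_lt.2 ht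
    have h4 : L * |t| < 1 := by
      have := mul_lt_mul_of_pos_left h3 hL0
      rwa [mul_inv_cancel₀ hL0.ne'] at this
    rw [show |(0:ℝ) - 1| = 1 by norm_num] at h2
    linarith
  have h2 := hc t
  have h3 : χ (c t) • W (c t) = W (c t) := by rw [hχK _ h1, one_smul]
  beta_reduce at h2
  rw [h3] at h2
  exact h2.hasMFDerivWithinAt

variable {V : Type*} [NormedAddCommGroup V] [NormedSpace ℝ V]

/-- A space of bounded strict contact Hamiltonians closed under the bracket. -/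
structure SAlg (c : CD β R) (e : V →ₗᵢ[ℝ] (P →ᵇ ℝ)) : Prop where
  smooth : ∀ f, ContMDiff 𝓘(ℝ, E) 𝓘(ℝ, ℝ) ∞ (e f)
  first : ∀ f x, dForm 𝓘(ℝ, E) (e f) x (R x) = 0
  bracket : ∀ f g, ∃ b, ∀ x, e b x = c.br (e f) (e g) x

namespace SAlg

variable {c : CD β R} {e : V →ₗᵢ[ℝ] (P →ᵇ ℝ)} (S : SAlg c e)

lemma fn_add (f g : V) : (e (f + g) : P → ℝ) = fun x => e f x + e g x := by
  rw [map_add]; rfl

lemma fn_smul (a : ℝ) (f : V) : (e (a • f) : P → ℝ) = fun x => a * e f x := by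
  rw [map_smul]; rfl

/-- the generator as a linear function of the Hamiltonian -/
def XL (S : SAlg c e) (x : P) : V →ₗ[ℝ] E where
  toFun := fun f => c.X (e f) x
  map_add' := fun f g => by
    rw [fn_add]; exact c.X_add (S.smooth f) (S.smooth g) x
  map_smul' := fun a f => by
    rw [fn_smul]; exact c.X_smul a (S.smooth f) x

lemma XL_apply (x : P) (f : V) : S.XL x f = c.X (e f) x := rfl

variable (e) in
/-- evaluation -/
def evL (x : P) : V →ₗ[ℝ] ℝ where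
  toFun := fun f => e f x
  map_add' := fun f g => by rw [fn_add]
  map_smul' := fun a f => by rw [fn_smul]; rfl

variable [FiniteDimensional ℝ V]

variable (V) in
/-- basis of the space -/
def bas : Module.Basis (Fin (Module.finrank ℝ V)) ℝ V := Module.finBasis ℝ V

lemma expand {F : Type*} [AddCommGroup F] [Module ℝ F] (L : V →ₗ[ℝ] F) (f : V) :
    L f = ∑ i, (bas V).repr f i • L (bas V i) := by
  conv_lhs => rw [← (bas V).sum_repr f]
  rw [map_sum]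
  refine Finset.sum_congr rfl fun i _ => ?_
  rw [map_smul]

lemma continuous_repr (i : Fin (Module.finrank ℝ V)) :
    Continuous (fun f : V => (bas V).repr f i) :=
  ((bas V).coord i).continuous_of_finiteDimensional

include S in
/-- **Completeness.** -/
lemma exists_flow [SigmaCompactSpace P] {Γ : Type*} [Group Γ] [MulAction Γ P] (𝒟 : CDeck β Γ)
    (hΓ : ∀ (γ : Γ) (f : V), ∃ f' : V, ∀ x, e f' x = e f (γ • x)) (f : V) :
    Nonempty (HF c (e f)) := by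
  have : IsManifold 𝓘(ℝ, E) 1 P := IsManifold.of_le (n := ∞) (by simp)
  obtain ⟨ε, hε, h⟩ := uniform_curves 𝒟.compact
    ((fun u : V => fun x => c.X (e u) x) '' closedBall (0 : V) ‖f‖) (by
      rintro _ ⟨u, -, rfl⟩
      exact c.smooth_X (S.smooth u)) (by
      intro ψ hψ K hK
      have hcont : Continuous (fun p : V × P => dForm 𝓘(ℝ, E) ψ p.2 (c.X (e p.1) p.2)) := by
        have e1 : (fun p : V × P => dForm 𝓘(ℝ, E) ψ p.2 (c.X (e p.1) p.2)) =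
            fun p : V × P => ∑ i, (bas V).repr p.1 i *
              dForm 𝓘(ℝ, E) ψ p.2 (c.X (e (bas V i)) p.2) := by
          ext1 p
          have h1 : c.X (e p.1) p.2 = ∑ i, (bas V).repr p.1 i • S.XL p.2 (bas V i) :=
            expand (S.XL p.2) p.1
          rw [h1]
          have h2 : dForm 𝓘(ℝ, E) ψ p.2 (∑ i, (bas V).repr p.1 i • S.XL p.2 (bas V i) : E) =
              ∑ i, dForm 𝓘(ℝ, E) ψ p.2 ((bas V).repr p.1 i • S.XL p.2 (bas V i) : E) :=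
            map_sum (dForm 𝓘(ℝ, E) ψ p.2) _ _
          refine h2.trans (Finset.sum_congr rfl fun i _ => ?_)
          exact map_smul (dForm 𝓘(ℝ, E) ψ p.2) _ _
        rw [e1]
        refine continuous_finsetSum _ fun i _ => ?_
        have h3 : Continuous (fun x : P => dForm 𝓘(ℝ, E) ψ x (c.X (e (bas V i)) x)) := by
          have : ContMDiff 𝓘(ℝ, E) 𝓘(ℝ, ℝ) ∞
              (fun x => dForm 𝓘(ℝ, E) ψ x (c.X (e (bas V i)) x)) := fun x =>
            (smoothForm_dForm hψ).comp (c.smooth_X (S.smooth (bas V i)) x) le_rfl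
          exact this.continuous
        exact ((continuous_repr i).comp continuous_fst).mul (h3.comp continuous_snd)
      have : ProperSpace V := FiniteDimensional.proper ℝ V
      obtain ⟨L, hL⟩ := (((isCompact_closedBall (0:V) ‖f‖).prod hK).image hcont.abs).bddAbove
      refine ⟨L, ?_⟩
      rintro _ ⟨u, hu, rfl⟩ x hx
      exact hL ⟨(u, x), ⟨hu, hx⟩, rfl⟩)
  have hcomp : ∀ x, ∃ γ : ℝ → P, γ 0 = x ∧ IsMIntegralCurve (I := 𝓘(ℝ, E)) γ (c.X (e f)) := by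
    intro x
    refine exists_isMIntegralCurve_of_isMIntegralCurveOn
      ((c.smooth_X (S.smooth f)).of_le (by simp)) hε ?_ x
    intro y
    obtain ⟨γ, hγ⟩ := 𝒟.cover y
    obtain ⟨f', hff⟩ := hΓ γ⁻¹ f
    have hn : ‖f'‖ ≤ ‖f‖ := by
      rw [← e.norm_map, ← e.norm_map, BoundedContinuousFunction.norm_le (norm_nonneg _)]
      intro x
      rw [hff]
      exact (e f).norm_coe_le_norm _
    obtain ⟨r, hr0, hr⟩ := h _ ⟨f', mem_closedBall_zero_iff.2 hn, rfl⟩ _ hγ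
    refine ⟨fun t => γ⁻¹ • r t, by simp [hr0], ?_⟩
    intro t ht
    have h1 : HasMFDerivAt 𝓘(ℝ, ℝ) 𝓘(ℝ, E) r t
      ((1 : ℝ →L[ℝ] ℝ).smulRight (c.X (e f') (r t))) :=
      (hr t ht).hasMFDerivAt (isOpen_Ioo.mem_nhds ht)
    have h2 := HasMFDerivAt.comp t (g := fun z : P => γ⁻¹ • z) (f := r)
      ((𝒟.smooth γ⁻¹).mdifferentiableAt (by simp)).hasMFDerivAt h1
    have h3 := (𝒟.cto γ⁻¹).push_X c (S.smooth f) (h := e f') (fun z => (hff z).symm) (r t)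
    refine (h2.congr_mfderiv ?_).hasMFDerivWithinAt
    refine ContinuousLinearMap.ext fun (a : ℝ) => ?_
    show (mfderiv 𝓘(ℝ, E) 𝓘(ℝ, E) (fun z : P => γ⁻¹ • z) (r t)) ((a • c.X (e f') (r t) : E)) =
      a • c.X (e f) (γ⁻¹ • r t)
    have h4 : (mfderiv 𝓘(ℝ, E) 𝓘(ℝ, E) (fun z : P => γ⁻¹ • z) (r t))
      ((a • c.X (e f') (r t) : E)) =
      (a • (mfderiv 𝓘(ℝ, E) 𝓘(ℝ, E) (fun z : P => γ⁻¹ • z) (r t) (c.X (e f') (r t)) : E) : E) :=
      map_smul (mfderiv 𝓘(ℝ, E) 𝓘(ℝ, E) (fun z : P => γ⁻¹ • z) (r t)) _ _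
    rw [h4]
    exact congrArg (fun w : E => a • w) h3
  choose Fl h0 hFl using hcomp
  exact ⟨⟨Fl, h0, hFl, S.smooth f, S.first f⟩⟩

end SAlg

end Pool.Agent.H826R2.Wein
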