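import Mathlib
import Pool.Agent.H826R2.Wein.SymAlg

/-! Non-abelian algebras of bounded first integrals produce closed Reeb orbits. -/

open scoped Topology ContDiff Manifold BoundedContinuousFunction
open Set Metric Bundle Pool.Agent.Helper186

noncomputable section

namespace Pool.Agent.H826R2.Wein

set_option linter.unusedSectionVars false

universe u

variable {E : Type u} [NormedAddCommGroup E] [NormedSpace ℝ E] [FiniteDimensional ℝ E]
  {P : Type*} [TopologicalSpace P] [ChartedSpace E P] [IsManifold 𝓘(ℝ, E) ∞ P] [T2Space P]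
  {β : (x : P) → TangentSpace 𝓘(ℝ, E) x →L[ℝ] ℝ} {R : (x : P) → TangentSpace 𝓘(ℝ, E) x}
  {V : Type*} [NormedAddCommGroup V] [NormedSpace ℝ V]

namespace SAlg

variable {c : CD β R} {e : V →ₗᵢ[ℝ] (P →ᵇ ℝ)} (S : SAlg c e)

lemma e_inj {f g : V} (h : ∀ x, e f x = e g x) : f = g :=
  e.injective (BoundedContinuousFunction.ext h)

lemma e_add_apply (f g : V) (x : P) : e (f + g) x = e f x + e g x := (evL e x).map_add f g

lemma e_smul_apply (a : ℝ) (f : V) (x : P) : e (a • f) x = a * e f x := (evL e x).map_smul a f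

/-- the bracket on `V` -/
def bV (S : SAlg c e) : V →ₗ[ℝ] V →ₗ[ℝ] V :=
  LinearMap.mk₂ ℝ (fun f g => Classical.choose (S.bracket f g))
    (by
      intro f f' g
      apply e_inj (e := e)
      intro x
      rw [e_add_apply, Classical.choose_spec (S.bracket (f + f') g),
        Classical.choose_spec (S.bracket f g), Classical.choose_spec (S.bracket f' g)]
      unfold CD.br
      rw [fn_add, c.X_add (S.smooth f) (S.smooth f'), map_add])
    (by
      intro a f g
      apply e_inj (e := e)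
      intro x
      rw [e_smul_apply, Classical.choose_spec (S.bracket (a • f) g),
        Classical.choose_spec (S.bracket f g)]
      unfold CD.br
      rw [fn_smul, c.X_smul a (S.smooth f), map_smul]
      rfl)
    (by
      intro f g g'
      apply e_inj (e := e)
      intro x
      rw [e_add_apply, Classical.choose_spec (S.bracket f (g + g')),
        Classical.choose_spec (S.bracket f g), Classical.choose_spec (S.bracket f g')]
      unfold CD.br
      rw [fn_add, CD.dForm_add (S.smooth g) (S.smooth g')])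
    (by
      intro a f g
      apply e_inj (e := e)
      intro x
      rw [e_smul_apply, Classical.choose_spec (S.bracket f (a • g)),
        Classical.choose_spec (S.bracket f g)]
      unfold CD.br
      rw [fn_smul, CD.dForm_smul a (S.smooth g)])

lemma bV_apply (f g : V) (x : P) : e (S.bV f g) x = c.br (e f) (e g) x :=
  Classical.choose_spec (S.bracket f g) x

lemma bV_alt (f g : V) : S.bV f g = - S.bV g f := by
  apply e_inj (e := e)
  intro x
  have h1 : e (- S.bV g f) x = - e (S.bV g f) x := by rw [map_neg]; rfl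
  rw [h1, S.bV_apply, S.bV_apply]
  exact c.br_antisymm (S.first f x) (S.first g x)

variable [FiniteDimensional ℝ V]

/-- The flow acts on `V` through the exponential of the adjoint map. -/
lemma exp_apply (f : V) (F : HF c (e f)) (t : ℝ) (u : V) (x : P) :
    e (NormedSpace.exp (t • adL S.bV f) u) x = e u (F.Fl x t) := by
  set D := adL S.bV f with hD
  -- the auxiliary curve
  set w : ℝ → V := fun s => NormedSpace.exp ((t - s) • D) u with hw
  have hwd : ∀ s, HasDerivAt w (-(D (w s))) s := by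
    intro s
    have h1 := (hasDerivAt_exp_smul_const' (𝕂 := ℝ) D (t - s))
    have h2 : HasDerivAt (fun s : ℝ => t - s) (-1) s := by
      simpa using (hasDerivAt_id s).const_sub t
    have h3 := h1.scomp s h2
    have h4 := h3.clm_apply (hasDerivAt_const s u)
    refine h4.congr_deriv ?_
    simp only [hw, map_zero, add_zero]
    rw [neg_one_smul]
    rfl
  have hg : ∀ s, HasDerivAt (fun s => e (w s) (F.Fl x s)) 0 s := by
    intro s
    have e1 : (fun s => e (w s) (F.Fl x s)) =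
        fun s => ∑ i, (bas V).repr (w s) i * e (bas V i) (F.Fl x s) := by
      ext1 s
      exact expand (evL e (F.Fl x s)) (w s)
    rw [e1]
    have hc : ∀ i, HasDerivAt (fun s => (bas V).repr (w s) i) (-(bas V).repr (D (w s)) i) s := by
      intro i
      let L : V →L[ℝ] ℝ := LinearMap.toContinuousLinearMap ((bas V).coord i)
      have h1 := L.hasFDerivAt.comp_hasDerivAt s (hwd s)
      refine h1.congr_deriv ?_
      rw [map_neg]
      rfl
    have h2 : HasDerivAt (fun s => ∑ i, (bas V).repr (w s) i * e (bas V i) (F.Fl x s))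
        (∑ i, (-(bas V).repr (D (w s)) i * e (bas V i) (F.Fl x s) +
          (bas V).repr (w s) i * c.br (e f) (e (bas V i)) (F.Fl x s))) s := by
      refine HasDerivAt.fun_sum fun i _ => ?_
      exact (hc i).mul (F.hasDerivAt_comp (S.smooth (bas V i)) x s)
    refine h2.congr_deriv ?_
    rw [Finset.sum_add_distrib]
    have h3 : ∑ i, -(bas V).repr (D (w s)) i * e (bas V i) (F.Fl x s) =
        - e (D (w s)) (F.Fl x s) := by
      have := expand (evL e (F.Fl x s)) (D (w s))
      have h4 : e (D (w s)) (F.Fl x s) = ∑ i, (bas V).repr (D (w s)) i * e (bas V i) (F.Fl x s) :=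
        this
      rw [h4, ← Finset.sum_neg_distrib]
      refine Finset.sum_congr rfl fun i _ => ?_
      ring
    have h5 : ∑ i, (bas V).repr (w s) i * c.br (e f) (e (bas V i)) (F.Fl x s) =
        e (D (w s)) (F.Fl x s) := by
      have := expand ((evL e (F.Fl x s)).comp (S.bV f)) (w s)
      have h6 : e (D (w s)) (F.Fl x s) =
        ∑ i, (bas V).repr (w s) i * e (S.bV f (bas V i)) (F.Fl x s) := this
      rw [h6]
      refine Finset.sum_congr rfl fun i _ => ?_
      rw [S.bV_apply]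
    rw [h3, h5]
    ring
  have h := is_const_of_deriv_eq_zero (fun s => (hg s).differentiableAt)
    (fun s => (hg s).deriv) 0 t
  simp only [hw, sub_zero, F.zero, sub_self, zero_smul, NormedSpace.exp_zero] at h
  exact h

lemma exp_norm (f : V) (F : HF c (e f)) (t : ℝ) (u : V) :
    ‖NormedSpace.exp (t • adL S.bV f) u‖ = ‖u‖ := by
  rw [← e.norm_map, ← e.norm_map]
  apply le_antisymm
  · rw [BoundedContinuousFunction.norm_le (norm_nonneg _)]
    intro x
    rw [S.exp_apply f F]
    exact (e u).norm_coe_le_norm _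
  · rw [BoundedContinuousFunction.norm_le (norm_nonneg _)]
    intro x
    have h := S.exp_apply f F t u (F.Fl x (-t))
    rw [← F.add, neg_add_cancel, F.zero] at h
    rw [← h]
    exact (e (NormedSpace.exp (t • adL S.bV f) u)).norm_coe_le_norm _

/-- the compact family of triples -/
def trip (S : SAlg c e) (r : ℝ) : Set (V × V × V) :=
  {p | S.bV p.1 p.2.1 = p.2.2 ∧ S.bV p.2.1 p.2.2 = p.1 ∧
    S.bV p.2.2 p.1 = p.2.1 ∧ ‖p.1‖ ≤ r ∧ ‖p.2.1‖ ≤ r ∧ ‖p.2.2‖ ≤ r}

lemma compact_trip (r : ℝ) : IsCompact (S.trip r) := by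
  have hpV : ProperSpace V := FiniteDimensional.proper ℝ V
  have hbcont : Continuous (fun p : V × V => S.bV p.1 p.2) := by
    let bc : V →L[ℝ] V →L[ℝ] V := LinearMap.toContinuousLinearMap
      ((LinearMap.toContinuousLinearMap (𝕜 := ℝ) (E := V) (F' := V)).toLinearMap ∘ₗ S.bV)
    have h2 : Continuous (fun p : V × V => bc p.1 p.2) :=
      (bc.continuous.comp continuous_fst).clm_apply continuous_snd
    exact h2
  have c1 : Continuous (fun p : V × V × V => p.1) := continuous_fst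
  have c2 : Continuous (fun p : V × V × V => p.2.1) := continuous_fst.comp continuous_snd
  have c3 : Continuous (fun p : V × V × V => p.2.2) := continuous_snd.comp continuous_snd
  apply Metric.isCompact_of_isClosed_isBounded
  · refine (isClosed_eq (hbcont.comp (c1.prodMk c2)) c3).inter
      ((isClosed_eq (hbcont.comp (c2.prodMk c3)) c1).inter
      ((isClosed_eq (hbcont.comp (c3.prodMk c1)) c2).inter
      ((isClosed_le c1.norm continuous_const).inter
      ((isClosed_le c2.norm continuous_const).inter (isClosed_le c3.norm continuous_const)))))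
  · refine ((isBounded_closedBall (x := (0:V)) (r := r)).prod
      ((isBounded_closedBall (x := (0:V)) (r := r)).prod
      (isBounded_closedBall (x := (0:V)) (r := r)))).subset ?_
    rintro p ⟨-, -, -, a, b, d⟩
    exact ⟨mem_closedBall_zero_iff.2 a, mem_closedBall_zero_iff.2 b,
      mem_closedBall_zero_iff.2 d⟩

lemma trip_equiv {Γ : Type*} [Group Γ] [MulAction Γ P]
    (𝒟 : CDeck β Γ)
    (hΓ : ∀ (γ : Γ) (f : V), ∃ f' : V, ∀ x, e f' x = e f (γ • x)) (r : ℝ) {h f g : V}
    (hp : (h, f, g) ∈ S.trip r) (γ : Γ) :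
    ∃ h' f' g' : V, (h', f', g') ∈ S.trip r ∧ ∀ x, e h' x = e h (γ • x) := by
  obtain ⟨s1, s2, s3, s4, s5, s6⟩ := hp
  simp only at s1 s2 s3 s4 s5 s6
  obtain ⟨h', hh'⟩ := hΓ γ h
  obtain ⟨f', hf'⟩ := hΓ γ f
  obtain ⟨g', hg'⟩ := hΓ γ g
  have hnat : ∀ a a' b b' d d' : V, (∀ x, e a' x = e a (γ • x)) →
      (∀ x, e b' x = e b (γ • x)) → (∀ x, e d' x = e d (γ • x)) → S.bV a b = d →
      S.bV a' b' = d' := by
    intro a a' b b' d d' ha hb hd hab
    apply e_inj (e := e)
    intro x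
    rw [hd, ← hab, S.bV_apply, S.bV_apply]
    exact ((𝒟.cto γ).br_push c (S.smooth b) (fun z => (hb z).symm) (S.smooth a)
      (fun z => (ha z).symm) x).symm
  have hnn : ∀ a a' : V, (∀ x, e a' x = e a (γ • x)) → ‖a'‖ ≤ ‖a‖ := by
    intro a a' ha
    rw [← e.norm_map, ← e.norm_map, BoundedContinuousFunction.norm_le (norm_nonneg _)]
    intro x
    rw [ha]
    exact (e a).norm_coe_le_norm _
  exact ⟨h', f', g', ⟨hnat _ _ _ _ _ _ hh' hf' hg' s1, hnat _ _ _ _ _ _ hf' hg' hh' s2,
      hnat _ _ _ _ _ _ hg' hh' hf' s3, (hnn _ _ hh').trans s4, (hnn _ _ hf').trans s5,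
      (hnn _ _ hg').trans s6⟩, hh'⟩

/-- A maximum over triples and points. -/
lemma exists_max {Γ : Type*} [Group Γ] [MulAction Γ P]
    (𝒟 : CDeck β Γ)
    (hΓ : ∀ (γ : Γ) (f : V), ∃ f' : V, ∀ x, e f' x = e f (γ • x))
    {h₀ f₀ g₀ : V} (hh₀ : h₀ ≠ 0) (r1 : S.bV h₀ f₀ = g₀) (r2 : S.bV f₀ g₀ = h₀)
    (r3 : S.bV g₀ h₀ = f₀) :
    ∃ (h f g : V) (x : P), S.bV h f = g ∧ S.bV f g = h ∧ S.bV g h = f ∧ 0 < e h x ∧
      ∀ y, e h y ≤ e h x := by
  set r := max ‖h₀‖ (max ‖f₀‖ ‖g₀‖) with hr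
  have n1 : ‖h₀‖ ≤ r := le_max_left _ _
  have n2 : ‖f₀‖ ≤ r := (le_max_left _ _).trans (le_max_right _ _)
  have n3 : ‖g₀‖ ≤ r := (le_max_right _ _).trans (le_max_right _ _)
  clear_value r
  have hmem : ((h₀, f₀, g₀) : V × V × V) ∈ S.trip r := ⟨r1, r2, r3, n1, n2, n3⟩
  have hmem' : ((-h₀, f₀, -g₀) : V × V × V) ∈ S.trip r := by
    refine ⟨?_, ?_, ?_, ?_, n2, ?_⟩
    · show S.bV (-h₀) f₀ = -g₀
      rw [map_neg, LinearMap.neg_apply, r1]
    · show S.bV f₀ (-g₀) = -h₀
      rw [map_neg, r2]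
    · show S.bV (-g₀) (-h₀) = f₀
      have e1 : S.bV (-g₀) (-h₀) = S.bV g₀ h₀ := by
        rw [LinearMap.map_neg (S.bV (-g₀)) h₀, LinearMap.map_neg S.bV g₀, LinearMap.neg_apply,
          neg_neg]
      rw [e1, r3]
    · show ‖-h₀‖ ≤ r
      rw [norm_neg]; exact n1
    · show ‖-g₀‖ ≤ r
      rw [norm_neg]; exact n3
  -- a point where `h₀` does not vanish
  obtain ⟨y₀, hy₀⟩ : ∃ y, e h₀ y ≠ 0 := by
    by_contra hcon
    push Not at hcon
    apply hh₀
    apply e_inj (e := e)
    intro x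
    rw [hcon, map_zero]
    rfl
  obtain ⟨γ₀, hγ₀⟩ := 𝒟.cover y₀
  have hcont : Continuous (fun p : (V × V × V) × P => e p.1.1 p.2) := by
    have h1 : Continuous (fun q : (P →ᵇ ℝ) × P => q.1 q.2) := by fun_prop
    exact h1.comp ((e.continuous.comp (continuous_fst.comp continuous_fst)).prodMk continuous_snd)
  obtain ⟨p, hp, hmax⟩ := ((S.compact_trip r).prod 𝒟.compact).exists_isMaxOn
    ⟨((h₀, f₀, g₀), γ₀ • y₀), hmem, hγ₀⟩ hcont.continuousOn
  obtain ⟨⟨h1, f1, g1⟩, x1⟩ := p
  obtain ⟨htr, hx1⟩ := hp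
  have htr' : (h1, f1, g1) ∈ S.trip r := htr
  have hall : ∀ h f g : V, (h, f, g) ∈ S.trip r → ∀ y, e h y ≤ e h1 x1 := by
    intro h f g hp y
    obtain ⟨γ, hγ⟩ := 𝒟.cover y
    obtain ⟨h', f', g', hmem2, hh'⟩ := S.trip_equiv 𝒟 hΓ r hp γ⁻¹
    have h2 := hmax (a := ((h', f', g'), γ • y)) ⟨hmem2, hγ⟩
    have h3 : e h' (γ • y) ≤ e h1 x1 := h2
    rw [hh', inv_smul_smul] at h3
    exact h3
  obtain ⟨t1, t2, t3, -⟩ := id htr'
  refine ⟨h1, f1, g1, x1, t1, t2, t3, ?_, hall _ _ _ htr'⟩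
  rcases lt_or_gt_of_ne hy₀ with hlt | hlt
  · have h2 := hall _ _ _ hmem' y₀
    have h3 : e (-h₀) y₀ = - e h₀ y₀ := by rw [map_neg]; rfl
    linarith
  · exact hlt.trans_le (hall _ _ _ hmem y₀)

include S in
/-- **Closed orbits from non-abelian algebras of first integrals.** -/
theorem exists_closed [SigmaCompactSpace P] {Γ : Type*} [Group Γ] [MulAction Γ P]
    (𝒟 : CDeck β Γ)
    (hΓ : ∀ (γ : Γ) (f : V), ∃ f' : V, ∀ x, e f' x = e f (γ • x))
    (hne : ∃ (f g : V) (x : P), c.br (e f) (e g) x ≠ 0) :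
    ∃ (γ : ℝ → P) (T : ℝ), 0 < T ∧ IsMIntegralCurve (I := 𝓘(ℝ, E)) γ R ∧
      ∀ t, γ (t + T) = γ t := by
  have hflow := fun f => S.exists_flow 𝒟 hΓ f
  obtain ⟨h₀, f₀, g₀, hh₀, r1, r2, r3⟩ := exists_triple S.bV S.bV_alt
    (fun f t v => by
      obtain ⟨F⟩ := hflow f
      exact S.exp_norm f F t v)
    (by
      obtain ⟨f, g, x, hx⟩ := hne
      refine ⟨f, g, fun h => hx ?_⟩
      rw [← S.bV_apply, h, map_zero]
      rfl)
  obtain ⟨h1, f1, g1, x1, t1, t2, t3, hpos, hall⟩ := S.exists_max 𝒟 hΓ hh₀ r1 r2 r3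
  obtain ⟨F1⟩ := hflow h1
  obtain ⟨F2⟩ := hflow f1
  have hT : Trip c (e h1) (e f1) (e g1) := by
    refine ⟨fun x => ?_, fun x => ?_, fun x => ?_⟩
    · rw [← S.bV_apply, t1]
    · rw [← S.bV_apply, t2]
    · rw [← S.bV_apply, t3]
  have hper := fun x => hT.periodic F1 F2 (S.smooth g1) (S.first g1) x
  exact F1.closed_of_crit (by positivity : 0 < 4 * Real.pi) hper (x := x1)
    (dForm_eq_zero_of_isMax hall) hpos.ne'

end SAlg

end Pool.Agent.H826R2.Wein
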