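import Mathlib
import Pool.Agent.H826R2.Wein.SymTop
import Pool.Agent.H826R2.Wein.Bridge

/-! Periodic Reeb orbits for contact forms with a non-abelian local algebra of symmetries. -/

open scoped Topology ContDiff Manifold BoundedContinuousFunction
open Set Metric Bundle Pool.Agent.Helper186

noncomputable section

namespace Pool.Agent.H826R2.Wein

set_option linter.unusedSectionVars false

universe u

variable {E : Type u} [NormedAddCommGroup E] [NormedSpace ℝ E] [FiniteDimensional ℝ E]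
  {M : Type*} [TopologicalSpace M] [ChartedSpace E M] [IsManifold 𝓘(ℝ, E) ∞ M]
  {P : Type*} [TopologicalSpace P] [ChartedSpace E P] [IsManifold 𝓘(ℝ, E) ∞ P]

/-- the deck group of a regular covering of a compact manifold -/
theorem RegCover.nonempty_cdeck [CompactSpace M]
    {α : (x : M) → TangentSpace 𝓘(ℝ, E) x →L[ℝ] ℝ}
    {Γ : Type*} [Group Γ] [MulAction Γ P] {q : P → M} (hq : RegCover (E := E) q Γ) :
    Nonempty (CDeck (pullForm 𝓘(ℝ, E) 𝓘(ℝ, E) q α) Γ) := by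
  obtain ⟨D, hD, hc⟩ := hq.exists_domain
  exact ⟨⟨hq.smooth, hq.strict α, D, hD, hc⟩⟩

/-- A concrete spanning family. -/
structure SFam {β : (x : P) → TangentSpace 𝓘(ℝ, E) x →L[ℝ] ℝ}
    {R : (x : P) → TangentSpace 𝓘(ℝ, E) x} (c : CD β R) (Γ : Type*) [Group Γ] [MulAction Γ P]
    {m : ℕ} (f : Fin m → (P →ᵇ ℝ)) : Prop where
  smooth : ∀ i, ContMDiff 𝓘(ℝ, E) 𝓘(ℝ, ℝ) ∞ (f i)
  first : ∀ i x, dForm 𝓘(ℝ, E) (f i) x (R x) = 0
  bracket : ∀ i j, ∃ a : Fin m → ℝ, ∀ x, c.br (f i) (f j) x = ∑ k, a k * f k x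
  inv : ∀ (γ : Γ) i, ∃ a : Fin m → ℝ, ∀ x, f i (γ • x) = ∑ k, a k * f k x

section

variable {β : (x : P) → TangentSpace 𝓘(ℝ, E) x →L[ℝ] ℝ}
    {R : (x : P) → TangentSpace 𝓘(ℝ, E) x} {c : CD β R} {Γ : Type*} [Group Γ] [MulAction Γ P]
    {m : ℕ} {f : Fin m → (P →ᵇ ℝ)}

/-- the span -/
def Vsp (f : Fin m → (P →ᵇ ℝ)) : Submodule ℝ (P →ᵇ ℝ) := Submodule.span ℝ (range f)

lemma mem_Vsp (i : Fin m) : f i ∈ Vsp f := Submodule.subset_span ⟨i, rfl⟩

lemma sum_mem_Vsp (a : Fin m → ℝ) : (∑ k, a k • f k) ∈ Vsp f :=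
  Submodule.sum_mem _ fun k _ => Submodule.smul_mem _ _ (mem_Vsp k)

lemma sum_apply (a : Fin m → ℝ) (x : P) : (∑ k, a k • f k) x = ∑ k, a k * f k x := by
  rw [BoundedContinuousFunction.coe_sum, Finset.sum_apply]
  rfl

lemma coe_add' (g h : P →ᵇ ℝ) : ((g + h : P →ᵇ ℝ) : P → ℝ) = fun x => g x + h x := rfl

lemma coe_smul' (a : ℝ) (g : P →ᵇ ℝ) : ((a • g : P →ᵇ ℝ) : P → ℝ) = fun x => a * g x := rfl

lemma SFam.smooth_first (S : SFam c Γ f) {g : P →ᵇ ℝ} (hg : g ∈ Vsp f) :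
    ContMDiff 𝓘(ℝ, E) 𝓘(ℝ, ℝ) ∞ g ∧ ∀ x, dForm 𝓘(ℝ, E) g x (R x) = 0 := by
  induction hg using Submodule.span_induction with
  | mem g hg =>
    obtain ⟨i, rfl⟩ := hg
    exact ⟨S.smooth i, S.first i⟩
  | zero =>
    have e : ((0 : P →ᵇ ℝ) : P → ℝ) = fun _ => (0:ℝ) := rfl
    rw [e]
    refine ⟨contMDiff_const, fun x => ?_⟩
    have h1 : dForm 𝓘(ℝ, E) (fun _ : P => (0:ℝ)) x = 0 :=
      dForm_eq_zero_of_eventually (a := 0) (Filter.Eventually.of_forall fun _ => rfl)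
    rw [h1]; rfl
  | add g h _ _ hg hh =>
    rw [coe_add']
    refine ⟨hg.1.add hh.1, fun x => ?_⟩
    rw [CD.dForm_add hg.1 hh.1, hg.2, hh.2, add_zero]
  | smul a g _ hg =>
    rw [coe_smul']
    refine ⟨contMDiff_const.mul hg.1, fun x => ?_⟩
    rw [CD.dForm_smul a hg.1, hg.2, mul_zero]

lemma SFam.br_mem (S : SFam c Γ f) {g h : P →ᵇ ℝ} (hg : g ∈ Vsp f) (hh : h ∈ Vsp f) :
    ∃ b ∈ Vsp f, ∀ x, b x = c.br g h x := by
  induction hg using Submodule.span_induction with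
  | mem g hg =>
    obtain ⟨i, rfl⟩ := hg
    induction hh using Submodule.span_induction with
    | mem h hh =>
      obtain ⟨j, rfl⟩ := hh
      obtain ⟨a, ha⟩ := S.bracket i j
      exact ⟨_, sum_mem_Vsp a, fun x => by rw [sum_apply, ha]⟩
    | zero =>
      refine ⟨0, Submodule.zero_mem _, fun x => ?_⟩
      have h1 : dForm 𝓘(ℝ, E) ((0 : P →ᵇ ℝ) : P → ℝ) x = 0 :=
        dForm_eq_zero_of_eventually (a := 0) (Filter.Eventually.of_forall fun _ => rfl)
      unfold CD.br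
      rw [h1]; rfl
    | add h k hh' hk' hh hk =>
      obtain ⟨b, hb, hb2⟩ := hh
      obtain ⟨b', hb', hb2'⟩ := hk
      refine ⟨b + b', Submodule.add_mem _ hb hb', fun x => ?_⟩
      rw [coe_add']
      beta_reduce
      rw [hb2, hb2']
      unfold CD.br
      rw [coe_add', CD.dForm_add (S.smooth_first hh').1 (S.smooth_first hk').1]
    | smul a h hh' hh =>
      obtain ⟨b, hb, hb2⟩ := hh
      refine ⟨a • b, Submodule.smul_mem _ _ hb, fun x => ?_⟩
      rw [coe_smul']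
      beta_reduce
      rw [hb2]
      unfold CD.br
      rw [coe_smul', CD.dForm_smul a (S.smooth_first hh').1]
  | zero =>
    refine ⟨0, Submodule.zero_mem _, fun x => ?_⟩
    have h0 : c.X ((0 : P →ᵇ ℝ) : P → ℝ) x = 0 := by
      symm
      apply c.X_unique
      intro v
      have h1 : dForm 𝓘(ℝ, E) ((0 : P →ᵇ ℝ) : P → ℝ) x = 0 :=
        dForm_eq_zero_of_eventually (a := 0) (Filter.Eventually.of_forall fun _ => rfl)
      rw [h1]
      have h2 : HB β x 0 v = 0 := by rw [map_zero]; rfl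
      rw [h2]
      show (0:ℝ) = (0:ℝ) * β x v - 0
      ring
    unfold CD.br
    rw [h0, map_zero]; rfl
  | add g k hg' hk' hg hk =>
    obtain ⟨b, hb, hb2⟩ := hg
    obtain ⟨b', hb', hb2'⟩ := hk
    refine ⟨b + b', Submodule.add_mem _ hb hb', fun x => ?_⟩
    rw [coe_add']
    beta_reduce
    rw [hb2, hb2']
    unfold CD.br
    rw [coe_add', c.X_add (S.smooth_first hg').1 (S.smooth_first hk').1, map_add]
  | smul a g hg' hg =>
    obtain ⟨b, hb, hb2⟩ := hg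
    refine ⟨a • b, Submodule.smul_mem _ _ hb, fun x => ?_⟩
    rw [coe_smul']
    beta_reduce
    rw [hb2]
    unfold CD.br
    rw [coe_smul', c.X_smul a (S.smooth_first hg').1, map_smul]
    rfl

lemma SFam.inv_mem (S : SFam c Γ f) (γ : Γ) {g : P →ᵇ ℝ} (hg : g ∈ Vsp f) :
    ∃ b ∈ Vsp f, ∀ x, b x = g (γ • x) := by
  induction hg using Submodule.span_induction with
  | mem g hg =>
    obtain ⟨i, rfl⟩ := hg
    obtain ⟨a, ha⟩ := S.inv γ i
    exact ⟨_, sum_mem_Vsp a, fun x => by rw [sum_apply, ha]⟩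
  | zero => exact ⟨0, Submodule.zero_mem _, fun x => rfl⟩
  | add g k _ _ hg hk =>
    obtain ⟨b, hb, hb2⟩ := hg
    obtain ⟨b', hb', hb2'⟩ := hk
    refine ⟨b + b', Submodule.add_mem _ hb hb', fun x => ?_⟩
    rw [coe_add', coe_add']
    beta_reduce
    rw [hb2, hb2']
  | smul a g _ hg =>
    obtain ⟨b, hb, hb2⟩ := hg
    refine ⟨a • b, Submodule.smul_mem _ _ hb, fun x => ?_⟩
    rw [coe_smul', coe_smul']
    beta_reduce
    rw [hb2]

theorem SFam.exists_closed [T2Space P] [SigmaCompactSpace P] (𝒟 : CDeck β Γ) (S : SFam c Γ f)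
    (hne : ∃ (i j : Fin m) (x : P), c.br (f i) (f j) x ≠ 0) :
    ∃ (γ : ℝ → P) (T : ℝ), 0 < T ∧ IsMIntegralCurve (I := 𝓘(ℝ, E)) γ R ∧
      ∀ t, γ (t + T) = γ t := by
  have hfd : FiniteDimensional ℝ (Vsp f) :=
    FiniteDimensional.span_of_finite ℝ (finite_range f)
  have hS : SAlg (V := ↥(Vsp f)) c (by exact (Vsp f).subtypeₗᵢ) := by
    refine ⟨fun g => (S.smooth_first g.2).1, fun g => (S.smooth_first g.2).2, fun g h => ?_⟩
    obtain ⟨b, hb, hb2⟩ := S.br_mem g.2 h.2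
    exact ⟨⟨b, hb⟩, hb2⟩
  refine SAlg.exists_closed hS 𝒟 ?_ ?_
  · intro γ g
    obtain ⟨b, hb, hb2⟩ := S.inv_mem γ g.2
    exact ⟨⟨b, hb⟩, hb2⟩
  · obtain ⟨i, j, x, hx⟩ := hne
    exact ⟨⟨f i, mem_Vsp i⟩, ⟨f j, mem_Vsp j⟩, x, hx⟩

end

end Pool.Agent.H826R2.Wein

namespace Pool.Agent.H826R2.WStmt

set_option linter.unusedSectionVars false

universe u

variable {E : Type u} [NormedAddCommGroup E] [NormedSpace ℝ E]
  {M : Type*} [TopologicalSpace M] [ChartedSpace E M]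
  {P : Type*} [TopologicalSpace P] [ChartedSpace E P]

/-- the differential of a real valued function at a point -/
def dF (f : P → ℝ) (x : P) (v : E) : ℝ := D (E := E) (E' := ℝ) f x v

/-- `X` is the value at `x` of the contact vector field with Hamiltonian `f`, for a function `f`
which is a first integral of the Reeb field: `β(X) = f`, `dβ(X, ·) = -df`. -/
def IsHam (β : P → Cov E) (f : P → ℝ) (x : P) (X : E) : Prop :=
  ev (β x) X = f x ∧ ∀ v, extDer β x X v = - dF f x v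

/-- `f` is a first integral of the lift of the vector field `R` on `M` under `q : P → M`. -/
def IsFirstIntegral (q : P → M) (R : M → E) (f : P → ℝ) : Prop :=
  ∀ (x : P) (r : E), D (E' := E) q x r = R (q x) → dF f x r = 0

/-- A finite family of bounded smooth first integrals (on `P`) of the Reeb field whose linear span
is invariant under `Γ` and closed under the contact bracket `{f, g} = dg (X_f)`. -/
structure LocalSymmetries (Γ : Type*) [Group Γ] [MulAction Γ P] (q : P → M) (R : M → E)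
    (β : P → Cov E) {m : ℕ} (f : Fin m → P → ℝ) : Prop where
  smooth : ∀ i, ContMDiff 𝓘(ℝ, E) 𝓘(ℝ, ℝ) ∞ (f i)
  bounded : ∀ i, ∃ C : ℝ, ∀ x, |f i x| ≤ C
  first : ∀ i, IsFirstIntegral q R (f i)
  bracket : ∀ i j, ∃ a : Fin m → ℝ, ∀ (x : P) (X : E), IsHam β (f i) x X →
    dF (f j) x X = ∑ k, a k * f k x
  invariant : ∀ (γ : Γ) (i : Fin m), ∃ a : Fin m → ℝ, ∀ x, f i (γ • x) = ∑ k, a k * f k x

variable [FiniteDimensional ℝ E] [IsManifold 𝓘(ℝ, E) ∞ M] [IsManifold 𝓘(ℝ, E) ∞ P]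

theorem exists_periodic_nonabelian [T2Space M] [CompactSpace M]
    (α : M → Cov E) (hα : IsContact α) (R : M → E) (hR : IsReeb α R)
    [T2Space P] [SigmaCompactSpace P]
    {Γ : Type*} [Group Γ] [MulAction Γ P] (q : P → M) (hq : IsQuotientMap E q Γ)
    {m : ℕ} (f : Fin m → P → ℝ) (hf : LocalSymmetries Γ q R (pull (E := E) q α) f)
    (hne : ∃ (i j : Fin m) (x : P) (X : E),
      IsHam (pull (E := E) q α) (f i) x X ∧ dF (f j) x X ≠ 0) :
    ∃ (c : ℝ → M) (T : ℝ), IsPeriodicOrbit R c T := by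
  have hq' := hq.toWein
  have hα' := hα.toWein
  have hR' := hR.toWein
  have hcP := hq'.isContact_pull hα'
  have hRP := hq'.isReeb_lift hα' hR'
  have c : Wein.CD _ _ := ⟨hcP, hRP⟩
  obtain ⟨𝒟⟩ := hq'.nonempty_cdeck (α := toForm α)
  choose C hC using hf.bounded
  let F : Fin m → (P →ᵇ ℝ) := fun i =>
    BoundedContinuousFunction.ofNormedAddCommGroup (f i) (hf.smooth i).continuous (C i)
      (fun x => by rw [Real.norm_eq_abs]; exact hC i x)
  have hF : ∀ i, (F i : P → ℝ) = f i := fun i => rfl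
  have hfirst : ∀ i x, dForm 𝓘(ℝ, E) (f i) x
      (Wein.liftField hq' (fun x => (R x : TangentSpace 𝓘(ℝ, E) x)) x) = 0 := by
    intro i x
    exact hf.first i x _ (hq'.liftField_spec _ x)
  have hham : ∀ i x, IsHam (pull (E := E) q α) (f i) x (c.X (f i) x) := by
    intro i x
    exact ⟨c.β_X (hfirst i x), fun v => c.dβ_X (hfirst i x) v⟩
  have huniq : ∀ i x (X : E), IsHam (pull (E := E) q α) (f i) x X → X = c.X (f i) x := by
    intro i x X hX
    apply c.X_unique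
    intro v
    have h1 := hX.1
    have h2 := hX.2 v
    refine (Wein.HB_apply (β := pullForm 𝓘(ℝ, E) 𝓘(ℝ, E) q (toForm α)) x X v).trans ?_
    have h3 : pullForm 𝓘(ℝ, E) 𝓘(ℝ, E) q (toForm α) x X = f i x := h1
    have h4 : Helper186.extDer 𝓘(ℝ, E) (pullForm 𝓘(ℝ, E) 𝓘(ℝ, E) q (toForm α)) x X v =
      - dForm 𝓘(ℝ, E) (f i) x v := h2
    exact (congrArg₂ (fun a b => a * pullForm 𝓘(ℝ, E) 𝓘(ℝ, E) q (toForm α) x v + b) h3 h4).trans
      (sub_eq_add_neg _ _).symm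
  have hS : Wein.SFam c Γ F := by
    refine ⟨hf.smooth, hfirst, fun i j => ?_, hf.invariant⟩
    obtain ⟨a, ha⟩ := hf.bracket i j
    exact ⟨a, fun x => ha x _ (hham i x)⟩
  obtain ⟨r, T, h1, h2, h3⟩ := hq'.closed_proj (hS.exists_closed 𝒟 (by
    obtain ⟨i, j, x, X, hX, hne⟩ := hne
    refine ⟨i, j, x, ?_⟩
    have h1 := huniq i x X hX
    rw [h1] at hne
    exact hne))
  exact ⟨r, T, h1, h2, h3⟩

end Pool.Agent.H826R2.WStmt
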