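import Mathlib
import Pool.Agent.H826R2.Wein.NF
import Pool.Agent.H826R2.Wein.Frame
import Pool.Agent.H826R2.Wein.Rank2

/-! Frames from number fields. -/

open scoped Topology ContDiff Manifold
open Set Metric Filter Pool.Agent.Helper186
open NumberField NumberField.mixedEmbedding

noncomputable section

namespace Pool.Agent.H826R2.Wein

set_option linter.unusedSectionVars false

section bounds

variable {m : ℕ} {Γ : Type*} [Group Γ] {B : Γ →* Matrix (Fin m) (Fin m) ℤ} {K : Type} [Field K]
    [NumberField K] (F : NFData B K)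

open scoped Classical in
lemma NFData.exists_upper : ∃ C > (0:ℝ), ∀ (z : mixedSpace K) (c : ℝ),
    (∀ w : InfinitePlace K, normAtPlace w z ≤ c) → ‖F.J z‖ ≤ C * c := by
  refine ⟨‖LinearMap.toContinuousLinearMap F.J‖ + 1, by positivity, fun z c h => ?_⟩
  have h1 := (LinearMap.toContinuousLinearMap F.J).le_opNorm z
  have h2 : ‖z‖ ≤ c := norm_le_of_places h
  have h3 : 0 ≤ c := (norm_nonneg z).trans h2
  have h4 := norm_nonneg (LinearMap.toContinuousLinearMap F.J)
  calc ‖F.J z‖ ≤ ‖LinearMap.toContinuousLinearMap F.J‖ * ‖z‖ := h1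
    _ ≤ (‖LinearMap.toContinuousLinearMap F.J‖ + 1) * c :=
      mul_le_mul (by linarith) h2 (norm_nonneg _) (by linarith)

open scoped Classical in
lemma NFData.exists_lower : ∃ C > (0:ℝ), ∀ (z : mixedSpace K) (w : InfinitePlace K),
    normAtPlace w z ≤ C * ‖F.J z‖ := by
  obtain ⟨C, hC, h⟩ := F.J.exists_antilipschitzWith (LinearMap.ker_eq_bot.2 F.J_inj)
  refine ⟨C, by exact_mod_cast hC, fun z w => ?_⟩
  have h1 := h.le_mul_dist z 0
  rw [map_zero, dist_zero_right, dist_zero_right] at h1
  exact (normAtPlace_le_norm w z).trans h1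

open scoped Classical in
lemma exists_near_places (z : mixedSpace K) {δ : ℝ} (hδ : 0 < δ) :
    ∃ x : K, ∀ w : InfinitePlace K, normAtPlace w (mixedEmbedding K x - z) < δ := by
  obtain ⟨x, hx⟩ := exists_near z hδ
  exact ⟨x, fun w => (normAtPlace_le_norm w _).trans_lt hx⟩

end bounds

universe u

variable {E : Type u} [NormedAddCommGroup E] [NormedSpace ℝ E] [FiniteDimensional ℝ E]
  {P : Type*} [TopologicalSpace P] [ChartedSpace E P] [IsManifold 𝓘(ℝ, E) ∞ P]
  {β : (x : P) → TangentSpace 𝓘(ℝ, E) x →L[ℝ] ℝ} {m : ℕ}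

namespace TAct

variable (A : TAct β m) {N : ℕ} {ι : Imm (E := E) P N} {Γ : Type*} [Group Γ] [MulAction Γ P]

/-- uniform upper bound over a compact set -/
lemma exists_Q_upper (hβ : SmoothForm β) {D : Set P} (hD : IsCompact D) :
    ∃ M > (0:ℝ), ∀ x ∈ D, ∀ κ : Fin m → ℝ, A.Q ι κ x ≤ M * ‖κ‖ ^ 2 := by
  have hcont : Continuous (fun p : P × (Fin m → ℝ) => A.Q ι p.2 p.1) :=
    (A.continuous_G_H ι hβ).add ((A.continuous_H hβ).pow 2)
  have hK : IsCompact (D ×ˢ sphere (0 : Fin m → ℝ) 1) := hD.prod (isCompact_sphere _ _)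
  obtain ⟨M, hM⟩ := (hK.image hcont).bddAbove
  refine ⟨max M 1, by positivity, fun x hx κ => ?_⟩
  by_cases hκ : κ = 0
  · subst hκ
    have h0 : A.Q ι (0 : Fin m → ℝ) x = 0 := by
      have e0 : (0 : Fin m → ℝ) = (0:ℝ) • (0 : Fin m → ℝ) := by rw [zero_smul]
      have h1 : A.H (0 : Fin m → ℝ) x = 0 := by
        conv_lhs => rw [e0]
        rw [A.H_smul, zero_mul]
      have h2 : ι.G (A.H (0 : Fin m → ℝ)) x = 0 := by
        conv_lhs => rw [e0]
        rw [A.G_smul hβ]
        norm_num
      show ι.G (A.H (0 : Fin m → ℝ)) x + (A.H (0 : Fin m → ℝ) x) ^ 2 = 0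
      rw [h1, h2]; norm_num
    rw [h0]
    positivity
  · have hn : 0 < ‖κ‖ := norm_pos_iff.2 hκ
    have h1 : A.Q ι (‖κ‖⁻¹ • κ) x ≤ M := hM ⟨(x, ‖κ‖⁻¹ • κ), ⟨hx, by
      rw [mem_sphere_zero_iff_norm, _root_.norm_smul, norm_inv, norm_norm,
        inv_mul_cancel₀ hn.ne']⟩, rfl⟩
    have h2 : A.Q ι κ x = ‖κ‖ ^ 2 * A.Q ι (‖κ‖⁻¹ • κ) x := by
      have e : κ = ‖κ‖ • (‖κ‖⁻¹ • κ) := by rw [smul_smul, mul_inv_cancel₀ hn.ne', one_smul]
      have e1 : ι.G (A.H κ) x = ‖κ‖ ^ 2 * ι.G (A.H (‖κ‖⁻¹ • κ)) x := by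
        conv_lhs => rw [e]
        exact A.G_smul hβ _ _ _
      have e2 : A.H κ x = ‖κ‖ * A.H (‖κ‖⁻¹ • κ) x := by
        conv_lhs => rw [e]
        rw [A.H_smul]
      show ι.G (A.H κ) x + (A.H κ x) ^ 2 = ‖κ‖ ^ 2 * (ι.G (A.H (‖κ‖⁻¹ • κ)) x +
        (A.H (‖κ‖⁻¹ • κ) x) ^ 2)
      rw [e1, e2]
      ring
    rw [h2, mul_comm]
    exact mul_le_mul_of_nonneg_right (h1.trans (le_max_left _ _)) (by positivity)

/-- a point where finitely many Hamiltonians do not vanish -/
lemma exists_ne_zero (hc : IsContact β) {R : (x : P) → TangentSpace 𝓘(ℝ, E) x}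
    (hR : IsReeb β R) [Nonempty P] {I : Type*} (s : Finset I) (u : I → Fin m → ℝ)
    (hu : ∀ i ∈ s, u i ≠ 0) : ∃ O : Set P, IsOpen O ∧ O.Nonempty ∧
      ∀ i ∈ s, ∀ x ∈ O, A.H (u i) x ≠ 0 := by
  classical
  induction s using Finset.induction_on with
  | empty => exact ⟨univ, isOpen_univ, univ_nonempty, by simp⟩
  | insert i s _ ih =>
    obtain ⟨O, hO, ⟨x, hx⟩, h⟩ := ih fun j hj => hu j (Finset.mem_insert_of_mem hj)
    have hcont : Continuous (A.H (u i)) := (A.smooth_H hc.smooth _).continuous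
    refine ⟨O ∩ {x | A.H (u i) x ≠ 0}, hO.inter (isOpen_ne_fun hcont continuous_const), ?_, ?_⟩
    · by_contra hne
      rw [Set.not_nonempty_iff_eq_empty] at hne
      have h0 : ∀ y ∈ O, A.H (u i) y = 0 := by
        intro y hy
        by_contra h1
        have : y ∈ (∅ : Set P) := by rw [← hne]; exact ⟨hy, h1⟩
        exact this
      refine A.H_ne_zero_of_crit hc hR (hu i (Finset.mem_insert_self _ _)) (x := x) ?_ (h0 x hx)
      exact dForm_eq_zero_of_eventually (a := 0) (by
        filter_upwards [hO.mem_nhds hx] with y hy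
        exact h0 y hy)
    · intro j hj y hy
      rcases Finset.mem_insert.1 hj with rfl | hj
      · exact hy.2
      · exact h j hj y hy.1

/-- **Critical points from number fields.** -/
theorem exists_crit_of_nf [T2Space P] [SigmaCompactSpace P] [Nonempty P] (hc : IsContact β)
    {R : (x : P) → TangentSpace 𝓘(ℝ, E) x} (hR : IsReeb β R) (𝒟 : Deck ι Γ) (hN : A.Norm Γ)
    (B : Γ →* Matrix (Fin m) (Fin m) ℤ)
    (hB : ∀ (γ : Γ) (κ : Fin m → ℝ) (x : P),
      A.H (((B γ).map (Int.cast : ℤ → ℝ)).mulVec κ) (γ • x) = A.H κ x)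
    {K : Type} [Field K] [NumberField K] (F : NFData B K) :
    ∃ k : Fin m → ℤ, k ≠ 0 ∧ ∃ x, dForm 𝓘(ℝ, E) (A.H (rv k)) x = 0 := by
  classical
  have hβ := hc.smooth
  set r := Fintype.card (InfinitePlace K) with hr
  let e : Fin r ≃ InfinitePlace K := (Fintype.equivFin (InfinitePlace K)).symm
  have hr0 : 0 < r := Fintype.card_pos
  -- the basic vectors
  set u : InfinitePlace K → Fin m → ℝ := fun w => F.J (elt K (Pi.single w 1)) with hu
  have hu0 : ∀ w, u w ≠ 0 := by
    intro w h0
    have h1 : elt K (Pi.single w 1) = 0 := F.J_inj (by rw [map_zero]; exact h0)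
    have h2 := normAtPlace_elt (Pi.single w (1:ℝ)) w
    rw [h1, map_zero, Pi.single_eq_same, abs_one] at h2
    exact zero_ne_one h2
  obtain ⟨O, -, ⟨x₀, hx₀⟩, hO⟩ := A.exists_ne_zero hc hR Finset.univ u (fun w _ => hu0 w)
  have hx0 : ∀ w, A.H (u w) x₀ ≠ 0 := fun w => hO w (Finset.mem_univ w) x₀ hx₀
  -- signs
  set sg : InfinitePlace K → ℝ := fun w => if 0 < A.H (u w) x₀ then 1 else -1 with hsg
  have hsg1 : ∀ w, |sg w| = 1 := by
    intro w
    simp only [hsg]
    split_ifs <;> norm_num
  have hsgp : ∀ w, 0 < sg w * A.H (u w) x₀ := by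
    intro w
    simp only [hsg]
    split_ifs with h
    · rwa [one_mul]
    · have := lt_of_le_of_ne (not_lt.1 h) (hx0 w)
      linarith
  -- bounds
  obtain ⟨C1, hC1, hup⟩ := F.exists_upper
  obtain ⟨C2, hC2, hlo⟩ := F.exists_lower
  obtain ⟨μ, hμ, hQlo⟩ := A.exists_Q_bound ι hc hR 𝒟.compact
  obtain ⟨M, hM, hQup⟩ := A.exists_Q_upper (ι := ι) hβ 𝒟.compact
  choose g hg using 𝒟.cover
  have hQeq : ∀ (z : mixedSpace K) (y : P),
      A.Q ι (F.J z) y = A.Q ι (F.J (mixedEmbedding K (F.χ (g y)) * z)) (g y • y) := by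
    intro z y
    rw [F.J_mul, A.Q_equiv hc 𝒟 (hB (g y))]
  have hnm : ∀ (w : InfinitePlace K) (γ : Γ) (z : mixedSpace K),
      normAtPlace w (mixedEmbedding K (F.χ γ) * z) = w (F.χ γ) * normAtPlace w z := by
    intro w γ z
    rw [map_mul, normAtPlace_apply]
  have hU : ∀ (z : mixedSpace K) (y : P) (c : ℝ),
      (∀ w : InfinitePlace K, w (F.χ (g y)) * normAtPlace w z ≤ c) →
      A.Q ι (F.J z) y ≤ M * C1 ^ 2 * c ^ 2 := by
    intro z y c h
    rw [hQeq]
    have h1 : ‖F.J (mixedEmbedding K (F.χ (g y)) * z)‖ ≤ C1 * c :=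
      hup _ _ fun w => by rw [hnm]; exact h w
    calc _ ≤ M * ‖F.J (mixedEmbedding K (F.χ (g y)) * z)‖ ^ 2 := hQup _ (hg y) _
      _ ≤ M * (C1 * c) ^ 2 := by
          apply mul_le_mul_of_nonneg_left _ hM.le
          exact pow_le_pow_left₀ (norm_nonneg _) h1 2
      _ = M * C1 ^ 2 * c ^ 2 := by ring
  have hL : ∀ (z : mixedSpace K) (y : P) (w : InfinitePlace K),
      μ / C2 ^ 2 * (w (F.χ (g y)) * normAtPlace w z) ^ 2 ≤ A.Q ι (F.J z) y := by
    intro z y w
    rw [hQeq]
    have h1 := hlo (mixedEmbedding K (F.χ (g y)) * z) w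
    rw [hnm] at h1
    have h0 : 0 ≤ w (F.χ (g y)) * normAtPlace w z :=
      mul_nonneg (apply_nonneg w _) (normAtPlace_nonneg w z)
    calc μ / C2 ^ 2 * (w (F.χ (g y)) * normAtPlace w z) ^ 2
        ≤ μ / C2 ^ 2 * (C2 * ‖F.J (mixedEmbedding K (F.χ (g y)) * z)‖) ^ 2 := by
          apply mul_le_mul_of_nonneg_left _ (by positivity)
          exact pow_le_pow_left₀ h0 h1 2
      _ = μ * ‖F.J (mixedEmbedding K (F.χ (g y)) * z)‖ ^ 2 := by
          field_simp
      _ ≤ _ := hQlo _ (hg y) _
  have hwpos : ∀ (w : InfinitePlace K) (γ : Γ), 0 < w (F.χ γ) := fun w γ =>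
    InfinitePlace.pos_iff.2 (F.χ_ne_zero γ)
  -- the vectors of the frame
  set W : Fin r → Fin m → ℝ := fun i => F.J (elt K (Pi.single (e i) (sg (e i)))) with hW
  set nn : Fin r → ℝ := fun i => ((e i).mult : ℝ) with hnn
  have hWu : ∀ i, W i = sg (e i) • u (e i) := by
    intro i
    simp only [hW, hu]
    rw [← map_smul, ← map_smul]
    congr 2
    ext w
    by_cases h : w = e i
    · subst h; simp
    · simp [Pi.single_eq_of_ne h]
  have hvv : ∀ p : Fin r → ℝ, vv W nn p =
      F.J (elt K (fun w => Real.exp (p (e.symm w) - av nn p) * sg w)) := by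
    intro p
    unfold vv
    simp only [hW]
    have h1 : (fun w => Real.exp (p (e.symm w) - av nn p) * sg w) =
        ∑ i, Real.exp (p i - av nn p) • (Pi.single (e i) (sg (e i)) : InfinitePlace K → ℝ) := by
      ext w
      rw [Finset.sum_apply]
      rw [Finset.sum_eq_single (e.symm w)]
      · simp
      · intro i _ hi
        have : w ≠ e i := fun h => hi (by rw [h]; simp)
        simp [Pi.single_eq_of_ne this]
      · intro h
        exact absurd (Finset.mem_univ _) h
    rw [h1, map_sum, map_sum]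
    refine Finset.sum_congr rfl fun i _ => ?_
    rw [map_smul, map_smul]
  let Fr : Frame A ι r :=
    { w := W
      n := nn
      npos := fun i => by
        simp only [hnn]
        exact_mod_cast InfinitePlace.mult_pos
      x := x₀
      pos := fun i => by
        rw [hWu, A.H_smul]
        exact hsgp _
      C := (∑ i, nn i) * Real.log (M * C1 ^ 2)
      bound := by
        intro y
        have h1 : ∀ i, Real.log (A.Q ι (W i) y) ≤
            Real.log (M * C1 ^ 2) + 2 * Real.log ((e i) (F.χ (g y))) := by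
          intro i
          have h2 : A.Q ι (W i) y ≤ M * C1 ^ 2 * ((e i) (F.χ (g y))) ^ 2 := by
            refine hU _ y _ fun w => ?_
            rw [normAtPlace_elt]
            by_cases h : w = e i
            · subst h
              rw [Pi.single_eq_same, hsg1, mul_one]
            · rw [Pi.single_eq_of_ne h, abs_zero, mul_zero]
              exact (hwpos _ _).le
          have h3 : 0 < A.Q ι (W i) y := A.Q_pos ι hc hR (by
            rw [hWu]
            refine smul_ne_zero ?_ (hu0 _)
            intro h0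
            have := hsg1 (e i)
            rw [h0, abs_zero] at this
            exact zero_ne_one this) y
          calc Real.log (A.Q ι (W i) y) ≤ Real.log (M * C1 ^ 2 * ((e i) (F.χ (g y))) ^ 2) :=
                Real.log_le_log h3 h2
            _ = Real.log (M * C1 ^ 2) + 2 * Real.log ((e i) (F.χ (g y))) := by
                rw [Real.log_mul (by positivity) (pow_ne_zero _ (hwpos _ _).ne'), Real.log_pow]
                norm_num
        have h4 : ∑ i, nn i * Real.log ((e i) (F.χ (g y))) = 0 := by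
          have h5 := congrArg Real.log (F.unit (g y))
          rw [Real.log_one, Real.log_prod (fun w _ => pow_ne_zero _ (hwpos w _).ne')] at h5
          rw [← h5]
          rw [← e.sum_comp]
          refine Finset.sum_congr rfl fun i _ => ?_
          rw [Real.log_pow]
        calc ∑ i, nn i * Real.log (A.Q ι (W i) y)
            ≤ ∑ i, nn i * (Real.log (M * C1 ^ 2) + 2 * Real.log ((e i) (F.χ (g y)))) :=
              Finset.sum_le_sum fun i _ => mul_le_mul_of_nonneg_left (h1 i) (by
                simp only [hnn]; positivity)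
          _ = (∑ i, nn i) * Real.log (M * C1 ^ 2) +
                2 * ∑ i, nn i * Real.log ((e i) (F.χ (g y))) := by
              rw [Finset.sum_mul, Finset.mul_sum, ← Finset.sum_add_distrib]
              exact Finset.sum_congr rfl fun i _ => by ring
          _ = _ := by rw [h4]; ring
      approx := by
        intro p ε hε
        set z := elt K (fun w => Real.exp (p (e.symm w) - av nn p) * sg w) with hz
        have hzw : ∀ w, normAtPlace w z = Real.exp (p (e.symm w) - av nn p) := by
          intro w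
          rw [hz, normAtPlace_elt, abs_mul, hsg1, mul_one, abs_of_pos (Real.exp_pos _)]
        have hzpos : ∀ w, 0 < normAtPlace w z := fun w => by rw [hzw]; exact Real.exp_pos _
        obtain ⟨c0, hc0, hc0le⟩ : ∃ c0 > (0:ℝ), ∀ w, c0 ≤ normAtPlace w z := by
          obtain ⟨w₀, -, hw₀⟩ := Finset.exists_min_image Finset.univ
            (fun w : InfinitePlace K => normAtPlace w z) Finset.univ_nonempty
          exact ⟨_, hzpos w₀, fun w => hw₀ w (Finset.mem_univ _)⟩
        -- the relative error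
        set ε' := min (1 / 2) (ε * Real.sqrt (μ / C2 ^ 2 / (M * C1 ^ 2))) with hε'
        have hε'0 : 0 < ε' := lt_min (by norm_num) (by positivity)
        obtain ⟨x, hx⟩ := exists_near_places z (δ := ε' * c0) (by positivity)
        obtain ⟨k, t, ht, hkt⟩ := exists_int_multiple (F.j x)
        have hJx : F.J (mixedEmbedding K x) = t • rv k := by
          rw [F.J_emb]; exact hkt
        have hx0 : x ≠ 0 := by
          rintro rfl
          obtain ⟨w⟩ := (inferInstance : Nonempty (InfinitePlace K))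
          have h1 := hx w
          rw [map_zero, zero_sub, normAtPlace_neg] at h1
          have h2 := hc0le w
          have h3 : ε' ≤ 1 / 2 := min_le_left _ _
          nlinarith
        refine ⟨k, t, ?_, ht, ?_⟩
        · rintro rfl
          apply hx0
          apply F.inj
          rw [map_zero]
          ext i
          have h1 := congrFun hkt i
          simp [qr] at h1
          simpa using h1
        · intro y
          rw [hvv, ← hJx, ← map_sub]
          -- choose the largest term
          obtain ⟨w₁, -, hw₁⟩ := Finset.exists_max_image Finset.univ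
            (fun w : InfinitePlace K => w (F.χ (g y)) * normAtPlace w z) Finset.univ_nonempty
          set T := w₁ (F.χ (g y)) * normAtPlace w₁ z with hT
          have hT0 : 0 ≤ T := mul_nonneg (hwpos _ _).le (hzpos _).le
          have h1 : A.Q ι (F.J (mixedEmbedding K x - z)) y ≤ M * C1 ^ 2 * (ε' * T) ^ 2 := by
            refine hU _ y _ fun w => ?_
            have h2 : normAtPlace w (mixedEmbedding K x - z) ≤ ε' * normAtPlace w z :=
              (hx w).le.trans (mul_le_mul_of_nonneg_left (hc0le w) hε'0.le)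
            calc w (F.χ (g y)) * normAtPlace w (mixedEmbedding K x - z)
                ≤ w (F.χ (g y)) * (ε' * normAtPlace w z) :=
                  mul_le_mul_of_nonneg_left h2 (hwpos _ _).le
              _ = ε' * (w (F.χ (g y)) * normAtPlace w z) := by ring
              _ ≤ ε' * T := mul_le_mul_of_nonneg_left (hw₁ w (Finset.mem_univ _)) hε'0.le
          have h2 : μ / C2 ^ 2 * T ^ 2 ≤ A.Q ι (F.J z) y := hL z y w₁
          have h3 : ε' ^ 2 ≤ ε ^ 2 * (μ / C2 ^ 2 / (M * C1 ^ 2)) := by
            have h4 : ε' ^ 2 ≤ (ε * Real.sqrt (μ / C2 ^ 2 / (M * C1 ^ 2))) ^ 2 :=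
              pow_le_pow_left₀ hε'0.le (min_le_right _ _) 2
            rw [mul_pow, Real.sq_sqrt (by positivity)] at h4
            exact h4
          calc A.Q ι (F.J (mixedEmbedding K x - z)) y ≤ M * C1 ^ 2 * (ε' * T) ^ 2 := h1
            _ = M * C1 ^ 2 * T ^ 2 * ε' ^ 2 := by ring
            _ ≤ M * C1 ^ 2 * T ^ 2 * (ε ^ 2 * (μ / C2 ^ 2 / (M * C1 ^ 2))) :=
                mul_le_mul_of_nonneg_left h3 (by positivity)
            _ = ε ^ 2 * (μ / C2 ^ 2 * T ^ 2) := by field_simp
            _ ≤ ε ^ 2 * A.Q ι (F.J z) y := mul_le_mul_of_nonneg_left h2 (by positivity) }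
  exact A.exists_crit_of_frame hc hR 𝒟 hN hr0 Fr

end TAct

end Pool.Agent.H826R2.Wein
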