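import Mathlib

/-! Virtually solvable groups acting on finite dimensional spaces. -/

open Module

noncomputable section

namespace Pool.Agent.H826R2.Wein.Solv

set_option linter.unusedSectionVars false

/-- finite index from a finite image -/
lemma finiteIndex_of_fin {G X : Type*} [Group G] (f : G → X) (hf : (Set.range f).Finite)
    (H : Subgroup G) (h : ∀ g g', f g = f g' → g⁻¹ * g' ∈ H) : H.FiniteIndex := by
  have : Finite (G ⧸ H) := by
    have : Finite (Set.range f) := hf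
    refine Finite.of_injective (fun q : G ⧸ H => (⟨f q.out, ⟨q.out, rfl⟩⟩ : Set.range f)) ?_
    intro q q' hqq
    have h1 : f q.out = f q'.out := congrArg Subtype.val hqq
    have h2 := h _ _ h1
    rw [← QuotientGroup.eq] at h2
    rwa [QuotientGroup.out_eq', QuotientGroup.out_eq'] at h2
  exact Subgroup.finiteIndex_of_finite_quotient

variable {k : Type*} [Field k] [IsAlgClosed k] {V : Type*} [AddCommGroup V] [Module k V]
  [FiniteDimensional k V] {G : Type*} [Group G]

lemma exists_ev (T : End k V) (S : Submodule k V) (hS : S ≠ ⊥) (hT : ∀ v ∈ S, T v ∈ S) :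
    ∃ c : k, ∃ v ∈ S, v ≠ 0 ∧ T v = c • v := by
  have : Nontrivial S := Submodule.nontrivial_iff_ne_bot.2 hS
  obtain ⟨c, hc⟩ := Module.End.exists_eigenvalue (T.restrict hT)
  obtain ⟨v, hv⟩ := hc.exists_hasEigenvector
  refine ⟨c, v, v.2, fun h => hv.2 (Subtype.ext h), ?_⟩
  have h1 := hv.apply_eq_smul
  have h2 := congrArg Subtype.val h1
  exact h2

/-- strong irreducibility -/
def SI (ρ : G →* End k V) : Prop :=
  ∀ H : Subgroup G, H.FiniteIndex → ∀ U : Submodule k V, U ≠ ⊥ →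
    (∀ h ∈ H, ∀ u ∈ U, ρ h u ∈ U) → U = ⊤

/-- acting by scalars -/
def Scal (ρ : G →* End k V) (N : Subgroup G) : Prop := ∀ a ∈ N, ∃ c : k, ∀ v, ρ a v = c • v

/-- existence of invariant subspaces of minimal dimension -/
lemma exists_min (Q : Submodule k V → Prop) (hQ : ∃ S, Q S) :
    ∃ S, Q S ∧ ∀ S' ≤ S, Q S' → S' = S := by
  obtain ⟨S₀, hS₀⟩ := hQ
  have hne : {n : ℕ | ∃ S : Submodule k V, Q S ∧ finrank k S = n}.Nonempty := ⟨_, S₀, hS₀, rfl⟩
  obtain ⟨S, hS, hSn⟩ := Nat.sInf_mem hne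
  refine ⟨S, hS, fun S' h1 h2 => ?_⟩
  apply Submodule.eq_of_le_of_finrank_le h1
  rw [hSn]
  exact Nat.sInf_le ⟨S', h2, rfl⟩

lemma exists_finite_span (ρ : G →* End k V) (N : Subgroup G) :
    ∃ b : Set (End k V), b.Finite ∧ (∀ T ∈ b, ∃ a ∈ N, ρ a = T) ∧
      ∀ a ∈ N, ρ a ∈ Submodule.span k b := by
  obtain ⟨b, hb1, hb2, hb3⟩ := exists_linearIndependent k (ρ '' (N : Set G))
  refine ⟨b, hb3.setFinite, fun T hT => ?_, fun a ha => ?_⟩
  · obtain ⟨a, ha, rfl⟩ := hb1 hT
    exact ⟨a, ha, rfl⟩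
  · rw [hb2]
    exact Submodule.subset_span ⟨a, ha, rfl⟩

lemma rho_inv_mul (ρ : G →* End k V) (g : G) (v : V) : ρ g⁻¹ (ρ g v) = v := by
  have h : ρ g⁻¹ * ρ g = 1 := by rw [← map_mul, inv_mul_cancel, map_one]
  exact LinearMap.congr_fun h v

lemma rho_mul_inv (ρ : G →* End k V) (g : G) (v : V) : ρ g (ρ g⁻¹ v) = v := by
  have h : ρ g * ρ g⁻¹ = 1 := by rw [← map_mul, mul_inv_cancel, map_one]
  exact LinearMap.congr_fun h v

lemma rho_mul (ρ : G →* End k V) (g h : G) (v : V) : ρ (g * h) v = ρ g (ρ h v) := by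
  rw [map_mul]; rfl

lemma rho_ne_zero (ρ : G →* End k V) (g : G) {v : V} (hv : v ≠ 0) : ρ g v ≠ 0 := by
  intro h
  apply hv
  rw [← rho_inv_mul ρ g v, h, map_zero]

/-- normal subgroups acting commutatively act by scalars -/
lemma scal_of_comm (ρ : G →* End k V) (hSI : SI ρ) (N : Subgroup G) [hN : N.Normal]
    (hcomm : ∀ a ∈ N, ∀ b ∈ N, ρ a * ρ b = ρ b * ρ a) : Scal ρ N := by
  classical
  by_cases hV : (⊤ : Submodule k V) = ⊥
  · intro a _
    refine ⟨0, fun v => ?_⟩
    have h1 : ∀ w : V, w = 0 := fun w => by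
      have : w ∈ (⊤ : Submodule k V) := trivial
      rw [hV] at this
      exact this
    rw [h1 (ρ a v), h1 ((0:k) • v)]
  obtain ⟨S, ⟨hS0, hSinv⟩, hmin⟩ := exists_min
    (fun S : Submodule k V => S ≠ ⊥ ∧ ∀ a ∈ N, ∀ v ∈ S, ρ a v ∈ S)
    ⟨⊤, hV, fun _ _ _ _ => trivial⟩
  have hex : ∀ a ∈ N, ∃ c : k, ∀ v ∈ S, ρ a v = c • v := by
    intro a ha
    obtain ⟨c, v, hvS, hv0, hv⟩ := exists_ev (ρ a) S hS0 (hSinv a ha)
    refine ⟨c, ?_⟩
    have h1 := hmin (S ⊓ LinearMap.ker (ρ a - c • 1)) inf_le_left ⟨?_, ?_⟩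
    · intro w hw
      rw [← h1] at hw
      have h2 : (ρ a - c • (1 : End k V)) w = 0 := hw.2
      exact sub_eq_zero.1 h2
    · intro h
      have h2 : v ∈ S ⊓ LinearMap.ker (ρ a - c • 1) := ⟨hvS, sub_eq_zero.2 hv⟩
      rw [h] at h2
      exact hv0 h2
    · intro b hb w hw
      refine ⟨hSinv b hb w hw.1, ?_⟩
      have h2 : (ρ a - c • (1 : End k V)) w = 0 := hw.2
      have h3 : ρ a w = c • w := sub_eq_zero.1 h2
      have h4 : ρ a (ρ b w) = ρ b (ρ a w) := LinearMap.congr_fun (hcomm a ha b hb) w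
      show (ρ a - c • (1 : End k V)) (ρ b w) = 0
      apply sub_eq_zero.2
      show ρ a (ρ b w) = c • ρ b w
      rw [h4, h3, map_smul]
  choose! lam hlam using hex
  obtain ⟨v₀, hv₀S, hv₀⟩ := Submodule.exists_mem_ne_zero_of_ne_bot hS0
  have hconj : ∀ g : G, ∀ a ∈ N, g⁻¹ * a * g ∈ N := by
    intro g a ha
    have := hN.conj_mem a ha g⁻¹
    rwa [inv_inv] at this
  let H : Subgroup G :=
    { carrier := {g | ∀ a ∈ N, lam (g⁻¹ * a * g) = lam a}
      one_mem' := fun a _ => by simp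
      mul_mem' := by
        intro g h hg hh a ha
        have h1 : (g * h)⁻¹ * a * (g * h) = h⁻¹ * (g⁻¹ * a * g) * h := by group
        rw [h1, hh _ (hconj g a ha), hg a ha]
      inv_mem' := by
        intro g hg a ha
        have h1 : g * a * g⁻¹ ∈ N := hN.conj_mem a ha g
        have h2 := hg _ h1
        have h3 : g⁻¹ * (g * a * g⁻¹) * g = a := by group
        rw [h3] at h2
        rw [inv_inv]
        exact h2.symm }
  obtain ⟨b, hbfin, hbN, hbspan⟩ := exists_finite_span ρ N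
  choose! aa haN haa using hbN
  have hlamv : ∀ g : G, ∀ a ∈ N, ρ g⁻¹ (ρ a (ρ g v₀)) = lam (g⁻¹ * a * g) • v₀ := by
    intro g a ha
    rw [← hlam _ (hconj g a ha) v₀ hv₀S, rho_mul, rho_mul]
  have hHfin : H.FiniteIndex := by
    refine finiteIndex_of_fin (fun (g : G) (T : b) => lam (g⁻¹ * aa T * g)) ?_ H ?_
    · have : Finite b := hbfin
      refine (Set.Finite.pi (t := fun T : b => {c : k | Module.End.HasEigenvalue (ρ (aa T)) c})
        (fun T => Module.End.finite_hasEigenvalue _)).subset ?_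
      rintro _ ⟨g, rfl⟩ T -
      have haT := haN T T.2
      apply Module.End.hasEigenvalue_of_hasEigenvector (x := ρ g v₀)
      refine ⟨Module.End.mem_eigenspace_iff.2 ?_, rho_ne_zero ρ g hv₀⟩
      have h1 := hlamv g _ haT
      have h2 := congrArg (ρ g) h1
      rw [rho_mul_inv, map_smul] at h2
      exact h2
    · intro g g' hgg a ha
      have h1 : ∀ T ∈ b, lam (g⁻¹ * aa T * g) = lam (g'⁻¹ * aa T * g') := fun T hT =>
        congrFun hgg ⟨T, hT⟩
      let L : G → (End k V →ₗ[k] V) := fun g =>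
        { toFun := fun T => ρ g⁻¹ (T (ρ g v₀))
          map_add' := fun T T' => by simp
          map_smul' := fun c T => by simp }
      have h2 : Set.EqOn (L g) (L g') b := by
        intro T hT
        show ρ g⁻¹ (T (ρ g v₀)) = ρ g'⁻¹ (T (ρ g' v₀))
        rw [← haa T hT, hlamv g _ (haN T hT), hlamv g' _ (haN T hT), h1 T hT]
      have h3 := LinearMap.eqOn_span h2
      have hc : g * a * g⁻¹ ∈ N := hN.conj_mem a ha g
      have h4 : ρ g⁻¹ (ρ (g * a * g⁻¹) (ρ g v₀)) = ρ g'⁻¹ (ρ (g * a * g⁻¹) (ρ g' v₀)) :=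
        h3 (hbspan _ hc)
      rw [hlamv g _ hc, hlamv g' _ hc] at h4
      have h5 := smul_left_injective k hv₀ h4
      have e1 : g⁻¹ * (g * a * g⁻¹) * g = a := by group
      have e2 : g'⁻¹ * (g * a * g⁻¹) * g' = (g⁻¹ * g')⁻¹ * a * (g⁻¹ * g') := by group
      rw [e1, e2] at h5
      exact h5.symm
  let W : Submodule k V :=
    { carrier := {v | ∀ a ∈ N, ρ a v = lam a • v}
      zero_mem' := fun a _ => by simp
      add_mem' := fun {u v} hu hv a ha => by rw [map_add, hu a ha, hv a ha, smul_add]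
      smul_mem' := fun c v hv a ha => by rw [map_smul, hv a ha, smul_comm] }
  have hW : W = ⊤ := by
    refine hSI H hHfin W ?_ ?_
    · intro h
      have h1 : v₀ ∈ W := fun a ha => hlam a ha v₀ hv₀S
      rw [h] at h1
      exact hv₀ h1
    · intro g hg v hv a ha
      have h1 : ρ a (ρ g v) = ρ g (ρ (g⁻¹ * a * g) v) := by
        rw [← rho_mul, ← rho_mul]
        congr 2
        group
      rw [h1, hv _ (hconj g a ha), hg a ha, map_smul]
  intro a ha
  refine ⟨lam a, fun v => ?_⟩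
  have : v ∈ W := by rw [hW]; trivial
  exact this a ha

lemma det_comm (ρ : G →* End k V) (a b : G) :
    LinearMap.det (ρ (a * b)) = LinearMap.det (ρ (b * a)) := by
  rw [map_mul, map_mul, map_mul, map_mul, mul_comm]

lemma det_ne_zero (ρ : G →* End k V) (a : G) : LinearMap.det (ρ a) ≠ 0 := by
  intro h
  have h1 : LinearMap.det (ρ (a * a⁻¹)) = 1 := by
    rw [mul_inv_cancel, map_one, map_one]
  rw [map_mul, map_mul, h, zero_mul] at h1
  exact zero_ne_one h1

lemma det_scal (ρ : G →* End k V) {a b : G} {c : k} (h : ∀ v, ρ a v = c • ρ b v) :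
    LinearMap.det (ρ a) = c ^ finrank k V * LinearMap.det (ρ b) := by
  have h1 : ρ a = c • ρ b := LinearMap.ext h
  rw [h1, LinearMap.det_smul]

/-- normal subgroups whose commutators act by scalars act by scalars -/
lemma scal_of_commutator [Nontrivial V] (ρ : G →* End k V) (hSI : SI ρ) (N : Subgroup G)
    [hN : N.Normal]
    (hcomm : ∀ a ∈ N, ∀ b ∈ N, ∃ c : k, ∀ v, ρ (a * b * a⁻¹ * b⁻¹) v = c • v) : Scal ρ N := by
  classical
  obtain ⟨v₀, hv₀⟩ := exists_ne (0 : V)
  have hq : 0 < finrank k V := finrank_pos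
  -- the centre of the image
  let N₀ : Subgroup G :=
    { carrier := {c | c ∈ N ∧ ∀ b ∈ N, ρ c * ρ b = ρ b * ρ c}
      one_mem' := ⟨one_mem _, fun b _ => by simp⟩
      mul_mem' := by
        intro c c' hc hc'
        refine ⟨mul_mem hc.1 hc'.1, fun b hb => ?_⟩
        rw [map_mul, mul_assoc, hc'.2 b hb, ← mul_assoc, hc.2 b hb, mul_assoc]
      inv_mem' := by
        intro c hc
        refine ⟨inv_mem hc.1, fun b hb => ?_⟩
        have h1 := hc.2 b hb
        have h2 : ρ c⁻¹ * ρ c = 1 := by rw [← map_mul, inv_mul_cancel, map_one]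
        have h3 : ρ c * ρ c⁻¹ = 1 := by rw [← map_mul, mul_inv_cancel, map_one]
        calc ρ c⁻¹ * ρ b = ρ c⁻¹ * ρ b * (ρ c * ρ c⁻¹) := by rw [h3, mul_one]
          _ = ρ c⁻¹ * (ρ b * ρ c) * ρ c⁻¹ := by simp only [mul_assoc]
          _ = ρ c⁻¹ * (ρ c * ρ b) * ρ c⁻¹ := by rw [h1]
          _ = (ρ c⁻¹ * ρ c) * ρ b * ρ c⁻¹ := by simp only [mul_assoc]
          _ = ρ b * ρ c⁻¹ := by rw [h2, one_mul] }
  have hN₀ : N₀.Normal := by
    refine ⟨fun c hc g => ⟨hN.conj_mem c hc.1 g, fun b hb => ?_⟩⟩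
    have hb' : g⁻¹ * b * g ∈ N := by
      have := hN.conj_mem b hb g⁻¹
      rwa [inv_inv] at this
    have h1 := hc.2 _ hb'
    rw [← map_mul, ← map_mul] at h1 ⊢
    have e1 : g * c * g⁻¹ * b = g * (c * (g⁻¹ * b * g)) * g⁻¹ := by group
    have e2 : b * (g * c * g⁻¹) = g * ((g⁻¹ * b * g) * c) * g⁻¹ := by group
    rw [e1, e2, map_mul, map_mul, h1, ← map_mul, ← map_mul]
  have hscal₀ : Scal ρ N₀ := scal_of_comm ρ hSI N₀ fun a ha b hb => ha.2 b hb.1
  -- conjugation multiplies by roots of unity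
  have hz : ∀ a ∈ N, ∀ c ∈ N, ∃ z : k, ∀ v, ρ (a * c * a⁻¹) v = z • ρ c v := by
    intro a ha c hc
    obtain ⟨z, hz⟩ := hcomm a ha c hc
    refine ⟨z, fun v => ?_⟩
    have e : a * c * a⁻¹ = a * c * a⁻¹ * c⁻¹ * c := by group
    rw [e, rho_mul, hz]
  choose! z hz using hz
  have hzq : ∀ a ∈ N, ∀ c ∈ N, z a c ^ finrank k V = 1 := by
    intro a ha c hc
    have h1 := det_scal ρ (hz a ha c hc)
    rw [mul_assoc, det_comm, inv_mul_cancel_right] at h1
    have h2 := det_ne_zero ρ c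
    exact (mul_right_cancel₀ h2 (by rw [one_mul]; exact h1)).symm
  obtain ⟨b, hbfin, hbN, hbspan⟩ := exists_finite_span ρ N
  choose! aa haN haa using hbN
  have hroots : {t : k | t ^ finrank k V = 1}.Finite := by
    have h1 : {t : k | t ^ finrank k V = 1} ⊆ ((Polynomial.nthRoots (finrank k V) (1:k)).toFinset : Set k) := by
      intro t ht
      rw [Finset.mem_coe, Multiset.mem_toFinset, Polynomial.mem_nthRoots hq]
      exact ht
    exact (Finset.finite_toSet _).subset h1
  have hfin₀ : (N₀.subgroupOf N).FiniteIndex := by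
    refine finiteIndex_of_fin (fun (c : N) (T : b) => z (aa T) c) ?_ _ ?_
    · have : Finite b := hbfin
      refine (Set.Finite.pi (t := fun T : b => {t : k | t ^ finrank k V = 1})
        (fun T => hroots)).subset ?_
      rintro _ ⟨c, rfl⟩ T -
      exact hzq _ (haN T T.2) _ c.2
    · intro c c' hcc
      rw [Subgroup.mem_subgroupOf]
      refine ⟨(c⁻¹ * c').2, ?_⟩
      -- commutes with the spanning set
      have h1 : ∀ T ∈ b, ρ ((c⁻¹ * c' : N) : G) * T = T * ρ ((c⁻¹ * c' : N) : G) := by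
        intro T hT
        have hzz : z (aa T) c = z (aa T) c' := congrFun hcc ⟨T, hT⟩
        have haT := haN T hT
        have e1 := hz (aa T) haT c c.2
        have e2 := hz (aa T) haT c' c'.2
        rw [← haa T hT]
        -- `ρ (a c⁻¹ c' a⁻¹) = ρ (c⁻¹ c')`
        have e3 : ∀ v, ρ (aa T * ((c : G)⁻¹ * c') * (aa T)⁻¹) v = ρ ((c : G)⁻¹ * c') v := by
          intro v
          have e4 : aa T * ((c : G)⁻¹ * c') * (aa T)⁻¹ =
              (aa T * c * (aa T)⁻¹)⁻¹ * (aa T * c' * (aa T)⁻¹) := by group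
          rw [e4, rho_mul, e2 v, rho_mul, map_smul]
          have e5 : ρ (aa T * c * (aa T)⁻¹)⁻¹ (z (aa T) c • ρ c (ρ (c : G)⁻¹ (ρ c' v))) =
              ρ (c : G)⁻¹ (ρ c' v) := by
            rw [← e1, rho_inv_mul]
          rw [rho_mul_inv, hzz, map_smul] at e5
          exact e5
        apply LinearMap.ext
        intro v
        show ρ ((c : G)⁻¹ * c') (ρ (aa T) v) = ρ (aa T) (ρ ((c : G)⁻¹ * c') v)
        rw [← e3 (ρ (aa T) v), ← rho_mul, ← rho_mul]
        congr 2
        group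
      intro a ha
      have h2 : ∀ X ∈ Submodule.span k b, ρ ((c⁻¹ * c' : N) : G) * X =
          X * ρ ((c⁻¹ * c' : N) : G) := by
        intro X hX
        induction hX using Submodule.span_induction with
        | mem x hx => exact h1 x hx
        | zero => simp
        | add x y _ _ hx hy => rw [mul_add, add_mul, hx, hy]
        | smul r x _ hx => rw [mul_smul_comm, smul_mul_assoc, hx]
      exact h2 _ (hbspan a ha)
  -- every element of `N` is a scalar times a representative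
  set M := N ⧸ (N₀.subgroupOf N) with hM
  have hMfin : Finite M := Subgroup.finite_quotient_of_finiteIndex
  have hrep : ∀ n ∈ N, ∃ (q : M) (t : k), ∀ v, ρ n v = t • ρ (q.out : G) v := by
    intro n hn
    set q : M := QuotientGroup.mk (⟨n, hn⟩ : N) with hqdef
    have h1 : (q.out)⁻¹ * (⟨n, hn⟩ : N) ∈ N₀.subgroupOf N := by
      rw [← QuotientGroup.eq, QuotientGroup.out_eq']
    rw [Subgroup.mem_subgroupOf] at h1
    obtain ⟨t, ht⟩ := hscal₀ _ h1
    refine ⟨q, t, fun v => ?_⟩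
    have e : n = (q.out : G) * (((q.out)⁻¹ * (⟨n, hn⟩ : N) : N) : G) := by
      show n = (q.out : G) * ((q.out : G)⁻¹ * n)
      group
    conv_lhs => rw [e]
    rw [rho_mul, ht, map_smul]
  -- the centraliser of `N`
  let H : Subgroup G :=
    { carrier := {g | ∀ n ∈ N, ρ g * ρ n = ρ n * ρ g}
      one_mem' := fun b _ => by simp
      mul_mem' := by
        intro c c' hc hc' b hb
        rw [map_mul, mul_assoc, hc' b hb, ← mul_assoc, hc b hb, mul_assoc]
      inv_mem' := by
        intro c hc b hb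
        have h1 := hc b hb
        have h2 : ρ c⁻¹ * ρ c = 1 := by rw [← map_mul, inv_mul_cancel, map_one]
        have h3 : ρ c * ρ c⁻¹ = 1 := by rw [← map_mul, mul_inv_cancel, map_one]
        calc ρ c⁻¹ * ρ b = ρ c⁻¹ * ρ b * (ρ c * ρ c⁻¹) := by rw [h3, mul_one]
          _ = ρ c⁻¹ * (ρ b * ρ c) * ρ c⁻¹ := by simp only [mul_assoc]
          _ = ρ c⁻¹ * (ρ c * ρ b) * ρ c⁻¹ := by rw [h1]
          _ = (ρ c⁻¹ * ρ c) * ρ b * ρ c⁻¹ := by simp only [mul_assoc]
          _ = ρ b * ρ c⁻¹ := by rw [h2, one_mul] }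
  have hHfin : H.FiniteIndex := by
    refine finiteIndex_of_fin (fun (g : G) (q : M) => ρ (g * (q.out : G) * g⁻¹)) ?_ H ?_
    · have hYfin : ∀ q : M, (⋃ q' : M, (fun t : k => t • ρ (q'.out : G)) ''
          {t : k | t ^ finrank k V = LinearMap.det (ρ (q.out : G)) *
            (LinearMap.det (ρ (q'.out : G)))⁻¹}).Finite := by
        intro q
        refine Set.finite_iUnion fun q' => Set.Finite.image _ ?_
        set d := LinearMap.det (ρ (q.out : G)) * (LinearMap.det (ρ (q'.out : G)))⁻¹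
        have h1 : {t : k | t ^ finrank k V = d} ⊆
            ((Polynomial.nthRoots (finrank k V) d).toFinset : Set k) := by
          intro t ht
          rw [Finset.mem_coe, Multiset.mem_toFinset, Polynomial.mem_nthRoots hq]
          exact ht
        exact (Finset.finite_toSet _).subset h1
      refine (Set.Finite.pi (fun q => hYfin q)).subset ?_
      rintro _ ⟨g, rfl⟩ q -
      obtain ⟨q', t, ht⟩ := hrep _ (hN.conj_mem _ (q.out).2 g)
      simp only [Set.mem_iUnion]
      refine ⟨q', t, ?_, ?_⟩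
      · have h1 := det_scal ρ ht
        rw [mul_assoc, det_comm, inv_mul_cancel_right] at h1
        show t ^ finrank k V = _
        rw [h1, mul_assoc, mul_inv_cancel₀ (det_ne_zero ρ _), mul_one]
      · exact (LinearMap.ext ht).symm
    · intro g g' hgg n hn
      obtain ⟨q, t, ht⟩ := hrep n hn
      have h1 : ρ (g * (q.out : G) * g⁻¹) = ρ (g' * (q.out : G) * g'⁻¹) := congrFun hgg q
      have h2 : ρ (g⁻¹ * g') * ρ (q.out : G) = ρ (q.out : G) * ρ (g⁻¹ * g') := by
        have e1 : g⁻¹ * g' * (q.out : G) = g⁻¹ * (g' * (q.out : G) * g'⁻¹) * g' := by group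
        have e2 : (q.out : G) * (g⁻¹ * g') = g⁻¹ * (g * (q.out : G) * g⁻¹) * g' := by group
        rw [← map_mul, ← map_mul, e1, e2, map_mul, map_mul, ← h1, ← map_mul, ← map_mul]
      have h3 : ρ n = t • ρ (q.out : G) := LinearMap.ext ht
      rw [h3, mul_smul_comm, smul_mul_assoc, h2]
  intro c hc
  obtain ⟨t, v, -, hv0, hv⟩ := exists_ev (ρ c) ⊤ (by
    intro h
    have : v₀ ∈ (⊤ : Submodule k V) := trivial
    rw [h] at this
    exact hv₀ this) (fun _ _ => trivial)
  have hW : LinearMap.ker (ρ c - t • 1) = ⊤ := by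
    refine hSI H hHfin _ ?_ ?_
    · intro h
      have h2 : v ∈ LinearMap.ker (ρ c - t • 1) := sub_eq_zero.2 hv
      rw [h] at h2
      exact hv0 h2
    · intro g hg w hw
      have h2 : (ρ c - t • (1 : End k V)) w = 0 := hw
      have h3 : ρ c w = t • w := sub_eq_zero.1 h2
      have h4 : ρ g (ρ c w) = ρ c (ρ g w) := LinearMap.congr_fun (hg c hc) w
      apply sub_eq_zero.2
      show ρ c (ρ g w) = t • ρ g w
      rw [← h4, h3, map_smul]
  refine ⟨t, fun w => ?_⟩
  have h1 : w ∈ LinearMap.ker (ρ c - t • 1) := by rw [hW]; trivial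
  exact sub_eq_zero.1 h1

/-- strongly irreducible solvable groups act by scalars -/
lemma scal_of_solvable [Nontrivial V] (ρ : G →* End k V) (hSI : SI ρ) (n : ℕ)
    (h : ∀ g ∈ derivedSeries G n, ρ g = 1) : Scal ρ ⊤ := by
  have key : ∀ j, j ≤ n → Scal ρ (derivedSeries G (n - j)) := by
    intro j
    induction j with
    | zero =>
      intro _ a ha
      refine ⟨1, fun v => ?_⟩
      rw [h a ha, one_smul]
      rfl
    | succ j ih =>
      intro hj
      have h1 := ih (by omega)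
      apply scal_of_commutator ρ hSI
      intro a ha b hb
      apply h1
      have e : n - j = (n - (j + 1)) + 1 := by omega
      rw [e, derivedSeries_succ]
      exact Subgroup.commutator_mem_commutator ha hb
  have h2 := key n le_rfl
  rw [Nat.sub_self, derivedSeries_zero] at h2
  exact h2

end Pool.Agent.H826R2.Wein.Solv
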