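import Mathlib
import Pool.Agent.H826R2.Wein.Solv
import Pool.Agent.H826R2.Wein.AbMon

/-! Virtually solvable groups of integral matrices act commutatively on a rational subspace, after
passing to a subgroup of finite index. -/

open Module
noncomputable section
namespace Pool.Agent.H826R2.Wein.Solv

variable {k : Type*} [Field k] [IsAlgClosed k] {V : Type*} [AddCommGroup V] [Module k V]
  [FiniteDimensional k V] {G : Type*} [Group G]

theorem exists_scalar_subspace [Nontrivial V] (ρ : G →* End k V) (n : ℕ)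
    (h : ∀ g ∈ derivedSeries G n, ρ g = 1) :
    ∃ H : Subgroup G, H.FiniteIndex ∧ ∃ U : Submodule k V, U ≠ ⊥ ∧
      ∀ g ∈ H, ∃ c : k, ∀ u ∈ U, ρ g u = c • u := by
  obtain ⟨v₀, hv₀⟩ := exists_ne (0 : V)
  have hne : {n : ℕ | ∃ H : Subgroup G, H.FiniteIndex ∧ ∃ U : Submodule k V, U ≠ ⊥ ∧
      (∀ g ∈ H, ∀ u ∈ U, ρ g u ∈ U) ∧ finrank k U = n}.Nonempty := by
    refine ⟨_, ⊤, inferInstance, ⊤, ?_, fun _ _ _ _ => trivial, rfl⟩
    intro h
    have : v₀ ∈ (⊤ : Submodule k V) := trivial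
    rw [h] at this
    exact hv₀ this
  obtain ⟨H, hH, U, hU0, hUinv, hUn⟩ := Nat.sInf_mem hne
  have hmin : ∀ H' : Subgroup G, H'.FiniteIndex → ∀ U' : Submodule k V, U' ≠ ⊥ →
      (∀ g ∈ H', ∀ u ∈ U', ρ g u ∈ U') → finrank k U ≤ finrank k U' := by
    intro H' h1 U' h2 h3
    rw [hUn]
    exact Nat.sInf_le ⟨H', h1, U', h2, h3, rfl⟩
  let ρ' : H →* End k U :=
    { toFun := fun g => (ρ g).restrict (hUinv g g.2)
      map_one' := by
        apply LinearMap.ext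
        intro u
        apply Subtype.ext
        show ρ ((1 : H) : G) u = u
        rw [Subgroup.coe_one, map_one]
        rfl
      map_mul' := by
        intro a b
        apply LinearMap.ext
        intro u
        apply Subtype.ext
        show ρ ((a * b : H) : G) u = ρ a (ρ b u)
        rw [Subgroup.coe_mul, map_mul]
        rfl }
  have : Nontrivial U := Submodule.nontrivial_iff_ne_bot.2 hU0
  have hSI : SI ρ' := by
    intro H' hH' U' hU' hinv
    have h1 : (H'.map H.subtype).FiniteIndex := by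
      refine ⟨?_⟩
      rw [Subgroup.index_map_subtype]
      exact mul_ne_zero hH'.index_ne_zero hH.index_ne_zero
    have h2 : U'.map U.subtype ≠ ⊥ := by
      intro h
      apply hU'
      rw [eq_bot_iff]
      intro u hu
      have h3 : (u : V) ∈ U'.map U.subtype := ⟨u, hu, rfl⟩
      rw [h] at h3
      exact Subtype.ext h3
    have h3 := hmin _ h1 _ h2 (by
      rintro _ ⟨g, hg, rfl⟩ _ ⟨u, hu, rfl⟩
      exact ⟨ρ' g u, hinv g hg u hu, rfl⟩)
    rw [Submodule.finrank_map_subtype_eq] at h3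
    apply Submodule.eq_top_of_finrank_eq
    exact le_antisymm (Submodule.finrank_le _) h3
  have hder : ∀ g ∈ derivedSeries H n, ρ' g = 1 := by
    intro g hg
    have h1 : (g : G) ∈ derivedSeries G n :=
      map_derivedSeries_le_derivedSeries H.subtype n ⟨g, hg, rfl⟩
    apply LinearMap.ext
    intro u
    apply Subtype.ext
    show ρ (g : G) u = u
    rw [h _ h1]
    rfl
  have hsc := scal_of_solvable ρ' hSI n hder
  refine ⟨H, hH, U, hU0, fun g hg => ?_⟩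
  obtain ⟨c, hc⟩ := hsc ⟨g, hg⟩ trivial
  refine ⟨c, fun u hu => ?_⟩
  exact congrArg Subtype.val (hc ⟨u, hu⟩)

end Pool.Agent.H826R2.Wein.Solv

namespace Pool.Agent.H826R2.Wein

open Solv

variable {m : ℕ}

/-- the complex representation -/
def cRep {Γ : Type*} [Group Γ] (B : Γ →* Matrix (Fin m) (Fin m) ℤ) :
    Γ →* End ℂ (Fin m → ℂ) where
  toFun := fun γ => Matrix.mulVecLin ((B γ).map (Int.cast : ℤ → ℂ))
  map_one' := by
    rw [map_one]
    have : (Matrix.map (1 : Matrix (Fin m) (Fin m) ℤ) (Int.cast : ℤ → ℂ)) = 1 :=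
      Matrix.map_one _ (by simp) (by simp)
    rw [this, Matrix.mulVecLin_one]
    rfl
  map_mul' := by
    intro a b
    rw [map_mul]
    have : ((B a * B b).map (Int.cast : ℤ → ℂ)) =
        (B a).map (Int.cast : ℤ → ℂ) * (B b).map (Int.cast : ℤ → ℂ) :=
      Matrix.map_mul (f := Int.castRingHom ℂ)
    rw [this, Matrix.mulVecLin_mul]
    rfl

lemma cRep_apply {Γ : Type*} [Group Γ] (B : Γ →* Matrix (Fin m) (Fin m) ℤ) (γ : Γ)
    (v : Fin m → ℂ) (i : Fin m) : cRep B γ v i = ∑ j, ((B γ i j : ℤ) : ℂ) * v j := rfl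

/-- the rational part of a complex vector -/
def ratPart (φ : ℂ →ₗ[ℚ] ℚ) (v : Fin m → ℂ) : Fin m → ℚ := fun i => φ (v i)

lemma mq_ratPart {Γ : Type*} [Group Γ] (B : Γ →* Matrix (Fin m) (Fin m) ℤ) (γ : Γ)
    (φ : ℂ →ₗ[ℚ] ℚ) (v : Fin m → ℂ) : mq (B γ) (ratPart φ v) = ratPart φ (cRep B γ v) := by
  ext i
  show ∑ j, ((B γ i j : ℤ) : ℚ) * φ (v j) = φ (cRep B γ v i)
  rw [cRep_apply, map_sum]
  refine Finset.sum_congr rfl fun j _ => ?_
  have h : (((B γ i j : ℤ)) : ℂ) * v j = ((B γ i j : ℤ) : ℚ) • v j := by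
    rw [Rat.smul_def]
    push_cast
    rfl
  rw [h, map_smul, smul_eq_mul]

/-- **Virtually solvable groups of integral matrices.** -/
theorem exists_commuting {Γ : Type*} [Group Γ] (B : Γ →* Matrix (Fin m) (Fin m) ℤ) (hm : 0 < m)
    (Γ₀ : Subgroup Γ) (hΓ₀ : Γ₀.FiniteIndex) (n : ℕ)
    (h : ∀ g ∈ derivedSeries Γ₀ n, B (g : Γ) = 1) :
    ∃ Γ₁ : Subgroup Γ, Γ₁.FiniteIndex ∧ ∃ U : Submodule ℚ (Fin m → ℚ), U ≠ ⊥ ∧
      (∀ γ ∈ Γ₁, ∀ u ∈ U, mq (B γ) u ∈ U) ∧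
      ∀ γ ∈ Γ₁, ∀ γ' ∈ Γ₁, ∀ u ∈ U, mq (B γ) (mq (B γ') u) = mq (B γ') (mq (B γ) u) := by
  have : Nonempty (Fin m) := ⟨⟨0, hm⟩⟩
  have : Nontrivial (Fin m → ℂ) := inferInstance
  set ρ : Γ₀ →* End ℂ (Fin m → ℂ) := cRep (B.comp Γ₀.subtype) with hρ
  obtain ⟨H, hH, W, hW0, hW⟩ := exists_scalar_subspace ρ n (by
    intro g hg
    apply LinearMap.ext
    intro v
    show Matrix.mulVec ((B (g : Γ)).map (Int.cast : ℤ → ℂ)) v = v
    rw [h g hg]
    have : (Matrix.map (1 : Matrix (Fin m) (Fin m) ℤ) (Int.cast : ℤ → ℂ)) = 1 :=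
      Matrix.map_one _ (by simp) (by simp)
    rw [this, Matrix.one_mulVec])
  obtain ⟨v, hvW, hv0⟩ := Submodule.exists_mem_ne_zero_of_ne_bot hW0
  have hmul : ∀ (a b : Γ) (u : Fin m → ℚ), mq (B (a * b)) u = mq (B a) (mq (B b) u) := by
    intro a b u
    rw [map_mul, mq_mul]
    rfl
  refine ⟨H.map Γ₀.subtype, ?_, ?_⟩
  · refine ⟨?_⟩
    rw [Subgroup.index_map_subtype]
    exact mul_ne_zero hH.index_ne_zero hΓ₀.index_ne_zero
  set Γ₁ := H.map Γ₀.subtype with hΓ₁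
  let U : Submodule ℚ (Fin m → ℚ) :=
    { carrier := {u | ∀ γ ∈ Γ₁, ∀ γ' ∈ Γ₁, mq (B γ) (mq (B γ') u) = mq (B γ') (mq (B γ) u)}
      zero_mem' := fun γ _ γ' _ => by simp
      add_mem' := fun {u v} hu hv γ hγ γ' hγ' => by
        simp only [map_add, hu γ hγ γ' hγ', hv γ hγ γ' hγ']
      smul_mem' := fun c u hu γ hγ γ' hγ' => by
        simp only [map_smul, hu γ hγ γ' hγ'] }
  refine ⟨U, ?_, ?_, fun γ hγ γ' hγ' u hu => hu γ hγ γ' hγ'⟩
  · obtain ⟨i, hi⟩ := Function.ne_iff.1 hv0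
    obtain ⟨φ, hφ⟩ : ∃ φ : ℂ →ₗ[ℚ] ℚ, φ (v i) ≠ 0 := by
      by_contra hcon
      push Not at hcon
      exact hi ((Module.forall_dual_apply_eq_zero_iff ℚ (v i)).1 hcon)
    intro hbot
    have h1 : ratPart φ v ∈ U := by
      rintro _ ⟨a, ha, rfl⟩ _ ⟨b, hb, rfl⟩
      rw [mq_ratPart, mq_ratPart, mq_ratPart, mq_ratPart]
      congr 1
      obtain ⟨c, hc⟩ := hW a ha
      obtain ⟨d, hd⟩ := hW b hb
      have e1 : cRep B (Γ₀.subtype a) v = c • v := hc v hvW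
      have e2 : cRep B (Γ₀.subtype b) v = d • v := hd v hvW
      rw [e2, map_smul, e1, map_smul, e2, smul_comm]
    rw [hbot, Submodule.mem_bot] at h1
    exact hφ (congrFun h1 i)
  · intro g hg u hu a ha b hb
    have ha' : g⁻¹ * a * g ∈ Γ₁ := mul_mem (mul_mem (inv_mem hg) ha) hg
    have hb' : g⁻¹ * b * g ∈ Γ₁ := mul_mem (mul_mem (inv_mem hg) hb) hg
    have h1 := hu _ ha' _ hb'
    rw [← hmul, ← hmul] at h1
    have e1 : a * b * g = g * (g⁻¹ * a * g * (g⁻¹ * b * g)) := by group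
    have e2 : b * a * g = g * (g⁻¹ * b * g * (g⁻¹ * a * g)) := by group
    rw [← hmul, ← hmul, ← hmul, ← hmul, e1, e2, hmul g, hmul g, h1]

end Pool.Agent.H826R2.Wein
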