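import Mathlib
import Pool.Agent.H826R2.Wein.NFGeo
import Pool.Agent.H826R2.Wein.SolvMon
import Pool.Agent.H826R2.Wein.Bridge

/-! Periodic Reeb orbits for contact forms with a local torus symmetry and virtually solvable
monodromy. -/

open scoped Topology ContDiff Manifold
open Set Metric Bundle Pool.Agent.Helper186

noncomputable section

namespace Pool.Agent.H826R2.Wein

set_option linter.unusedSectionVars false

universe u

variable {E : Type u} [NormedAddCommGroup E] [NormedSpace ℝ E] [FiniteDimensional ℝ E]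
  {M : Type*} [TopologicalSpace M] [ChartedSpace E M] [IsManifold 𝓘(ℝ, E) ∞ M]
  {P : Type*} [TopologicalSpace P] [ChartedSpace E P] [IsManifold 𝓘(ℝ, E) ∞ P]
  {β : (x : P) → TangentSpace 𝓘(ℝ, E) x →L[ℝ] ℝ} {m : ℕ}

namespace Deck

variable {n : ℕ} {ι : Imm (E := E) P n} {Γ : Type*} [Group Γ] [MulAction Γ P] (𝒟 : Deck ι Γ)

/-- restriction to a subgroup of finite index -/
def restrict (Γ₁ : Subgroup Γ) (h : Γ₁.FiniteIndex) : Deck ι Γ₁ where
  smooth := fun γ => 𝒟.smooth γ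
  F_inv := fun γ x => 𝒟.F_inv γ x
  D := ⋃ q : Γ ⧸ Γ₁, (fun x : P => (q.out)⁻¹ • x) '' 𝒟.D
  compact := by
    have : Finite (Γ ⧸ Γ₁) := Subgroup.finite_quotient_of_finiteIndex
    exact isCompact_iUnion fun q => 𝒟.compact.image (𝒟.smooth _).continuous
  cover := by
    intro x
    obtain ⟨γ, hγ⟩ := 𝒟.cover x
    set q : Γ ⧸ Γ₁ := QuotientGroup.mk γ with hq
    have h1 : (q.out)⁻¹ * γ ∈ Γ₁ := by
      rw [← QuotientGroup.eq, QuotientGroup.out_eq']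
    refine ⟨⟨(q.out)⁻¹ * γ, h1⟩, ?_⟩
    rw [mem_iUnion]
    refine ⟨q, γ • x, hγ, ?_⟩
    show (q.out)⁻¹ • γ • x = ((q.out)⁻¹ * γ) • x
    rw [mul_smul]
  fin := by
    intro x K hK
    refine (𝒟.fin x K hK).subset ?_
    rintro y ⟨hy, γ, hγ⟩
    exact ⟨hy, γ, hγ⟩

end Deck

namespace TAct

variable (A : TAct β m) {N : ℕ} {ι : Imm (E := E) P N} {Γ : Type*} [Group Γ] [MulAction Γ P]

/-- **Critical points, virtually solvable monodromy.** -/
theorem exists_crit_solvable [T2Space P] [SigmaCompactSpace P] [Nonempty P] (hc : IsContact β)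
    {R : (x : P) → TangentSpace 𝓘(ℝ, E) x} (hR : IsReeb β R) (𝒟 : Deck ι Γ) (hN : A.Norm Γ)
    (hm : 0 < m) (Γ₀ : Subgroup Γ) (hΓ₀ : Γ₀.FiniteIndex) (n : ℕ)
    (hs : ∀ g ∈ derivedSeries Γ₀ n, ∀ (θ : Fin m → ℝ) (x : P),
      (g : Γ) • A.act θ x = A.act θ ((g : Γ) • x)) :
    ∃ k : Fin m → ℤ, k ≠ 0 ∧ ∃ x, dForm 𝓘(ℝ, E) (A.H (rv k)) x = 0 := by
  obtain ⟨B, hB⟩ := A.exists_monodromy hc hR 𝒟 hN
  have hone : ∀ g ∈ derivedSeries Γ₀ n, B (g : Γ) = 1 := by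
    intro g hg
    have h1 : ∀ (κ : Fin m → ℝ) (x : P), A.H κ ((g : Γ) • x) = A.H κ x := by
      intro κ x
      refine A.H_push (𝒟.smooth (g : Γ)) ?_ (hN.strict (g : Γ)) x
      intro t y
      unfold fam
      rw [hs g hg]
    have h2 : ∀ κ : Fin m → ℝ, ((B (g : Γ)).map (Int.cast : ℤ → ℝ)).mulVec κ = κ := by
      intro κ
      rw [← sub_eq_zero]
      apply A.H_inj ι hc hR
      intro y
      rw [A.H_sub]
      have h3 := hB (g : Γ) κ ((g : Γ)⁻¹ • y)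
      have h4 := h1 κ ((g : Γ)⁻¹ • y)
      rw [smul_inv_smul] at h3 h4
      rw [h3, h4, sub_self]
    ext i j
    have h3 := congrFun (h2 (Pi.single j 1)) i
    rw [Matrix.mulVec_single_one] at h3
    have h4 : ((B (g : Γ) i j : ℤ) : ℝ) = (Pi.single j (1:ℝ) : Fin m → ℝ) i := h3
    by_cases hij : i = j
    · subst hij
      rw [Pi.single_eq_same] at h4
      rw [Matrix.one_apply_eq]
      exact_mod_cast h4
    · rw [Pi.single_eq_of_ne hij] at h4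
      rw [Matrix.one_apply_ne hij]
      exact_mod_cast h4
  obtain ⟨Γ₁, hΓ₁, U, hU0, hUinv, hUc⟩ := exists_commuting B hm Γ₀ hΓ₀ n hone
  obtain ⟨K, hF, hNF, ⟨F⟩⟩ := exists_nfdata (B.comp Γ₁.subtype) U hU0
    (fun γ u hu => hUinv γ γ.2 u hu) (fun γ γ' u hu => hUc γ γ.2 γ' γ'.2 u hu)
  have hN' : A.Norm Γ₁ := ⟨fun γ x u => hN.strict (γ : Γ) x u, fun γ => hN.norm (γ : Γ)⟩
  exact A.exists_crit_of_nf hc hR (𝒟.restrict Γ₁ hΓ₁) hN' (B.comp Γ₁.subtype)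
    (fun γ κ x => hB (γ : Γ) κ x) F

end TAct

theorem exists_closed_orbit_solvable [T2Space M] [CompactSpace M]
    {α : (x : M) → TangentSpace 𝓘(ℝ, E) x →L[ℝ] ℝ} (hα : IsContact α)
    {R : (x : M) → TangentSpace 𝓘(ℝ, E) x} (hR : IsReeb α R)
    [T2Space P] [SigmaCompactSpace P] [Nonempty P]
    {Γ : Type*} [Group Γ] [MulAction Γ P] {q : P → M} (hq : RegCover (E := E) q Γ)
    (hm : 0 < m) (A : TAct (pullForm 𝓘(ℝ, E) 𝓘(ℝ, E) q α) m)
    (hA : ∀ γ : Γ, ∃ B : Matrix (Fin m) (Fin m) ℤ, ∀ (θ : Fin m → ℝ) (x : P),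
      γ • A.act θ x = A.act ((B.map (Int.cast : ℤ → ℝ)).mulVec θ) (γ • x))
    (Γ₀ : Subgroup Γ) (hΓ₀ : Γ₀.FiniteIndex) (n : ℕ)
    (hs : ∀ g ∈ derivedSeries Γ₀ n, ∀ (θ : Fin m → ℝ) (x : P),
      (g : Γ) • A.act θ x = A.act θ ((g : Γ) • x)) :
    ∃ (c : ℝ → M) (T : ℝ), 0 < T ∧ IsMIntegralCurve (I := 𝓘(ℝ, E)) c R ∧
      ∀ t, c (t + T) = c t := by
  obtain ⟨N, ι, ⟨𝒟⟩⟩ := hq.exists_deck
  have hN : A.Norm Γ := ⟨hq.strict α, hA⟩
  have hcP := hq.isContact_pull hα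
  have hRP := hq.isReeb_lift hα hR
  apply hq.closed_proj
  obtain ⟨k, hk, x, hx⟩ := A.exists_crit_solvable hcP hRP 𝒟 hN hm Γ₀ hΓ₀ n hs
  exact A.closed_of_crit hcP hRP hk hx

end Pool.Agent.H826R2.Wein

namespace Pool.Agent.H826R2.WStmt

set_option linter.unusedSectionVars false

universe u

variable {E : Type u} [NormedAddCommGroup E] [NormedSpace ℝ E] [FiniteDimensional ℝ E]
  {M : Type*} [TopologicalSpace M] [ChartedSpace E M] [IsManifold 𝓘(ℝ, E) ∞ M]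
  {P : Type*} [TopologicalSpace P] [ChartedSpace E P] [IsManifold 𝓘(ℝ, E) ∞ P]

/-- The monodromy of the torus action is virtually solvable: for some subgroup `Γ₀` of finite index
in `Γ`, the elements of some term of the derived series of `Γ₀` commute with the torus action (for
instance `Γ`, or its image in the automorphism group of the torus, is virtually solvable). -/
def SolvableMonodromy (Γ : Type*) [Group Γ] [MulAction Γ P] {m : ℕ}
    (act : (Fin m → ℝ) → P → P) : Prop :=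
  ∃ Γ₀ : Subgroup Γ, Γ₀.FiniteIndex ∧ ∃ n : ℕ, ∀ g ∈ derivedSeries Γ₀ n,
    ∀ (θ : Fin m → ℝ) (x : P), (g : Γ) • act θ x = act θ ((g : Γ) • x)

theorem exists_periodic_solvable [T2Space M] [CompactSpace M]
    (α : M → Cov E) (hα : IsContact α) (R : M → E) (hR : IsReeb α R)
    [T2Space P] [SigmaCompactSpace P] [Nonempty P]
    {Γ : Type*} [Group Γ] [MulAction Γ P] (q : P → M) (hq : IsQuotientMap E q Γ)
    {m : ℕ} (hm : 0 < m) (A : TorusAction (pull (E := E) q α) m) (hA : Normalises Γ A.act)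
    (hs : SolvableMonodromy Γ A.act) :
    ∃ (c : ℝ → M) (T : ℝ), IsPeriodicOrbit R c T := by
  obtain ⟨Γ₀, hΓ₀, n, hs⟩ := hs
  obtain ⟨c, T, h1, h2, h3⟩ := Wein.exists_closed_orbit_solvable hα.toWein hR.toWein hq.toWein
    hm A.toWein hA Γ₀ hΓ₀ n hs
  exact ⟨c, T, h1, h2, h3⟩

end Pool.Agent.H826R2.WStmt
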